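import Mathlib

set_option autoImplicit false

/-!
# The idempotent completion of a symmetric monoidal category
-/

namespace Pool.Agent.MP_6e5bed_ag_NC

open CategoryTheory MonoidalCategory Idempotents

universe v u

variable {C : Type u} [Category.{v} C] [MonoidalCategory C]

/-! ### Auxiliary identities in `C` -/

namespace KMon

theorem hom_comm {X Y X' Y' : C} {p : X ⟶ X} {q : Y ⟶ Y} {p' : X' ⟶ X'} {q' : Y' ⟶ Y'}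
    {f : X ⟶ Y} {f' : X' ⟶ Y'} (h : p ≫ f ≫ q = f) (h' : p' ≫ f' ≫ q' = f') :
    (p ⊗ₘ p') ≫ (f ⊗ₘ f') ≫ (q ⊗ₘ q') = f ⊗ₘ f' := by
  rw [tensorHom_comp_tensorHom, tensorHom_comp_tensorHom, h, h']

section Assoc

variable {X Y Z : C} {p : X ⟶ X} {q : Y ⟶ Y} {r : Z ⟶ Z}

theorem assoc_hom_comm (hp : p ≫ p = p) (hq : q ≫ q = q) (hr : r ≫ r = r) :
    ((p ⊗ₘ q) ⊗ₘ r) ≫ (((p ⊗ₘ q) ⊗ₘ r) ≫ (α_ X Y Z).hom) ≫ (p ⊗ₘ (q ⊗ₘ r)) =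
      ((p ⊗ₘ q) ⊗ₘ r) ≫ (α_ X Y Z).hom := by
  rw [Category.assoc, ← associator_naturality, tensorHom_comp_tensorHom_assoc,
    tensorHom_comp_tensorHom_assoc, tensorHom_comp_tensorHom, tensorHom_comp_tensorHom,
    hp, hp, hq, hq, hr, hr]

theorem assoc_inv_comm (hp : p ≫ p = p) (hq : q ≫ q = q) (hr : r ≫ r = r) :
    (p ⊗ₘ (q ⊗ₘ r)) ≫ ((p ⊗ₘ (q ⊗ₘ r)) ≫ (α_ X Y Z).inv) ≫ ((p ⊗ₘ q) ⊗ₘ r) =
      (p ⊗ₘ (q ⊗ₘ r)) ≫ (α_ X Y Z).inv := by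
  rw [Category.assoc, ← associator_inv_naturality, tensorHom_comp_tensorHom_assoc,
    tensorHom_comp_tensorHom_assoc, tensorHom_comp_tensorHom, tensorHom_comp_tensorHom,
    hp, hp, hq, hq, hr, hr]

theorem assoc_hom_inv (hp : p ≫ p = p) (hq : q ≫ q = q) (hr : r ≫ r = r) :
    (((p ⊗ₘ q) ⊗ₘ r) ≫ (α_ X Y Z).hom) ≫ (p ⊗ₘ (q ⊗ₘ r)) ≫ (α_ X Y Z).inv =
      (p ⊗ₘ q) ⊗ₘ r := by
  rw [Category.assoc, ← associator_naturality_assoc, Iso.hom_inv_id, Category.comp_id,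
    tensorHom_comp_tensorHom, tensorHom_comp_tensorHom, hp, hq, hr]

theorem assoc_inv_hom (hp : p ≫ p = p) (hq : q ≫ q = q) (hr : r ≫ r = r) :
    ((p ⊗ₘ (q ⊗ₘ r)) ≫ (α_ X Y Z).inv) ≫ ((p ⊗ₘ q) ⊗ₘ r) ≫ (α_ X Y Z).hom =
      p ⊗ₘ (q ⊗ₘ r) := by
  rw [Category.assoc, ← associator_inv_naturality_assoc, Iso.inv_hom_id, Category.comp_id,
    tensorHom_comp_tensorHom, tensorHom_comp_tensorHom, hp, hq, hr]

end Assoc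

section Unit

variable {X : C} {p : X ⟶ X}

theorem left_hom_comm (hp : p ≫ p = p) :
    (𝟙 (𝟙_ C) ⊗ₘ p) ≫ ((λ_ X).hom ≫ p) ≫ p = (λ_ X).hom ≫ p := by
  rw [id_tensorHom, Category.assoc, hp, leftUnitor_naturality_assoc, hp]

theorem left_inv_comm (hp : p ≫ p = p) :
    p ≫ (p ≫ (λ_ X).inv) ≫ (𝟙 (𝟙_ C) ⊗ₘ p) = p ≫ (λ_ X).inv := by
  rw [id_tensorHom, Category.assoc, ← leftUnitor_inv_naturality, reassoc_of% hp, reassoc_of% hp]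

theorem left_hom_inv (hp : p ≫ p = p) :
    ((λ_ X).hom ≫ p) ≫ p ≫ (λ_ X).inv = 𝟙 (𝟙_ C) ⊗ₘ p := by
  rw [id_tensorHom, Category.assoc, reassoc_of% hp, leftUnitor_inv_naturality,
    Iso.hom_inv_id_assoc]

theorem left_inv_hom (hp : p ≫ p = p) :
    (p ≫ (λ_ X).inv) ≫ (λ_ X).hom ≫ p = p := by
  rw [Category.assoc, Iso.inv_hom_id_assoc, hp]

theorem right_hom_comm (hp : p ≫ p = p) :
    (p ⊗ₘ 𝟙 (𝟙_ C)) ≫ ((ρ_ X).hom ≫ p) ≫ p = (ρ_ X).hom ≫ p := by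
  rw [tensorHom_id, Category.assoc, hp, rightUnitor_naturality_assoc, hp]

theorem right_inv_comm (hp : p ≫ p = p) :
    p ≫ (p ≫ (ρ_ X).inv) ≫ (p ⊗ₘ 𝟙 (𝟙_ C)) = p ≫ (ρ_ X).inv := by
  rw [tensorHom_id, Category.assoc, ← rightUnitor_inv_naturality, reassoc_of% hp, reassoc_of% hp]

theorem right_hom_inv (hp : p ≫ p = p) :
    ((ρ_ X).hom ≫ p) ≫ p ≫ (ρ_ X).inv = p ⊗ₘ 𝟙 (𝟙_ C) := by
  rw [tensorHom_id, Category.assoc, reassoc_of% hp, rightUnitor_inv_naturality,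
    Iso.hom_inv_id_assoc]

theorem right_inv_hom (hp : p ≫ p = p) :
    (p ≫ (ρ_ X).inv) ≫ (ρ_ X).hom ≫ p = p := by
  rw [Category.assoc, Iso.inv_hom_id_assoc, hp]

end Unit

section Nat

theorem assoc_nat {X₁ X₂ X₃ Y₁ Y₂ Y₃ : C} {p₁ : X₁ ⟶ X₁} {p₂ : X₂ ⟶ X₂} {p₃ : X₃ ⟶ X₃}
    {q₁ : Y₁ ⟶ Y₁} {q₂ : Y₂ ⟶ Y₂} {q₃ : Y₃ ⟶ Y₃} {f₁ : X₁ ⟶ Y₁} {f₂ : X₂ ⟶ Y₂} {f₃ : X₃ ⟶ Y₃}
    (h₁ : p₁ ≫ f₁ = f₁) (h₂ : p₂ ≫ f₂ = f₂) (h₃ : p₃ ≫ f₃ = f₃)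
    (h₁' : f₁ ≫ q₁ = f₁) (h₂' : f₂ ≫ q₂ = f₂) (h₃' : f₃ ≫ q₃ = f₃) :
    ((f₁ ⊗ₘ f₂) ⊗ₘ f₃) ≫ ((q₁ ⊗ₘ q₂) ⊗ₘ q₃) ≫ (α_ Y₁ Y₂ Y₃).hom =
      (((p₁ ⊗ₘ p₂) ⊗ₘ p₃) ≫ (α_ X₁ X₂ X₃).hom) ≫ (f₁ ⊗ₘ (f₂ ⊗ₘ f₃)) := by
  rw [Category.assoc, ← associator_naturality, tensorHom_comp_tensorHom_assoc,
    tensorHom_comp_tensorHom_assoc, tensorHom_comp_tensorHom, tensorHom_comp_tensorHom,
    h₁, h₂, h₃, h₁', h₂', h₃']

theorem left_nat {X Y : C} {p : X ⟶ X} {q : Y ⟶ Y} {f : X ⟶ Y} (h : p ≫ f = f)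
    (h' : f ≫ q = f) :
    (𝟙 (𝟙_ C) ⊗ₘ f) ≫ (λ_ Y).hom ≫ q = ((λ_ X).hom ≫ p) ≫ f := by
  rw [id_tensorHom, leftUnitor_naturality_assoc, h', Category.assoc, h]

theorem right_nat {X Y : C} {p : X ⟶ X} {q : Y ⟶ Y} {f : X ⟶ Y} (h : p ≫ f = f)
    (h' : f ≫ q = f) :
    (f ⊗ₘ 𝟙 (𝟙_ C)) ≫ (ρ_ Y).hom ≫ q = ((ρ_ X).hom ≫ p) ≫ f := by
  rw [tensorHom_id, rightUnitor_naturality_assoc, h', Category.assoc, h]

theorem pent {W X Y Z : C} {p : W ⟶ W} {q : X ⟶ X} {r : Y ⟶ Y} {s : Z ⟶ Z}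
    (hp : p ≫ p = p) (hq : q ≫ q = q) (hr : r ≫ r = r) (hs : s ≫ s = s) :
    ((((p ⊗ₘ q) ⊗ₘ r) ≫ (α_ W X Y).hom) ⊗ₘ s) ≫
      (((p ⊗ₘ (q ⊗ₘ r)) ⊗ₘ s) ≫ (α_ W (X ⊗ Y) Z).hom) ≫
        (p ⊗ₘ (((q ⊗ₘ r) ⊗ₘ s) ≫ (α_ X Y Z).hom)) =
      ((((p ⊗ₘ q) ⊗ₘ r) ⊗ₘ s) ≫ (α_ (W ⊗ X) Y Z).hom) ≫
        (((p ⊗ₘ q) ⊗ₘ (r ⊗ₘ s)) ≫ (α_ W X (Y ⊗ Z)).hom) := by
  have hE : (((p ⊗ₘ q) ⊗ₘ r) ⊗ₘ s) ≫ (((p ⊗ₘ q) ⊗ₘ r) ⊗ₘ s) = ((p ⊗ₘ q) ⊗ₘ r) ⊗ₘ s := by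
    rw [tensorHom_comp_tensorHom, tensorHom_comp_tensorHom, tensorHom_comp_tensorHom,
      hp, hq, hr, hs]
  have e1 : (((p ⊗ₘ q) ⊗ₘ r) ≫ (α_ W X Y).hom) ⊗ₘ s =
      (((p ⊗ₘ q) ⊗ₘ r) ⊗ₘ s) ≫ ((α_ W X Y).hom ▷ Z) := by
    rw [← tensorHom_id, tensorHom_comp_tensorHom, Category.comp_id]
  have e2 : p ⊗ₘ (((q ⊗ₘ r) ⊗ₘ s) ≫ (α_ X Y Z).hom) =
      (p ⊗ₘ ((q ⊗ₘ r) ⊗ₘ s)) ≫ (W ◁ (α_ X Y Z).hom) := by
    rw [← id_tensorHom, tensorHom_comp_tensorHom, Category.comp_id]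
  have e3 : ((α_ W X Y).hom ▷ Z) ≫ ((p ⊗ₘ (q ⊗ₘ r)) ⊗ₘ s) =
      (((p ⊗ₘ q) ⊗ₘ r) ⊗ₘ s) ≫ ((α_ W X Y).hom ▷ Z) := by
    rw [← tensorHom_id, tensorHom_comp_tensorHom, tensorHom_comp_tensorHom, Category.id_comp,
      Category.comp_id, associator_naturality]
  rw [e1, e2]
  simp only [Category.assoc]
  rw [← associator_naturality_assoc, reassoc_of% e3, reassoc_of% e3, reassoc_of% hE,
    reassoc_of% hE, pentagon, ← associator_naturality_assoc, reassoc_of% hE]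

theorem tri {X Y : C} {p : X ⟶ X} {q : Y ⟶ Y} (hp : p ≫ p = p) (hq : q ≫ q = q) :
    (((p ⊗ₘ 𝟙 (𝟙_ C)) ⊗ₘ q) ≫ (α_ X (𝟙_ C) Y).hom) ≫ (p ⊗ₘ ((λ_ Y).hom ≫ q)) =
      ((ρ_ X).hom ≫ p) ⊗ₘ q := by
  have e1 : p ⊗ₘ ((λ_ Y).hom ≫ q) = (X ◁ (λ_ Y).hom) ≫ (p ⊗ₘ q) := by
    rw [← id_tensorHom, tensorHom_comp_tensorHom, Category.id_comp]
  have e2 : ((p ⊗ₘ 𝟙 (𝟙_ C)) ⊗ₘ q) ≫ ((ρ_ X).hom ▷ Y) = ((ρ_ X).hom ≫ p) ⊗ₘ q := by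
    rw [← tensorHom_id (ρ_ X).hom Y, tensorHom_comp_tensorHom, Category.comp_id, tensorHom_id,
      rightUnitor_naturality]
  rw [e1, Category.assoc, triangle_assoc, reassoc_of% e2, tensorHom_comp_tensorHom,
    Category.assoc, hp, hq]

end Nat

section Braid

variable [SymmetricCategory C]

theorem braid_comm {X Y : C} {p : X ⟶ X} {q : Y ⟶ Y} (hp : p ≫ p = p) (hq : q ≫ q = q) :
    (p ⊗ₘ q) ≫ ((p ⊗ₘ q) ≫ (β_ X Y).hom) ≫ (q ⊗ₘ p) = (p ⊗ₘ q) ≫ (β_ X Y).hom := by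
  rw [Category.assoc, ← BraidedCategory.braiding_naturality, tensorHom_comp_tensorHom_assoc,
    tensorHom_comp_tensorHom_assoc, hp, hq, hp, hq]

theorem braid_symm {X Y : C} {p : X ⟶ X} {q : Y ⟶ Y} (hp : p ≫ p = p) (hq : q ≫ q = q) :
    ((p ⊗ₘ q) ≫ (β_ X Y).hom) ≫ (q ⊗ₘ p) ≫ (β_ Y X).hom = p ⊗ₘ q := by
  rw [Category.assoc, BraidedCategory.braiding_naturality, SymmetricCategory.symmetry_assoc,
    tensorHom_comp_tensorHom, hp, hq]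

theorem braid_inv (X Y : C) : (β_ X Y).inv = (β_ Y X).hom :=
  (SymmetricCategory.braiding_swap_eq_inv_braiding X Y).symm

theorem braid_inv_comm {X Y : C} {p : X ⟶ X} {q : Y ⟶ Y} (hp : p ≫ p = p) (hq : q ≫ q = q) :
    (q ⊗ₘ p) ≫ ((q ⊗ₘ p) ≫ (β_ X Y).inv) ≫ (p ⊗ₘ q) = (q ⊗ₘ p) ≫ (β_ X Y).inv := by
  rw [braid_inv]
  exact braid_comm hq hp

theorem braid_hom_inv {X Y : C} {p : X ⟶ X} {q : Y ⟶ Y} (hp : p ≫ p = p) (hq : q ≫ q = q) :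
    ((p ⊗ₘ q) ≫ (β_ X Y).hom) ≫ (q ⊗ₘ p) ≫ (β_ X Y).inv = p ⊗ₘ q := by
  rw [braid_inv]
  exact braid_symm hp hq

theorem braid_inv_hom {X Y : C} {p : X ⟶ X} {q : Y ⟶ Y} (hp : p ≫ p = p) (hq : q ≫ q = q) :
    ((q ⊗ₘ p) ≫ (β_ X Y).inv) ≫ (p ⊗ₘ q) ≫ (β_ X Y).hom = q ⊗ₘ p := by
  rw [braid_inv]
  exact braid_symm hq hp

theorem braid_nat {X Y X' Y' : C} {p : X ⟶ X} {q : Y ⟶ Y} {p' : X' ⟶ X'} {q' : Y' ⟶ Y'}
    {f : X ⟶ Y} {f' : X' ⟶ Y'} (h₁ : p ≫ f = f) (h₂ : f ≫ q = f) (h₁' : p' ≫ f' = f')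
    (h₂' : f' ≫ q' = f') :
    (f ⊗ₘ f') ≫ (q ⊗ₘ q') ≫ (β_ Y Y').hom = ((p ⊗ₘ p') ≫ (β_ X X').hom) ≫ (f' ⊗ₘ f) := by
  rw [Category.assoc, ← BraidedCategory.braiding_naturality, tensorHom_comp_tensorHom_assoc,
    tensorHom_comp_tensorHom_assoc, h₁, h₂, h₁', h₂']

theorem hex_fwd {X Y Z : C} {p : X ⟶ X} {q : Y ⟶ Y} {r : Z ⟶ Z} (hp : p ≫ p = p)
    (hq : q ≫ q = q) (hr : r ≫ r = r) :
    (((p ⊗ₘ q) ⊗ₘ r) ≫ (α_ X Y Z).hom) ≫ ((p ⊗ₘ (q ⊗ₘ r)) ≫ (β_ X (Y ⊗ Z)).hom) ≫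
        (((q ⊗ₘ r) ⊗ₘ p) ≫ (α_ Y Z X).hom) =
      (((p ⊗ₘ q) ≫ (β_ X Y).hom) ⊗ₘ r) ≫ (((q ⊗ₘ p) ⊗ₘ r) ≫ (α_ Y X Z).hom) ≫
        (q ⊗ₘ ((p ⊗ₘ r) ≫ (β_ X Z).hom)) := by
  have hE : ((p ⊗ₘ q) ⊗ₘ r) ≫ ((p ⊗ₘ q) ⊗ₘ r) = (p ⊗ₘ q) ⊗ₘ r := by
    rw [tensorHom_comp_tensorHom, tensorHom_comp_tensorHom, hp, hq, hr]
  have e1 : ((p ⊗ₘ q) ≫ (β_ X Y).hom) ⊗ₘ r = ((p ⊗ₘ q) ⊗ₘ r) ≫ ((β_ X Y).hom ▷ Z) := by
    rw [← tensorHom_id, tensorHom_comp_tensorHom, Category.comp_id]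
  have e2 : q ⊗ₘ ((p ⊗ₘ r) ≫ (β_ X Z).hom) = (q ⊗ₘ (p ⊗ₘ r)) ≫ (Y ◁ (β_ X Z).hom) := by
    rw [← id_tensorHom, tensorHom_comp_tensorHom, Category.comp_id]
  have e3 : ((β_ X Y).hom ▷ Z) ≫ ((q ⊗ₘ p) ⊗ₘ r) = ((p ⊗ₘ q) ⊗ₘ r) ≫ ((β_ X Y).hom ▷ Z) := by
    rw [← tensorHom_id, tensorHom_comp_tensorHom, tensorHom_comp_tensorHom, Category.id_comp,
      Category.comp_id, BraidedCategory.braiding_naturality]
  have e4 : (β_ X (Y ⊗ Z)).hom ≫ ((q ⊗ₘ r) ⊗ₘ p) = (p ⊗ₘ (q ⊗ₘ r)) ≫ (β_ X (Y ⊗ Z)).hom :=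
    (BraidedCategory.braiding_naturality _ _).symm
  rw [e1, e2]
  simp only [Category.assoc]
  rw [← associator_naturality_assoc p q r, reassoc_of% hE, reassoc_of% e4,
    ← associator_naturality_assoc p q r, reassoc_of% hE, reassoc_of% e3, reassoc_of% hE,
    ← associator_naturality_assoc q p r, reassoc_of% e3, reassoc_of% hE,
    BraidedCategory.hexagon_forward]

theorem hex_rev {X Y Z : C} {p : X ⟶ X} {q : Y ⟶ Y} {r : Z ⟶ Z} (hp : p ≫ p = p)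
    (hq : q ≫ q = q) (hr : r ≫ r = r) :
    ((p ⊗ₘ (q ⊗ₘ r)) ≫ (α_ X Y Z).inv) ≫ (((p ⊗ₘ q) ⊗ₘ r) ≫ (β_ (X ⊗ Y) Z).hom) ≫
        ((r ⊗ₘ (p ⊗ₘ q)) ≫ (α_ Z X Y).inv) =
      (p ⊗ₘ ((q ⊗ₘ r) ≫ (β_ Y Z).hom)) ≫ ((p ⊗ₘ (r ⊗ₘ q)) ≫ (α_ X Z Y).inv) ≫
        (((p ⊗ₘ r) ≫ (β_ X Z).hom) ⊗ₘ q) := by
  have hE : (p ⊗ₘ (q ⊗ₘ r)) ≫ (p ⊗ₘ (q ⊗ₘ r)) = p ⊗ₘ (q ⊗ₘ r) := by
    rw [tensorHom_comp_tensorHom, tensorHom_comp_tensorHom, hp, hq, hr]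
  have e1 : ((p ⊗ₘ r) ≫ (β_ X Z).hom) ⊗ₘ q = ((p ⊗ₘ r) ⊗ₘ q) ≫ ((β_ X Z).hom ▷ Y) := by
    rw [← tensorHom_id, tensorHom_comp_tensorHom, Category.comp_id]
  have e2 : p ⊗ₘ ((q ⊗ₘ r) ≫ (β_ Y Z).hom) = (p ⊗ₘ (q ⊗ₘ r)) ≫ (X ◁ (β_ Y Z).hom) := by
    rw [← id_tensorHom, tensorHom_comp_tensorHom, Category.comp_id]
  have e3 : (X ◁ (β_ Y Z).hom) ≫ (p ⊗ₘ (r ⊗ₘ q)) = (p ⊗ₘ (q ⊗ₘ r)) ≫ (X ◁ (β_ Y Z).hom) := by
    rw [← id_tensorHom, tensorHom_comp_tensorHom, tensorHom_comp_tensorHom, Category.id_comp,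
      Category.comp_id, BraidedCategory.braiding_naturality]
  have e4 : (β_ (X ⊗ Y) Z).hom ≫ (r ⊗ₘ (p ⊗ₘ q)) = ((p ⊗ₘ q) ⊗ₘ r) ≫ (β_ (X ⊗ Y) Z).hom :=
    (BraidedCategory.braiding_naturality _ _).symm
  rw [e1, e2]
  simp only [Category.assoc]
  rw [← associator_inv_naturality_assoc p q r, reassoc_of% hE, reassoc_of% e4,
    ← associator_inv_naturality_assoc p q r, reassoc_of% hE, reassoc_of% e3, reassoc_of% hE,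
    ← associator_inv_naturality_assoc p r q, reassoc_of% e3, reassoc_of% hE,
    BraidedCategory.hexagon_reverse]

end Braid

end KMon

/-- The tensor product of formal direct summands. -/
@[simps] def kObj (P Q : Karoubi C) : Karoubi C where
  X := P.X ⊗ Q.X
  p := P.p ⊗ₘ Q.p
  idem := by rw [tensorHom_comp_tensorHom, P.idem, Q.idem]

/-- The tensor product of morphisms between formal direct summands. -/
@[simps] def kHom {P Q P' Q' : Karoubi C} (f : P ⟶ Q) (f' : P' ⟶ Q') :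
    kObj P P' ⟶ kObj Q Q' where
  f := f.f ⊗ₘ f'.f
  comm := KMon.hom_comm f.comm f'.comm

/-- The unit. -/
@[simps] def kUnit (C : Type u) [Category.{v} C] [MonoidalCategory C] : Karoubi C where
  X := 𝟙_ C
  p := 𝟙 (𝟙_ C)
  idem := Category.comp_id _

/-- The associator. -/
@[simps] def kAssoc (P Q R : Karoubi C) : kObj (kObj P Q) R ≅ kObj P (kObj Q R) where
  hom :=
    { f := ((P.p ⊗ₘ Q.p) ⊗ₘ R.p) ≫ (α_ P.X Q.X R.X).hom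
      comm := KMon.assoc_hom_comm P.idem Q.idem R.idem }
  inv :=
    { f := (P.p ⊗ₘ (Q.p ⊗ₘ R.p)) ≫ (α_ P.X Q.X R.X).inv
      comm := KMon.assoc_inv_comm P.idem Q.idem R.idem }
  hom_inv_id := Karoubi.hom_ext _ _ (KMon.assoc_hom_inv P.idem Q.idem R.idem)
  inv_hom_id := Karoubi.hom_ext _ _ (KMon.assoc_inv_hom P.idem Q.idem R.idem)

/-- The left unitor. -/
@[simps] def kLeft (P : Karoubi C) : kObj (kUnit C) P ≅ P where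
  hom :=
    { f := (λ_ P.X).hom ≫ P.p
      comm := KMon.left_hom_comm P.idem }
  inv :=
    { f := P.p ≫ (λ_ P.X).inv
      comm := KMon.left_inv_comm P.idem }
  hom_inv_id := Karoubi.hom_ext _ _ (KMon.left_hom_inv P.idem)
  inv_hom_id := Karoubi.hom_ext _ _ (KMon.left_inv_hom P.idem)

/-- The right unitor. -/
@[simps] def kRight (P : Karoubi C) : kObj P (kUnit C) ≅ P where
  hom :=
    { f := (ρ_ P.X).hom ≫ P.p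
      comm := KMon.right_hom_comm P.idem }
  inv :=
    { f := P.p ≫ (ρ_ P.X).inv
      comm := KMon.right_inv_comm P.idem }
  hom_inv_id := Karoubi.hom_ext _ _ (KMon.right_hom_inv P.idem)
  inv_hom_id := Karoubi.hom_ext _ _ (KMon.right_inv_hom P.idem)

instance : MonoidalCategoryStruct (Karoubi C) where
  tensorObj := kObj
  whiskerLeft X _ _ f := kHom (𝟙 X) f
  whiskerRight f Y := kHom f (𝟙 Y)
  tensorHom := kHom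
  tensorUnit := kUnit C
  associator := kAssoc
  leftUnitor := kLeft
  rightUnitor := kRight

instance : MonoidalCategory (Karoubi C) := MonoidalCategory.ofTensorHom
  (id_tensorHom_id := fun _ _ => rfl)
  (id_tensorHom := fun _ _ _ _ => rfl)
  (tensorHom_id := fun _ _ => rfl)
  (tensorHom_comp_tensorHom := fun f f' g g' => by
    exact Karoubi.hom_ext _ _ (tensorHom_comp_tensorHom f.f f'.f g.f g'.f))
  (associator_naturality := fun {X₁ X₂ X₃ Y₁ Y₂ Y₃} f₁ f₂ f₃ => by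
    exact Karoubi.hom_ext _ _ (KMon.assoc_nat (Karoubi.p_comp f₁) (Karoubi.p_comp f₂)
      (Karoubi.p_comp f₃) (Karoubi.comp_p f₁) (Karoubi.comp_p f₂) (Karoubi.comp_p f₃)))
  (leftUnitor_naturality := fun {X Y} f => by
    exact Karoubi.hom_ext _ _ (KMon.left_nat (Karoubi.p_comp f) (Karoubi.comp_p f)))
  (rightUnitor_naturality := fun {X Y} f => by
    exact Karoubi.hom_ext _ _ (KMon.right_nat (Karoubi.p_comp f) (Karoubi.comp_p f)))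
  (pentagon := fun W X Y Z =>
    Karoubi.hom_ext _ _ (KMon.pent W.idem X.idem Y.idem Z.idem))
  (triangle := fun X Y => Karoubi.hom_ext _ _ (KMon.tri X.idem Y.idem))

/-- The braiding. -/
@[simps] def kBraid [SymmetricCategory C] (P Q : Karoubi C) : kObj P Q ≅ kObj Q P where
  hom :=
    { f := (P.p ⊗ₘ Q.p) ≫ (β_ P.X Q.X).hom
      comm := KMon.braid_comm P.idem Q.idem }
  inv :=
    { f := (Q.p ⊗ₘ P.p) ≫ (β_ P.X Q.X).inv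
      comm := KMon.braid_inv_comm P.idem Q.idem }
  hom_inv_id := Karoubi.hom_ext _ _ (KMon.braid_hom_inv P.idem Q.idem)
  inv_hom_id := Karoubi.hom_ext _ _ (KMon.braid_inv_hom P.idem Q.idem)

instance [SymmetricCategory C] : SymmetricCategory (Karoubi C) where
  braiding := kBraid
  braiding_naturality_right := fun X _ _ f =>
    Karoubi.hom_ext _ _ (KMon.braid_nat X.idem X.idem (Karoubi.p_comp f) (Karoubi.comp_p f))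
  braiding_naturality_left := fun f Z =>
    Karoubi.hom_ext _ _ (KMon.braid_nat (Karoubi.p_comp f) (Karoubi.comp_p f) Z.idem Z.idem)
  hexagon_forward := fun X Y Z =>
    Karoubi.hom_ext _ _ (KMon.hex_fwd X.idem Y.idem Z.idem)
  hexagon_reverse := fun X Y Z =>
    Karoubi.hom_ext _ _ (KMon.hex_rev X.idem Y.idem Z.idem)
  symmetry := fun X Y => Karoubi.hom_ext _ _ (KMon.braid_symm X.idem Y.idem)

instance [Preadditive C] [MonoidalPreadditive C] : MonoidalPreadditive (Karoubi C) where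
  whiskerLeft_zero := fun {X _ _} =>
    Karoubi.hom_ext _ _ (MonoidalPreadditive.tensor_zero X.p)
  zero_whiskerRight := fun {X _ _} =>
    Karoubi.hom_ext _ _ (MonoidalPreadditive.zero_tensor X.p)
  whiskerLeft_add := fun {X _ _} f g =>
    Karoubi.hom_ext _ _ (MonoidalPreadditive.tensor_add X.p f.f g.f)
  add_whiskerRight := fun {X _ _} f g =>
    Karoubi.hom_ext _ _ (MonoidalPreadditive.add_tensor f.f g.f X.p)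

instance {R : Type*} [Semiring R] [Preadditive C] [Linear R C] (P Q : Karoubi C) :
    Module R (P ⟶ Q) where
  smul c f := ⟨c • f.f, by rw [Linear.smul_comp, Linear.comp_smul, f.comm]⟩
  one_smul f := by ext; exact one_smul R f.f
  mul_smul c d f := by ext; exact mul_smul c d f.f
  smul_zero c := by ext; exact smul_zero c
  smul_add c f g := by ext; exact smul_add c f.f g.f
  add_smul c d f := by ext; exact add_smul c d f.f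
  zero_smul f := by ext; exact zero_smul R f.f

instance {R : Type*} [Semiring R] [Preadditive C] [Linear R C] : Linear R (Karoubi C) where
  homModule _ _ := inferInstance
  smul_comp _ _ _ c f g := by ext; exact Linear.smul_comp _ _ _ c f.f g.f
  comp_smul _ _ _ f c g := by ext; exact Linear.comp_smul _ _ _ f.f c g.f

end Pool.Agent.MP_6e5bed_ag_NC
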