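import Pool.Agent.Lib.MP_6e5bed_ag_NC.CatSym
import Pool.Agent.Lib.MP_6e5bed_ag_NC.KMon

set_option autoImplicit false

/-!
# Noncommutative Chow motives
-/

namespace Pool.Agent.MP_6e5bed_ag_NC

open CategoryTheory MonoidalCategory Idempotents

universe u

/-- The category of noncommutative Chow motives with rational coefficients: the idempotent
completion of the category of smooth proper dg algebras. -/
abbrev NChow (k : Type u) [CommRing k] := Karoubi (SP k)

/-- The noncommutative Chow motive of `A`. -/
noncomputable abbrev U {k : Type u} [CommRing k] (A : SP k) : NChow k := (toKaroubi (SP k)).obj A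

end Pool.Agent.MP_6e5bed_ag_NC
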