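import Pool.Agent.Lib.MP_6e5bed_ag_NC.Free

set_option autoImplicit false

/-!
# Perfect bimodules and the Grothendieck group
-/

namespace Pool.Agent.MP_6e5bed_ag_NC

universe u

variable {k : Type u} [CommRing k] {A B : DGA k}

/-- The perfect `A`-`B`-bimodules: the smallest class of dg bimodules which contains the free
bimodule `A ⊗ B` and the contractible ones and is closed under direct summands and under the
two-out-of-three rule for (graded-split) short exact sequences. -/
inductive Perf : Bim A B → Prop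
  | free : Perf (free A B)
  | contr {M : Bim A B} : Contr M → Perf M
  | mid {M' M M'' : Bim A B} : IsExt M' M M'' → Perf M' → Perf M'' → Perf M
  | left {M' M M'' : Bim A B} : IsExt M' M M'' → Perf M → Perf M'' → Perf M'
  | right {M' M M'' : Bim A B} : IsExt M' M M'' → Perf M' → Perf M → Perf M''
  | summand {M' M : Bim A B} : IsSummand M' M → Perf M → Perf M'

/-- The relations of the Grothendieck group: `[M] = [M'] + [M'']` for the short exact sequences
and `[M] = 0` for contractible `M`. -/
noncomputable def K0rel (A B : DGA k) : Submodule ℚ ({M : Bim A B // Perf M} →₀ ℚ) :=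
  Submodule.span ℚ
    ({x | ∃ M' M M'' : {M : Bim A B // Perf M}, IsExt M'.1 M.1 M''.1 ∧
        x = Finsupp.single M 1 - Finsupp.single M' 1 - Finsupp.single M'' 1} ∪
      {x | ∃ M : {M : Bim A B // Perf M}, Contr M.1 ∧ x = Finsupp.single M 1})

/-- The Grothendieck group of the perfect `A`-`B`-bimodules, tensored with `ℚ`. -/
def K0Q (A B : DGA k) : Type (u + 1) := ({M : Bim A B // Perf M} →₀ ℚ) ⧸ K0rel A B

noncomputable instance (A B : DGA k) : AddCommGroup (K0Q A B) :=
  inferInstanceAs (AddCommGroup (({M : Bim A B // Perf M} →₀ ℚ) ⧸ K0rel A B))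

noncomputable instance (A B : DGA k) : Module ℚ (K0Q A B) :=
  inferInstanceAs (Module ℚ (({M : Bim A B // Perf M} →₀ ℚ) ⧸ K0rel A B))

/-- The class of a perfect bimodule. -/
noncomputable def cls (M : Bim A B) (h : Perf M) : K0Q A B :=
  (K0rel A B).mkQ (Finsupp.single ⟨M, h⟩ 1)

namespace K0Q

/-- The linear map on the Grothendieck group given by an additive function. -/
noncomputable def lift {V : Type*} [AddCommGroup V] [Module ℚ V]
    (f : ∀ M : Bim A B, Perf M → V)
    (hext : ∀ {M' M M'' : Bim A B} (h' : Perf M') (h : Perf M) (h'' : Perf M''),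
      IsExt M' M M'' → f M h = f M' h' + f M'' h'')
    (hc : ∀ {M : Bim A B} (h : Perf M), Contr M → f M h = 0) : K0Q A B →ₗ[ℚ] V :=
  (K0rel A B).liftQ (Finsupp.lsum ℚ (fun M : {M : Bim A B // Perf M} =>
    LinearMap.toSpanSingleton ℚ V (f M.1 M.2))) (by
      unfold K0rel
      rw [Submodule.span_le]
      rintro x (⟨⟨M', h'⟩, ⟨M, h⟩, ⟨M'', h''⟩, hM, rfl⟩ | ⟨⟨M, h⟩, hM, rfl⟩)
      · have h1 := hext h' h h'' hM
        change Finsupp.lsum ℚ _ _ = 0
        rw [map_sub, map_sub, Finsupp.lsum_single, Finsupp.lsum_single, Finsupp.lsum_single]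
        simp only [LinearMap.toSpanSingleton_apply, one_smul, h1]
        abel
      · have h1 := hc h hM
        change Finsupp.lsum ℚ _ _ = 0
        rw [Finsupp.lsum_single]
        simp only [LinearMap.toSpanSingleton_apply, one_smul, h1])

theorem lift_cls {V : Type*} [AddCommGroup V] [Module ℚ V]
    (f : ∀ M : Bim A B, Perf M → V)
    (hext : ∀ {M' M M'' : Bim A B} (h' : Perf M') (h : Perf M) (h'' : Perf M''),
      IsExt M' M M'' → f M h = f M' h' + f M'' h'')
    (hc : ∀ {M : Bim A B} (h : Perf M), Contr M → f M h = 0) (M : Bim A B) (h : Perf M) :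
    lift f hext hc (cls M h) = f M h := by
  have h1 : lift f hext hc (cls M h) = Finsupp.lsum ℚ (fun M : {M : Bim A B // Perf M} =>
    LinearMap.toSpanSingleton ℚ V (f M.1 M.2)) (Finsupp.single ⟨M, h⟩ 1) := rfl
  rw [h1]
  simp

/-- An additive and homogeneous property of the elements of `K0Q A B` follows from the case of
classes. -/
theorem ind {P : K0Q A B → Prop} (hadd : ∀ x y, P x → P y → P (x + y))
    (hsmul : ∀ (c : ℚ) x, P x → P (c • x)) (h0 : P 0) (h : ∀ M hM, P (cls M hM))
    (x : K0Q A B) : P x := by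
  obtain ⟨x, rfl⟩ := (K0rel A B).mkQ_surjective x
  induction x using Finsupp.induction_linear with
  | zero =>
    rw [map_zero]
    exact h0
  | add x y hx hy =>
    rw [map_add]
    exact hadd _ _ hx hy
  | single M c =>
    have h1 : (K0rel A B).mkQ (Finsupp.single M c) = c • cls M.1 M.2 := by
      have h2 : Finsupp.single M c = c • Finsupp.single M (1 : ℚ) := by simp
      rw [h2, map_smul]
      rfl
    rw [h1]
    exact hsmul _ _ (h _ _)

theorem hom_ext {V : Type*} [AddCommGroup V] [Module ℚ V] {f g : K0Q A B →ₗ[ℚ] V}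
    (h : ∀ M hM, f (cls M hM) = g (cls M hM)) : f = g := by
  ext x
  exact ind (P := fun x => f x = g x) (fun x y hx hy => by rw [map_add, map_add, hx, hy])
    (fun c x hx => by rw [map_smul, map_smul, hx]) (by rw [map_zero, map_zero]) h x

theorem cls_ext {M' M M'' : Bim A B} (h' : Perf M') (h : Perf M) (h'' : Perf M'')
    (hM : IsExt M' M M'') : cls M h = cls M' h' + cls M'' h'' := by
  have h1 : cls M h - cls M' h' - cls M'' h'' = 0 := by
    have h2 : cls M h - cls M' h' - cls M'' h'' = (K0rel A B).mkQ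
      (Finsupp.single ⟨M, h⟩ 1 - Finsupp.single ⟨M', h'⟩ 1 - Finsupp.single ⟨M'', h''⟩ 1) := by
      rw [map_sub, map_sub]
      rfl
    rw [h2]
    exact (Submodule.Quotient.mk_eq_zero _).2 (Submodule.subset_span
      (Or.inl ⟨⟨M', h'⟩, ⟨M, h⟩, ⟨M'', h''⟩, hM, rfl⟩))
  rw [sub_sub, sub_eq_zero] at h1
  exact h1

theorem cls_contr {M : Bim A B} (h : Perf M) (hM : Contr M) : cls M h = 0 :=
  (Submodule.Quotient.mk_eq_zero _).2 (Submodule.subset_span (Or.inr ⟨⟨M, h⟩, hM, rfl⟩))

end K0Q

end Pool.Agent.MP_6e5bed_ag_NC
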