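import Pool.Agent.Lib.MP_6e5bed_ag_NC.Shift
import Pool.Agent.Lib.MP_6e5bed_ag_NC.Perf

set_option autoImplicit false

/-!
# dg functors between categories of bimodules
-/

namespace Pool.Agent.MP_6e5bed_ag_NC

universe u

variable {k k' k'' : Type u} [CommRing k] [CommRing k'] [CommRing k'']

/-- A dg functor from the `A`-`B`-bimodules to the `A'`-`B'`-bimodules. -/
structure DGFun (A B : DGA k) (A' B' : DGA k') where
  obj : Bim A B → Bim A' B'
  map : ∀ {n : ℤ} {M N : Bim A B}, GMap n M N → GMap n (obj M) (obj N)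
  map_id : ∀ (M : Bim A B) (x : (obj M).M), (map (GMap.id M)).f x = x
  map_comp : ∀ {n m l : ℤ} {M N P : Bim A B} (φ : GMap n M N) (ψ : GMap m N P)
    (h : n + m = l) (x : (obj M).M), (map (φ.comp ψ h)).f x = (map ψ).f ((map φ).f x)
  map_add : ∀ {n : ℤ} {M N : Bim A B} (φ ψ : GMap n M N) (x : (obj M).M),
    (map (φ + ψ)).f x = (map φ).f x + (map ψ).f x
  map_D : ∀ {n m : ℤ} {M N : Bim A B} (φ : GMap n M N) (h : n + 1 = m) (x : (obj M).M),
    (map (φ.D h)).f x = (map φ).dd x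

variable {A B : DGA k} {A' B' : DGA k'} {A'' B'' : DGA k''} {M N : Bim A B}

/-- `C` is a cone of `φ`. -/
def IsCone (φ : GMap 0 M N) (C : Bim A B) : Prop :=
  ∃ (t : GMap (-1) M C) (j : GMap 0 N C) (p : GMap 1 C M) (q : GMap 0 C N),
    p.dd = 0 ∧ j.dd = 0 ∧ (∀ x, t.dd x = j.f (φ.f x)) ∧ (∀ x, p.f (t.f x) = x) ∧
    (∀ y, q.f (j.f y) = y) ∧ (∀ y, p.f (j.f y) = 0) ∧ (∀ x, q.f (t.f x) = 0) ∧
    ∀ c, t.f (p.f c) + j.f (q.f c) = c

namespace DGFun

variable (F : DGFun A B A' B')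

/-- The composition of dg functors. -/
def comp (F : DGFun A B A' B') (G : DGFun A' B' A'' B'') : DGFun A B A'' B'' where
  obj := fun M => G.obj (F.obj M)
  map := fun φ => G.map (F.map φ)
  map_id := fun M x => by
    have h : F.map (GMap.id M) = GMap.id (F.obj M) := GMap.ext (F.map_id M)
    rw [h, G.map_id]
  map_comp := fun φ ψ h x => by
    have h1 : F.map (φ.comp ψ h) = (F.map φ).comp (F.map ψ) h := GMap.ext (F.map_comp φ ψ h)
    rw [h1, G.map_comp]
  map_add := fun φ ψ x => by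
    have h1 : F.map (φ + ψ) = F.map φ + F.map ψ := GMap.ext (F.map_add φ ψ)
    rw [h1, G.map_add]
  map_D := fun φ h x => by
    have h1 : F.map (φ.D h) = (F.map φ).D h := GMap.ext (F.map_D φ h)
    rw [h1, G.map_D]

theorem map_zero {n : ℤ} (x : (F.obj M).M) : (F.map (0 : GMap n M N)).f x = 0 := by
  have h := F.map_add (0 : GMap n M N) 0 x
  have h1 : (0 : GMap n M N) + 0 = 0 := GMap.ext (fun x => add_zero 0)
  rw [h1] at h
  exact left_eq_add.1 h

theorem map_eq_zero {n : ℤ} {φ : GMap n M N} (h : ∀ x, φ.f x = 0) (x : (F.obj M).M) :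
    (F.map φ).f x = 0 := by
  have h1 : φ = 0 := GMap.ext h
  rw [h1, F.map_zero]

theorem closed {n : ℤ} {φ : GMap n M N} (h : φ.dd = 0) : (F.map φ).dd = 0 := by
  ext x
  rw [← F.map_D φ rfl]
  exact F.map_eq_zero (fun x => by rw [GMap.D_f, h]; rfl) x

theorem map_inv {n m : ℤ} {φ : GMap n M N} {ψ : GMap m N M} (hnm : n + m = 0)
    (h : ∀ x, ψ.f (φ.f x) = x) (x : (F.obj M).M) : (F.map ψ).f ((F.map φ).f x) = x := by
  rw [← F.map_comp φ ψ hnm]
  have h1 : φ.comp ψ hnm = GMap.id M := GMap.ext h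
  rw [h1, F.map_id]

theorem map_comp_zero {P : Bim A B} {n m : ℤ} {φ : GMap n M N} {ψ : GMap m N P}
    (h : ∀ x, ψ.f (φ.f x) = 0) (x : (F.obj M).M) : (F.map ψ).f ((F.map φ).f x) = 0 := by
  rw [← F.map_comp φ ψ rfl]
  exact F.map_eq_zero h x

theorem biso (h : BIso M N) : BIso (F.obj M) (F.obj N) := by
  obtain ⟨φ, ψ, h0, h1, h2⟩ := h
  exact ⟨F.map φ, F.map ψ, F.closed h0, F.map_inv (add_zero 0) h1, F.map_inv (add_zero 0) h2⟩

theorem isExt {M' M M'' : Bim A B} (h : IsExt M' M M'') :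
    IsExt (F.obj M') (F.obj M) (F.obj M'') := by
  obtain ⟨i, p, r, σ, h0, h1, h2, h3, h4, h5, h6⟩ := h
  refine ⟨F.map i, F.map p, F.map r, F.map σ, F.closed h0, F.closed h1,
    F.map_inv (add_zero 0) h2, F.map_inv (add_zero 0) h3, F.map_comp_zero h4,
    F.map_comp_zero h5, fun x => ?_⟩
  rw [← F.map_comp r i (add_zero 0), ← F.map_comp p σ (add_zero 0), ← F.map_add]
  have h7 : r.comp i (add_zero 0) + p.comp σ (add_zero 0) = GMap.id M := GMap.ext h6
  rw [h7, F.map_id]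

theorem isSummand {M' M : Bim A B} (h : IsSummand M' M) : IsSummand (F.obj M') (F.obj M) := by
  obtain ⟨i, r, h0, h1, h2⟩ := h
  exact ⟨F.map i, F.map r, F.closed h0, F.closed h1, F.map_inv (add_zero 0) h2⟩

theorem contr (h : Contr M) : Contr (F.obj M) := by
  obtain ⟨h, hh⟩ := h
  refine ⟨F.map h, ?_⟩
  ext x
  rw [← F.map_D h (neg_add_cancel 1)]
  have h1 : h.D (neg_add_cancel 1) = GMap.id M := GMap.ext (fun x => by
    rw [GMap.D_f, hh]
    rfl)
  rw [h1, F.map_id]
  rfl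

theorem isCone {φ : GMap 0 M N} {C : Bim A B} (h : IsCone φ C) :
    IsCone (F.map φ) (F.obj C) := by
  obtain ⟨t, j, p, q, h0, h1, h2, h3, h4, h5, h6, h7⟩ := h
  refine ⟨F.map t, F.map j, F.map p, F.map q, F.closed h0, F.closed h1, fun x => ?_,
    F.map_inv (neg_add_cancel 1) h3, F.map_inv (add_zero 0) h4, F.map_comp_zero h5,
    F.map_comp_zero h6, fun x => ?_⟩
  · rw [← F.map_D t (neg_add_cancel 1), ← F.map_comp φ j (add_zero 0)]
    have h8 : t.D (neg_add_cancel 1) = φ.comp j (add_zero 0) := GMap.ext h2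
    rw [h8]
  · rw [← F.map_comp p t (add_neg_cancel 1), ← F.map_comp q j (add_zero 0), ← F.map_add]
    have h8 : p.comp t (add_neg_cancel 1) + q.comp j (add_zero 0) = GMap.id C := GMap.ext h7
    rw [h8, F.map_id]

/-- A dg functor which sends the free bimodule to a perfect one preserves perfect bimodules. -/
theorem perf (hF : Perf (F.obj (free A B))) (h : Perf M) : Perf (F.obj M) := by
  induction h with
  | free => exact hF
  | contr h => exact Perf.contr (F.contr h)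
  | mid h _ _ h1 h2 => exact Perf.mid (F.isExt h) h1 h2
  | left h _ _ h1 h2 => exact Perf.left (F.isExt h) h1 h2
  | right h _ _ h1 h2 => exact Perf.right (F.isExt h) h1 h2
  | summand h _ h1 => exact Perf.summand (F.isSummand h) h1

/-- The induced map of Grothendieck groups. -/
noncomputable def k0 (hF : Perf (F.obj (free A B))) : K0Q A B →ₗ[ℚ] K0Q A' B' :=
  K0Q.lift (fun M h => cls (F.obj M) (F.perf hF h))
    (fun _ _ _ h => K0Q.cls_ext _ _ _ (F.isExt h)) (fun _ h => K0Q.cls_contr _ (F.contr h))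

theorem k0_cls (hF : Perf (F.obj (free A B))) (h : Perf M) :
    F.k0 hF (cls M h) = cls (F.obj M) (F.perf hF h) :=
  K0Q.lift_cls (fun M h => cls (F.obj M) (F.perf hF h))
    (fun _ _ _ h => K0Q.cls_ext _ _ _ (F.isExt h)) (fun _ h => K0Q.cls_contr _ (F.contr h)) M h

end DGFun

theorem BIso.summand (h : BIso M N) : IsSummand N M := by
  obtain ⟨φ, ψ, h0, h1, h2⟩ := h
  exact ⟨ψ, φ, BIso.closed_inv h0 h1 h2, h0, h2⟩

theorem BIso.perf (h : BIso M N) (hM : Perf M) : Perf N := Perf.summand h.summand hM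

theorem contr_zero : ∃ Z : Bim A B, Contr Z ∧ ∀ x : Z.M, x = 0 := by
  refine ⟨{
    M := PUnit
    dg :=
      { ρ := 0
        sum_ρ := fun _ => rfl
        ρ_ρ := fun _ _ => Finsupp.ext fun _ => rfl
        d := 0
        d_d := fun _ => rfl
        ρ_d := fun _ _ => rfl }
    l := 0
    r := 0
    l_one := fun _ => rfl
    r_one := fun _ => rfl
    l_mul := fun _ _ _ => rfl
    r_mul := fun _ _ _ => rfl
    l_r := fun _ _ _ => rfl
    l_deg := fun _ _ => Finsupp.ext fun _ => rfl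
    r_deg := fun _ _ => Finsupp.ext fun _ => rfl
    d_l := fun _ _ => rfl
    d_r := fun _ _ => rfl }, ⟨0, LinearMap.ext fun _ => rfl⟩, fun _ => rfl⟩

/-- Isomorphic bimodules have the same class. -/
theorem K0Q.cls_iso (h : BIso M N) (hM : Perf M) (hN : Perf N) : cls M hM = cls N hN := by
  obtain ⟨Z, hZ, hZ0⟩ := contr_zero (A := A) (B := B)
  obtain ⟨φ, ψ, h0, h1, h2⟩ := h
  have h3 : IsExt M N Z := ⟨φ, 0, ψ, 0, h0, LinearMap.ext (fun x => GMap.dd_zero x), h1,
    fun x => by rw [hZ0 x]; rfl, fun _ => rfl, fun x => map_zero _, fun x => by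
      rw [h2]
      exact add_zero x⟩
  rw [K0Q.cls_ext hM hN (Perf.contr hZ) h3, K0Q.cls_contr _ hZ, add_zero]

/-- Dg functors with isomorphic values induce the same map of Grothendieck groups. -/
theorem DGFun.k0_congr (F G : DGFun A B A' B') (hF : Perf (F.obj (free A B)))
    (hG : Perf (G.obj (free A B))) (h : ∀ M, Perf M → BIso (F.obj M) (G.obj M)) :
    F.k0 hF = G.k0 hG := by
  refine K0Q.hom_ext (fun M hM => ?_)
  rw [F.k0_cls, G.k0_cls]
  exact K0Q.cls_iso (h M hM) _ _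

end Pool.Agent.MP_6e5bed_ag_NC
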