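import Pool.Agent.Lib.MP_6e5bed_ag_NC.Op
import Pool.Agent.Lib.MP_6e5bed_ag_NC.Fun

set_option autoImplicit false

/-!
# Restriction and the conversion of left into right actions, as dg functors
-/

namespace Pool.Agent.MP_6e5bed_ag_NC

open scoped TensorProduct

universe u

variable {k : Type u} [CommRing k] {A B A' B' : DGA k}

/-- Restriction as a dg functor. -/
def resF (φ : DHom A A') (ψ : DHom B B') : DGFun A' B' A B where
  obj := fun M => res φ ψ M
  map := fun f => f.res φ ψ
  map_id := fun _ _ => rfl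
  map_comp := fun _ _ _ _ => rfl
  map_add := fun _ _ _ => rfl
  map_D := fun _ _ _ => rfl

private theorem sp_evenV {V : Type u} [AddCommGroup V] [Module k V] {X : Dg k V} (n : ℤ) {v : V}
    (hv : X.o v = 0) : X.sp n v = v := by
  rcases Int.even_or_odd n with h | h
  · exact Dg.sp_even h v
  · rw [Dg.sp_odd h, Dg.s_of_even hv]

private theorem sp_oddV {V : Type u} [AddCommGroup V] [Module k V] {X : Dg k V} (n : ℤ) {v : V}
    (hv : X.o v = v) : X.sp n v = sg n • v := by
  rcases Int.even_or_odd n with h | h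
  · rw [Dg.sp_even h, sg_even h, one_smul]
  · rw [Dg.sp_odd h, Dg.s_of_odd hv, sg_odd h, neg_smul, one_smul]

private theorem base_sp (n : ℤ) (c : k) : (base k).dg.sp n c = c :=
  sp_evenV n (base_o c)

private theorem hh_r {n : ℤ} {M N : Bim A B} (φ : GMap n M N) (x : A.A ⊗[k] B.A) (m : M.M) :
    φ.f (hhr M x m) = hhr N x (φ.f m) := by
  induction x using TensorProduct.induction_on with
  | zero => simp
  | add x x' hx hx' => simp only [map_add, LinearMap.add_apply, hx, hx']
  | tmul a b =>
    refine A.dg.parity_ind (P := fun a =>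
      φ.f (hhr M (a ⊗ₜ b) m) = hhr N (a ⊗ₜ b) (φ.f m)) ?_ ?_ ?_ a
    · intro x y hx hy
      simp only [TensorProduct.add_tmul, map_add, LinearMap.add_apply, hx, hy]
    · intro a ha
      rw [hhr_even ha, hhr_even ha, φ.map_r, φ.map_l, sp_evenV n ha]
    · intro a ha
      rw [hhr_odd ha, hhr_odd ha, φ.map_r, φ.map_l, sp_oddV n ha, φ.s_f, map_zsmul,
        map_zsmul, map_zsmul, LinearMap.smul_apply, map_zsmul]

private theorem ee_l {n : ℤ} {M N : Bim A B} (φ : GMap n M N) (x : A.A ⊗[k] B.A) (m : M.M) :
    φ.f (eel M x m) = eel N ((A.dg.tensor B.dg).sp n x) (φ.f m) := by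
  induction x using TensorProduct.induction_on with
  | zero => simp
  | add x x' hx hx' => simp only [map_add, LinearMap.add_apply, hx, hx']
  | tmul a b =>
    refine B.dg.parity_ind (P := fun b =>
      φ.f (eel M (a ⊗ₜ b) m) = eel N ((A.dg.tensor B.dg).sp n (a ⊗ₜ b)) (φ.f m)) ?_ ?_ ?_ b
    · intro x y hx hy
      simp only [TensorProduct.tmul_add, map_add, LinearMap.add_apply, hx, hy]
    · intro b hb
      rcases Int.even_or_odd n with h | h
      · rw [Dg.sp_even h, eel_even hb, eel_even hb, φ.map_l, φ.map_r, Dg.sp_even h]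
      · rw [Dg.sp_odd h, Dg.tensor_s, Dg.s_of_even hb, eel_even hb, eel_even hb, φ.map_l,
          φ.map_r, Dg.sp_odd h]
    · intro b hb
      rcases Int.even_or_odd n with h | h
      · rw [Dg.sp_even h, eel_odd hb, eel_odd hb, φ.map_l, φ.map_r, Dg.sp_even h, φ.s_f,
          sg_even h, one_smul]
      · rw [Dg.sp_odd h, Dg.tensor_s, Dg.s_of_odd hb, TensorProduct.tmul_neg, map_neg,
          LinearMap.neg_apply, eel_odd hb, eel_odd hb, φ.map_l, φ.map_r, Dg.sp_odd h, φ.s_f,
          sg_odd h, neg_smul, one_smul, map_neg, map_neg, neg_neg]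

/-- The same map, for the bimodules with bent left action. -/
noncomputable def GMap.hh {n : ℤ} {M N : Bim A B} (φ : GMap n M N) :
    GMap n (HH M) (HH N) where
  f := φ.f
  deg := fun h => φ.deg h
  map_l := fun (a : k) m => by
    have h : (base k).dg.sp n a = a := base_sp n a
    rw [h]
    exact φ.f.map_smul a m
  map_r := fun x m => hh_r φ x m

/-- The same map, for the bimodules with bent right action. -/
noncomputable def GMap.ee {n : ℤ} {M N : Bim A B} (φ : GMap n M N) :
    GMap n (EE M) (EE N) where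
  f := φ.f
  deg := fun h => φ.deg h
  map_l := fun x m => ee_l φ x m
  map_r := fun (a : k) m => φ.f.map_smul a m

/-- `HH` as a dg functor. -/
noncomputable def hhF (A B : DGA k) : DGFun A B (base k) (A.op.tensor B) where
  obj := fun M => HH M
  map := fun φ => φ.hh
  map_id := fun _ _ => rfl
  map_comp := fun _ _ _ _ => rfl
  map_add := fun _ _ _ => rfl
  map_D := fun _ _ _ => rfl

/-- `EE` as a dg functor. -/
noncomputable def eeF (A B : DGA k) : DGFun A B (A.tensor B.op) (base k) where
  obj := fun M => EE M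
  map := fun φ => φ.ee
  map_id := fun _ _ => rfl
  map_comp := fun _ _ _ _ => rfl
  map_add := fun _ _ _ => rfl
  map_D := fun _ _ _ => rfl

end Pool.Agent.MP_6e5bed_ag_NC
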