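import Pool.Agent.Lib.MP_6e5bed_ag_NC.GMap

set_option autoImplicit false

/-!
# Morphisms of dg algebras, restriction, the dg algebra `k`
-/

namespace Pool.Agent.MP_6e5bed_ag_NC

universe u

variable {k : Type u} [CommRing k]

/-- A morphism of dg algebras. -/
structure DHom (A A' : DGA k) where
  f : A.A →ₗ[k] A'.A
  deg : ∀ {i : ℤ} {a : A.A}, A.dg.IsDeg i a → A'.dg.IsDeg i (f a)
  d : ∀ a, A'.dg.d (f a) = f (A.dg.d a)
  one : f A.one = A'.one
  mul : ∀ a b, f (A.mul a b) = A'.mul (f a) (f b)

/-- An isomorphism of dg algebras. -/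
structure DIso (A A' : DGA k) where
  hom : DHom A A'
  inv : DHom A' A
  hom_inv : ∀ a, inv.f (hom.f a) = a
  inv_hom : ∀ a, hom.f (inv.f a) = a

variable {A B A' B' A'' : DGA k}

@[ext] theorem DHom.ext {φ ψ : DHom A A'} (h : ∀ x, φ.f x = ψ.f x) : φ = ψ := by
  obtain ⟨f, _, _, _, _⟩ := φ
  obtain ⟨g, _, _, _, _⟩ := ψ
  have : f = g := LinearMap.ext h
  subst this
  rfl

theorem DHom.s (φ : DHom A A') (a : A.A) : A'.dg.s (φ.f a) = φ.f (A.dg.s a) :=
  Dg.s_degMap_even (n := 0) Even.zero φ.f (fun h => by rw [add_zero]; exact φ.deg h) a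

theorem DHom.o (φ : DHom A A') (a : A.A) : A'.dg.o (φ.f a) = φ.f (A.dg.o a) :=
  Dg.o_degMap_even (n := 0) Even.zero φ.f (fun h => by rw [add_zero]; exact φ.deg h) a

theorem DHom.sp (φ : DHom A A') (n : ℤ) (a : A.A) :
    A'.dg.sp n (φ.f a) = φ.f (A.dg.sp n a) := by
  rcases Int.even_or_odd n with h | h
  · rw [Dg.sp_even h, Dg.sp_even h]
  · rw [Dg.sp_odd h, Dg.sp_odd h, φ.s]

/-- The identity. -/
def DHom.id (A : DGA k) : DHom A A where
  f := LinearMap.id
  deg := fun h => h
  d := fun _ => rfl
  one := rfl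
  mul := fun _ _ => rfl

/-- The composition. -/
def DHom.comp (φ : DHom A A') (ψ : DHom A' A'') : DHom A A'' where
  f := ψ.f ∘ₗ φ.f
  deg := fun h => ψ.deg (φ.deg h)
  d := fun a => by rw [LinearMap.comp_apply, LinearMap.comp_apply, ψ.d, φ.d]
  one := by rw [LinearMap.comp_apply, φ.one, ψ.one]
  mul := fun a b => by
    rw [LinearMap.comp_apply, LinearMap.comp_apply, LinearMap.comp_apply, φ.mul, ψ.mul]

theorem DIso.ext {φ ψ : DIso A A'} (h : ∀ x, φ.hom.f x = ψ.hom.f x) : φ = ψ := by
  obtain ⟨f, g, h1, h2⟩ := φ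
  obtain ⟨f', g', h1', h2'⟩ := ψ
  have h3 : f = f' := DHom.ext h
  subst h3
  have h4 : g = g' := DHom.ext (fun x => by rw [← h2' x, h1, h1'])
  subst h4
  rfl

/-- The identity. -/
def DIso.refl (A : DGA k) : DIso A A where
  hom := DHom.id A
  inv := DHom.id A
  hom_inv := fun _ => rfl
  inv_hom := fun _ => rfl

/-- The inverse. -/
def DIso.symm (φ : DIso A A') : DIso A' A where
  hom := φ.inv
  inv := φ.hom
  hom_inv := φ.inv_hom
  inv_hom := φ.hom_inv

/-- The composition. -/
def DIso.trans (φ : DIso A A') (ψ : DIso A' A'') : DIso A A'' where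
  hom := φ.hom.comp ψ.hom
  inv := ψ.inv.comp φ.inv
  hom_inv := fun a => by
    change φ.inv.f (ψ.inv.f (ψ.hom.f (φ.hom.f a))) = a
    rw [ψ.hom_inv, φ.hom_inv]
  inv_hom := fun a => by
    change ψ.hom.f (φ.hom.f (φ.inv.f (ψ.inv.f a))) = a
    rw [φ.inv_hom, ψ.inv_hom]

/-- A bijective morphism of dg algebras is an isomorphism. -/
def DIso.mk' (φ : DHom A A') (g : A'.A →ₗ[k] A.A) (h : ∀ a, g (φ.f a) = a)
    (h' : ∀ a, φ.f (g a) = a) : DIso A A' where
  hom := φ
  inv :=
    { f := g
      deg := fun {i a} ha => by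
        have hi : Function.Injective φ.f := Function.LeftInverse.injective h
        have hdeg := (Dg.degMap_iff (X := A.dg) (Y := A'.dg) (n := 0) φ.f).1
          (fun j v hv => by rw [add_zero]; exact φ.deg hv)
        have ha' : A'.dg.ρ a = Finsupp.single i a := ha
        change A.dg.ρ (g a) = Finsupp.single i (g a)
        ext j
        apply hi
        rw [← hdeg, add_zero, h', ha', Finsupp.single_apply, Finsupp.single_apply]
        split_ifs
        · exact (h' a).symm
        · rw [map_zero]
      d := fun a => by rw [← h (A.dg.d (g a)), ← φ.d, h']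
      one := by rw [← φ.one, h]
      mul := fun a b => by
        rw [← h (A.mul (g a) (g b)), φ.mul, h', h'] }
  hom_inv := h
  inv_hom := h'

/-- Restriction along morphisms of dg algebras. -/
def res (φ : DHom A A') (ψ : DHom B B') (M : Bim A' B') : Bim A B where
  M := M.M
  dg := M.dg
  l := M.l ∘ₗ φ.f
  r := M.r ∘ₗ ψ.f
  l_one := fun m => by rw [LinearMap.comp_apply, φ.one, M.l_one]
  r_one := fun m => by rw [LinearMap.comp_apply, ψ.one, M.r_one]
  l_mul := fun a a' m => by
    rw [LinearMap.comp_apply, LinearMap.comp_apply, LinearMap.comp_apply, φ.mul, M.l_mul]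
  r_mul := fun a a' m => by
    rw [LinearMap.comp_apply, LinearMap.comp_apply, LinearMap.comp_apply, ψ.mul, M.r_mul]
  l_r := fun a b m => by rw [LinearMap.comp_apply, LinearMap.comp_apply, M.l_r]
  l_deg := fun ha hm => M.l_deg (φ.deg ha) hm
  r_deg := fun hm hb => M.r_deg hm (ψ.deg hb)
  d_l := fun a m => by
    rw [LinearMap.comp_apply, LinearMap.comp_apply, LinearMap.comp_apply, M.d_l, φ.d, φ.s]
  d_r := fun b m => by rw [LinearMap.comp_apply, LinearMap.comp_apply, M.d_r, ψ.d]

theorem res_l (φ : DHom A A') (ψ : DHom B B') (M : Bim A' B') (a : A.A) (m : M.M) :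
    (res φ ψ M).l a m = M.l (φ.f a) m := rfl

theorem res_r (φ : DHom A A') (ψ : DHom B B') (M : Bim A' B') (b : B.A) (m : M.M) :
    (res φ ψ M).r b m = M.r (ψ.f b) m := rfl

/-- A graded map, restricted along morphisms of dg algebras. -/
def GMap.res (φ : DHom A A') (ψ : DHom B B') {n : ℤ} {M N : Bim A' B'} (f : GMap n M N) :
    GMap n (res φ ψ M) (MP_6e5bed_ag_NC.res φ ψ N) where
  f := f.f
  deg := fun h => f.deg h
  map_l := fun a m => by
    have h := f.map_l (φ.f a) m
    rw [φ.sp] at h
    exact h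
  map_r := fun b m => f.map_r _ _

/-- The dg algebra `k`, in degree zero. -/
noncomputable def base (k : Type u) [CommRing k] : DGA k where
  A := k
  dg :=
    { ρ := Finsupp.lsingle 0
      sum_ρ := fun v => by
        rw [Finsupp.lsingle_apply, Finsupp.sum_single_index rfl]
      ρ_ρ := fun v n => by
        rw [Finsupp.lsingle_apply, Finsupp.lsingle_apply, Finsupp.single_apply]
        split_ifs with h
        · rw [h]
        · rw [Finsupp.single_zero, Finsupp.single_zero]
      d := 0
      d_d := fun v => rfl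
      ρ_d := fun v n => by simp }
  mul := LinearMap.mul k k
  one := 1
  one_mul := fun a => by simp
  mul_one := fun a => by simp
  mul_assoc := fun a b c => by simp [mul_assoc]
  one_deg := rfl
  mul_deg := fun {i j a b} ha hb => by
    change Finsupp.lsingle 0 a = Finsupp.single i a at ha
    change Finsupp.lsingle 0 b = Finsupp.single j b at hb
    change Finsupp.lsingle 0 (a * b) = Finsupp.single (i + j) (a * b)
    rw [Finsupp.lsingle_apply, Finsupp.single_eq_single_iff] at ha hb
    rw [Finsupp.lsingle_apply]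
    rcases ha with ⟨hi, -⟩ | ⟨ha, -⟩
    · rcases hb with ⟨hj, -⟩ | ⟨hb, -⟩
      · rw [← hi, ← hj, add_zero]
      · rw [hb, mul_zero, Finsupp.single_zero, Finsupp.single_zero]
    · rw [ha, zero_mul, Finsupp.single_zero, Finsupp.single_zero]
  leibniz := fun a b => by simp

theorem base_deg (c : k) : (base k).dg.IsDeg 0 c := rfl

theorem base_o (c : k) : (base k).dg.o c = 0 := Dg.o_of_even (base_deg c) Even.zero

theorem base_s (c : k) : (base k).dg.s c = c := Dg.s_of_even (base_o c)

theorem base_d (c : k) : (base k).dg.d c = 0 := rfl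

theorem base_smul (c : k) : c • (base k).one = c := mul_one c

theorem base_l (M : Bim (base k) B) (c : k) (m : M.M) : M.l c m = c • m := by
  have h : M.l (c • (base k).one) m = c • m := by
    rw [map_smul, LinearMap.smul_apply, M.l_one]
  rwa [base_smul] at h

theorem base_r (M : Bim A (base k)) (c : k) (m : M.M) : M.r c m = c • m := by
  have h : M.r (c • (base k).one) m = c • m := by
    rw [map_smul, LinearMap.smul_apply, M.r_one]
  rwa [base_smul] at h

theorem base_deg_cases {i : ℤ} {c : k} (h : (base k).dg.IsDeg i c) : i = 0 ∨ c = 0 := by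
  change Finsupp.lsingle 0 c = Finsupp.single i c at h
  rw [Finsupp.lsingle_apply, Finsupp.single_eq_single_iff] at h
  rcases h with ⟨hi, -⟩ | ⟨ha, -⟩
  · exact Or.inl hi.symm
  · exact Or.inr ha

theorem DGA.s_one (A : DGA k) : A.dg.s A.one = A.one :=
  Dg.s_of_even (Dg.o_of_even A.one_deg Even.zero)

theorem DGA.o_one (A : DGA k) : A.dg.o A.one = 0 := Dg.o_of_even A.one_deg Even.zero

theorem DGA.d_one (A : DGA k) : A.dg.d A.one = 0 := by
  have h1 := A.leibniz A.one A.one
  rw [A.one_mul, A.mul_one, A.s_one, A.one_mul] at h1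
  exact left_eq_add.1 h1

/-- The morphism `k → A`. -/
noncomputable def DHom.unit (A : DGA k) : DHom (base k) A where
  f := LinearMap.toSpanSingleton k A.A A.one
  deg := fun {i a} ha => by
    rcases base_deg_cases ha with hi | ha
    · rw [hi]
      exact Dg.IsDeg.smul (k := k) a A.one_deg
    · rw [show a = 0 from ha, map_zero]
      exact Dg.IsDeg.zero i
  d := fun (a : k) => by
    change A.dg.d (a • A.one) = (0 : k) • A.one
    rw [map_smul, A.d_one, smul_zero, zero_smul]
  one := one_smul k A.one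
  mul := fun (a b : k) => by
    change (a * b) • A.one = A.mul (a • A.one) (b • A.one)
    rw [map_smul, map_smul, LinearMap.smul_apply, A.one_mul, smul_smul, mul_comm]

/-- The underlying complex, as a `k`-`k`-bimodule. -/
noncomputable def und (M : Bim A B) : Bim (base k) (base k) := res (DHom.unit A) (DHom.unit B) M

/-- The underlying left module. -/
noncomputable def fgR (M : Bim A B) : Bim A (base k) := res (DHom.id A) (DHom.unit B) M

/-- The underlying right module. -/
noncomputable def fgL (M : Bim A B) : Bim (base k) B := res (DHom.unit A) (DHom.id B) M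

end Pool.Agent.MP_6e5bed_ag_NC
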