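import Pool.Agent.Lib.MP_6e5bed_ag_NC.Kz
import Pool.Agent.Lib.MP_6e5bed_ag_NC.Res

set_option autoImplicit false

/-!
# The tensor product of dg algebras and the external tensor product of bimodules
-/

namespace Pool.Agent.MP_6e5bed_ag_NC

open scoped TensorProduct

universe u

variable {k : Type u} [CommRing k] {A B C A' B' C' : DGA k}

/-- The right multiplication, as a function of `m` and `b`. -/
def Bim.rr (M : Bim A B) : M.M →ₗ[k] B.A →ₗ[k] M.M := M.r.flip

theorem Bim.rr_apply (M : Bim A B) (m : M.M) (b : B.A) : M.rr m b = M.r b m := rfl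

theorem Bim.s_rr (M : Bim A B) (m : M.M) (b : B.A) :
    M.dg.s (M.rr m b) = M.rr (M.dg.s m) (B.dg.s b) := M.s_r b m

theorem Bim.o_rr (M : Bim A B) (m : M.M) (b : B.A) :
    M.dg.o (M.rr m b) = M.rr (M.dg.o m) b + M.rr m (B.dg.o b) -
      (2 : k) • M.rr (M.dg.o m) (B.dg.o b) := by
  rw [M.rr_apply, M.o_r]
  simp only [M.rr_apply]
  abel

theorem Bim.rr_deg (M : Bim A B) {i j : ℤ} {m : M.M} {b : B.A} (hm : M.dg.IsDeg i m)
    (hb : B.dg.IsDeg j b) : M.dg.IsDeg (i + j) (M.rr m b) := M.r_deg hm hb

theorem Bim.d_rr (M : Bim A B) (m : M.M) (b : B.A) :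
    M.dg.d (M.rr m b) = M.rr (M.dg.d m) b + M.rr (M.dg.s m) (B.dg.d b) := M.d_r b m

/-- The tensor product `A ⊗ A'`, with `(a ⊗ a')(b ⊗ b') = (-1)^(|a'||b|) ab ⊗ a'b'`. -/
noncomputable def DGA.tensor (A A' : DGA k) : DGA k where
  A := A.A ⊗[k] A'.A
  dg := A.dg.tensor A'.dg
  mul := kz A.dg A'.dg A.mul A'.mul
  one := A.one ⊗ₜ A'.one
  one_mul := fun x => by
    induction x using TensorProduct.induction_on with
    | zero => simp
    | add x y hx hy => rw [map_add, hx, hy]
    | tmul a a' => rw [kz_even A'.o_one, A.one_mul, A'.one_mul]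
  mul_one := fun x => by
    induction x using TensorProduct.induction_on with
    | zero => simp
    | add x y hx hy => rw [map_add, LinearMap.add_apply, hx, hy]
    | tmul a a' => rw [kz_even' A.o_one, A.mul_one, A'.mul_one]
  mul_assoc := fun x y z => kz_assoc A.mul_assoc A'.mul_assoc A.s_mul A'.o_mul x y z
  one_deg := by
    have h := Dg.tensor_deg A.one_deg A'.one_deg
    rwa [add_zero] at h
  mul_deg := fun hx hy => kz_deg (fun h h' => A.mul_deg h h') (fun h h' => A'.mul_deg h h') hx hy
  leibniz := fun x y => kz_d A.leibniz A.s_mul A'.leibniz x y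

theorem DGA.tensor_mul_tmul (A A' : DGA k) (a b : A.A) (a' b' : A'.A) :
    (A.tensor A').mul (a ⊗ₜ a') (b ⊗ₜ b') =
      A.mul a b ⊗ₜ A'.mul a' b' - (2 : k) • A.mul a (A.dg.o b) ⊗ₜ A'.mul (A'.dg.o a') b' :=
  kz_tmul a a' b b'

/-- The external tensor product of bimodules:
`(a ⊗ a')(m ⊗ m')(b ⊗ b') = ± amb ⊗ a'm'b'`, where the sign comes from the exchange of `a'` and
`m` and from the exchange of `m'` (and `a'`) and `b`. -/
noncomputable def box (M : Bim A B) (M' : Bim A' B') : Bim (A.tensor A') (B.tensor B') where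
  M := M.M ⊗[k] M'.M
  dg := M.dg.tensor M'.dg
  l := kz M.dg A'.dg M.l M'.l
  r := (kz B.dg M'.dg M.rr M'.rr).flip
  l_one := fun x => by
    change kz M.dg A'.dg M.l M'.l (A.one ⊗ₜ A'.one) x = x
    induction x using TensorProduct.induction_on with
    | zero => simp
    | add x y hx hy => rw [map_add, hx, hy]
    | tmul a a' => rw [kz_even A'.o_one, M.l_one, M'.l_one]
  r_one := fun x => by
    change kz B.dg M'.dg M.rr M'.rr x (B.one ⊗ₜ B'.one) = x
    induction x using TensorProduct.induction_on with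
    | zero => simp
    | add x y hx hy => rw [map_add, LinearMap.add_apply, hx, hy]
    | tmul a a' => rw [kz_even' B.o_one, Bim.rr_apply, Bim.rr_apply, M.r_one, M'.r_one]
  l_mul := fun x y z => kz_assoc M.l_mul M'.l_mul M.s_l A'.o_mul x y z
  r_mul := fun x y z => (kz_assoc (α1 := M.rr) (α2 := M.rr) (α3 := B.mul) (α4 := M.rr)
    (β1 := M'.rr) (β2 := M'.rr) (β3 := B'.mul) (β4 := M'.rr)
    (fun a b c => (M.r_mul b c a).symm) (fun a b c => (M'.r_mul b c a).symm) B.s_mul M'.o_rr
    z x y).symm
  l_r := fun x y z => (kz_assoc (α1 := M.l) (α2 := M.rr) (α3 := M.rr) (α4 := M.l)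
    (β1 := M'.l) (β2 := M'.rr) (β3 := M'.rr) (β4 := M'.l)
    (fun a b c => (M.l_r a c b).symm) (fun a b c => (M'.l_r a c b).symm) M.s_rr M'.o_l
    x z y).symm
  l_deg := fun hx hy => kz_deg (fun h h' => M.l_deg h h') (fun h h' => M'.l_deg h h') hx hy
  r_deg := fun hx hy => kz_deg (fun h h' => M.rr_deg h h') (fun h h' => M'.rr_deg h h') hx hy
  d_l := fun x y => kz_d M.d_l M.s_l M'.d_l x y
  d_r := fun x y => kz_d M.d_rr M.s_rr M'.d_rr y x

theorem box_l (M : Bim A B) (M' : Bim A' B') (x : (A.tensor A').A) (y : (box M M').M) :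
    (box M M').l x y = kz M.dg A'.dg M.l M'.l x y := rfl

theorem box_r (M : Bim A B) (M' : Bim A' B') (x : (B.tensor B').A) (y : (box M M').M) :
    (box M M').r x y = kz B.dg M'.dg M.rr M'.rr y x := rfl

/-- The tensor product of morphisms of dg algebras. -/
noncomputable def DHom.tensor (φ : DHom A B) (φ' : DHom A' B') :
    DHom (A.tensor A') (B.tensor B') where
  f := TensorProduct.map φ.f φ'.f
  deg := fun {i x} hx => by
    have h := Dg.tensor_degMap (X := A.dg) (Y := A'.dg) (Z := B.dg.tensor B'.dg) (n := 0)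
      (TensorProduct.map φ.f φ'.f) (fun i j v w hv hw => by
        rw [add_zero, TensorProduct.map_tmul]
        exact Dg.tensor_deg (φ.deg hv) (φ'.deg hw)) hx
    rwa [add_zero] at h
  d := fun x => by
    change (B.dg.tensor B'.dg).d (TensorProduct.map φ.f φ'.f x) =
      TensorProduct.map φ.f φ'.f ((A.dg.tensor A'.dg).d x)
    induction x using TensorProduct.induction_on with
    | zero => simp
    | add x y hx hy => simp only [map_add, hx, hy]
    | tmul a a' =>
      simp only [TensorProduct.map_tmul, Dg.tensor_d, map_add, φ.d, φ'.d, φ.s]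
  one := by
    change TensorProduct.map φ.f φ'.f (A.one ⊗ₜ A'.one) = B.one ⊗ₜ B'.one
    rw [TensorProduct.map_tmul, φ.one, φ'.one]
  mul := fun x y => by
    change TensorProduct.map φ.f φ'.f (kz A.dg A'.dg A.mul A'.mul x y) =
      kz B.dg B'.dg B.mul B'.mul (TensorProduct.map φ.f φ'.f x) (TensorProduct.map φ.f φ'.f y)
    induction x using TensorProduct.induction_on with
    | zero => simp
    | add x x' hx hx' => simp only [map_add, LinearMap.add_apply, hx, hx']
    | tmul a a' =>
      induction y using TensorProduct.induction_on with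
      | zero => simp
      | add y y' hy hy' => simp only [map_add, hy, hy']
      | tmul b b' =>
        rw [kz_tmul, TensorProduct.map_tmul, TensorProduct.map_tmul, kz_tmul, map_sub, map_smul,
          TensorProduct.map_tmul, TensorProduct.map_tmul, φ.mul, φ'.mul, φ.mul, φ'.mul, φ.o,
          φ'.o]

theorem DHom.tensor_f (φ : DHom A B) (φ' : DHom A' B') (a : A.A) (a' : A'.A) :
    (φ.tensor φ').f (a ⊗ₜ a') = φ.f a ⊗ₜ φ'.f a' := rfl

/-- The tensor product of isomorphisms of dg algebras. -/
noncomputable def DIso.tensor (φ : DIso A B) (φ' : DIso A' B') :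
    DIso (A.tensor A') (B.tensor B') where
  hom := φ.hom.tensor φ'.hom
  inv := φ.inv.tensor φ'.inv
  hom_inv := fun x => by
    change TensorProduct.map φ.inv.f φ'.inv.f (TensorProduct.map φ.hom.f φ'.hom.f x) = x
    induction x using TensorProduct.induction_on with
    | zero => simp
    | add x y hx hy => rw [map_add, map_add, hx, hy]
    | tmul a a' => rw [TensorProduct.map_tmul, TensorProduct.map_tmul, φ.hom_inv, φ'.hom_inv]
  inv_hom := fun x => by
    change TensorProduct.map φ.hom.f φ'.hom.f (TensorProduct.map φ.inv.f φ'.inv.f x) = x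
    induction x using TensorProduct.induction_on with
    | zero => simp
    | add x y hx hy => rw [map_add, map_add, hx, hy]
    | tmul a a' => rw [TensorProduct.map_tmul, TensorProduct.map_tmul, φ.inv_hom, φ'.inv_hom]

end Pool.Agent.MP_6e5bed_ag_NC
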