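import Pool.Agent.Lib.MP_6e5bed_ag_NC.Fun

set_option autoImplicit false

/-!
# Acyclic bimodules
-/

namespace Pool.Agent.MP_6e5bed_ag_NC

universe u

variable {k : Type u} [CommRing k] {A B : DGA k}

theorem Contr.acyc {M : Bim A B} (h : Contr M) : Acyc M := by
  obtain ⟨h, hh⟩ := h
  intro x hx
  refine ⟨h.f x, ?_⟩
  have h1 : h.dd x = x := by rw [hh, LinearMap.id_apply]
  rw [GMap.dd_apply, hx, map_zero, smul_zero, sub_zero] at h1
  exact h1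

theorem Acyc.summand {M' M : Bim A B} (h : IsSummand M' M) (hM : Acyc M) : Acyc M' := by
  obtain ⟨i, r, hi, hr, hri⟩ := h
  intro x hx
  obtain ⟨y, hy⟩ := hM (i.f x) (by rw [GMap.d_f_zero hi, hx, map_zero])
  exact ⟨r.f y, by rw [GMap.d_f_zero hr, hy, hri]⟩

theorem Acyc.iso {M N : Bim A B} (h : BIso M N) (hM : Acyc M) : Acyc N :=
  Acyc.summand h.summand hM

theorem Acyc.mid {M' M M'' : Bim A B} (h : IsExt M' M M'') (h' : Acyc M') (h'' : Acyc M'') :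
    Acyc M := by
  obtain ⟨i, p, r, σ, hi, hp, hri, hpσ, hpi, hrσ, hs⟩ := h
  intro x hx
  obtain ⟨z, hz⟩ := h'' (p.f x) (by rw [GMap.d_f_zero hp, hx, map_zero])
  have hpw : p.f (x - M.dg.d (σ.f z)) = 0 := by
    rw [map_sub, ← GMap.d_f_zero hp, hpσ, hz, sub_self]
  have hw : i.f (r.f (x - M.dg.d (σ.f z))) = x - M.dg.d (σ.f z) := by
    have h1 := hs (x - M.dg.d (σ.f z))
    rwa [hpw, map_zero, add_zero] at h1
  have hc : M'.dg.d (r.f (x - M.dg.d (σ.f z))) = 0 := by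
    rw [← hri (M'.dg.d (r.f (x - M.dg.d (σ.f z)))), ← GMap.d_f_zero hi, hw, map_sub, hx,
      M.dg.d_d, sub_zero, map_zero]
  obtain ⟨y, hy⟩ := h' _ hc
  refine ⟨i.f y + σ.f z, ?_⟩
  rw [map_add, GMap.d_f_zero hi, hy, hw, sub_add_cancel]

theorem Acyc.left {M' M M'' : Bim A B} (h : IsExt M' M M'') (hM : Acyc M) (h'' : Acyc M'') :
    Acyc M' := by
  obtain ⟨i, p, r, σ, hi, hp, hri, hpσ, hpi, hrσ, hs⟩ := h
  intro x hx
  obtain ⟨z, hz⟩ := hM (i.f x) (by rw [GMap.d_f_zero hi, hx, map_zero])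
  obtain ⟨w, hw⟩ := h'' (p.f z) (by rw [GMap.d_f_zero hp, hz, hpi])
  have hpv : p.f (z - M.dg.d (σ.f w)) = 0 := by
    rw [map_sub, ← GMap.d_f_zero hp, hpσ, hw, sub_self]
  have hv : i.f (r.f (z - M.dg.d (σ.f w))) = z - M.dg.d (σ.f w) := by
    have h1 := hs (z - M.dg.d (σ.f w))
    rwa [hpv, map_zero, add_zero] at h1
  refine ⟨r.f (z - M.dg.d (σ.f w)), ?_⟩
  rw [← hri (M'.dg.d (r.f (z - M.dg.d (σ.f w)))), ← GMap.d_f_zero hi, hv, map_sub, hz,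
    M.dg.d_d, sub_zero, hri]

theorem Acyc.right {M' M M'' : Bim A B} (h : IsExt M' M M'') (h' : Acyc M') (hM : Acyc M) :
    Acyc M'' := by
  obtain ⟨i, p, r, σ, hi, hp, hri, hpσ, hpi, hrσ, hs⟩ := h
  intro x hx
  have hpu : p.f (M.dg.d (σ.f x)) = 0 := by
    rw [← GMap.d_f_zero hp, hpσ, hx]
  have hu : i.f (r.f (M.dg.d (σ.f x))) = M.dg.d (σ.f x) := by
    have h1 := hs (M.dg.d (σ.f x))
    rwa [hpu, map_zero, add_zero] at h1
  have hc : M'.dg.d (r.f (M.dg.d (σ.f x))) = 0 := by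
    rw [← hri (M'.dg.d (r.f (M.dg.d (σ.f x)))), ← GMap.d_f_zero hi, hu, M.dg.d_d, map_zero]
  obtain ⟨z, hz⟩ := h' _ hc
  obtain ⟨w, hw⟩ := hM (σ.f x - i.f z) (by
    rw [map_sub, GMap.d_f_zero hi, hz, hu, sub_self])
  refine ⟨p.f w, ?_⟩
  rw [GMap.d_f_zero hp, hw, map_sub, hpσ, hpi, sub_zero]

/-- A closed morphism is a quasi-isomorphism if and only if its cone is acyclic. -/
theorem IsCone.qiso_iff {M N C : Bim A B} {φ : GMap 0 M N} (hφ : φ.dd = 0) (h : IsCone φ C) :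
    QIso φ ↔ Acyc C := by
  obtain ⟨t, j, p, q, hp, hj, ht, hpt, hqj, hpj, hqt, hs⟩ := h
  have hdp : ∀ c, M.dg.d (p.f c) = - p.f (C.dg.d c) := fun c => by
    rw [GMap.d_f hp, sg_one, neg_smul, one_smul]
  have hdj : ∀ y, C.dg.d (j.f y) = j.f (N.dg.d y) := fun y => GMap.d_f_zero hj y
  have hdt : ∀ x, C.dg.d (t.f x) = j.f (φ.f x) - t.f (M.dg.d x) := fun x => by
    have h1 := ht x
    rw [GMap.dd_apply, sg_neg, sg_one, neg_smul, one_smul, sub_neg_eq_add] at h1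
    rw [← h1, add_sub_cancel_right]
  have hinj : ∀ y, j.f y = 0 → y = 0 := fun y hy => by rw [← hqj y, hy, map_zero]
  have hdφ : ∀ x, N.dg.d (φ.f x) = φ.f (M.dg.d x) := fun x => GMap.d_f_zero hφ x
  constructor
  · rintro ⟨-, hi, hsu⟩ c hc
    have hx : M.dg.d (p.f c) = 0 := by rw [hdp, hc, map_zero, neg_zero]
    have hy : φ.f (p.f c) + N.dg.d (q.f c) = 0 := by
      apply hinj
      have h1 : C.dg.d (t.f (p.f c) + j.f (q.f c)) = 0 := by rw [hs, hc]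
      rw [map_add, hdt, hx, map_zero, sub_zero, hdj, ← map_add] at h1
      exact h1
    obtain ⟨z, hz⟩ := hi (p.f c) hx ⟨- q.f c, by
      rw [map_neg, neg_eq_iff_add_eq_zero, add_comm]
      exact hy⟩
    obtain ⟨x', hx', w, hw⟩ := hsu (q.f c + φ.f z) (by
      rw [map_add, hdφ, hz, add_comm]
      exact hy)
    refine ⟨t.f (x' - z) + j.f w, ?_⟩
    rw [map_add, hdt, hdj, hw, map_sub M.dg.d, hx', hz, zero_sub, map_neg, sub_neg_eq_add]
    conv_rhs => rw [← hs c]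
    rw [map_sub φ.f, map_sub j.f, map_sub j.f, map_add j.f]
    abel
  · intro hC
    refine ⟨hφ, ?_, ?_⟩
    · rintro x hx ⟨y, hy⟩
      obtain ⟨e, he⟩ := hC (t.f x - j.f y) (by
        rw [map_sub, hdt, hx, map_zero, sub_zero, hdj, hy, sub_self])
      refine ⟨- p.f e, ?_⟩
      rw [map_neg, hdp, neg_neg, he, map_sub, hpt, hpj, sub_zero]
    · intro y hy
      obtain ⟨e, he⟩ := hC (j.f y) (by rw [hdj, hy, map_zero])
      have hu : M.dg.d (p.f e) = 0 := by rw [hdp, he, hpj, neg_zero]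
      refine ⟨p.f e, hu, q.f e, ?_⟩
      have h1 : C.dg.d (t.f (p.f e) + j.f (q.f e)) = j.f y := by rw [hs, he]
      rw [map_add, hdt, hu, map_zero, sub_zero, hdj, ← map_add] at h1
      have h2 : φ.f (p.f e) + N.dg.d (q.f e) = y := by
        rw [← hqj (φ.f (p.f e) + N.dg.d (q.f e)), h1, hqj]
      rw [← h2, add_sub_cancel_left]

theorem QIso.comp {M N P : Bim A B} {φ : GMap 0 M N} {ψ : GMap 0 N P} (h : QIso φ)
    (h' : QIso ψ) : QIso (φ.comp ψ (add_zero 0)) := by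
  obtain ⟨h0, h1, h2⟩ := h
  obtain ⟨h0', h1', h2'⟩ := h'
  refine ⟨?_, ?_, ?_⟩
  · ext x
    rw [GMap.dd_comp, h0, h0']
    simp
  · rintro x hx ⟨y, hy⟩
    exact h1 x hx (h1' (φ.f x) (by rw [GMap.d_f_zero h0, hx, map_zero]) ⟨y, hy⟩)
  · intro y hy
    obtain ⟨x, hx, z, hz⟩ := h2' y hy
    obtain ⟨x', hx', z', hz'⟩ := h2 x hx
    refine ⟨x', hx', z + ψ.f z', ?_⟩
    rw [map_add, hz, GMap.d_f_zero h0', hz', map_sub, GMap.comp_f]
    abel

theorem qiso_of_inv {M N : Bim A B} {φ : GMap 0 M N} {ψ : GMap 0 N M} (h0 : φ.dd = 0)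
    (h1 : ∀ m, ψ.f (φ.f m) = m) (h2 : ∀ n, φ.f (ψ.f n) = n) : QIso φ := by
  have hψ : ψ.dd = 0 := BIso.closed_inv h0 h1 h2
  refine ⟨h0, ?_, ?_⟩
  · rintro x _ ⟨y, hy⟩
    exact ⟨ψ.f y, by rw [GMap.d_f_zero hψ, hy, h1]⟩
  · intro y hy
    refine ⟨ψ.f y, by rw [GMap.d_f_zero hψ, hy, map_zero], 0, ?_⟩
    rw [map_zero, h2, sub_self]

end Pool.Agent.MP_6e5bed_ag_NC
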