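import Pool.Agent.Lib.MP_6e5bed_ag_NC.Perf
import Pool.Agent.Lib.MP_6e5bed_ag_NC.Res

set_option autoImplicit false

/-!
# Smooth and proper dg algebras over a commutative ring
-/

namespace Pool.Agent.MP_6e5bed_ag_NC

universe u

variable {k : Type u} [CommRing k] {A B : DGA k}

/-- The closed morphism `φ` of degree `0` is a homotopy equivalence. -/
def HtpyEq {M N : Bim A B} (φ : GMap 0 M N) : Prop :=
  φ.dd = 0 ∧ ∃ (ψ : GMap 0 N M) (h : GMap (-1) M M) (h' : GMap (-1) N N),
    ψ.dd = 0 ∧ (∀ x, h.dd x = x - ψ.f (φ.f x)) ∧ ∀ y, h'.dd y = y - φ.f (ψ.f y)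

/-- The closed morphism `φ` of degree `0` is a homotopy equivalence of the underlying complexes
of `k`-modules. Over a field this means that `φ` is a quasi-isomorphism. -/
def RQIso {M N : Bim A B} (φ : GMap 0 M N) : Prop :=
  HtpyEq (GMap.res (DHom.unit A) (DHom.unit B) φ)

/-- The underlying complex of `k`-modules of `M` is contractible. Over a field this means that
`M` is acyclic. -/
def RAc (M : Bim A B) : Prop := Contr (und M)

/-- The diagonal bimodule has a perfect resolution: there is a morphism from a perfect bimodule
to it which is a homotopy equivalence of complexes of `k`-modules. -/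
def Smooth (A : DGA k) : Prop := ∃ (P : Bim A A) (φ : GMap 0 P (diag A)), Perf P ∧ RQIso φ

/-- The underlying complex of `k`-modules of `A` is perfect. Over a field this means that the
total cohomology of `A` is finite-dimensional. -/
def Proper (A : DGA k) : Prop := Perf (und (diag A))

end Pool.Agent.MP_6e5bed_ag_NC
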