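import Pool.Agent.Lib.MP_6e5bed_ag_NC.NullTo
import Pool.Agent.Lib.MP_6e5bed_ag_NC.Acy
import Pool.Agent.Lib.MP_6e5bed_ag_NC.Sm
import Pool.Agent.Lib.MP_6e5bed_ag_NC.FBend

set_option autoImplicit false

/-!
# Homotopy equivalences
-/

namespace Pool.Agent.MP_6e5bed_ag_NC

universe u

variable {k : Type u} [CommRing k] {A B A' B' : DGA k} {M N P C : Bim A B}

theorem HtpyEq.of_inv {φ : GMap 0 M N} {ψ : GMap 0 N M} (h0 : φ.dd = 0)
    (h1 : ∀ m, ψ.f (φ.f m) = m) (h2 : ∀ n, φ.f (ψ.f n) = n) : HtpyEq φ := by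
  refine ⟨h0, ψ, 0, 0, BIso.closed_inv h0 h1 h2, fun x => ?_, fun y => ?_⟩
  · rw [GMap.dd_zero, h1, sub_self]
  · rw [GMap.dd_zero, h2, sub_self]

theorem HtpyEq.exists_symm {φ : GMap 0 M N} (h : HtpyEq φ) : ∃ ψ : GMap 0 N M, HtpyEq ψ := by
  obtain ⟨h0, ψ, u, v, h1, h2, h3⟩ := h
  exact ⟨ψ, h1, φ, v, u, h0, h3, h2⟩

theorem HtpyEq.comp {φ : GMap 0 M N} {ψ : GMap 0 N P} (h : HtpyEq φ) (h' : HtpyEq ψ) :
    HtpyEq (φ.comp ψ (add_zero 0)) := by
  obtain ⟨h0, φ', u, v, h1, h2, h3⟩ := h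
  obtain ⟨k0, ψ', u', v', k1, k2, k3⟩ := h'
  refine ⟨?_, ψ'.comp φ' (add_zero 0), u + (φ.comp (u'.comp φ' (add_zero (-1)))
      (zero_add (-1))), v' + (ψ'.comp (v.comp ψ (add_zero (-1))) (zero_add (-1))), ?_, ?_, ?_⟩
  · ext x
    rw [GMap.dd_comp, h0, k0]
    simp
  · ext x
    rw [GMap.dd_comp, h1, k1]
    simp
  · intro x
    rw [GMap.dd_add, GMap.dd_comp, GMap.dd_comp, h0, h1, h2, k2]
    simp only [LinearMap.zero_apply, map_zero, smul_zero, add_zero, zero_add, sg_zero, one_smul,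
      map_sub, GMap.comp_f]
    abel
  · intro x
    rw [GMap.dd_add, GMap.dd_comp, GMap.dd_comp, k0, k1, h3, k3]
    simp only [LinearMap.zero_apply, map_zero, smul_zero, add_zero, zero_add, sg_zero, one_smul,
      map_sub, GMap.comp_f]
    abel

theorem HtpyEq.map {k' : Type u} [CommRing k'] {A' B' : DGA k'} (F : DGFun A B A' B') {φ : GMap 0 M N} (h : HtpyEq φ) : HtpyEq (F.map φ) := by
  obtain ⟨h0, ψ, u, v, h1, h2, h3⟩ := h
  refine ⟨F.closed h0, F.map ψ, F.map u, F.map v, F.closed h1, fun x => ?_, fun y => ?_⟩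
  · have e : u.D (neg_add_cancel 1) + φ.comp ψ (add_zero 0) = GMap.id M := GMap.ext (fun x => by
      rw [GMap.add_f, GMap.D_f, GMap.comp_f, h2, GMap.id_f, sub_add_cancel])
    have e1 := F.map_add (u.D (neg_add_cancel 1)) (φ.comp ψ (add_zero 0)) x
    rw [e, F.map_id, F.map_D, F.map_comp] at e1
    rw [eq_sub_iff_add_eq]
    exact e1.symm
  · have e : v.D (neg_add_cancel 1) + ψ.comp φ (add_zero 0) = GMap.id N := GMap.ext (fun x => by
      rw [GMap.add_f, GMap.D_f, GMap.comp_f, h3, GMap.id_f, sub_add_cancel])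
    have e1 := F.map_add (v.D (neg_add_cancel 1)) (ψ.comp φ (add_zero 0)) y
    rw [e, F.map_id, F.map_D, F.map_comp] at e1
    rw [eq_sub_iff_add_eq]
    exact e1.symm

theorem IsCone.q_dd {φ : GMap 0 M N} {t : GMap (-1) M C} {j : GMap 0 N C} {p : GMap 1 C M}
    {q : GMap 0 C N} (h1 : j.dd = 0) (h2 : ∀ x, t.dd x = j.f (φ.f x))
    (h4 : ∀ y, q.f (j.f y) = y) (h6 : ∀ x, q.f (t.f x) = 0)
    (h7 : ∀ c, t.f (p.f c) + j.f (q.f c) = c) (c : C.M) :
    q.dd c = - φ.f (p.f c) := by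
  have e1 : ∀ y, q.dd (j.f y) = 0 := fun y => by
    have h := GMap.dd_of_inv h4 y
    rwa [h1, LinearMap.zero_apply, map_zero, add_zero] at h
  have e2 : ∀ x, q.dd (t.f x) = - φ.f x := fun x => by
    have h := GMap.dd_comp t q (add_zero (-1)) x
    have h8 : t.comp q (add_zero (-1)) = 0 := GMap.ext (fun x => h6 x)
    rw [h8, GMap.dd_zero, h2, h4, sg_zero, one_smul] at h
    exact eq_neg_of_add_eq_zero_left h.symm
  conv_lhs => rw [← h7 c]
  rw [map_add, e1, e2, add_zero]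

/-- The cone of a homotopy equivalence is contractible. -/
theorem HtpyEq.contr {φ : GMap 0 M N} (h : HtpyEq φ) (hC : IsCone φ C) : Contr C := by
  apply contr_of_nullTo
  intro n m f hf hm
  obtain ⟨e0, ψ, u, v, e1, e2, e3⟩ := h
  obtain ⟨t, j, p, q, h0, h1, h2, h3, h4, h5, h6, h7⟩ := hC
  have hq := IsCone.q_dd h1 h2 h4 h6 h7
  -- a null homotopy on `N`
  obtain ⟨K, hK⟩ : ∃ K : GMap m N C, ∀ y, K.dd y = f.f (j.f y) := by
    refine ⟨sg n • (ψ.comp (t.comp f (show -1 + n = m by omega)) (zero_add m) +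
      v.comp (j.comp f (zero_add n)) (show -1 + n = m by omega)), fun y => ?_⟩
    rw [GMap.dd_smul, GMap.dd_add, GMap.dd_comp, GMap.dd_comp, GMap.dd_comp, GMap.dd_comp, hf, h1,
      e1, e3]
    simp only [LinearMap.zero_apply, map_zero, smul_zero, add_zero, zero_add, map_sub,
      GMap.comp_f, h2, smul_add, smul_sub, smul_smul, sg_mul_self, one_smul]
    abel
  obtain ⟨g, hg⟩ : ∃ g : GMap n C C, g = f - (q.comp K (zero_add m)).D hm := ⟨_, rfl⟩
  have hgj : ∀ y, g.f (j.f y) = 0 := fun y => by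
    rw [hg, GMap.sub_f, GMap.D_f, GMap.dd_comp, hK, h4, hq, h5, map_zero, neg_zero, map_zero,
      smul_zero, add_zero, sub_self]
  have hgd : g.dd = 0 := by
    ext x
    rw [hg, GMap.dd_sub, hf, GMap.dd_D, LinearMap.zero_apply, sub_self]
  have hgt : ∀ c, g.f (t.f (p.f c)) = g.f c := fun c => by
    conv_rhs => rw [← h7 c]
    rw [map_add, hgj, add_zero]
  obtain ⟨w, hw⟩ : ∃ w : GMap m M C, w = t.comp g (show -1 + n = m by omega) := ⟨_, rfl⟩
  have hwd : ∀ x, w.dd x = 0 := fun x => by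
    rw [hw, GMap.dd_comp, hgd, h2, hgj, LinearMap.zero_apply, smul_zero, add_zero]
  have hwd' : w.dd = 0 := LinearMap.ext hwd
  have hwp : ∀ c, w.f (p.f c) = g.f c := fun c => by rw [hw, GMap.comp_f, hgt]
  have hsn : sg n = - sg m := by rw [← hm, sg_add, sg_one, mul_neg_one]
  refine ⟨q.comp K (zero_add m) + (sg n • (q.comp (ψ.comp w (zero_add m)) (zero_add m)) +
    sg m • (p.comp (u.comp w (show -1 + m = m - 1 by omega)) (by omega))), fun c => ?_⟩
  rw [GMap.dd_add, GMap.dd_add, GMap.dd_smul, GMap.dd_smul, GMap.dd_comp q (ψ.comp w _),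
    GMap.dd_comp p, GMap.dd_comp ψ, GMap.dd_comp u, hwd', e1, e2, h0, hq]
  simp only [LinearMap.zero_apply, map_zero, smul_zero, add_zero, zero_add, map_sub, map_neg,
      GMap.comp_f, smul_sub, smul_neg, smul_smul, sg_mul_self, one_smul, hwp, hsn]
  rw [hg, GMap.sub_f, GMap.D_f]
  simp only [neg_mul, sg_mul_self, neg_smul, one_smul, neg_neg]
  abel

/-- A morphism with a contractible cone is a homotopy equivalence. -/
theorem IsCone.htpyEq {φ : GMap 0 M N} (e0 : φ.dd = 0) (hC : IsCone φ C) (h : Contr C) :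
    HtpyEq φ := by
  obtain ⟨t, j, p, q, h0, h1, h2, h3, h4, h5, h6, h7⟩ := hC
  obtain ⟨h, hh⟩ := h
  have hq := IsCone.q_dd h1 h2 h4 h6 h7
  refine ⟨e0, j.comp (h.comp p (neg_add_cancel 1)) (add_zero 0),
    - t.comp (h.comp p (neg_add_cancel 1)) (add_zero (-1)),
    j.comp (h.comp q (add_zero (-1))) (zero_add (-1)), ?_, fun x => ?_, fun y => ?_⟩
  · ext y
    rw [GMap.dd_comp, GMap.dd_comp, h0, h1, hh]
    simp only [LinearMap.zero_apply, map_zero, smul_zero, add_zero, zero_add, LinearMap.id_apply,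
      h5]
  · rw [GMap.dd_neg, GMap.dd_comp, GMap.dd_comp, h0, hh, h2]
    simp only [LinearMap.zero_apply, LinearMap.id_apply, sg_one, sg_zero, h3, GMap.comp_f]
    simp only [zero_add, one_smul, neg_smul]
    abel
  · rw [GMap.dd_comp, GMap.dd_comp, h1, hh, hq]
    simp only [LinearMap.zero_apply, LinearMap.id_apply, sg_zero, h4, GMap.comp_f]
    simp only [map_zero, smul_zero, add_zero, one_smul]
    abel

theorem IsCone.htpyEq_iff {φ : GMap 0 M N} (e0 : φ.dd = 0) (hC : IsCone φ C) :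
    HtpyEq φ ↔ Contr C := ⟨fun h => h.contr hC, fun h => hC.htpyEq e0 h⟩

theorem HtpyEq.qiso {φ : GMap 0 M N} (h : HtpyEq φ) : QIso φ := by
  obtain ⟨h0, ψ, u, v, h1, h2, h3⟩ := h
  refine ⟨h0, ?_, ?_⟩
  · rintro x hx ⟨y, hy⟩
    refine ⟨u.f x + ψ.f y, ?_⟩
    have e := h2 x
    rw [GMap.dd_apply, hx, map_zero, smul_zero, sub_zero] at e
    rw [map_add, e, GMap.d_f_zero h1, hy, sub_add_cancel]
  · intro y hy
    refine ⟨ψ.f y, by rw [GMap.d_f_zero h1, hy, map_zero], v.f y, ?_⟩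
    have e := h3 y
    rw [GMap.dd_apply, hy, map_zero, smul_zero, sub_zero] at e
    exact e

/-! ### Bimodules over the base -/

/-- Graded maps between bimodules over the base are graded linear maps. -/
def GMap.ofBase {V W : Bim (base k) (base k)} {n : ℤ} (f : V.M →ₗ[k] W.M)
    (hf : ∀ {i : ℤ} {v : V.M}, V.dg.IsDeg i v → W.dg.IsDeg (i + n) (f v)) : GMap n V W where
  f := f
  deg := hf
  map_l := fun (c : k) v => by
    have h1 : (base k).dg.sp n c = c := by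
      rcases Int.even_or_odd n with h | h
      · exact Dg.sp_even h c
      · rw [Dg.sp_odd h]
        exact base_s c
    rw [h1, base_l V c v, base_l W c (f v), map_smul]
  map_r := fun (c : k) v => by
    rw [base_r V c v, base_r W c (f v), map_smul]

/-- Isomorphisms of bimodules over the base are isomorphisms of complexes. -/
theorem BIso.ofBase {V W : Bim (base k) (base k)} (f : V.M →ₗ[k] W.M)
    (hf : ∀ {i : ℤ} {v : V.M}, V.dg.IsDeg i v → W.dg.IsDeg i (f v))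
    (hd : ∀ v, W.dg.d (f v) = f (V.dg.d v)) (hb : Function.Bijective f) : BIso V W :=
  BIso.of_bij (GMap.ofBase (n := 0) f (fun h => by rw [add_zero]; exact hf h))
    (LinearMap.ext (fun v => by
      rw [GMap.dd_apply, sg_zero, one_smul, LinearMap.zero_apply, sub_eq_zero]
      exact hd v)) hb

/-! ### The relative notions -/

theorem RAc.of_contr (h : Contr M) : RAc M :=
  (resF (DHom.unit A) (DHom.unit B)).contr h

theorem RAc.mid {M' M M'' : Bim A B} (h : IsExt M' M M'') (h' : RAc M') (h'' : RAc M'') :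
    RAc M := Contr.mid ((resF (DHom.unit A) (DHom.unit B)).isExt h) h' h''

theorem RAc.left {M' M M'' : Bim A B} (h : IsExt M' M M'') (h' : RAc M) (h'' : RAc M'') :
    RAc M' := Contr.left ((resF (DHom.unit A) (DHom.unit B)).isExt h) h' h''

theorem RAc.right {M' M M'' : Bim A B} (h : IsExt M' M M'') (h' : RAc M') (h'' : RAc M) :
    RAc M'' := Contr.right ((resF (DHom.unit A) (DHom.unit B)).isExt h) h' h''

theorem RAc.summand {M' M : Bim A B} (h : IsSummand M' M) (hM : RAc M) : RAc M' :=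
  Contr.summand ((resF (DHom.unit A) (DHom.unit B)).isSummand h) hM

theorem RAc.iso {M N : Bim A B} (h : BIso M N) (hM : RAc M) : RAc N :=
  RAc.summand h.summand hM

theorem RAc.acyc (h : RAc M) : Acyc M := by
  have h1 : Acyc (und M) := Contr.acyc h
  exact h1

theorem RQIso.closed {φ : GMap 0 M N} (h : RQIso φ) : φ.dd = 0 := h.1

theorem RQIso.of_htpyEq {φ : GMap 0 M N} (h : HtpyEq φ) : RQIso φ :=
  h.map (resF (DHom.unit A) (DHom.unit B))

theorem RQIso.of_inv {φ : GMap 0 M N} {ψ : GMap 0 N M} (h0 : φ.dd = 0)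
    (h1 : ∀ m, ψ.f (φ.f m) = m) (h2 : ∀ n, φ.f (ψ.f n) = n) : RQIso φ :=
  RQIso.of_htpyEq (HtpyEq.of_inv h0 h1 h2)

theorem RQIso.comp {φ : GMap 0 M N} {ψ : GMap 0 N P} (h : RQIso φ) (h' : RQIso ψ) :
    RQIso (φ.comp ψ (add_zero 0)) := HtpyEq.comp h h'

theorem IsCone.rqiso_iff {φ : GMap 0 M N} (e0 : φ.dd = 0) (hC : IsCone φ C) :
    RQIso φ ↔ RAc C := by
  have h1 : IsCone (GMap.res (DHom.unit A) (DHom.unit B) φ) (und C) :=
    (resF (DHom.unit A) (DHom.unit B)).isCone hC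
  exact h1.htpyEq_iff e0

theorem RQIso.qiso {φ : GMap 0 M N} (h : RQIso φ) : QIso φ := by
  have h1 : QIso (GMap.res (DHom.unit A) (DHom.unit B) φ) := HtpyEq.qiso h
  exact h1

/-- Relative quasi-isomorphisms only depend on the underlying morphism of complexes. -/
theorem RQIso.congr {M' N' : Bim A' B'} {φ : GMap 0 M N} {φ' : GMap 0 M' N'} (h : RQIso φ)
    (α : M.M ≃ₗ[k] M'.M) (β : N.M ≃ₗ[k] N'.M)
    (hα : ∀ n x, M'.dg.IsDeg n (α x) ↔ M.dg.IsDeg n x)
    (hβ : ∀ n x, N'.dg.IsDeg n (β x) ↔ N.dg.IsDeg n x)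
    (hαd : ∀ x, M'.dg.d (α x) = α (M.dg.d x)) (hβd : ∀ x, N'.dg.d (β x) = β (N.dg.d x))
    (hφ : ∀ x, φ'.f (α x) = β (φ.f x)) : RQIso φ' := by
  obtain ⟨α1, hα1⟩ : ∃ α1 : GMap 0 (und M) (und M'), ∀ x, α1.f x = α x :=
    ⟨GMap.ofBase (V := und M) (W := und M') α.toLinearMap (fun {i v} hv => by
      rw [add_zero]
      exact (hα i v).2 hv), fun x => rfl⟩
  obtain ⟨α2, hα2⟩ : ∃ α2 : GMap 0 (und M') (und M), ∀ x, α2.f x = α.symm x :=
    ⟨GMap.ofBase (V := und M') (W := und M) α.symm.toLinearMap (fun {i v} hv => by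
      rw [add_zero]
      refine (hα i _).1 ?_
      change M'.dg.IsDeg i (α (α.symm v))
      rw [α.apply_symm_apply]
      exact hv), fun x => rfl⟩
  obtain ⟨β1, hβ1⟩ : ∃ β1 : GMap 0 (und N) (und N'), ∀ x, β1.f x = β x :=
    ⟨GMap.ofBase (V := und N) (W := und N') β.toLinearMap (fun {i v} hv => by
      rw [add_zero]
      exact (hβ i v).2 hv), fun x => rfl⟩
  obtain ⟨β2, hβ2⟩ : ∃ β2 : GMap 0 (und N') (und N), ∀ x, β2.f x = β.symm x :=
    ⟨GMap.ofBase (V := und N') (W := und N) β.symm.toLinearMap (fun {i v} hv => by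
      rw [add_zero]
      refine (hβ i _).1 ?_
      change N'.dg.IsDeg i (β (β.symm v))
      rw [β.apply_symm_apply]
      exact hv), fun x => rfl⟩
  have hα12 : ∀ x, α2.f (α1.f x) = x := fun x => by rw [hα1, hα2, α.symm_apply_apply]
  have hα21 : ∀ x, α1.f (α2.f x) = x := fun x => by rw [hα2, hα1, α.apply_symm_apply]
  have hβ12 : ∀ x, β2.f (β1.f x) = x := fun x => by rw [hβ1, hβ2, β.symm_apply_apply]
  have hβ21 : ∀ x, β1.f (β2.f x) = x := fun x => by rw [hβ2, hβ1, β.apply_symm_apply]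
  have hα0 : α1.dd = 0 := LinearMap.ext (fun x => by
    rw [GMap.dd_apply, sg_zero, one_smul, LinearMap.zero_apply, sub_eq_zero, hα1, hα1]
    exact hαd x)
  have hβ0 : β1.dd = 0 := LinearMap.ext (fun x => by
    rw [GMap.dd_apply, sg_zero, one_smul, LinearMap.zero_apply, sub_eq_zero, hβ1, hβ1]
    exact hβd x)
  have h1 : HtpyEq α2 := HtpyEq.of_inv (BIso.closed_inv hα0 hα12 hα21) hα21 hα12
  have h2 : HtpyEq β1 := HtpyEq.of_inv hβ0 hβ12 hβ21
  have h3 := (h1.comp h).comp h2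
  have h4 : (α2.comp (GMap.res (DHom.unit A) (DHom.unit B) φ) (add_zero 0)).comp β1
      (add_zero 0) = GMap.res (DHom.unit A') (DHom.unit B') φ' := GMap.ext (fun x => by
    refine (hβ1 (φ.f (α2.f x))).trans ?_
    change β (φ.f (α2.f x)) = φ'.f x
    rw [hα2, ← hφ, α.apply_symm_apply])
  rw [h4] at h3
  exact h3

/-- Relative quasi-isomorphisms only depend on the underlying morphism of complexes. -/
theorem RQIso.res (φ : DHom A A') (ψ : DHom B B') {M N : Bim A' B'} {f : GMap 0 M N}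
    (h : RQIso f) : RQIso (f.res φ ψ) :=
  RQIso.congr h (LinearEquiv.refl k M.M : M.M ≃ₗ[k] (MP_6e5bed_ag_NC.res φ ψ M).M)
    (LinearEquiv.refl k N.M : N.M ≃ₗ[k] (MP_6e5bed_ag_NC.res φ ψ N).M)
    (fun _ _ => Iff.rfl) (fun _ _ => Iff.rfl) (fun _ => rfl) (fun _ => rfl) (fun _ => rfl)

end Pool.Agent.MP_6e5bed_ag_NC
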