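import Pool.Agent.Lib.MP_6e5bed_ag_NC.TB
import Pool.Agent.Lib.MP_6e5bed_ag_NC.Fun

set_option autoImplicit false

/-!
# The tensor product over a dg algebra, as a dg functor in each variable
-/

namespace Pool.Agent.MP_6e5bed_ag_NC

universe u

variable {k : Type u} [CommRing k] {A B C : DGA k}

theorem Bim.sp_l (M : Bim A B) (n : ℤ) (a : A.A) (m : M.M) :
    M.dg.sp n (M.l a m) = M.l (A.dg.sp n a) (M.dg.sp n m) := by
  rcases Int.even_or_odd n with h | h
  · rw [Dg.sp_even h, Dg.sp_even h, Dg.sp_even h]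
  · rw [Dg.sp_odd h, Dg.sp_odd h, Dg.sp_odd h, M.s_l]

theorem Bim.sp_r (M : Bim A B) (n : ℤ) (b : B.A) (m : M.M) :
    M.dg.sp n (M.r b m) = M.r (B.dg.sp n b) (M.dg.sp n m) := by
  rcases Int.even_or_odd n with h | h
  · rw [Dg.sp_even h, Dg.sp_even h, Dg.sp_even h]
  · rw [Dg.sp_odd h, Dg.sp_odd h, Dg.sp_odd h, M.s_r]

theorem GMap.tbR_bal {n : ℤ} {M N : Bim A B} (φ : GMap n M N) (Y : Bim B C) (m : M.M)
    (b : B.A) (y : Y.M) : (tmB N Y).comp φ.f (M.r b m) y = (tmB N Y).comp φ.f m (Y.l b y) := by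
  rw [LinearMap.comp_apply, LinearMap.comp_apply, φ.map_r, tmB_apply, tmB_apply, tm_r_l]

theorem GMap.tbL_bal {n : ℤ} {M N : Bim B C} (X : Bim A B) (φ : GMap n M N) (x : X.M)
    (b : B.A) (m : M.M) : (tmB X N).compl₁₂ (X.dg.sp n) φ.f (X.r b x) m =
      (tmB X N).compl₁₂ (X.dg.sp n) φ.f x (M.l b m) := by
  rw [LinearMap.compl₁₂_apply, LinearMap.compl₁₂_apply, φ.map_l, tmB_apply, tmB_apply,
      X.sp_r, tm_r_l]

private theorem tm_zsmul_left {M : Bim A B} {N : Bim B C} (c : ℤ) (m : M.M) (n : N.M) :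
    (tm (c • m) n : (tb M N).M) = c • tm m n := by
  rw [← tmB_apply, ← tmB_apply, map_zsmul, LinearMap.smul_apply]

private theorem tm_zsmul_right {M : Bim A B} {N : Bim B C} (c : ℤ) (m : M.M) (n : N.M) :
    (tm m (c • n) : (tb M N).M) = c • tm m n := by
  rw [← tmB_apply, ← tmB_apply, map_zsmul]

/-- `φ ⊗ 1 : M ⊗_B Y → N ⊗_B Y`. -/
noncomputable def GMap.tbR {n : ℤ} {M N : Bim A B} (φ : GMap n M N) (Y : Bim B C) :
    GMap n (tb M Y) (tb N Y) where
  f := tlift ((tmB N Y).comp φ.f) (φ.tbR_bal Y)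
  deg := fun h => by
    refine tb_degMap _ (fun {i j v w} hv hw => ?_) h
    rw [tlift_tm, LinearMap.comp_apply, tmB_apply, show i + j + n = i + n + j by ring]
    exact tb_deg (φ.deg hv) hw
  map_l := fun a => tb_ind (by rw [map_zero, map_zero, map_zero])
    (fun x y hx hy => by rw [map_add, map_add, hx, hy, map_add, map_add])
    (fun m y => by
      rw [tb_l, tlift_tm, tlift_tm, LinearMap.comp_apply, LinearMap.comp_apply, tmB_apply,
        tmB_apply, tb_l, φ.map_l])
  map_r := fun c => tb_ind (by rw [map_zero, map_zero, map_zero])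
    (fun x y hx hy => by rw [map_add, map_add, hx, hy, map_add, map_add])
    (fun m y => by
      rw [tb_r, tlift_tm, tlift_tm, LinearMap.comp_apply, tmB_apply, tmB_apply, tb_r])

theorem GMap.tbR_tm {n : ℤ} {M N : Bim A B} (φ : GMap n M N) (Y : Bim B C) (m : M.M)
    (y : Y.M) : (φ.tbR Y).f (tm m y) = tm (φ.f m) y := tlift_tm _ (φ.tbR_bal Y) m y

/-- The map `x ⊗ m ↦ (-1)^(n|x|) x ⊗ φ m` for a map `φ` of degree `n`. -/
noncomputable def GMap.tbL {n : ℤ} {M N : Bim B C} (X : Bim A B) (φ : GMap n M N) :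
    GMap n (tb X M) (tb X N) where
  f := tlift ((tmB X N).compl₁₂ (X.dg.sp n) φ.f) (φ.tbL_bal X)
  deg := fun h => by
    refine tb_degMap _ (fun {i j v w} hv hw => ?_) h
    rw [tlift_tm, LinearMap.compl₁₂_apply, tmB_apply, add_assoc]
    exact tb_deg hv.sp (φ.deg hw)
  map_l := fun a => tb_ind (by rw [map_zero, map_zero, map_zero])
    (fun x y hx hy => by rw [map_add, map_add, hx, hy, map_add, map_add])
    (fun x m => by
      rw [tb_l, tlift_tm, tlift_tm, LinearMap.compl₁₂_apply, LinearMap.compl₁₂_apply, tmB_apply,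
        tmB_apply, tb_l, X.sp_l])
  map_r := fun c => tb_ind (by rw [map_zero, map_zero, map_zero])
    (fun x y hx hy => by rw [map_add, map_add, hx, hy, map_add, map_add])
    (fun x m => by
      rw [tb_r, tlift_tm, tlift_tm, LinearMap.compl₁₂_apply, LinearMap.compl₁₂_apply, tmB_apply,
        tmB_apply, tb_r, φ.map_r])

theorem GMap.tbL_tm {n : ℤ} {M N : Bim B C} (X : Bim A B) (φ : GMap n M N) (x : X.M)
    (m : M.M) : (φ.tbL X).f (tm x m) = tm (X.dg.sp n x) (φ.f m) :=
  tlift_tm _ (φ.tbL_bal X) x m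

/-- The dg functor `M ↦ M ⊗_B Y`. -/
noncomputable def tbR (A : DGA k) (Y : Bim B C) : DGFun A B A C where
  obj := fun M => tb M Y
  map := fun φ => φ.tbR Y
  map_id := fun M => tb_ind (map_zero _) (fun x y hx hy => by rw [map_add, hx, hy])
    (fun m y => by rw [GMap.tbR_tm, GMap.id_f])
  map_comp := fun φ ψ h => tb_ind (by rw [map_zero, map_zero, map_zero])
    (fun x y hx hy => by rw [map_add, hx, hy, map_add, map_add])
    (fun m y => by rw [GMap.tbR_tm, GMap.tbR_tm, GMap.tbR_tm, GMap.comp_f])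
  map_add := fun φ ψ => tb_ind (by rw [map_zero, map_zero, map_zero, add_zero])
    (fun x y hx hy => by rw [map_add, hx, hy, map_add, map_add]; abel)
    (fun m y => by rw [GMap.tbR_tm, GMap.tbR_tm, GMap.tbR_tm, GMap.add_f, tm_add_left])
  map_D := fun {n l M N} φ h => tb_ind (by rw [map_zero, map_zero])
    (fun x y hx hy => by rw [map_add, hx, hy, map_add])
    (fun m y => by
      rw [GMap.dd_apply, GMap.tbR_tm, GMap.tbR_tm, GMap.D_f, GMap.dd_apply, tb_d, tb_d, map_add,
        GMap.tbR_tm, GMap.tbR_tm, GMap.s_f, tm_sub_left, tm_zsmul_left, tm_zsmul_left, smul_add]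
      abel)

/-- The dg functor `M ↦ X ⊗_B M`. -/
noncomputable def tbL (X : Bim A B) (C : DGA k) : DGFun B C A C where
  obj := fun M => tb X M
  map := fun φ => φ.tbL X
  map_id := fun M => tb_ind (map_zero _) (fun x y hx hy => by rw [map_add, hx, hy])
    (fun x m => by rw [GMap.tbL_tm, GMap.id_f, Dg.sp_zero])
  map_comp := fun {n m l M N P} φ ψ h => tb_ind (by rw [map_zero, map_zero, map_zero])
    (fun x y hx hy => by rw [map_add, hx, hy, map_add, map_add])
    (fun x y => by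
      rw [GMap.tbL_tm, GMap.tbL_tm, GMap.tbL_tm, GMap.comp_f, ← h, add_comm n m, Dg.sp_add])
  map_add := fun φ ψ => tb_ind (by rw [map_zero, map_zero, map_zero, add_zero])
    (fun x y hx hy => by rw [map_add, hx, hy, map_add, map_add]; abel)
    (fun m y => by rw [GMap.tbL_tm, GMap.tbL_tm, GMap.tbL_tm, GMap.add_f, tm_add_right])
  map_D := fun {n l M N} φ h => tb_ind (by rw [map_zero, map_zero])
    (fun x y hx hy => by rw [map_add, hx, hy, map_add])
    (fun x m => by
      rw [GMap.dd_apply, GMap.tbL_tm, GMap.tbL_tm, GMap.D_f, GMap.dd_apply, tb_d, tb_d, map_add,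
        GMap.tbL_tm, GMap.tbL_tm, tm_sub_right, tm_zsmul_right, smul_add, Dg.d_sp,
        tm_zsmul_left, ← h, Dg.s_sp, Dg.sp_add, Dg.sp_one]
      abel)

end Pool.Agent.MP_6e5bed_ag_NC
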