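import Pool.Agent.Lib.MP_6e5bed_ag_NC.Box
import Pool.Agent.Lib.MP_6e5bed_ag_NC.FTb
import Pool.Agent.Lib.MP_6e5bed_ag_NC.FBend

set_option autoImplicit false

/-!
# Restriction along isomorphisms of dg algebras
-/

namespace Pool.Agent.MP_6e5bed_ag_NC

open scoped TensorProduct

universe u

variable {k : Type u} [CommRing k] {A B C A' B' C' A'' B'' C'' : DGA k}

private theorem map_map_id {V W V' W' : Type u} [AddCommGroup V] [Module k V] [AddCommGroup W]
    [Module k W] [AddCommGroup V'] [Module k V'] [AddCommGroup W'] [Module k W']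
    (f : V →ₗ[k] V') (g : V' →ₗ[k] V) (f' : W →ₗ[k] W') (g' : W' →ₗ[k] W)
    (h : ∀ x, g (f x) = x) (h' : ∀ x, g' (f' x) = x) (x : V ⊗[k] W) :
    TensorProduct.map g g' (TensorProduct.map f f' x) = x := by
  induction x using TensorProduct.induction_on with
  | zero => simp
  | add x y hx hy => rw [map_add, map_add, hx, hy]
  | tmul a a' => rw [TensorProduct.map_tmul, TensorProduct.map_tmul, h, h']

private theorem isDeg_congr {V : Type u} [AddCommGroup V] [Module k V] {X : Dg k V} {n : ℤ}
    {v w : V} (h : v = w) (hw : X.IsDeg n w) : X.IsDeg n v := h ▸ hw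

private theorem kz_map_left {V V' V'' V₀ W W' W'' W₀ : Type u} [AddCommGroup V] [Module k V]
    [AddCommGroup V'] [Module k V'] [AddCommGroup V''] [Module k V''] [AddCommGroup V₀]
    [Module k V₀] [AddCommGroup W] [Module k W] [AddCommGroup W'] [Module k W']
    [AddCommGroup W''] [Module k W''] [AddCommGroup W₀] [Module k W₀]
    {X : Dg k V'} {Y : Dg k W} {Y₀ : Dg k W₀} {α : V →ₗ[k] V' →ₗ[k] V''}
    {β : W →ₗ[k] W' →ₗ[k] W''} (f : V₀ →ₗ[k] V) (f' : W₀ →ₗ[k] W)
    (h : ∀ w, Y.o (f' w) = f' (Y₀.o w)) (a : V₀ ⊗[k] W₀) (x : V' ⊗[k] W') :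
    kz X Y α β (TensorProduct.map f f' a) x = kz X Y₀ (α ∘ₗ f) (β ∘ₗ f') a x := by
  induction a using TensorProduct.induction_on with
  | zero => simp
  | add a b ha hb => simp only [map_add, LinearMap.add_apply, ha, hb]
  | tmul a a' =>
    induction x using TensorProduct.induction_on with
    | zero => simp
    | add x y hx hy => simp only [map_add, hx, hy]
    | tmul m m' =>
      rw [TensorProduct.map_tmul, kz_tmul, kz_tmul, h]
      rfl

private theorem kz_map_right {V V' V'' V₀ W W' W'' W₀ : Type u} [AddCommGroup V] [Module k V]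
    [AddCommGroup V'] [Module k V'] [AddCommGroup V''] [Module k V''] [AddCommGroup V₀]
    [Module k V₀] [AddCommGroup W] [Module k W] [AddCommGroup W'] [Module k W']
    [AddCommGroup W''] [Module k W''] [AddCommGroup W₀] [Module k W₀]
    {X : Dg k V'} {Y : Dg k W} {X₀ : Dg k V₀} {α : V' →ₗ[k] V →ₗ[k] V''}
    {β : W' →ₗ[k] W →ₗ[k] W''} (f : V₀ →ₗ[k] V') (f' : W₀ →ₗ[k] W')
    (h : ∀ w, X.o (f w) = f (X₀.o w)) (x : V ⊗[k] W) (b : V₀ ⊗[k] W₀) :
    kz X Y α.flip β.flip x (TensorProduct.map f f' b) =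
      kz X₀ Y (α ∘ₗ f).flip (β ∘ₗ f').flip x b := by
  induction x using TensorProduct.induction_on with
  | zero => simp
  | add x y hx hy => simp only [map_add, LinearMap.add_apply, hx, hy]
  | tmul m m' =>
    induction b using TensorProduct.induction_on with
    | zero => simp
    | add a b ha hb => simp only [map_add, ha, hb]
    | tmul a a' =>
      rw [TensorProduct.map_tmul, kz_tmul, kz_tmul, h]
      rfl

private theorem biso_of {M N : Bim A B} (F : M.M →ₗ[k] N.M) (G : N.M →ₗ[k] M.M)
    (hdeg : ∀ {i : ℤ} {m : M.M}, M.dg.IsDeg i m → N.dg.IsDeg (i + 0) (F m))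
    (hl : ∀ a m, F (M.l a m) = N.l a (F m)) (hr : ∀ b m, F (M.r b m) = N.r b (F m))
    (hd : ∀ m, N.dg.d (F m) = F (M.dg.d m)) (h1 : ∀ x, G (F x) = x) (h2 : ∀ y, F (G y) = y) :
    BIso M N := by
  refine BIso.of_bij ⟨F, hdeg, fun a m => ?_, hr⟩ ?_
    (Function.bijective_iff_has_inverse.2 ⟨G, h1, h2⟩)
  · rw [Dg.sp_zero]
    exact hl a m
  · refine LinearMap.ext (fun x => ?_)
    rw [GMap.dd_apply, sg_zero, one_smul, LinearMap.zero_apply, sub_eq_zero]
    exact hd x

theorem res_free (φ : DIso A A') (ψ : DIso B B') :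
    BIso (res φ.hom ψ.hom (free A' B')) (free A B) := by
  refine BIso.of_bij ⟨TensorProduct.map φ.inv.f ψ.inv.f, fun {i x} hx => ?_, fun a x => ?_,
    fun b x => ?_⟩ ?_ ?_
  · exact Dg.tensor_degMap (X := A'.dg) (Y := B'.dg) (Z := A.dg.tensor B.dg) (n := 0)
      (TensorProduct.map φ.inv.f ψ.inv.f) (fun i j v w hv hw => by
        rw [add_zero, TensorProduct.map_tmul]
        exact Dg.tensor_deg (φ.inv.deg hv) (ψ.inv.deg hw)) hx
  · rw [Dg.sp_zero]
    change TensorProduct.map φ.inv.f ψ.inv.f (LinearMap.rTensor B'.A (A'.mul (φ.hom.f a)) x) =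
      LinearMap.rTensor B.A (A.mul a) (TensorProduct.map φ.inv.f ψ.inv.f x)
    change A'.A ⊗[k] B'.A at x
    induction x using TensorProduct.induction_on with
    | zero => simp
    | add x y hx hy => simp only [map_add, hx, hy]
    | tmul v w =>
      rw [LinearMap.rTensor_tmul, TensorProduct.map_tmul, TensorProduct.map_tmul,
        LinearMap.rTensor_tmul, φ.inv.mul, φ.hom_inv]
  · change TensorProduct.map φ.inv.f ψ.inv.f (LinearMap.lTensor A'.A (B'.mul.flip (ψ.hom.f b)) x)
      = LinearMap.lTensor A.A (B.mul.flip b) (TensorProduct.map φ.inv.f ψ.inv.f x)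
    change A'.A ⊗[k] B'.A at x
    induction x using TensorProduct.induction_on with
    | zero => simp
    | add x y hx hy => simp only [map_add, hx, hy]
    | tmul v w =>
      rw [LinearMap.lTensor_tmul, TensorProduct.map_tmul, TensorProduct.map_tmul,
        LinearMap.lTensor_tmul, LinearMap.flip_apply, LinearMap.flip_apply, ψ.inv.mul,
        ψ.hom_inv]
  · refine LinearMap.ext (fun x => ?_)
    rw [GMap.dd_apply, sg_zero, one_smul, LinearMap.zero_apply, sub_eq_zero]
    change (A.dg.tensor B.dg).d (TensorProduct.map φ.inv.f ψ.inv.f x) =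
      TensorProduct.map φ.inv.f ψ.inv.f ((A'.dg.tensor B'.dg).d x)
    change A'.A ⊗[k] B'.A at x
    induction x using TensorProduct.induction_on with
    | zero => simp
    | add x y hx hy => simp only [map_add, hx, hy]
    | tmul v w =>
      rw [TensorProduct.map_tmul, Dg.tensor_d, Dg.tensor_d, map_add, TensorProduct.map_tmul,
        TensorProduct.map_tmul, φ.inv.d, ψ.inv.d, φ.inv.s]
  · refine Function.bijective_iff_has_inverse.2 ⟨TensorProduct.map φ.hom.f ψ.hom.f, ?_, ?_⟩
    · exact fun x => map_map_id φ.inv.f φ.hom.f ψ.inv.f ψ.hom.f φ.inv_hom ψ.inv_hom x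
    · exact fun x => map_map_id φ.hom.f φ.inv.f ψ.hom.f ψ.inv.f φ.hom_inv ψ.hom_inv x

theorem res_diag (φ : DIso A A') : BIso (res φ.hom φ.hom (diag A')) (diag A) := by
  refine BIso.of_bij ⟨φ.inv.f, fun {i x} hx => ?_, fun a x => ?_, fun b x => ?_⟩ ?_ ?_
  · rw [add_zero]
    exact φ.inv.deg hx
  · rw [Dg.sp_zero]
    exact (φ.inv.mul (φ.hom.f a) x).trans
      (congrArg (fun t => A.mul t (φ.inv.f x)) (φ.hom_inv a))
  · exact (φ.inv.mul x (φ.hom.f b)).trans (congrArg (A.mul (φ.inv.f x)) (φ.hom_inv b))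
  · refine LinearMap.ext (fun x => ?_)
    rw [GMap.dd_apply, sg_zero, one_smul, LinearMap.zero_apply, sub_eq_zero]
    exact φ.inv.d x
  · exact Function.bijective_iff_has_inverse.2 ⟨φ.hom.f, φ.inv_hom, φ.hom_inv⟩

/-- Restriction on the outer sides commutes with the tensor product. -/
theorem res_tb (φ : DHom A A') (ψ : DHom C C') (M : Bim A' B) (N : Bim B C') :
    BIso (res φ ψ (tb M N)) (tb (res φ (DHom.id B) M) (res (DHom.id B) ψ N)) := by
  have h1 : ∀ (m : M.M) (b : B.A) (n : N.M),
      tmB M N ((res φ (DHom.id B) M).r b m) n =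
        tmB M N m ((res (DHom.id B) ψ N).l b n) := fun m b n => tm_r_l (M := M) (N := N) m b n
  have h2 : ∀ (m : M.M) (b : B.A) (n : N.M),
      tmB (res φ (DHom.id B) M) (res (DHom.id B) ψ N) (M.r b m) n =
        tmB (res φ (DHom.id B) M) (res (DHom.id B) ψ N) m (N.l b n) := fun m b n =>
    tm_r_l (M := res φ (DHom.id B) M) (N := res (DHom.id B) ψ N) m b n
  obtain ⟨G, e1⟩ : ∃ G : (tb (res φ (DHom.id B) M) (res (DHom.id B) ψ N)).M →ₗ[k]
      (res φ ψ (tb M N)).M, ∀ (m : M.M) (n : N.M),
      G (tm (M := res φ (DHom.id B) M) (N := res (DHom.id B) ψ N) m n) =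
      tm (M := M) (N := N) m n :=
    ⟨tlift (M := res φ (DHom.id B) M) (N := res (DHom.id B) ψ N) (tmB M N) h1, fun m n =>
    tlift_tm (M := res φ (DHom.id B) M) (N := res (DHom.id B) ψ N) (tmB M N) h1 m n⟩
  obtain ⟨F, e2⟩ : ∃ F : (res φ ψ (tb M N)).M →ₗ[k]
      (tb (res φ (DHom.id B) M) (res (DHom.id B) ψ N)).M, ∀ (m : M.M) (n : N.M),
      F (tm (M := M) (N := N) m n) =
      tm (M := res φ (DHom.id B) M) (N := res (DHom.id B) ψ N) m n :=
    ⟨tlift (M := M) (N := N) (tmB (res φ (DHom.id B) M) (res (DHom.id B) ψ N)) h2, fun m n =>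
    tlift_tm (M := M) (N := N) (tmB (res φ (DHom.id B) M) (res (DHom.id B) ψ N)) h2 m n⟩
  have ind : ∀ {P : (res φ ψ (tb M N)).M → Prop}, P 0 → (∀ x y, P x → P y → P (x + y)) →
      (∀ (m : M.M) (n : N.M), P (tm (M := M) (N := N) m n)) → ∀ x, P x :=
    fun h0 ha h => tb_ind (M := M) (N := N) h0 ha h
  refine biso_of F G (fun {i x} hx => ?_) (fun a => ?_) (fun b => ?_) ?_ ?_ ?_
  · exact tb_degMap (M := M) (N := N)
      (Z := (tb (res φ (DHom.id B) M) (res (DHom.id B) ψ N)).dg) (n := 0) F
      (fun {i j v w} hv hw => by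
        rw [add_zero]
        exact isDeg_congr (e2 v w)
          (tb_deg (M := res φ (DHom.id B) M) (N := res (DHom.id B) ψ N) hv hw)) hx
  · refine ind ?_ ?_ ?_
    · rw [map_zero, map_zero, map_zero]
    · intro x y hx hy
      rw [map_add, map_add, hx, hy, map_add, map_add]
    · intro m n
      refine (congrArg F (tb_l (M := M) (N := N) (φ.f a) m n)).trans ?_
      refine (e2 _ _).trans ?_
      refine Eq.trans ?_ (congrArg _ (e2 m n).symm)
      exact (tb_l (M := res φ (DHom.id B) M) (N := res (DHom.id B) ψ N) a m n).symm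
  · refine ind ?_ ?_ ?_
    · rw [map_zero, map_zero, map_zero]
    · intro x y hx hy
      rw [map_add, map_add, hx, hy, map_add, map_add]
    · intro m n
      refine (congrArg F (tb_r (M := M) (N := N) (ψ.f b) m n)).trans ?_
      refine (e2 _ _).trans ?_
      refine Eq.trans ?_ (congrArg _ (e2 m n).symm)
      exact (tb_r (M := res φ (DHom.id B) M) (N := res (DHom.id B) ψ N) b m n).symm
  · refine ind ?_ ?_ ?_
    · rw [map_zero, map_zero, map_zero, map_zero]
    · intro x y hx hy
      rw [map_add, map_add, map_add, hx, hy, map_add]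
    · intro m n
      refine (congrArg _ (e2 m n)).trans ?_
      refine (tb_d (M := res φ (DHom.id B) M) (N := res (DHom.id B) ψ N) m n).trans ?_
      refine Eq.trans ?_ (congrArg F (tb_d (M := M) (N := N) m n).symm)
      refine Eq.trans ?_ (map_add F _ _).symm
      exact congrArg₂ (· + ·) (e2 _ _).symm (e2 _ _).symm
  · refine ind ?_ ?_ ?_
    · rw [map_zero, map_zero]
    · intro x y hx hy
      rw [map_add, map_add, hx, hy]
    · intro m n
      exact (congrArg G (e2 m n)).trans (e1 m n)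
  · refine tb_ind (M := res φ (DHom.id B) M) (N := res (DHom.id B) ψ N) ?_ ?_ ?_
    · rw [map_zero, map_zero]
    · intro x y hx hy
      rw [map_add, map_add, hx, hy]
    · intro m n
      exact (congrArg F (e1 m n)).trans (e2 m n)

/-- Restriction on the inner sides, along an isomorphism, does not change the tensor product. -/
theorem tb_res_mid (φ : DIso B B') (M : Bim A B') (N : Bim B' C) :
    BIso (tb (res (DHom.id A) φ.hom M) (res φ.hom (DHom.id C) N)) (tb M N) := by
  have h1 : ∀ (m : M.M) (b : B.A) (n : N.M),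
      tmB M N ((res (DHom.id A) φ.hom M).r b m) n =
        tmB M N m ((res φ.hom (DHom.id C) N).l b n) := fun m b n => tm_r_l m (φ.hom.f b) n
  have h2 : ∀ (m : M.M) (b : B'.A) (n : N.M),
      tmB (res (DHom.id A) φ.hom M) (res φ.hom (DHom.id C) N) (M.r b m) n =
        tmB (res (DHom.id A) φ.hom M) (res φ.hom (DHom.id C) N) m (N.l b n) := fun m b n => by
    have h := tm_r_l (M := res (DHom.id A) φ.hom M) (N := res φ.hom (DHom.id C) N) m
      (φ.inv.f b) n
    rw [res_r, res_l, φ.inv_hom] at h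
    exact h
  have e1 : ∀ (m : M.M) (n : N.M), tlift (M := res (DHom.id A) φ.hom M)
      (N := res φ.hom (DHom.id C) N) (tmB M N) h1
      (tm (M := res (DHom.id A) φ.hom M) (N := res φ.hom (DHom.id C) N) m n) =
      tm (M := M) (N := N) m n := fun m n =>
    tlift_tm (M := res (DHom.id A) φ.hom M) (N := res φ.hom (DHom.id C) N) (tmB M N) h1 m n
  have e2 : ∀ (m : M.M) (n : N.M), tlift (M := M) (N := N)
      (tmB (res (DHom.id A) φ.hom M) (res φ.hom (DHom.id C) N)) h2 (tm (M := M) (N := N) m n) =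
      tm (M := res (DHom.id A) φ.hom M) (N := res φ.hom (DHom.id C) N) m n := fun m n =>
    tlift_tm (M := M) (N := N) (tmB (res (DHom.id A) φ.hom M) (res φ.hom (DHom.id C) N)) h2 m n
  refine BIso.of_bij ⟨tlift (M := res (DHom.id A) φ.hom M) (N := res φ.hom (DHom.id C) N)
    (tmB M N) h1, fun {i x} hx => ?_, fun a => ?_, fun b => ?_⟩ ?_ ?_
  · exact tb_degMap (M := res (DHom.id A) φ.hom M) (N := res φ.hom (DHom.id C) N)
      (Z := (tb M N).dg) (n := 0)
      (tlift (M := res (DHom.id A) φ.hom M) (N := res φ.hom (DHom.id C) N) (tmB M N) h1)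
      (fun {i j v w} hv hw => by
        rw [add_zero]
        exact isDeg_congr (e1 v w) (tb_deg (M := M) (N := N) hv hw)) hx
  · refine tb_ind (M := res (DHom.id A) φ.hom M) (N := res φ.hom (DHom.id C) N) ?_ ?_ ?_
    · simp only [map_zero]
    · intro x y hx hy
      simp only [map_add, hx, hy]
    · intro m n
      rw [Dg.sp_zero]
      refine (congrArg _ (tb_l (M := res (DHom.id A) φ.hom M)
        (N := res φ.hom (DHom.id C) N) a m n)).trans ?_
      refine (e1 _ _).trans ?_
      refine Eq.trans ?_ (congrArg _ (e1 m n).symm)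
      exact (tb_l (M := M) (N := N) a m n).symm
  · refine tb_ind (M := res (DHom.id A) φ.hom M) (N := res φ.hom (DHom.id C) N) ?_ ?_ ?_
    · simp only [map_zero]
    · intro x y hx hy
      simp only [map_add, hx, hy]
    · intro m n
      refine (congrArg _ (tb_r (M := res (DHom.id A) φ.hom M)
        (N := res φ.hom (DHom.id C) N) b m n)).trans ?_
      refine (e1 _ _).trans ?_
      refine Eq.trans ?_ (congrArg _ (e1 m n).symm)
      exact (tb_r (M := M) (N := N) b m n).symm
  · refine LinearMap.ext (tb_ind (M := res (DHom.id A) φ.hom M)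
      (N := res φ.hom (DHom.id C) N) ?_ ?_ ?_)
    · simp only [map_zero]
    · intro x y hx hy
      simp only [map_add, hx, hy]
    · intro m n
      rw [GMap.dd_apply, sg_zero, one_smul, LinearMap.zero_apply, sub_eq_zero]
      refine (congrArg _ (e1 m n)).trans ?_
      refine (tb_d (M := M) (N := N) m n).trans ?_
      refine Eq.trans ?_ (congrArg _ (tb_d (M := res (DHom.id A) φ.hom M)
        (N := res φ.hom (DHom.id C) N) m n).symm)
      refine Eq.trans ?_ (map_add _ _ _).symm
      exact congrArg₂ (· + ·) (e1 _ _).symm (e1 _ _).symm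
  · refine Function.bijective_iff_has_inverse.2 ⟨tlift (M := M) (N := N)
      (tmB (res (DHom.id A) φ.hom M) (res φ.hom (DHom.id C) N)) h2, ?_, ?_⟩
    · refine tb_ind (M := res (DHom.id A) φ.hom M) (N := res φ.hom (DHom.id C) N) ?_ ?_ ?_
      · simp only [map_zero]
      · intro x y hx hy
        simp only [map_add, hx, hy]
      · intro m n
        exact (congrArg _ (e1 m n)).trans (e2 m n)
    · refine tb_ind (M := M) (N := N) ?_ ?_ ?_
      · simp only [map_zero]
      · intro x y hx hy
        simp only [map_add, hx, hy]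
      · intro m n
        exact (congrArg _ (e2 m n)).trans (e1 m n)

theorem res_box (φ : DHom A B) (ψ : DHom A' B') (φ' : DHom C C') (ψ' : DHom A'' B'')
    (M : Bim B B') (M' : Bim C' B'') :
    BIso (res (φ.tensor φ') (ψ.tensor ψ') (box M M')) (box (res φ ψ M) (res φ' ψ' M')) := by
  refine BIso.of_bij ⟨LinearMap.id, fun {i x} hx => ?_, fun a x => ?_, fun b x => ?_⟩ ?_ ?_
  · rw [add_zero]
    exact hx
  · rw [Dg.sp_zero]
    exact kz_map_left φ.f φ'.f (fun w => φ'.o w) a x
  · exact kz_map_right ψ.f ψ'.f (fun w => ψ.o w) x b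
  · refine LinearMap.ext (fun x => ?_)
    rw [GMap.dd_apply, sg_zero, one_smul, LinearMap.zero_apply, sub_eq_zero]
    rfl
  · exact Function.bijective_id

end Pool.Agent.MP_6e5bed_ag_NC
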