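import Pool.Agent.Lib.MP_6e5bed_ag_NC.Box

set_option autoImplicit false

/-!
# The unit isomorphisms of the tensor product of dg algebras
-/

namespace Pool.Agent.MP_6e5bed_ag_NC

open scoped TensorProduct

universe u

variable {k : Type u} [CommRing k]

private noncomputable def lun (A : DGA k) : (base k).A ⊗[k] A.A →ₗ[k] A.A :=
  (TensorProduct.lid k A.A).toLinearMap

private theorem lun_tmul {A : DGA k} (c : (base k).A) (a : A.A) :
    lun A (c ⊗ₜ[k] a) = (show k from c) • a := rfl

private noncomputable def run (A : DGA k) : A.A ⊗[k] (base k).A →ₗ[k] A.A :=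
  (TensorProduct.rid k A.A).toLinearMap

private theorem run_tmul {A : DGA k} (c : (base k).A) (a : A.A) :
    run A (a ⊗ₜ[k] c) = (show k from c) • a := rfl

private theorem lun_deg {A : DGA k} {i : ℤ} {x : (base k).A ⊗[k] A.A}
    (hx : ((base k).dg.tensor A.dg).IsDeg i x) : A.dg.IsDeg i (lun A x) := by
  have h := Dg.tensor_degMap (X := (base k).dg) (Y := A.dg) (Z := A.dg) (n := 0)
    (lun A) (fun i j v w hv hw => by
      rw [add_zero, lun_tmul]
      rcases base_deg_cases hv with hi | h0
      · rw [hi, zero_add]
        exact hw.smul _
      · have h1 : (show k from v) • w = 0 := by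
          have h2 : (show k from v) = 0 := h0
          rw [h2, zero_smul]
        rw [h1]
        exact Dg.IsDeg.zero _) hx
  rwa [add_zero] at h

private theorem run_deg {A : DGA k} {i : ℤ} {x : A.A ⊗[k] (base k).A}
    (hx : (A.dg.tensor (base k).dg).IsDeg i x) : A.dg.IsDeg i (run A x) := by
  have h := Dg.tensor_degMap (X := A.dg) (Y := (base k).dg) (Z := A.dg) (n := 0)
    (run A) (fun i j v w hv hw => by
      rw [add_zero, run_tmul]
      rcases base_deg_cases hw with hi | h0
      · rw [hi, add_zero]
        exact hv.smul _
      · have h1 : (show k from w) • v = 0 := by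
          have h2 : (show k from w) = 0 := h0
          rw [h2, zero_smul]
        rw [h1]
        exact Dg.IsDeg.zero _) hx
  rwa [add_zero] at h

private theorem lun_d {A : DGA k} (x : (base k).A ⊗[k] A.A) :
    A.dg.d (lun A x) = lun A (((base k).dg.tensor A.dg).d x) := by
  induction x using TensorProduct.induction_on with
  | zero => simp
  | add x y hx hy => simp only [map_add, hx, hy]
  | tmul c a =>
    have h1 : (base k).dg.d c = 0 := base_d (k := k) c
    have h2 : (base k).dg.s c = c := base_s (k := k) c
    rw [Dg.tensor_d, h1, h2, TensorProduct.zero_tmul, zero_add, lun_tmul, lun_tmul, map_smul]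

private theorem run_d {A : DGA k} (x : A.A ⊗[k] (base k).A) :
    A.dg.d (run A x) = run A ((A.dg.tensor (base k).dg).d x) := by
  induction x using TensorProduct.induction_on with
  | zero => simp
  | add x y hx hy => simp only [map_add, hx, hy]
  | tmul a c =>
    have h1 : (base k).dg.d c = 0 := base_d (k := k) c
    rw [Dg.tensor_d, h1, TensorProduct.tmul_zero, add_zero, run_tmul, run_tmul, map_smul]

private theorem lun_mul {A : DGA k} (x y : (base k).A ⊗[k] A.A) :
    lun A (kz (base k).dg A.dg (base k).mul A.mul x y) = A.mul (lun A x) (lun A y) := by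
  induction x using TensorProduct.induction_on with
  | zero => simp
  | add x x' hx hx' => simp only [map_add, LinearMap.add_apply, hx, hx']
  | tmul c a =>
    induction y using TensorProduct.induction_on with
    | zero => simp
    | add y y' hy hy' => simp only [map_add, hy, hy']
    | tmul c' a' =>
      have h1 : (base k).dg.o c' = 0 := base_o (k := k) c'
      have h2 : (show k from (base k).mul c c') = (show k from c') * (show k from c) :=
        mul_comm (show k from c) (show k from c')
      rw [kz_even' h1, lun_tmul, lun_tmul, lun_tmul, map_smul, map_smul, LinearMap.smul_apply,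
        smul_smul, h2]

private theorem run_mul {A : DGA k} (x y : A.A ⊗[k] (base k).A) :
    run A (kz A.dg (base k).dg A.mul (base k).mul x y) = A.mul (run A x) (run A y) := by
  induction x using TensorProduct.induction_on with
  | zero => simp
  | add x x' hx hx' => simp only [map_add, LinearMap.add_apply, hx, hx']
  | tmul a c =>
    induction y using TensorProduct.induction_on with
    | zero => simp
    | add y y' hy hy' => simp only [map_add, hy, hy']
    | tmul a' c' =>
      have h1 : (base k).dg.o c = 0 := base_o (k := k) c
      have h2 : (show k from (base k).mul c c') = (show k from c') * (show k from c) :=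
        mul_comm (show k from c) (show k from c')
      rw [kz_even h1, run_tmul, run_tmul, run_tmul, map_smul, map_smul, LinearMap.smul_apply,
        smul_smul, h2]

/-- `k ⊗ A ≅ A` -/
noncomputable def lunitIso (A : DGA k) : DIso ((base k).tensor A) A :=
  DIso.mk'
    { f := (TensorProduct.lid k A.A).toLinearMap
      deg := fun hx => lun_deg hx
      d := fun x => lun_d x
      one := one_smul k A.one
      mul := fun x y => lun_mul x y }
    (TensorProduct.lid k A.A).symm.toLinearMap
    (fun x => (TensorProduct.lid k A.A).symm_apply_apply x)
    (fun x => (TensorProduct.lid k A.A).apply_symm_apply x)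

/-- `A ⊗ k ≅ A` -/
noncomputable def runitIso (A : DGA k) : DIso (A.tensor (base k)) A :=
  DIso.mk'
    { f := (TensorProduct.rid k A.A).toLinearMap
      deg := fun hx => run_deg hx
      d := fun x => run_d x
      one := one_smul k A.one
      mul := fun x y => run_mul x y }
    (TensorProduct.rid k A.A).symm.toLinearMap
    (fun x => (TensorProduct.rid k A.A).symm_apply_apply x)
    (fun x => (TensorProduct.rid k A.A).apply_symm_apply x)

variable {A : DGA k}

theorem lunitIso_hom (c : k) (a : A.A) : (lunitIso A).hom.f (c ⊗ₜ a) = c • a := rfl

theorem runitIso_hom (c : k) (a : A.A) : (runitIso A).hom.f (a ⊗ₜ c) = c • a := rfl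

end Pool.Agent.MP_6e5bed_ag_NC
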