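import Pool.Agent.Lib.MP_6e5bed_ag_NC.BoxPerf
import Pool.Agent.Lib.MP_6e5bed_ag_NC.CUnit
import Pool.Agent.Lib.MP_6e5bed_ag_NC.ResIso

set_option autoImplicit false

/-!
# Smooth and proper dg algebras: tensor products, opposites, the base
-/

namespace Pool.Agent.MP_6e5bed_ag_NC

open scoped TensorProduct

universe u

variable {k : Type u} [CommRing k] {A B : DGA k}

/-- The identity map, from the external tensor product of the diagonal bimodules. -/
private noncomputable def smp_f (A B : DGA k) :
    GMap 0 (box (diag A) (diag B)) (diag (A.tensor B)) where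
  f := (LinearMap.id : (A.A ⊗[k] B.A) →ₗ[k] (A.A ⊗[k] B.A))
  deg := fun {i m} h => by
    rw [add_zero]
    exact h
  map_l := fun a m => by
    change kz A.dg B.dg A.mul B.mul a m =
      kz A.dg B.dg A.mul B.mul ((A.dg.tensor B.dg).sp 0 a) m
    rw [Dg.sp_zero]
  map_r := fun _ _ => rfl

/-- The identity map, to the external tensor product of the diagonal bimodules. -/
private noncomputable def smp_g (A B : DGA k) :
    GMap 0 (diag (A.tensor B)) (box (diag A) (diag B)) where
  f := (LinearMap.id : (A.A ⊗[k] B.A) →ₗ[k] (A.A ⊗[k] B.A))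
  deg := fun {i m} h => by
    rw [add_zero]
    exact h
  map_l := fun a m => by
    change kz A.dg B.dg A.mul B.mul a m =
      kz A.dg B.dg A.mul B.mul ((A.dg.tensor B.dg).sp 0 a) m
    rw [Dg.sp_zero]
  map_r := fun _ _ => rfl

/-- The external tensor product of the diagonal bimodules is the diagonal bimodule. -/
theorem box_diag (A B : DGA k) : BIso (box (diag A) (diag B)) (diag (A.tensor B)) := by
  refine ⟨smp_f A B, smp_g A B, ?_, fun _ => rfl, fun _ => rfl⟩
  refine LinearMap.ext (fun x => ?_)
  rw [GMap.dd_apply, sg_zero, one_smul, LinearMap.zero_apply]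
  exact sub_self _

theorem Smooth.tensor (hA : Smooth A) (hB : Smooth B) : Smooth (A.tensor B) := by
  obtain ⟨P, φ, hP, hφ⟩ := hA
  obtain ⟨Q, ψ, hQ, hψ⟩ := hB
  obtain ⟨χ, χ', h0, h1, h2⟩ := box_diag A B
  exact ⟨box P Q, ((φ.boxR Q).comp (ψ.boxL (diag A)) (add_zero 0)).comp χ (add_zero 0),
    hP.box hQ, ((hφ.boxR Q).comp (hψ.boxL (diag A))).comp (RQIso.of_inv h0 h1 h2)⟩

theorem Proper.tensor (hA : Proper A) (hB : Proper B) : Proper (A.tensor B) := by
  have h1 : Perf (box (und (diag A)) (und (diag B))) := Perf.box hA hB
  have h2 : Perf (res (lunitIso (base k)).symm.hom (lunitIso (base k)).symm.hom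
      (box (und (diag A)) (und (diag B)))) :=
    (resF (lunitIso (base k)).symm.hom (lunitIso (base k)).symm.hom).perf
      ((res_free (lunitIso (base k)).symm (lunitIso (base k)).symm).symm.perf Perf.free) h1
  exact (BIso.ofBase (V := res (lunitIso (base k)).symm.hom (lunitIso (base k)).symm.hom
      (box (und (diag A)) (und (diag B)))) (W := und (diag (A.tensor B))) LinearMap.id
    (fun h => h) (fun _ => rfl) Function.bijective_id).perf h2

/-- The multiplication `k ⊗ k → k`. -/
private noncomputable def smp_m : GMap 0 (free (base k) (base k)) (diag (base k)) where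
  f := TensorProduct.lift (base k).mul
  deg := fun {i m} h => by
    refine Dg.tensor_degMap (X := (base k).dg) (Y := (base k).dg) (Z := (base k).dg) (n := 0)
      (TensorProduct.lift (base k).mul) (fun i j v w hv hw => ?_) h
    rw [add_zero, TensorProduct.lift.tmul]
    exact (base k).mul_deg hv hw
  map_l := fun a (m : (base k).A ⊗[k] (base k).A) => by
    rw [Dg.sp_zero]
    change TensorProduct.lift (base k).mul (LinearMap.rTensor (base k).A ((base k).mul a) m) =
      (base k).mul a (TensorProduct.lift (base k).mul m)
    induction m using TensorProduct.induction_on with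
    | zero => simp
    | add x y hx hy => rw [map_add, map_add, hx, hy, map_add, map_add]
    | tmul x y =>
      rw [LinearMap.rTensor_tmul, TensorProduct.lift.tmul, TensorProduct.lift.tmul,
        (base k).mul_assoc]
  map_r := fun a (m : (base k).A ⊗[k] (base k).A) => by
    change TensorProduct.lift (base k).mul
      (LinearMap.lTensor (base k).A ((base k).mul.flip a) m) =
      (base k).mul (TensorProduct.lift (base k).mul m) a
    induction m using TensorProduct.induction_on with
    | zero => simp
    | add x y hx hy => rw [map_add, map_add, hx, hy, map_add, map_add, LinearMap.add_apply]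
    | tmul x y =>
      rw [LinearMap.lTensor_tmul, TensorProduct.lift.tmul, TensorProduct.lift.tmul,
        LinearMap.flip_apply, (base k).mul_assoc]

private theorem smp_m_bij :
    Function.Bijective (TensorProduct.lift (base k).mul :
      (base k).A ⊗[k] (base k).A →ₗ[k] (base k).A) := by
  have h1 : ∀ x : (base k).A ⊗[k] (base k).A,
      (TensorProduct.lift (base k).mul x) ⊗ₜ[k] (base k).one = x := by
    intro x
    induction x using TensorProduct.induction_on with
    | zero => rw [map_zero, TensorProduct.zero_tmul]
    | add x y hx hy => rw [map_add, TensorProduct.add_tmul, hx, hy]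
    | tmul x y =>
      rw [TensorProduct.lift.tmul]
      have h2 : ∀ c : k, c • (base k).one = y →
          (base k).mul x y ⊗ₜ[k] (base k).one = x ⊗ₜ[k] y := by
        intro c hc
        rw [← hc, map_smul, (base k).mul_one, TensorProduct.smul_tmul]
      exact h2 y (base_smul (k := k) y)
  constructor
  · intro x y hxy
    rw [← h1 x, hxy, h1 y]
  · intro y
    exact ⟨y ⊗ₜ[k] (base k).one, by rw [TensorProduct.lift.tmul, (base k).mul_one]⟩

private theorem smp_m_dd : (smp_m (k := k)).dd = 0 := by
  refine LinearMap.ext (fun (x : (base k).A ⊗[k] (base k).A) => ?_)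
  have h2 : ∀ c : (base k).A, (base k).dg.d c = 0 := fun c => rfl
  have h1 : ((base k).dg.tensor (base k).dg).d x = 0 := by
    induction x using TensorProduct.induction_on with
    | zero => rw [map_zero]
    | add x y hx hy => rw [map_add, hx, hy, add_zero]
    | tmul x y =>
      rw [Dg.tensor_d, h2, h2, TensorProduct.zero_tmul, TensorProduct.tmul_zero, add_zero]
  change (base k).dg.d (TensorProduct.lift (base k).mul x) -
    sg 0 • TensorProduct.lift (base k).mul (((base k).dg.tensor (base k).dg).d x) = 0
  rw [h1, h2, map_zero, smul_zero, sub_zero]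

theorem smooth_base : Smooth (base k) := by
  obtain ⟨χ, χ', h1, h2, h3⟩ := BIso.of_bij (smp_m (k := k)) smp_m_dd smp_m_bij
  exact ⟨free (base k) (base k), χ, Perf.free, RQIso.of_inv h1 h2 h3⟩

theorem proper_base : Proper (base k) := by
  have h1 : BIso (free (base k) (base k)) (diag (base k)) :=
    BIso.of_bij (smp_m (k := k)) smp_m_dd smp_m_bij
  have h2 : BIso (diag (base k)) (und (diag (base k))) :=
    BIso.ofBase (V := diag (base k)) (W := und (diag (base k))) LinearMap.id
      (fun h => h) (fun _ => rfl) Function.bijective_id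
  exact (h1.trans h2).perf Perf.free

end Pool.Agent.MP_6e5bed_ag_NC
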