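import Pool.Agent.Lib.MP_6e5bed_ag_NC.Free

set_option autoImplicit false

/-!
# The tensor product over a dg algebra
-/

namespace Pool.Agent.MP_6e5bed_ag_NC

open scoped TensorProduct

universe u

variable {k : Type u} [CommRing k] {A B C : DGA k}

/-- The map `m ⊗ (b ⊗ n) ↦ mb ⊗ n - m ⊗ bn`, whose cokernel is the tensor product over `B`. -/
noncomputable def relMap (M : Bim A B) (N : Bim B C) :
    M.M ⊗[k] (B.A ⊗[k] N.M) →ₗ[k] M.M ⊗[k] N.M :=
  LinearMap.rTensor N.M (TensorProduct.lift M.r.flip) ∘ₗ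
      (TensorProduct.assoc k M.M B.A N.M).symm.toLinearMap -
    LinearMap.lTensor M.M (TensorProduct.lift N.l)

theorem relMap_tmul (M : Bim A B) (N : Bim B C) (m : M.M) (b : B.A) (n : N.M) :
    relMap M N (m ⊗ₜ (b ⊗ₜ n)) = M.r b m ⊗ₜ n - m ⊗ₜ N.l b n := by
  simp [relMap]

theorem relMap_deg (M : Bim A B) (N : Bim B C) (x : M.M ⊗[k] (B.A ⊗[k] N.M)) (j : ℤ) :
    (M.dg.tensor N.dg).ρ (relMap M N x) j =
      relMap M N ((M.dg.tensor (B.dg.tensor N.dg)).ρ x j) := by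
  have h := (Dg.degMap_iff (X := M.dg.tensor (B.dg.tensor N.dg)) (Y := M.dg.tensor N.dg) (n := 0)
    (relMap M N)).1 (fun j v hv => ?_) x j
  · rwa [add_zero] at h
  · refine Dg.tensor_degMap _ (fun i j m y hm hy => ?_) hv
    rw [add_assoc]
    have h1 : (M.dg.tensor N.dg).IsDeg (j + (i + 0))
        (((relMap M N).comp (TensorProduct.mk k M.M (B.A ⊗[k] N.M) m)) y) := by
      refine Dg.tensor_degMap _ (fun p q b n hb hn => ?_) hy
      simp only [LinearMap.comp_apply, TensorProduct.mk_apply, relMap_tmul]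
      have h2 := Dg.tensor_deg (M.r_deg hm hb) hn
      have h3 := Dg.tensor_deg hm (N.l_deg hb hn)
      rw [show p + q + (i + 0) = i + p + q by ring]
      rw [← add_assoc] at h3
      exact h2.sub h3
    rw [show i + (j + 0) = j + (i + 0) by ring]
    exact h1

theorem relMap_d (M : Bim A B) (N : Bim B C) (x : M.M ⊗[k] (B.A ⊗[k] N.M)) :
    (M.dg.tensor N.dg).d (relMap M N x) =
      relMap M N ((M.dg.tensor (B.dg.tensor N.dg)).d x) := by
  induction x using TensorProduct.induction_on with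
  | zero => simp
  | add x y hx hy => rw [map_add, map_add, hx, hy, map_add, map_add]
  | tmul m y =>
    induction y using TensorProduct.induction_on with
    | zero => simp
    | add x y hx hy =>
      rw [TensorProduct.tmul_add, map_add, map_add, hx, hy, map_add, map_add]
    | tmul b n =>
      simp only [relMap_tmul, Dg.tensor_d, map_sub, map_add, TensorProduct.tmul_add, M.d_r, N.d_l,
        TensorProduct.add_tmul, M.s_r]
      abel

/-- The subspace spanned by the elements `mb ⊗ n - m ⊗ bn`. -/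
noncomputable def rel (M : Bim A B) (N : Bim B C) : Submodule k (M.M ⊗[k] N.M) :=
  LinearMap.range (relMap M N)

theorem rel_mem (M : Bim A B) (N : Bim B C) (m : M.M) (b : B.A) (n : N.M) :
    M.r b m ⊗ₜ[k] n - m ⊗ₜ[k] N.l b n ∈ rel M N := ⟨_, relMap_tmul M N m b n⟩

theorem rel_ind (M : Bim A B) (N : Bim B C) {P : M.M ⊗[k] N.M → Prop} (h0 : P 0)
    (hadd : ∀ x y, P x → P y → P (x + y))
    (h : ∀ m b n, P (M.r b m ⊗ₜ[k] n - m ⊗ₜ[k] N.l b n)) {x : M.M ⊗[k] N.M}
    (hx : x ∈ rel M N) : P x := by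
  obtain ⟨x, rfl⟩ := hx
  induction x using TensorProduct.induction_on with
  | zero => simpa using h0
  | add x y hx hy => rw [map_add]; exact hadd _ _ hx hy
  | tmul m y =>
    induction y using TensorProduct.induction_on with
    | zero => simpa using h0
    | add x y hx hy => rw [TensorProduct.tmul_add, map_add]; exact hadd _ _ hx hy
    | tmul b n => rw [relMap_tmul]; exact h m b n

/-- The linear map on the tensor product over `B` given by a linear map on the tensor product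
which respects the relations. -/
noncomputable def tmapQ (M : Bim A B) (N : Bim B C) (f : M.M ⊗[k] N.M →ₗ[k] M.M ⊗[k] N.M)
    (h : ∀ m b n, f (M.r b m ⊗ₜ[k] n - m ⊗ₜ[k] N.l b n) ∈ rel M N) :
    (M.M ⊗[k] N.M ⧸ rel M N) →ₗ[k] (M.M ⊗[k] N.M ⧸ rel M N) :=
  (rel M N).mapQ (rel M N) f (fun x hx => rel_ind M N (P := fun x => x ∈ (rel M N).comap f)
    (Submodule.zero_mem _) (fun _ _ => Submodule.add_mem _) h hx)

theorem tq_ind (M : Bim A B) (N : Bim B C) {P : (M.M ⊗[k] N.M ⧸ rel M N) → Prop} (h0 : P 0)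
    (hadd : ∀ x y, P x → P y → P (x + y)) (h : ∀ m n, P ((rel M N).mkQ (m ⊗ₜ n)))
    (x : M.M ⊗[k] N.M ⧸ rel M N) : P x := by
  obtain ⟨x, rfl⟩ := (rel M N).mkQ_surjective x
  induction x using TensorProduct.induction_on with
  | zero => simpa using h0
  | tmul m n => exact h m n
  | add x y hx hy => rw [map_add]; exact hadd _ _ hx hy

/-- The grading and the differential of `M ⊗_B N`. -/
noncomputable def tdg (M : Bim A B) (N : Bim B C) : Dg k (M.M ⊗[k] N.M ⧸ rel M N) :=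
  (M.dg.tensor N.dg).quot (rel M N)
    (fun v hv n => by
      obtain ⟨x, rfl⟩ := hv
      exact ⟨_, (relMap_deg M N x n).symm⟩)
    (fun v hv => by
      obtain ⟨x, rfl⟩ := hv
      exact ⟨_, (relMap_d M N x).symm⟩)

theorem tdg_d (M : Bim A B) (N : Bim B C) (m : M.M) (n : N.M) :
    (tdg M N).d ((rel M N).mkQ (m ⊗ₜ n)) =
      (rel M N).mkQ (M.dg.d m ⊗ₜ n) + (rel M N).mkQ (M.dg.s m ⊗ₜ N.dg.d n) := by
  rw [tdg, Dg.quot_d, Dg.tensor_d, map_add]

theorem tdg_s (M : Bim A B) (N : Bim B C) (m : M.M) (n : N.M) :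
    (tdg M N).s ((rel M N).mkQ (m ⊗ₜ n)) = (rel M N).mkQ (M.dg.s m ⊗ₜ N.dg.s n) := by
  rw [tdg, Dg.quot_s, Dg.tensor_s]

theorem tdg_deg (M : Bim A B) (N : Bim B C) {i j : ℤ} {m : M.M} {n : N.M}
    (hm : M.dg.IsDeg i m) (hn : N.dg.IsDeg j n) :
    (tdg M N).IsDeg (i + j) ((rel M N).mkQ (m ⊗ₜ n)) :=
  (M.dg.tensor N.dg).quot_deg (Dg.tensor_deg hm hn)

/-- A linear map on `M ⊗_B N` is homogeneous if it is so on the elements `m ⊗ n`. -/
theorem tdg_degMap (M : Bim A B) (N : Bim B C) {U : Type u} [AddCommGroup U] [Module k U]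
    {Z : Dg k U} {n : ℤ} (f : (M.M ⊗[k] N.M ⧸ rel M N) →ₗ[k] U)
    (h : ∀ {i j v w}, M.dg.IsDeg i v → N.dg.IsDeg j w →
      Z.IsDeg (i + j + n) (f ((rel M N).mkQ (v ⊗ₜ w))))
    {j : ℤ} {x : M.M ⊗[k] N.M ⧸ rel M N} (hx : (tdg M N).IsDeg j x) : Z.IsDeg (j + n) (f x) := by
  refine (Dg.degMap_iff f).2 (fun x j => ?_) j x hx
  obtain ⟨x, rfl⟩ := (rel M N).mkQ_surjective x
  have h1 := (Dg.degMap_iff (X := M.dg.tensor N.dg) (Y := Z) (n := n)
    (f.comp (rel M N).mkQ)).1 (fun j v hv => Dg.tensor_degMap _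
      (fun i j v w hv hw => h hv hw) hv) x j
  rw [tdg, Dg.quot_ρ]
  exact h1

/-- The left action `a(m ⊗ n) = am ⊗ n`. -/
noncomputable def tL (M : Bim A B) (N : Bim B C) :
    A.A →ₗ[k] (M.M ⊗[k] N.M ⧸ rel M N) →ₗ[k] (M.M ⊗[k] N.M ⧸ rel M N) where
  toFun := fun a => tmapQ M N (LinearMap.rTensor N.M (M.l a)) (fun m b n => by
    rw [map_sub, LinearMap.rTensor_tmul, LinearMap.rTensor_tmul, M.l_r]
    exact rel_mem M N _ _ _)
  map_add' := fun a a' => by
    ext m n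
    simp [tmapQ]
  map_smul' := fun c a => by
    ext m n
    simp [tmapQ, ← TensorProduct.smul_tmul', Submodule.Quotient.mk_smul]

/-- The right action `(m ⊗ n)c = m ⊗ nc`. -/
noncomputable def tR (M : Bim A B) (N : Bim B C) :
    C.A →ₗ[k] (M.M ⊗[k] N.M ⧸ rel M N) →ₗ[k] (M.M ⊗[k] N.M ⧸ rel M N) where
  toFun := fun c => tmapQ M N (LinearMap.lTensor M.M (N.r c)) (fun m b n => by
    rw [map_sub, LinearMap.lTensor_tmul, LinearMap.lTensor_tmul, ← N.l_r]
    exact rel_mem M N _ _ _)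
  map_add' := fun a a' => by
    ext m n
    simp [tmapQ]
  map_smul' := fun c a => by
    ext m n
    simp [tmapQ]

theorem tL_mk (M : Bim A B) (N : Bim B C) (a : A.A) (m : M.M) (n : N.M) :
    tL M N a ((rel M N).mkQ (m ⊗ₜ n)) = (rel M N).mkQ (M.l a m ⊗ₜ n) := by
  simp [tL, tmapQ]

theorem tR_mk (M : Bim A B) (N : Bim B C) (c : C.A) (m : M.M) (n : N.M) :
    tR M N c ((rel M N).mkQ (m ⊗ₜ n)) = (rel M N).mkQ (m ⊗ₜ N.r c n) := by
  simp [tR, tmapQ]

/-- The tensor product `M ⊗_B N`: the quotient of `M ⊗ N` by the elements `mb ⊗ n - m ⊗ bn`;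
`a(m ⊗ n)c = am ⊗ nc` and `d(m ⊗ n) = dm ⊗ n + (-1)^|m| m ⊗ dn`. -/
noncomputable def tb (M : Bim A B) (N : Bim B C) : Bim A C where
  M := M.M ⊗[k] N.M ⧸ rel M N
  dg := tdg M N
  l := tL M N
  r := tR M N
  l_one := tq_ind M N (map_zero _) (fun x y hx hy => by rw [map_add, hx, hy])
    (fun m n => by rw [tL_mk, M.l_one])
  r_one := tq_ind M N (map_zero _) (fun x y hx hy => by rw [map_add, hx, hy])
    (fun m n => by rw [tR_mk, N.r_one])
  l_mul := fun a a' => tq_ind M N (by simp only [map_zero]) (fun x y hx hy => by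
      rw [map_add, hx, hy, map_add, map_add])
    (fun m n => by rw [tL_mk, tL_mk, tL_mk, M.l_mul])
  r_mul := fun a a' => tq_ind M N (by simp only [map_zero]) (fun x y hx hy => by
      rw [map_add, hx, hy, map_add, map_add])
    (fun m n => by rw [tR_mk, tR_mk, tR_mk, N.r_mul])
  l_r := fun a b => tq_ind M N (by simp only [map_zero]) (fun x y hx hy => by
      rw [map_add, map_add, hx, hy, map_add, map_add])
    (fun m n => by rw [tL_mk, tR_mk, tR_mk, tL_mk])
  l_deg := fun {i j a x} ha hx => by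
    rw [add_comm]
    refine tdg_degMap M N (Z := tdg M N) (tL M N a) (fun {i' j' m n} hm hn => ?_) hx
    rw [tL_mk, show i' + j' + i = i + i' + j' by ring]
    exact tdg_deg M N (M.l_deg ha hm) hn
  r_deg := fun {i j b x} hx hb => by
    refine tdg_degMap M N (Z := tdg M N) (tR M N b) (fun {i' j' m n} hm hn => ?_) hx
    rw [tR_mk, show i' + j' + j = i' + (j' + j) by ring]
    exact tdg_deg M N hm (N.r_deg hn hb)
  d_l := fun a => tq_ind M N (by simp only [map_zero, add_zero]) (fun x y hx hy => by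
      simp only [map_add, hx, hy]; abel)
    (fun m n => by
      rw [tL_mk, tdg_d, tdg_d, map_add, tL_mk, tL_mk, tL_mk, M.d_l, M.s_l, TensorProduct.add_tmul,
        map_add, add_assoc])
  d_r := fun b => tq_ind M N (by simp only [map_zero, add_zero]) (fun x y hx hy => by
      simp only [map_add, hx, hy]; abel)
    (fun m n => by
      rw [tR_mk, tdg_d, tdg_d, tdg_s, map_add, tR_mk, tR_mk, tR_mk, N.d_r, TensorProduct.tmul_add,
        map_add, add_assoc])

/-- The element `m ⊗ n` of `M ⊗_B N`. -/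
noncomputable def tm {M : Bim A B} {N : Bim B C} (m : M.M) (n : N.M) : (tb M N).M :=
  (rel M N).mkQ (m ⊗ₜ n)

section api

variable {M : Bim A B} {N : Bim B C}

theorem tm_add_left (m m' : M.M) (n : N.M) :
    (tm (m + m') n : (tb M N).M) = tm m n + tm m' n :=
  show (rel M N).mkQ ((m + m') ⊗ₜ n) = (rel M N).mkQ (m ⊗ₜ n) + (rel M N).mkQ (m' ⊗ₜ n) by
    rw [TensorProduct.add_tmul, map_add]

theorem tm_add_right (m : M.M) (n n' : N.M) :
    (tm m (n + n') : (tb M N).M) = tm m n + tm m n' :=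
  show (rel M N).mkQ (m ⊗ₜ (n + n')) = (rel M N).mkQ (m ⊗ₜ n) + (rel M N).mkQ (m ⊗ₜ n') by
    rw [TensorProduct.tmul_add, map_add]

theorem tm_smul_left (c : k) (m : M.M) (n : N.M) :
    (tm (c • m) n : (tb M N).M) = c • tm m n :=
  show (rel M N).mkQ ((c • m) ⊗ₜ n) = c • (rel M N).mkQ (m ⊗ₜ n) by
    rw [← TensorProduct.smul_tmul', map_smul]

theorem tm_smul_right (c : k) (m : M.M) (n : N.M) :
    (tm m (c • n) : (tb M N).M) = c • tm m n :=
  show (rel M N).mkQ (m ⊗ₜ (c • n)) = c • (rel M N).mkQ (m ⊗ₜ n) by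
    rw [TensorProduct.tmul_smul, map_smul]

theorem tm_r_l (m : M.M) (b : B.A) (n : N.M) :
    (tm (M.r b m) n : (tb M N).M) = tm m (N.l b n) :=
  show (rel M N).mkQ (M.r b m ⊗ₜ n) = (rel M N).mkQ (m ⊗ₜ N.l b n) by
    rw [← sub_eq_zero, ← map_sub, Submodule.mkQ_apply, Submodule.Quotient.mk_eq_zero]
    exact rel_mem M N m b n

theorem tm_sub_left (m m' : M.M) (n : N.M) :
    (tm (m - m') n : (tb M N).M) = tm m n - tm m' n :=
  show (rel M N).mkQ ((m - m') ⊗ₜ n) = (rel M N).mkQ (m ⊗ₜ n) - (rel M N).mkQ (m' ⊗ₜ n) by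
    rw [TensorProduct.sub_tmul, map_sub]

theorem tm_sub_right (m : M.M) (n n' : N.M) :
    (tm m (n - n') : (tb M N).M) = tm m n - tm m n' :=
  show (rel M N).mkQ (m ⊗ₜ (n - n')) = (rel M N).mkQ (m ⊗ₜ n) - (rel M N).mkQ (m ⊗ₜ n') by
    rw [TensorProduct.tmul_sub, map_sub]

theorem tm_neg_left (m : M.M) (n : N.M) : (tm (-m) n : (tb M N).M) = -tm m n :=
  show (rel M N).mkQ ((-m) ⊗ₜ n) = -(rel M N).mkQ (m ⊗ₜ n) by
    rw [TensorProduct.neg_tmul, map_neg]

theorem tm_neg_right (m : M.M) (n : N.M) : (tm m (-n) : (tb M N).M) = -tm m n :=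
  show (rel M N).mkQ (m ⊗ₜ (-n)) = -(rel M N).mkQ (m ⊗ₜ n) by
    rw [TensorProduct.tmul_neg, map_neg]

theorem tm_zero_left (n : N.M) : (tm (0 : M.M) n : (tb M N).M) = 0 :=
  show (rel M N).mkQ ((0 : M.M) ⊗ₜ n) = 0 by rw [TensorProduct.zero_tmul, map_zero]

theorem tm_zero_right (m : M.M) : (tm m (0 : N.M) : (tb M N).M) = 0 :=
  show (rel M N).mkQ (m ⊗ₜ (0 : N.M)) = 0 by rw [TensorProduct.tmul_zero, map_zero]

theorem tb_l (a : A.A) (m : M.M) (n : N.M) : (tb M N).l a (tm m n) = tm (M.l a m) n := by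
  exact tL_mk M N a m n

theorem tb_r (c : C.A) (m : M.M) (n : N.M) : (tb M N).r c (tm m n) = tm m (N.r c n) := by
  exact tR_mk M N c m n

theorem tb_d (m : M.M) (n : N.M) :
    (tb M N).dg.d (tm m n) = tm (M.dg.d m) n + tm (M.dg.s m) (N.dg.d n) := tdg_d M N m n

theorem tb_s (m : M.M) (n : N.M) : (tb M N).dg.s (tm m n) = tm (M.dg.s m) (N.dg.s n) :=
  tdg_s M N m n

theorem tb_deg {i j : ℤ} {m : M.M} {n : N.M} (hm : M.dg.IsDeg i m) (hn : N.dg.IsDeg j n) :
    (tb M N).dg.IsDeg (i + j) (tm m n) := tdg_deg M N hm hn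

theorem tb_ind {P : (tb M N).M → Prop} (h0 : P 0) (hadd : ∀ x y, P x → P y → P (x + y))
    (h : ∀ m n, P (tm m n)) (x : (tb M N).M) : P x := tq_ind M N h0 hadd h x

/-- The bilinear map `(m, n) ↦ m ⊗ n`. -/
noncomputable def tmB (M : Bim A B) (N : Bim B C) : M.M →ₗ[k] N.M →ₗ[k] (tb M N).M :=
  (TensorProduct.mk k M.M N.M).compr₂ (rel M N).mkQ

theorem tmB_apply (m : M.M) (n : N.M) : tmB M N m n = tm m n := rfl

theorem tb_o (m : M.M) (n : N.M) : (tb M N).dg.o (tm m n) =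
    tm (M.dg.o m) n + tm m (N.dg.o n) - (2 : k) • tm (M.dg.o m) (N.dg.o n) :=
  Dg.o_bilin (tmB M N) (fun h h' => tb_deg h h') m n

/-- The linear map on `M ⊗_B N` given by a balanced bilinear map. -/
noncomputable def tlift {U : Type*} [AddCommGroup U] [Module k U] (β : M.M →ₗ[k] N.M →ₗ[k] U)
    (h : ∀ m b n, β (M.r b m) n = β m (N.l b n)) : (tb M N).M →ₗ[k] U :=
  (rel M N).liftQ (TensorProduct.lift β) (fun x hx => rel_ind M N
    (P := fun x => x ∈ LinearMap.ker (TensorProduct.lift β)) (Submodule.zero_mem _)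
    (fun _ _ => Submodule.add_mem _) (fun m b n => by simp [h m b n]) hx)

theorem tlift_tm {U : Type*} [AddCommGroup U] [Module k U] (β : M.M →ₗ[k] N.M →ₗ[k] U)
    (h : ∀ m b n, β (M.r b m) n = β m (N.l b n)) (m : M.M) (n : N.M) :
    tlift β h (tm m n) = β m n := by
  unfold tlift tm
  erw [Submodule.liftQ_apply, TensorProduct.lift.tmul]

theorem tb_degMap {U : Type u} [AddCommGroup U] [Module k U]
    {Z : Dg k U} {n : ℤ} (f : (tb M N).M →ₗ[k] U)
    (h : ∀ {i j v w}, M.dg.IsDeg i v → N.dg.IsDeg j w → Z.IsDeg (i + j + n) (f (tm v w)))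
    {j : ℤ} {x : (tb M N).M} (hx : (tb M N).dg.IsDeg j x) : Z.IsDeg (j + n) (f x) :=
  tdg_degMap M N f h hx

theorem tb_hom_ext {U : Type*} [AddCommGroup U] [Module k U] {f g : (tb M N).M →ₗ[k] U}
    (h : ∀ m n, f (tm m n) = g (tm m n)) : f = g :=
  LinearMap.ext (tb_ind (by simp) (fun x y hx hy => by rw [map_add, map_add, hx, hy]) h)

end api

end Pool.Agent.MP_6e5bed_ag_NC
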