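import Pool.Agent.Lib.MP_6e5bed_ag_NC.CatMon

set_option autoImplicit false

/-!
# The symmetry
-/

namespace Pool.Agent.MP_6e5bed_ag_NC

open CategoryTheory MonoidalCategory
open scoped TensorProduct

universe u

section lemmas

variable {k : Type u} [CommRing k] {V1 V2 V3 : Type u}
  [AddCommGroup V1] [Module k V1] [AddCommGroup V2] [Module k V2] [AddCommGroup V3] [Module k V3]

private theorem catSym_fwd (X : Dg k V1) (Y : Dg k V2) (Z : Dg k V3)
    (x : (V1 ⊗[k] V2) ⊗[k] V3) :
    (TensorProduct.assoc k V2 V3 V1).toLinearMap (ksw X (Y.tensor Z)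
      ((TensorProduct.assoc k V1 V2 V3).toLinearMap x)) =
    TensorProduct.map LinearMap.id (ksw X Z) ((TensorProduct.assoc k V2 V1 V3).toLinearMap
      (TensorProduct.map (ksw X Y) LinearMap.id x)) := by
  induction x using TensorProduct.induction_on with
  | zero => simp only [map_zero]
  | add x y hx hy => simp only [map_add, hx, hy]
  | tmul v c =>
    induction v using TensorProduct.induction_on with
    | zero => simp only [map_zero, TensorProduct.zero_tmul]
    | add v v' hv hv' => simp only [map_add, TensorProduct.add_tmul, hv, hv']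
    | tmul a b =>
      simp only [LinearEquiv.coe_coe, TensorProduct.assoc_tmul, ksw_tmul, Dg.tensor_o,
        TensorProduct.map_tmul, LinearMap.id_apply, TensorProduct.add_tmul, TensorProduct.tmul_add,
        TensorProduct.sub_tmul, TensorProduct.tmul_sub, map_sub, map_add, map_smul,
        TensorProduct.smul_tmul', TensorProduct.tmul_smul, Dg.o_o, two_smul]
      abel

private theorem catSym_rev (X : Dg k V1) (Y : Dg k V2) (Z : Dg k V3)
    (x : V1 ⊗[k] (V2 ⊗[k] V3)) :
    (TensorProduct.assoc k V3 V1 V2).symm.toLinearMap (ksw (X.tensor Y) Z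
      ((TensorProduct.assoc k V1 V2 V3).symm.toLinearMap x)) =
    TensorProduct.map (ksw X Z) LinearMap.id ((TensorProduct.assoc k V1 V3 V2).symm.toLinearMap
      (TensorProduct.map LinearMap.id (ksw Y Z) x)) := by
  induction x using TensorProduct.induction_on with
  | zero => simp only [map_zero]
  | add x y hx hy => simp only [map_add, hx, hy]
  | tmul a v =>
    induction v using TensorProduct.induction_on with
    | zero => simp only [map_zero, TensorProduct.tmul_zero]
    | add v v' hv hv' => simp only [map_add, TensorProduct.tmul_add, hv, hv']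
    | tmul b c =>
      simp only [LinearEquiv.coe_coe, TensorProduct.assoc_symm_tmul, ksw_tmul, Dg.tensor_o,
        TensorProduct.map_tmul, LinearMap.id_apply, TensorProduct.tmul_add, TensorProduct.add_tmul,
        TensorProduct.sub_tmul, TensorProduct.tmul_sub, map_sub, map_add, map_smul,
        TensorProduct.smul_tmul', TensorProduct.tmul_smul, Dg.o_o, two_smul]
      abel

end lemmas

variable {k : Type u} [CommRing k]

private theorem catSym_nat {A B A' B' : SP k} (f : A ⟶ B) (g : A' ⟶ B') :
    SP.tensorHom f g ≫ ofIso (A := B.tensor B') (B := B'.tensor B) (swapIso B.alg B'.alg) =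
      ofIso (A := A.tensor A') (B := A'.tensor A) (swapIso A.alg A'.alg) ≫
        SP.tensorHom g f := by
  rw [comp_ofIso, ofIso_comp]
  have h : (SP.tensorHom f g : A.tensor A' ⟶ B.tensor B') =
      K0Q.res (swapIso A.alg A'.alg) (swapIso B.alg B'.alg) (K0Q.box g f) :=
    (K0Q.box_swap' (A := A.alg) (B := B.alg) (A' := A'.alg) (B' := B'.alg) f g).symm
  have h2 : K0Q.res (DIso.refl (A.alg.tensor A'.alg)) (swapIso B.alg B'.alg).symm
      (K0Q.res (swapIso A.alg A'.alg) (swapIso B.alg B'.alg) (K0Q.box g f)) =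
      K0Q.res (swapIso A.alg A'.alg) (DIso.refl (B'.alg.tensor B.alg)) (K0Q.box g f) := by
    rw [K0Q.res_res, DIso.symm_trans, DIso.refl_trans]
  rw [h]
  exact h2

private theorem catSym_hexF (X Y Z : SP k) :
    ofIso (A := (X.tensor Y).tensor Z) (B := X.tensor (Y.tensor Z))
      (assocIso X.alg Y.alg Z.alg) ≫
    ofIso (A := X.tensor (Y.tensor Z)) (B := (Y.tensor Z).tensor X)
      (swapIso X.alg (Y.alg.tensor Z.alg)) ≫
    ofIso (A := (Y.tensor Z).tensor X) (B := Y.tensor (Z.tensor X))
      (assocIso Y.alg Z.alg X.alg) =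
    SP.tensorHom (ofIso (A := X.tensor Y) (B := Y.tensor X) (swapIso X.alg Y.alg)) (𝟙 Z) ≫
    ofIso (A := (Y.tensor X).tensor Z) (B := Y.tensor (X.tensor Z))
      (assocIso Y.alg X.alg Z.alg) ≫
    SP.tensorHom (𝟙 Y) (ofIso (A := X.tensor Z) (B := Z.tensor X)
      (swapIso X.alg Z.alg)) := by
  rw [← ofIso_refl (A := Z), ← ofIso_refl (A := Y), tensorHom_ofIso, tensorHom_ofIso,
    ofIso_trans, ofIso_trans, ofIso_trans, ofIso_trans]
  refine congrArg _ (DIso.ext fun x => ?_)
  exact catSym_fwd X.alg.dg Y.alg.dg Z.alg.dg x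

private theorem catSym_hexR (X Y Z : SP k) :
    ofIso (A := X.tensor (Y.tensor Z)) (B := (X.tensor Y).tensor Z)
      (assocIso X.alg Y.alg Z.alg).symm ≫
    ofIso (A := (X.tensor Y).tensor Z) (B := Z.tensor (X.tensor Y))
      (swapIso (X.alg.tensor Y.alg) Z.alg) ≫
    ofIso (A := Z.tensor (X.tensor Y)) (B := (Z.tensor X).tensor Y)
      (assocIso Z.alg X.alg Y.alg).symm =
    SP.tensorHom (𝟙 X) (ofIso (A := Y.tensor Z) (B := Z.tensor Y) (swapIso Y.alg Z.alg)) ≫
    ofIso (A := X.tensor (Z.tensor Y)) (B := (X.tensor Z).tensor Y)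
      (assocIso X.alg Z.alg Y.alg).symm ≫
    SP.tensorHom (ofIso (A := X.tensor Z) (B := Z.tensor X)
      (swapIso X.alg Z.alg)) (𝟙 Y) := by
  rw [← ofIso_refl (A := X), ← ofIso_refl (A := Y), tensorHom_ofIso, tensorHom_ofIso,
    ofIso_trans, ofIso_trans, ofIso_trans, ofIso_trans]
  refine congrArg _ (DIso.ext fun x => ?_)
  exact catSym_rev X.alg.dg Y.alg.dg Z.alg.dg x

private theorem catSym_symm (X Y : SP k) :
    ofIso (A := X.tensor Y) (B := Y.tensor X) (swapIso X.alg Y.alg) ≫
      ofIso (A := Y.tensor X) (B := X.tensor Y) (swapIso Y.alg X.alg) = 𝟙 (X.tensor Y) := by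
  rw [ofIso_trans, ← ofIso_refl]
  refine congrArg _ (DIso.ext fun x => ?_)
  exact ksw_ksw X.alg.dg Y.alg.dg x

noncomputable instance : SymmetricCategory (SP k) where
  braiding A B := mkIso (A := A.tensor B) (B := B.tensor A) (swapIso A.alg B.alg)
  braiding_naturality_right := fun X _ _ f => catSym_nat (𝟙 X) f
  braiding_naturality_left := fun f Z => catSym_nat f (𝟙 Z)
  hexagon_forward := fun X Y Z => catSym_hexF X Y Z
  hexagon_reverse := fun X Y Z => catSym_hexR X Y Z
  symmetry := fun X Y => catSym_symm X Y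

end Pool.Agent.MP_6e5bed_ag_NC
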