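import Pool.Agent.Lib.MP_6e5bed_ag_NC.Box

set_option autoImplicit false

/-!
# The associativity isomorphism of the tensor product of dg algebras
-/

namespace Pool.Agent.MP_6e5bed_ag_NC

open scoped TensorProduct

universe u

section lemmas

variable {k : Type u} [CommRing k]
  {V1 V2 V3 V1' V2' V3' V1'' V2'' V3'' : Type u}
  [AddCommGroup V1] [Module k V1] [AddCommGroup V2] [Module k V2] [AddCommGroup V3] [Module k V3]
  [AddCommGroup V1'] [Module k V1'] [AddCommGroup V2'] [Module k V2']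
  [AddCommGroup V3'] [Module k V3'] [AddCommGroup V1''] [Module k V1'']
  [AddCommGroup V2''] [Module k V2''] [AddCommGroup V3''] [Module k V3'']

private theorem cassoc_tmul {X1 : Dg k V1'} {X2 : Dg k V2'} {Y2 : Dg k V2} {Y3 : Dg k V3}
    {α : V1 →ₗ[k] V1' →ₗ[k] V1''} {β : V2 →ₗ[k] V2' →ₗ[k] V2''}
    {γ : V3 →ₗ[k] V3' →ₗ[k] V3''} (v1 : V1) (v2 : V2) (v3 : V3) (v1' : V1') (v2' : V2')
    (v3' : V3') :
    TensorProduct.assoc k V1'' V2'' V3''
        (kz (X1.tensor X2) Y3 (kz X1 Y2 α β) γ ((v1 ⊗ₜ v2) ⊗ₜ v3) ((v1' ⊗ₜ v2') ⊗ₜ v3')) =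
      kz X1 (Y2.tensor Y3) α (kz X2 Y3 β γ)
        (TensorProduct.assoc k V1 V2 V3 ((v1 ⊗ₜ v2) ⊗ₜ v3))
        (TensorProduct.assoc k V1' V2' V3' ((v1' ⊗ₜ v2') ⊗ₜ v3')) := by
  rw [TensorProduct.assoc_tmul, TensorProduct.assoc_tmul]
  refine Y3.parity_ind (P := fun v3 => TensorProduct.assoc k V1'' V2'' V3''
        (kz (X1.tensor X2) Y3 (kz X1 Y2 α β) γ ((v1 ⊗ₜ v2) ⊗ₜ v3) ((v1' ⊗ₜ v2') ⊗ₜ v3')) =
      kz X1 (Y2.tensor Y3) α (kz X2 Y3 β γ) (v1 ⊗ₜ (v2 ⊗ₜ v3)) (v1' ⊗ₜ (v2' ⊗ₜ v3')))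
    ?_ ?_ ?_ v3
  · intro a b ha hb
    simp only [TensorProduct.tmul_add, map_add, LinearMap.add_apply, ha, hb]
  · intro v3 h3
    refine Y2.parity_ind (P := fun v2 => TensorProduct.assoc k V1'' V2'' V3''
        (kz (X1.tensor X2) Y3 (kz X1 Y2 α β) γ ((v1 ⊗ₜ v2) ⊗ₜ v3) ((v1' ⊗ₜ v2') ⊗ₜ v3')) =
      kz X1 (Y2.tensor Y3) α (kz X2 Y3 β γ) (v1 ⊗ₜ (v2 ⊗ₜ v3)) (v1' ⊗ₜ (v2' ⊗ₜ v3')))
      ?_ ?_ ?_ v2
    · intro a b ha hb
      simp only [TensorProduct.tmul_add, TensorProduct.add_tmul, map_add, LinearMap.add_apply,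
        ha, hb]
    · intro v2 h2
      have h : (Y2.tensor Y3).o (v2 ⊗ₜ v3) = 0 := by rw [Dg.tensor_o, h2, h3]; simp
      rw [kz_even h3, kz_even h2, kz_even h, kz_even h3, TensorProduct.assoc_tmul]
    · intro v2 h2
      have h : (Y2.tensor Y3).o (v2 ⊗ₜ v3) = v2 ⊗ₜ v3 := by rw [Dg.tensor_o, h2, h3]; simp
      rw [kz_even h3, kz_odd h2, kz_odd h, kz_even h3, TensorProduct.assoc_tmul]
  · intro v3 h3
    refine Y2.parity_ind (P := fun v2 => TensorProduct.assoc k V1'' V2'' V3''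
        (kz (X1.tensor X2) Y3 (kz X1 Y2 α β) γ ((v1 ⊗ₜ v2) ⊗ₜ v3) ((v1' ⊗ₜ v2') ⊗ₜ v3')) =
      kz X1 (Y2.tensor Y3) α (kz X2 Y3 β γ) (v1 ⊗ₜ (v2 ⊗ₜ v3)) (v1' ⊗ₜ (v2' ⊗ₜ v3')))
      ?_ ?_ ?_ v2
    · intro a b ha hb
      simp only [TensorProduct.tmul_add, TensorProduct.add_tmul, map_add, LinearMap.add_apply,
        ha, hb]
    · intro v2 h2
      have h : (Y2.tensor Y3).o (v2 ⊗ₜ v3) = v2 ⊗ₜ v3 := by rw [Dg.tensor_o, h2, h3]; simp
      rw [kz_odd h3, Dg.tensor_s, kz_even h2, kz_odd h, kz_odd h3, TensorProduct.assoc_tmul]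
    · intro v2 h2
      have h : (Y2.tensor Y3).o (v2 ⊗ₜ v3) = 0 := by
        rw [Dg.tensor_o, h2, h3, two_smul]
        abel
      rw [kz_odd h3, Dg.tensor_s, kz_odd h2, kz_even h, kz_odd h3, TensorProduct.assoc_tmul,
        Dg.s_s]

/-- The Koszul product is associative. -/
theorem kz_tassoc {X1 : Dg k V1'} {X2 : Dg k V2'} {Y2 : Dg k V2} {Y3 : Dg k V3}
    {α : V1 →ₗ[k] V1' →ₗ[k] V1''} {β : V2 →ₗ[k] V2' →ₗ[k] V2''}
    {γ : V3 →ₗ[k] V3' →ₗ[k] V3''} (x : (V1 ⊗[k] V2) ⊗[k] V3) (y : (V1' ⊗[k] V2') ⊗[k] V3') :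
    TensorProduct.assoc k V1'' V2'' V3'' (kz (X1.tensor X2) Y3 (kz X1 Y2 α β) γ x y) =
      kz X1 (Y2.tensor Y3) α (kz X2 Y3 β γ) (TensorProduct.assoc k V1 V2 V3 x)
        (TensorProduct.assoc k V1' V2' V3' y) := by
  induction x using TensorProduct.induction_on with
  | zero => simp
  | add x x' hx hx' => simp only [map_add, LinearMap.add_apply, hx, hx']
  | tmul v w =>
    induction v using TensorProduct.induction_on with
    | zero => simp
    | add v v' hv hv' =>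
      simp only [TensorProduct.add_tmul, map_add, LinearMap.add_apply, hv, hv']
    | tmul v1 v2 =>
      induction y using TensorProduct.induction_on with
      | zero => simp
      | add y y' hy hy' => simp only [map_add, hy, hy']
      | tmul v' w' =>
        induction v' using TensorProduct.induction_on with
        | zero => simp
        | add v v' hv hv' => simp only [TensorProduct.add_tmul, map_add, hv, hv']
        | tmul v1' v2' => exact cassoc_tmul v1 v2 w v1' v2' w'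

end lemmas

variable {k : Type u} [CommRing k]

private theorem cassoc_deg (A B C : DGA k) {i : ℤ} {x : (A.A ⊗[k] B.A) ⊗[k] C.A}
    (hx : ((A.dg.tensor B.dg).tensor C.dg).IsDeg i x) :
    (A.dg.tensor (B.dg.tensor C.dg)).IsDeg i
      ((TensorProduct.assoc k A.A B.A C.A).toLinearMap x) := by
  have h := Dg.tensor_degMap (X := A.dg.tensor B.dg) (Y := C.dg)
    (Z := A.dg.tensor (B.dg.tensor C.dg)) (n := 0)
    (TensorProduct.assoc k A.A B.A C.A).toLinearMap (fun i j v w hv hw => by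
      rw [add_zero]
      have h1 := Dg.tensor_degMap (X := A.dg) (Y := B.dg)
        (Z := A.dg.tensor (B.dg.tensor C.dg)) (n := j)
        ((TensorProduct.assoc k A.A B.A C.A).toLinearMap.comp
          ((TensorProduct.mk k (A.A ⊗[k] B.A) C.A).flip w)) (fun i' j' a b ha hb => by
          rw [add_assoc]
          exact Dg.tensor_deg ha (Dg.tensor_deg hb hw)) hv
      exact h1) hx
  rwa [add_zero] at h

private theorem cassoc_d (A B C : DGA k) (x : (A.A ⊗[k] B.A) ⊗[k] C.A) :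
    (A.dg.tensor (B.dg.tensor C.dg)).d ((TensorProduct.assoc k A.A B.A C.A).toLinearMap x) =
      (TensorProduct.assoc k A.A B.A C.A).toLinearMap
        (((A.dg.tensor B.dg).tensor C.dg).d x) := by
  induction x using TensorProduct.induction_on with
  | zero => simp
  | add x y hx hy => rw [map_add, map_add, map_add, map_add, hx, hy]
  | tmul v c =>
    induction v using TensorProduct.induction_on with
    | zero => simp
    | add v v' hv hv' =>
      rw [TensorProduct.add_tmul, map_add, map_add, map_add, map_add, hv, hv']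
    | tmul a b =>
      simp only [LinearEquiv.coe_coe, TensorProduct.assoc_tmul, Dg.tensor_d, Dg.tensor_s,
        TensorProduct.add_tmul, TensorProduct.tmul_add, map_add]
      abel

/-- `(A ⊗ B) ⊗ C ≅ A ⊗ (B ⊗ C)` -/
noncomputable def assocIso (A B C : DGA k) :
    DIso ((A.tensor B).tensor C) (A.tensor (B.tensor C)) :=
  DIso.mk'
    { f := (TensorProduct.assoc k A.A B.A C.A).toLinearMap
      deg := fun hx => cassoc_deg A B C hx
      d := fun x => cassoc_d A B C x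
      one := rfl
      mul := fun x y => kz_tassoc x y }
    (TensorProduct.assoc k A.A B.A C.A).symm.toLinearMap
    (fun x => (TensorProduct.assoc k A.A B.A C.A).symm_apply_apply x)
    (fun x => (TensorProduct.assoc k A.A B.A C.A).apply_symm_apply x)

variable {A B C : DGA k}

theorem assocIso_hom (a : A.A) (b : B.A) (c : C.A) :
    (assocIso A B C).hom.f ((a ⊗ₜ b) ⊗ₜ c) = a ⊗ₜ (b ⊗ₜ c) := rfl

theorem assocIso_inv (a : A.A) (b : B.A) (c : C.A) :
    (assocIso A B C).inv.f (a ⊗ₜ (b ⊗ₜ c)) = (a ⊗ₜ b) ⊗ₜ c := rfl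

end Pool.Agent.MP_6e5bed_ag_NC
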