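import Pool.Agent.Lib.MP_6e5bed_ag_NC.FBend
import Pool.Agent.Lib.MP_6e5bed_ag_NC.FTb
import Pool.Agent.Lib.MP_6e5bed_ag_NC.CAssoc
import Pool.Agent.Lib.MP_6e5bed_ag_NC.CUnit

set_option autoImplicit false

/-!
# The isomorphism behind the duality of `A` and `Aᵒᵖ`
-/

namespace Pool.Agent.MP_6e5bed_ag_NC

open scoped TensorProduct

universe u

variable {k : Type u} [CommRing k] {A B X Z : DGA k}

namespace BendIso

variable (M₁ : Bim X A) (M₂ : Bim A Z)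

/-- The bilinear map `(m₁ ⊗ m₂, a ⊗ z) ↦ (-1)^(|m₂||a|) m₁a ⊗ m₂z`. -/
noncomputable def β : M₁.M ⊗[k] M₂.M →ₗ[k] A.A ⊗[k] Z.A →ₗ[k] (tb M₁ M₂).M :=
  (kz A.dg M₂.dg M₁.rr M₂.rr).compr₂ (rel M₁ M₂).mkQ

variable {M₁ M₂}

theorem β_even {m₂ : M₂.M} (h : M₂.dg.o m₂ = 0) (m₁ : M₁.M) (a : A.A) (z : Z.A) :
    β M₁ M₂ (m₁ ⊗ₜ m₂) (a ⊗ₜ z) = tm (M₁.r a m₁) (M₂.r z m₂) := by
  change (rel M₁ M₂).mkQ (kz A.dg M₂.dg M₁.rr M₂.rr (m₁ ⊗ₜ m₂) (a ⊗ₜ z)) = _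
  rw [kz_even h]
  rfl

theorem β_odd {m₂ : M₂.M} (h : M₂.dg.o m₂ = m₂) (m₁ : M₁.M) (a : A.A) (z : Z.A) :
    β M₁ M₂ (m₁ ⊗ₜ m₂) (a ⊗ₜ z) = tm (M₁.r (A.dg.s a) m₁) (M₂.r z m₂) := by
  change (rel M₁ M₂).mkQ (kz A.dg M₂.dg M₁.rr M₂.rr (m₁ ⊗ₜ m₂) (a ⊗ₜ z)) = _
  rw [kz_odd h]
  rfl

theorem β_even' {a : A.A} (h : A.dg.o a = 0) (m₁ : M₁.M) (m₂ : M₂.M) (z : Z.A) :
    β M₁ M₂ (m₁ ⊗ₜ m₂) (a ⊗ₜ z) = tm (M₁.r a m₁) (M₂.r z m₂) := by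
  change (rel M₁ M₂).mkQ (kz A.dg M₂.dg M₁.rr M₂.rr (m₁ ⊗ₜ m₂) (a ⊗ₜ z)) = _
  rw [kz_even' h]
  rfl

/-- The left action on the bent diagonal bimodule. -/
noncomputable def eed (A : DGA k) : A.A ⊗[k] A.A →ₗ[k] A.A →ₗ[k] A.A := eel (diag A)

theorem eed_even {y : A.A} (h : A.dg.o y = 0) (x a : A.A) :
    eed A (x ⊗ₜ y) a = A.mul x (A.mul a y) := eel_even (M := diag A) h x a

theorem eed_odd {y : A.A} (h : A.dg.o y = y) (x a : A.A) :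
    eed A (x ⊗ₜ y) a = A.mul x (A.mul (A.dg.s a) y) := eel_odd (M := diag A) h x a

/-- The left action on `(A bent) ⊗ Z`. -/
noncomputable def lact (A Z : DGA k) :
    A.A ⊗[k] (A.A ⊗[k] Z.A) →ₗ[k] A.A ⊗[k] Z.A →ₗ[k] A.A ⊗[k] Z.A :=
  (kz A.dg Z.dg (eed A) Z.mul).comp (TensorProduct.assoc k A.A A.A Z.A).symm.toLinearMap

theorem lact_tmul (x y : A.A) (w : Z.A) (n : A.A ⊗[k] Z.A) :
    lact A Z (x ⊗ₜ (y ⊗ₜ w)) n = kz A.dg Z.dg (eed A) Z.mul ((x ⊗ₜ y) ⊗ₜ w) n := rfl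

theorem lact_even {w : Z.A} (h : Z.dg.o w = 0) (x y a : A.A) (z : Z.A) :
    lact A Z (x ⊗ₜ (y ⊗ₜ w)) (a ⊗ₜ z) = eed A (x ⊗ₜ y) a ⊗ₜ Z.mul w z := by
  rw [lact_tmul, kz_even h]

theorem lact_odd {w : Z.A} (h : Z.dg.o w = w) (x y a : A.A) (z : Z.A) :
    lact A Z (x ⊗ₜ (y ⊗ₜ w)) (a ⊗ₜ z) = eed A (x ⊗ₜ y) (A.dg.s a) ⊗ₜ Z.mul w z := by
  rw [lact_tmul, kz_odd h]

/-- The right action on `M₁ ⊗ (M₂ bent)`. -/
noncomputable def ract (M₁ : Bim X A) (M₂ : Bim A Z) :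
    M₁.M ⊗[k] M₂.M →ₗ[k] A.A ⊗[k] (A.A ⊗[k] Z.A) →ₗ[k] M₁.M ⊗[k] M₂.M :=
  kz A.dg M₂.dg M₁.rr (hhr M₂).flip

theorem ract_even {m₂ : M₂.M} (h : M₂.dg.o m₂ = 0) (m₁ : M₁.M) (x : A.A) (v : A.A ⊗[k] Z.A) :
    ract M₁ M₂ (m₁ ⊗ₜ m₂) (x ⊗ₜ v) = M₁.r x m₁ ⊗ₜ hhr M₂ v m₂ := by
  rw [ract, kz_even h]
  rfl

theorem ract_odd {m₂ : M₂.M} (h : M₂.dg.o m₂ = m₂) (m₁ : M₁.M) (x : A.A)
    (v : A.A ⊗[k] Z.A) :
    ract M₁ M₂ (m₁ ⊗ₜ m₂) (x ⊗ₜ v) = M₁.r (A.dg.s x) m₁ ⊗ₜ hhr M₂ v m₂ := by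
  rw [ract, kz_odd h]
  rfl

/-- The product of three elements of the tensor product over `A`. -/
theorem tm_assoc3 (m₁ : M₁.M) (m₂ : M₂.M) (x a y : A.A) (w z : Z.A) :
    (tm (M₁.r a (M₁.r x m₁)) (M₂.r z (M₂.r w (M₂.l y m₂))) : (tb M₁ M₂).M) =
      tm (M₁.r (A.mul x (A.mul a y)) m₁) (M₂.r (Z.mul w z) m₂) := by
  rw [M₂.r_mul, ← M₂.l_r, ← M₂.l_r, ← tm_r_l, M₁.r_mul, M₁.r_mul]

theorem β_bal_aux (m₁ : M₁.M) (m₂ : M₂.M) (x y a : A.A) (w z : Z.A) :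
    β M₁ M₂ (ract M₁ M₂ (m₁ ⊗ₜ m₂) (x ⊗ₜ (y ⊗ₜ w))) (a ⊗ₜ z) =
      β M₁ M₂ (m₁ ⊗ₜ m₂) (lact A Z (x ⊗ₜ (y ⊗ₜ w)) (a ⊗ₜ z)) := by
  refine M₂.dg.parity_ind (P := fun m₂ =>
    β M₁ M₂ (ract M₁ M₂ (m₁ ⊗ₜ m₂) (x ⊗ₜ (y ⊗ₜ w))) (a ⊗ₜ z) =
      β M₁ M₂ (m₁ ⊗ₜ m₂) (lact A Z (x ⊗ₜ (y ⊗ₜ w)) (a ⊗ₜ z))) ?_ ?_ ?_ m₂
  · intro p q hp hq
    simp only [TensorProduct.tmul_add, map_add, LinearMap.add_apply, hp, hq]
  · intro m₂ hm
    refine A.dg.parity_ind (P := fun y =>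
      β M₁ M₂ (ract M₁ M₂ (m₁ ⊗ₜ m₂) (x ⊗ₜ (y ⊗ₜ w))) (a ⊗ₜ z) =
        β M₁ M₂ (m₁ ⊗ₜ m₂) (lact A Z (x ⊗ₜ (y ⊗ₜ w)) (a ⊗ₜ z))) ?_ ?_ ?_ y
    · intro p q hp hq
      simp only [TensorProduct.tmul_add, TensorProduct.add_tmul, map_add, LinearMap.add_apply,
        hp, hq]
    · intro y hy
      have h1 : M₂.dg.o (M₂.l y m₂) = 0 := by rw [M₂.o_l, hm, hy]; simp
      refine Z.dg.parity_ind (P := fun w =>
        β M₁ M₂ (ract M₁ M₂ (m₁ ⊗ₜ m₂) (x ⊗ₜ (y ⊗ₜ w))) (a ⊗ₜ z) =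
          β M₁ M₂ (m₁ ⊗ₜ m₂) (lact A Z (x ⊗ₜ (y ⊗ₜ w)) (a ⊗ₜ z))) ?_ ?_ ?_ w
      · intro p q hp hq
        simp only [TensorProduct.tmul_add, map_add, LinearMap.add_apply, hp, hq]
      · intro w hw
        have h2 : M₂.dg.o (M₂.r w (M₂.l y m₂)) = 0 := by rw [M₂.o_r, hw, h1]; simp
        rw [ract_even hm, hhr_even hy, β_even h2, lact_even hw, β_even hm, eed_even hy,
          tm_assoc3]
      · intro w hw
        have h2 : M₂.dg.o (M₂.r w (M₂.l y m₂)) = M₂.r w (M₂.l y m₂) := by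
          rw [M₂.o_r, hw, h1]; simp
        rw [ract_even hm, hhr_even hy, β_odd h2, lact_odd hw, β_even hm, eed_even hy,
          tm_assoc3]
    · intro y hy
      have h1 : M₂.dg.o (M₂.l y (M₂.dg.s m₂)) = M₂.l y (M₂.dg.s m₂) := by
        rw [Dg.s_of_even hm, M₂.o_l, hm, hy]; simp
      refine Z.dg.parity_ind (P := fun w =>
        β M₁ M₂ (ract M₁ M₂ (m₁ ⊗ₜ m₂) (x ⊗ₜ (y ⊗ₜ w))) (a ⊗ₜ z) =
          β M₁ M₂ (m₁ ⊗ₜ m₂) (lact A Z (x ⊗ₜ (y ⊗ₜ w)) (a ⊗ₜ z))) ?_ ?_ ?_ w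
      · intro p q hp hq
        simp only [TensorProduct.tmul_add, map_add, LinearMap.add_apply, hp, hq]
      · intro w hw
        have h2 : M₂.dg.o (M₂.r w (M₂.l y (M₂.dg.s m₂))) = M₂.r w (M₂.l y (M₂.dg.s m₂)) := by
          rw [M₂.o_r, hw, h1]; simp
        rw [ract_even hm, hhr_odd hy, β_odd h2, lact_even hw, β_even hm, eed_odd hy,
          tm_assoc3, Dg.s_of_even hm]
      · intro w hw
        have h2 : M₂.dg.o (M₂.r w (M₂.l y (M₂.dg.s m₂))) = 0 := by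
          rw [M₂.o_r, hw, h1, two_smul]; simp
        rw [ract_even hm, hhr_odd hy, β_even h2, lact_odd hw, β_even hm, eed_odd hy,
          tm_assoc3, Dg.s_of_even hm, Dg.s_s]
  · intro m₂ hm
    refine A.dg.parity_ind (P := fun y =>
      β M₁ M₂ (ract M₁ M₂ (m₁ ⊗ₜ m₂) (x ⊗ₜ (y ⊗ₜ w))) (a ⊗ₜ z) =
        β M₁ M₂ (m₁ ⊗ₜ m₂) (lact A Z (x ⊗ₜ (y ⊗ₜ w)) (a ⊗ₜ z))) ?_ ?_ ?_ y
    · intro p q hp hq
      simp only [TensorProduct.tmul_add, TensorProduct.add_tmul, map_add, LinearMap.add_apply,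
        hp, hq]
    · intro y hy
      have h1 : M₂.dg.o (M₂.l y m₂) = M₂.l y m₂ := by rw [M₂.o_l, hm, hy]; simp
      refine Z.dg.parity_ind (P := fun w =>
        β M₁ M₂ (ract M₁ M₂ (m₁ ⊗ₜ m₂) (x ⊗ₜ (y ⊗ₜ w))) (a ⊗ₜ z) =
          β M₁ M₂ (m₁ ⊗ₜ m₂) (lact A Z (x ⊗ₜ (y ⊗ₜ w)) (a ⊗ₜ z))) ?_ ?_ ?_ w
      · intro p q hp hq
        simp only [TensorProduct.tmul_add, map_add, LinearMap.add_apply, hp, hq]
      · intro w hw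
        have h2 : M₂.dg.o (M₂.r w (M₂.l y m₂)) = M₂.r w (M₂.l y m₂) := by
          rw [M₂.o_r, hw, h1]; simp
        rw [ract_odd hm, hhr_even hy, β_odd h2, lact_even hw, β_odd hm, eed_even hy,
          tm_assoc3, A.s_mul, A.s_mul, Dg.s_of_even hy]
      · intro w hw
        have h2 : M₂.dg.o (M₂.r w (M₂.l y m₂)) = 0 := by
          rw [M₂.o_r, hw, h1, two_smul]; simp
        rw [ract_odd hm, hhr_even hy, β_even h2, lact_odd hw, β_odd hm, eed_even hy,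
          tm_assoc3, A.s_mul, A.s_mul, Dg.s_of_even hy, Dg.s_s]
    · intro y hy
      have h1 : M₂.dg.o (M₂.l y (M₂.dg.s m₂)) = 0 := by
        rw [Dg.s_of_odd hm, map_neg, map_neg, M₂.o_l, hm, hy, two_smul]; simp
      refine Z.dg.parity_ind (P := fun w =>
        β M₁ M₂ (ract M₁ M₂ (m₁ ⊗ₜ m₂) (x ⊗ₜ (y ⊗ₜ w))) (a ⊗ₜ z) =
          β M₁ M₂ (m₁ ⊗ₜ m₂) (lact A Z (x ⊗ₜ (y ⊗ₜ w)) (a ⊗ₜ z))) ?_ ?_ ?_ w
      · intro p q hp hq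
        simp only [TensorProduct.tmul_add, map_add, LinearMap.add_apply, hp, hq]
      · intro w hw
        have h2 : M₂.dg.o (M₂.r w (M₂.l y (M₂.dg.s m₂))) = 0 := by
          rw [M₂.o_r, hw, h1]; simp
        rw [ract_odd hm, hhr_odd hy, β_even h2, lact_even hw, β_odd hm, eed_odd hy,
          tm_assoc3, A.s_mul, A.s_mul, Dg.s_of_odd hm, Dg.s_of_odd hy, Dg.s_s]
        simp only [map_neg, LinearMap.neg_apply, tm_neg_left, tm_neg_right]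
      · intro w hw
        have h2 : M₂.dg.o (M₂.r w (M₂.l y (M₂.dg.s m₂))) = M₂.r w (M₂.l y (M₂.dg.s m₂)) := by
          rw [M₂.o_r, hw, h1]; simp
        rw [ract_odd hm, hhr_odd hy, β_odd h2, lact_odd hw, β_odd hm, eed_odd hy,
          tm_assoc3, A.s_mul, A.s_mul, Dg.s_of_odd hm, Dg.s_of_odd hy, Dg.s_s]
        simp only [map_neg, LinearMap.neg_apply, tm_neg_left, tm_neg_right]

theorem β_bal (m : M₁.M ⊗[k] M₂.M) (b : A.A ⊗[k] (A.A ⊗[k] Z.A)) (n : A.A ⊗[k] Z.A) :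
    β M₁ M₂ (ract M₁ M₂ m b) n = β M₁ M₂ m (lact A Z b n) := by
  induction m using TensorProduct.induction_on with
  | zero => simp
  | add p q hp hq => simp only [map_add, LinearMap.add_apply, hp, hq]
  | tmul m₁ m₂ =>
    induction n using TensorProduct.induction_on with
    | zero => simp
    | add p q hp hq => simp only [map_add, hp, hq]
    | tmul a z =>
      induction b using TensorProduct.induction_on with
      | zero => simp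
      | add p q hp hq => simp only [map_add, LinearMap.add_apply, hp, hq]
      | tmul x v =>
        induction v using TensorProduct.induction_on with
        | zero => simp
        | add p q hp hq =>
          simp only [TensorProduct.tmul_add, map_add, LinearMap.add_apply, hp, hq]
        | tmul y w => exact β_bal_aux m₁ m₂ x y a w z

variable (M₁ M₂)

/-- The left side of the isomorphism. -/
noncomputable abbrev LL : Bim (X.tensor (base k)) ((base k).tensor Z) :=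
  tb (box M₁ (HH M₂)) (res (assocIso A A.op Z).symm.hom
    (DHom.id ((base k).tensor Z)) (box (EE (diag A)) (diag Z)))

/-- The right side of the isomorphism. -/
noncomputable abbrev RR : Bim (X.tensor (base k)) ((base k).tensor Z) :=
  res (runitIso X).hom (lunitIso Z).hom (tb M₁ M₂)

/-- The element `m ⊗ n` of the left side. -/
noncomputable def tL' (m : M₁.M ⊗[k] M₂.M) (n : A.A ⊗[k] Z.A) : (LL M₁ M₂).M :=
  tm (M := box M₁ (HH M₂)) (N := res (assocIso A A.op Z).symm.hom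
    (DHom.id ((base k).tensor Z)) (box (EE (diag A)) (diag Z))) m n

/-- `m ⊗ n`, as a bilinear map. -/
noncomputable def tLB : M₁.M ⊗[k] M₂.M →ₗ[k] A.A ⊗[k] Z.A →ₗ[k] (LL M₁ M₂).M :=
  tmB (box M₁ (HH M₂)) (res (assocIso A A.op Z).symm.hom
    (DHom.id ((base k).tensor Z)) (box (EE (diag A)) (diag Z)))

variable {M₁ M₂}

theorem tLB_apply (m : M₁.M ⊗[k] M₂.M) (n : A.A ⊗[k] Z.A) : tLB M₁ M₂ m n = tL' M₁ M₂ m n := rfl

theorem tL_bal (m : M₁.M ⊗[k] M₂.M) (b : A.A ⊗[k] (A.A ⊗[k] Z.A)) (n : A.A ⊗[k] Z.A) :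
    tL' M₁ M₂ (ract M₁ M₂ m b) n = tL' M₁ M₂ m (lact A Z b n) :=
  tm_r_l (M := box M₁ (HH M₂)) (N := res (assocIso A A.op Z).symm.hom
    (DHom.id ((base k).tensor Z)) (box (EE (diag A)) (diag Z))) m b n

theorem tL_ind {P : (LL M₁ M₂).M → Prop} (h0 : P 0) (hadd : ∀ x y, P x → P y → P (x + y))
    (h : ∀ (m : M₁.M ⊗[k] M₂.M) (n : A.A ⊗[k] Z.A), P (tL' M₁ M₂ m n)) (x : (LL M₁ M₂).M) :
    P x :=
  tb_ind (M := box M₁ (HH M₂)) (N := res (assocIso A A.op Z).symm.hom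
    (DHom.id ((base k).tensor Z)) (box (EE (diag A)) (diag Z))) h0 hadd h x

variable (M₁ M₂)

/-- The map `Φ`. -/
noncomputable def Φ : (LL M₁ M₂).M →ₗ[k] (tb M₁ M₂).M :=
  tlift (M := box M₁ (HH M₂)) (N := res (assocIso A A.op Z).symm.hom
    (DHom.id ((base k).tensor Z)) (box (EE (diag A)) (diag Z))) (β M₁ M₂)
    (fun m b n => β_bal m b n)

variable {M₁ M₂}

theorem Φ_tL (m : M₁.M ⊗[k] M₂.M) (n : A.A ⊗[k] Z.A) : Φ M₁ M₂ (tL' M₁ M₂ m n) = β M₁ M₂ m n :=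
  tlift_tm (M := box M₁ (HH M₂)) (N := res (assocIso A A.op Z).symm.hom
    (DHom.id ((base k).tensor Z)) (box (EE (diag A)) (diag Z))) (β M₁ M₂)
    (fun m b n => β_bal m b n) m n

theorem tL_d (m : M₁.M ⊗[k] M₂.M) (n : A.A ⊗[k] Z.A) :
    (LL M₁ M₂).dg.d (tL' M₁ M₂ m n) =
      tL' M₁ M₂ ((M₁.dg.tensor M₂.dg).d m) n +
        tL' M₁ M₂ ((M₁.dg.tensor M₂.dg).s m) ((A.dg.tensor Z.dg).d n) :=
  tb_d (M := box M₁ (HH M₂)) (N := res (assocIso A A.op Z).symm.hom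
    (DHom.id ((base k).tensor Z)) (box (EE (diag A)) (diag Z))) m n

theorem β_d (m : M₁.M ⊗[k] M₂.M) (n : A.A ⊗[k] Z.A) :
    (tb M₁ M₂).dg.d (β M₁ M₂ m n) =
      β M₁ M₂ ((M₁.dg.tensor M₂.dg).d m) n +
        β M₁ M₂ ((M₁.dg.tensor M₂.dg).s m) ((A.dg.tensor Z.dg).d n) := by
  have h := kz_d (X := A.dg) (Y := M₂.dg) (α := M₁.rr) (β := M₂.rr) (XV := M₁.dg)
    (YW' := Z.dg) (Z := M₁.dg) (Z' := M₂.dg) M₁.d_rr M₁.s_rr M₂.d_rr m n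
  change (tdg M₁ M₂).d ((rel M₁ M₂).mkQ (kz A.dg M₂.dg M₁.rr M₂.rr m n)) =
    (rel M₁ M₂).mkQ (kz A.dg M₂.dg M₁.rr M₂.rr ((M₁.dg.tensor M₂.dg).d m) n) +
      (rel M₁ M₂).mkQ (kz A.dg M₂.dg M₁.rr M₂.rr ((M₁.dg.tensor M₂.dg).s m)
        ((A.dg.tensor Z.dg).d n))
  rw [tdg, Dg.quot_d, h, map_add]

theorem β_deg {i j : ℤ} {m : M₁.M ⊗[k] M₂.M} {n : A.A ⊗[k] Z.A}
    (hm : (M₁.dg.tensor M₂.dg).IsDeg i m) (hn : (A.dg.tensor Z.dg).IsDeg j n) :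
    (tb M₁ M₂).dg.IsDeg (i + j) (β M₁ M₂ m n) := by
  change (tdg M₁ M₂).IsDeg (i + j) ((rel M₁ M₂).mkQ (kz A.dg M₂.dg M₁.rr M₂.rr m n))
  rw [tdg]
  exact Dg.quot_deg _ (kz_deg (fun h h' => M₁.rr_deg h h') (fun h h' => M₂.rr_deg h h') hm hn)

theorem β_tmul (m₁ : M₁.M) (m₂ : M₂.M) (a : A.A) (z : Z.A) :
    β M₁ M₂ (m₁ ⊗ₜ m₂) (a ⊗ₜ z) = tm (M₁.r a m₁) (M₂.r z m₂) -
      (2 : k) • tm (M₁.r (A.dg.o a) m₁) (M₂.r z (M₂.dg.o m₂)) := by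
  change (rel M₁ M₂).mkQ (kz A.dg M₂.dg M₁.rr M₂.rr (m₁ ⊗ₜ m₂) (a ⊗ₜ z)) = _
  rw [kz_tmul, map_sub, map_smul]
  rfl

theorem β_l_tmul (x : X.A) (m₁ : M₁.M) (m₂ : M₂.M) (n : A.A ⊗[k] Z.A) :
    β M₁ M₂ (M₁.l x m₁ ⊗ₜ m₂) n = (tb M₁ M₂).l x (β M₁ M₂ (m₁ ⊗ₜ m₂) n) := by
  induction n using TensorProduct.induction_on with
  | zero => simp
  | add p q hp hq => simp only [map_add, hp, hq]
  | tmul a z => rw [β_tmul, β_tmul, map_sub, map_smul, tb_l, tb_l, M₁.l_r, M₁.l_r]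

theorem β_r_tmul (z' : Z.A) (m₁ : M₁.M) (m₂ : M₂.M) (a : A.A) (z : Z.A) :
    β M₁ M₂ (m₁ ⊗ₜ m₂) (a ⊗ₜ Z.mul z z') = (tb M₁ M₂).r z' (β M₁ M₂ (m₁ ⊗ₜ m₂) (a ⊗ₜ z)) := by
  rw [β_tmul, β_tmul, map_sub, map_smul, tb_r, tb_r, M₂.r_mul, M₂.r_mul]

/-- The left action of `X ⊗ k`. -/
noncomputable def lX (M₁ : Bim X A) (M₂ : Bim A Z) :
    X.A ⊗[k] (base k).A →ₗ[k] M₁.M ⊗[k] M₂.M →ₗ[k] M₁.M ⊗[k] M₂.M :=
  kz M₁.dg (base k).dg M₁.l (HH M₂).l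

theorem lX_tmul (x : X.A) (c : k) (m₁ : M₁.M) (m₂ : M₂.M) :
    lX M₁ M₂ (x ⊗ₜ[k] (show (base k).A from c)) (m₁ ⊗ₜ m₂) = c • (M₁.l x m₁ ⊗ₜ[k] m₂) := by
  have h := kz_even (X := M₁.dg) (Y := (base k).dg) (α := M₁.l) (β := (HH M₂).l)
    (w := (show (base k).A from c)) (base_o c) x m₁ m₂
  have h2 : (HH M₂).l (show (base k).A from c) m₂ = c • m₂ := base_l (HH M₂) c m₂
  have h3 : (M₁.l x m₁ ⊗ₜ[k] (c • m₂) : M₁.M ⊗[k] M₂.M) = c • (M₁.l x m₁ ⊗ₜ[k] m₂) :=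
    TensorProduct.tmul_smul _ _ _
  exact (h.trans (congrArg (fun y : M₂.M => M₁.l x m₁ ⊗ₜ[k] y) h2)).trans h3

/-- The right action of `k ⊗ Z`. -/
noncomputable def rZ (A Z : DGA k) :
    A.A ⊗[k] Z.A →ₗ[k] (base k).A ⊗[k] Z.A →ₗ[k] A.A ⊗[k] Z.A :=
  kz (base k).dg Z.dg (EE (diag A)).rr (diag Z).rr

theorem rZ_tmul (c : k) (z' : Z.A) (a : A.A) (z : Z.A) :
    rZ A Z (a ⊗ₜ z) ((show (base k).A from c) ⊗ₜ[k] z') = c • (a ⊗ₜ[k] Z.mul z z') := by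
  have h := kz_even' (X := (base k).dg) (Y := Z.dg) (α := (EE (diag A)).rr) (β := (diag Z).rr)
    (v' := (show (base k).A from c)) (base_o c) a z z'
  have h2 : (EE (diag A)).rr a (show (base k).A from c) = c • a := base_r (EE (diag A)) c a
  have h3 : ((c • a) ⊗ₜ[k] Z.mul z z' : A.A ⊗[k] Z.A) = c • (a ⊗ₜ[k] Z.mul z z') :=
    (TensorProduct.smul_tmul' _ _ _).symm
  exact (h.trans (congrArg (fun y : A.A => y ⊗ₜ[k] Z.mul z z') h2)).trans h3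

theorem β_l (c : X.A ⊗[k] (base k).A) (m : M₁.M ⊗[k] M₂.M) (n : A.A ⊗[k] Z.A) :
    β M₁ M₂ (lX M₁ M₂ c m) n = (tb M₁ M₂).l ((runitIso X).hom.f c) (β M₁ M₂ m n) := by
  induction c using TensorProduct.induction_on with
  | zero =>
    have h : (runitIso X).hom.f (0 : X.A ⊗[k] (base k).A) = 0 := map_zero _
    rw [h]
    simp
  | add p q hp hq =>
    have h : (runitIso X).hom.f (p + q : X.A ⊗[k] (base k).A) =
      (runitIso X).hom.f p + (runitIso X).hom.f q := map_add _ _ _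
    rw [h]
    simp only [map_add, LinearMap.add_apply, hp, hq]
  | tmul x c =>
    have h : (runitIso X).hom.f (x ⊗ₜ[k] c) = (show k from c) • x :=
      runitIso_hom (k := k) c x
    rw [h]
    induction m using TensorProduct.induction_on with
    | zero => simp
    | add p q hp hq => simp only [map_add, LinearMap.add_apply, hp, hq]
    | tmul m₁ m₂ =>
      have h2 := lX_tmul x (show k from c) m₁ m₂
      have h3 : lX M₁ M₂ (x ⊗ₜ[k] c) (m₁ ⊗ₜ m₂) = (show k from c) • (M₁.l x m₁ ⊗ₜ[k] m₂) := h2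
      rw [h3, map_smul, map_smul, LinearMap.smul_apply, LinearMap.smul_apply, β_l_tmul]

theorem β_r (c : (base k).A ⊗[k] Z.A) (m : M₁.M ⊗[k] M₂.M) (n : A.A ⊗[k] Z.A) :
    β M₁ M₂ m (rZ A Z n c) = (tb M₁ M₂).r ((lunitIso Z).hom.f c) (β M₁ M₂ m n) := by
  induction c using TensorProduct.induction_on with
  | zero =>
    have h : (lunitIso Z).hom.f (0 : (base k).A ⊗[k] Z.A) = 0 := map_zero _
    rw [h]
    simp
  | add p q hp hq =>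
    have h : (lunitIso Z).hom.f (p + q : (base k).A ⊗[k] Z.A) =
      (lunitIso Z).hom.f p + (lunitIso Z).hom.f q := map_add _ _ _
    rw [h]
    simp only [map_add, LinearMap.add_apply, hp, hq]
  | tmul c z' =>
    have h : (lunitIso Z).hom.f (c ⊗ₜ[k] z') = (show k from c) • z' :=
      lunitIso_hom (k := k) c z'
    rw [h]
    induction m using TensorProduct.induction_on with
    | zero => simp
    | add p q hp hq => simp only [map_add, LinearMap.add_apply, hp, hq]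
    | tmul m₁ m₂ =>
      induction n using TensorProduct.induction_on with
      | zero => simp
      | add p q hp hq => simp only [map_add, LinearMap.add_apply, hp, hq]
      | tmul a z =>
        have h2 := rZ_tmul (show k from c) z' a z
        have h3 : rZ A Z (a ⊗ₜ z) (c ⊗ₜ[k] z') = (show k from c) • (a ⊗ₜ[k] Z.mul z z') := h2
        rw [h3, map_smul, map_smul, LinearMap.smul_apply, β_r_tmul]

theorem tL_l (c : X.A ⊗[k] (base k).A) (m : M₁.M ⊗[k] M₂.M) (n : A.A ⊗[k] Z.A) :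
    (LL M₁ M₂).l c (tL' M₁ M₂ m n) = tL' M₁ M₂ (lX M₁ M₂ c m) n :=
  tb_l (M := box M₁ (HH M₂)) (N := res (assocIso A A.op Z).symm.hom
    (DHom.id ((base k).tensor Z)) (box (EE (diag A)) (diag Z))) c m n

theorem tL_r (c : (base k).A ⊗[k] Z.A) (m : M₁.M ⊗[k] M₂.M) (n : A.A ⊗[k] Z.A) :
    (LL M₁ M₂).r c (tL' M₁ M₂ m n) = tL' M₁ M₂ m (rZ A Z n c) :=
  tb_r (M := box M₁ (HH M₂)) (N := res (assocIso A A.op Z).symm.hom
    (DHom.id ((base k).tensor Z)) (box (EE (diag A)) (diag Z))) c m n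

/-- The map `Φ` as a graded map. -/
noncomputable def φ (M₁ : Bim X A) (M₂ : Bim A Z) : GMap 0 (LL M₁ M₂) (RR M₁ M₂) where
  f := Φ M₁ M₂
  deg := fun {i x} hx => tb_degMap (M := box M₁ (HH M₂)) (N := res (assocIso A A.op Z).symm.hom
    (DHom.id ((base k).tensor Z)) (box (EE (diag A)) (diag Z))) (Φ M₁ M₂)
    (fun {i j v w} hv hw => by
      have h : (tb M₁ M₂).dg.IsDeg (i + j) (β M₁ M₂ v w) := β_deg hv hw
      rw [add_zero]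
      exact (congrArg ((tb M₁ M₂).dg.IsDeg (i + j)) (Φ_tL v w)).mpr h) hx
  map_l := fun c x => by
    rw [Dg.sp_zero]
    change Φ M₁ M₂ ((LL M₁ M₂).l c x) = (tb M₁ M₂).l ((runitIso X).hom.f c) (Φ M₁ M₂ x)
    refine tL_ind (P := fun x => Φ M₁ M₂ ((LL M₁ M₂).l c x) =
      (tb M₁ M₂).l ((runitIso X).hom.f c) (Φ M₁ M₂ x)) ?_ ?_ ?_ x
    · simp only [map_zero]
    · intro p q hp hq
      simp only [map_add, hp, hq]
    · intro m n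
      exact (congrArg (Φ M₁ M₂) (tL_l c m n)).trans ((Φ_tL _ _).trans ((β_l c m n).trans
        (congrArg ((tb M₁ M₂).l ((runitIso X).hom.f c)) (Φ_tL m n).symm)))
  map_r := fun c x => by
    change Φ M₁ M₂ ((LL M₁ M₂).r c x) = (tb M₁ M₂).r ((lunitIso Z).hom.f c) (Φ M₁ M₂ x)
    refine tL_ind (P := fun x => Φ M₁ M₂ ((LL M₁ M₂).r c x) =
      (tb M₁ M₂).r ((lunitIso Z).hom.f c) (Φ M₁ M₂ x)) ?_ ?_ ?_ x
    · simp only [map_zero]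
    · intro p q hp hq
      simp only [map_add, hp, hq]
    · intro m n
      exact (congrArg (Φ M₁ M₂) (tL_r c m n)).trans ((Φ_tL _ _).trans ((β_r c m n).trans
        (congrArg ((tb M₁ M₂).r ((lunitIso Z).hom.f c)) (Φ_tL m n).symm)))

theorem φ_d : (φ M₁ M₂).dd = 0 := by
  refine LinearMap.ext (fun x => ?_)
  rw [GMap.dd_apply, sg_zero, one_smul, LinearMap.zero_apply, sub_eq_zero]
  change (tb M₁ M₂).dg.d (Φ M₁ M₂ x) = Φ M₁ M₂ ((LL M₁ M₂).dg.d x)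
  refine tL_ind (P := fun x => (tb M₁ M₂).dg.d (Φ M₁ M₂ x) = Φ M₁ M₂ ((LL M₁ M₂).dg.d x))
    ?_ ?_ ?_ x
  · simp only [map_zero]
  · intro p q hp hq
    simp only [map_add, hp, hq]
  · intro m n
    rw [Φ_tL, β_d, tL_d, map_add, Φ_tL, Φ_tL]

theorem hhr_one_tmul (z : Z.A) (m₂ : M₂.M) :
    hhr M₂ (A.one ⊗ₜ[k] z) m₂ = M₂.r z m₂ := by
  rw [hhr_even A.o_one, M₂.l_one]

theorem tL_move (m₁ : M₁.M) (m₂ : M₂.M) (a : A.A) (z : Z.A) :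
    tL' M₁ M₂ (kz A.dg M₂.dg M₁.rr M₂.rr (m₁ ⊗ₜ m₂) (a ⊗ₜ z)) (A.one ⊗ₜ Z.one) =
      tL' M₁ M₂ (m₁ ⊗ₜ m₂) (a ⊗ₜ z) := by
  have h1 : kz A.dg M₂.dg M₁.rr M₂.rr (m₁ ⊗ₜ m₂) (a ⊗ₜ z) =
      ract M₁ M₂ (m₁ ⊗ₜ m₂) (a ⊗ₜ (A.one ⊗ₜ z)) := by
    rw [ract, kz_tmul, kz_tmul]
    simp only [LinearMap.flip_apply, hhr_one_tmul]
    rfl
  have h2 : lact A Z (a ⊗ₜ (A.one ⊗ₜ z)) (A.one ⊗ₜ Z.one) = a ⊗ₜ z := by
    refine Z.dg.parity_ind (P := fun z => lact A Z (a ⊗ₜ (A.one ⊗ₜ z)) (A.one ⊗ₜ Z.one) =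
      a ⊗ₜ z) ?_ ?_ ?_ z
    · intro p q hp hq
      simp only [TensorProduct.tmul_add, map_add, LinearMap.add_apply, hp, hq]
    · intro z hz
      rw [lact_even hz, eed_even A.o_one, A.mul_one, A.mul_one, Z.mul_one]
    · intro z hz
      rw [lact_odd hz, eed_even A.o_one, A.mul_one, A.s_one, A.mul_one, Z.mul_one]
  rw [h1, tL_bal, h2]

theorem lact_one (x : A.A) :
    lact A Z (A.one ⊗ₜ (x ⊗ₜ Z.one)) (A.one ⊗ₜ Z.one) = x ⊗ₜ Z.one := by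
  rw [lact_even Z.o_one]
  refine A.dg.parity_ind (P := fun x => eed A (A.one ⊗ₜ x) A.one ⊗ₜ[k] Z.mul Z.one Z.one =
    x ⊗ₜ[k] Z.one) ?_ ?_ ?_ x
  · intro p q hp hq
    simp only [TensorProduct.tmul_add, TensorProduct.add_tmul, map_add, LinearMap.add_apply,
      hp, hq]
  · intro x hx
    rw [eed_even hx, A.one_mul, A.one_mul, Z.one_mul]
  · intro x hx
    rw [eed_odd hx, A.s_one, A.one_mul, A.one_mul, Z.one_mul]

theorem ψ_bal (m₁ : M₁.M) (x : A.A) (m₂ : M₂.M) :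
    tL' M₁ M₂ (M₁.r x m₁ ⊗ₜ m₂) (A.one ⊗ₜ Z.one) =
      tL' M₁ M₂ (m₁ ⊗ₜ M₂.l x m₂) (A.one ⊗ₜ Z.one) := by
  refine M₂.dg.parity_ind (P := fun m₂ => tL' M₁ M₂ (M₁.r x m₁ ⊗ₜ m₂) (A.one ⊗ₜ Z.one) =
      tL' M₁ M₂ (m₁ ⊗ₜ M₂.l x m₂) (A.one ⊗ₜ Z.one)) ?_ ?_ ?_ m₂
  · intro p q hp hq
    simp only [← tLB_apply] at hp hq ⊢
    simp only [TensorProduct.tmul_add, map_add, LinearMap.add_apply, hp, hq]
  · intro m₂ hm
    have h1 := tL_move (M₁ := M₁) m₁ m₂ x Z.one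
    rw [kz_even hm, M₁.rr_apply, M₂.rr_apply, M₂.r_one] at h1
    rw [h1, ← lact_one, ← tL_bal, ract_even hm, M₁.r_one]
    refine A.dg.parity_ind (P := fun x => tL' M₁ M₂ (m₁ ⊗ₜ hhr M₂ (x ⊗ₜ Z.one) m₂)
      (A.one ⊗ₜ Z.one) = tL' M₁ M₂ (m₁ ⊗ₜ M₂.l x m₂) (A.one ⊗ₜ Z.one)) ?_ ?_ ?_ x
    · intro p q hp hq
      simp only [← tLB_apply] at hp hq ⊢
      simp only [TensorProduct.tmul_add, TensorProduct.add_tmul, map_add, LinearMap.add_apply,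
        hp, hq]
    · intro x hx
      rw [hhr_even hx, M₂.r_one]
    · intro x hx
      rw [hhr_odd hx, M₂.r_one, Dg.s_of_even hm]
  · intro m₂ hm
    have h1 := tL_move (M₁ := M₁) m₁ m₂ (A.dg.s x) Z.one
    rw [kz_odd hm, M₁.rr_apply, M₂.rr_apply, M₂.r_one, Dg.s_s] at h1
    rw [h1, ← lact_one, ← tL_bal, ract_odd hm, A.s_one, M₁.r_one]
    refine A.dg.parity_ind (P := fun x => tL' M₁ M₂ (m₁ ⊗ₜ hhr M₂ (A.dg.s x ⊗ₜ Z.one) m₂)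
      (A.one ⊗ₜ Z.one) = tL' M₁ M₂ (m₁ ⊗ₜ M₂.l x m₂) (A.one ⊗ₜ Z.one)) ?_ ?_ ?_ x
    · intro p q hp hq
      simp only [← tLB_apply] at hp hq ⊢
      simp only [TensorProduct.tmul_add, TensorProduct.add_tmul, map_add, LinearMap.add_apply,
        hp, hq]
    · intro x hx
      rw [Dg.s_of_even hx, hhr_even hx, M₂.r_one]
    · intro x hx
      rw [Dg.s_of_odd hx, TensorProduct.neg_tmul, map_neg, LinearMap.neg_apply, hhr_odd hx,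
        M₂.r_one, Dg.s_of_odd hm, map_neg, neg_neg]

variable (M₁ M₂)

/-- The map `Φ⁻¹`: `m₁ ⊗ m₂ ↦ (m₁ ⊗ m₂) ⊗ (1 ⊗ 1)`. -/
noncomputable def Ψ : (tb M₁ M₂).M →ₗ[k] (LL M₁ M₂).M :=
  tlift (M := M₁) (N := M₂) ((TensorProduct.mk k M₁.M M₂.M).compr₂
    ((tLB M₁ M₂).flip (A.one ⊗ₜ Z.one))) (fun m b n => ψ_bal m b n)

variable {M₁ M₂}

theorem Ψ_tm (m₁ : M₁.M) (m₂ : M₂.M) :
    Ψ M₁ M₂ (tm m₁ m₂) = tL' M₁ M₂ (m₁ ⊗ₜ m₂) (A.one ⊗ₜ Z.one) :=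
  tlift_tm (M := M₁) (N := M₂) ((TensorProduct.mk k M₁.M M₂.M).compr₂
    ((tLB M₁ M₂).flip (A.one ⊗ₜ Z.one))) (fun m b n => ψ_bal m b n) m₁ m₂

theorem Φ_Ψ (y : (tb M₁ M₂).M) : Φ M₁ M₂ (Ψ M₁ M₂ y) = y := by
  refine tb_ind (P := fun y => Φ M₁ M₂ (Ψ M₁ M₂ y) = y) ?_ ?_ ?_ y
  · simp only [map_zero]
  · intro p q hp hq
    simp only [map_add, hp, hq]
  · intro m₁ m₂
    rw [Ψ_tm, Φ_tL, β_even' A.o_one, M₁.r_one, M₂.r_one]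

theorem Ψ_mkQ (x : M₁.M ⊗[k] M₂.M) :
    Ψ M₁ M₂ ((rel M₁ M₂).mkQ x) = tL' M₁ M₂ x (A.one ⊗ₜ Z.one) := by
  induction x using TensorProduct.induction_on with
  | zero =>
    rw [← tLB_apply]
    simp only [map_zero, LinearMap.zero_apply]
    exact map_zero (Ψ M₁ M₂)
  | add p q hp hq =>
    rw [← tLB_apply] at hp hq ⊢
    simp only [map_add, LinearMap.add_apply, ← hp, ← hq]
    exact map_add (Ψ M₁ M₂) _ _
  | tmul m₁ m₂ => exact Ψ_tm m₁ m₂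

theorem Ψ_Φ (x : (LL M₁ M₂).M) : Ψ M₁ M₂ (Φ M₁ M₂ x) = x := by
  refine tL_ind (P := fun x => Ψ M₁ M₂ (Φ M₁ M₂ x) = x) ?_ ?_ ?_ x
  · simp only [map_zero]
  · intro p q hp hq
    simp only [map_add, hp, hq]
  · intro m n
    rw [Φ_tL]
    change Ψ M₁ M₂ ((rel M₁ M₂).mkQ (kz A.dg M₂.dg M₁.rr M₂.rr m n)) = _
    rw [Ψ_mkQ]
    induction m using TensorProduct.induction_on with
    | zero =>
      rw [← tLB_apply, ← tLB_apply]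
      simp
    | add p q hp hq =>
      rw [← tLB_apply, ← tLB_apply] at hp hq ⊢
      simp only [map_add, LinearMap.add_apply, hp, hq]
    | tmul m₁ m₂ =>
      induction n using TensorProduct.induction_on with
      | zero =>
        rw [← tLB_apply, ← tLB_apply]
        simp
      | add p q hp hq =>
        rw [← tLB_apply, ← tLB_apply] at hp hq ⊢
        simp only [map_add, LinearMap.add_apply, hp, hq]
      | tmul a z => exact tL_move m₁ m₂ a z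

theorem bij (M₁ : Bim X A) (M₂ : Bim A Z) : Function.Bijective (Φ M₁ M₂) :=
  ⟨Function.LeftInverse.injective (g := Ψ M₁ M₂) Ψ_Φ,
    Function.RightInverse.surjective (g := Ψ M₁ M₂) Φ_Ψ⟩

theorem main (M₁ : Bim X A) (M₂ : Bim A Z) : BIso (LL M₁ M₂) (RR M₁ M₂) := by
  refine BIso.of_bij (φ M₁ M₂) (φ_d (M₁ := M₁) (M₂ := M₂)) ?_
  exact bij M₁ M₂

end BendIso

/-- The composition of `M₁ ⊗ (M₂ bent)` with `(A bent) ⊗ Z` is `M₁ ⊗_A M₂`. -/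
theorem tb_bend (M₁ : Bim X A) (M₂ : Bim A Z) :
    BIso (tb (box M₁ (HH M₂)) (res (assocIso A A.op Z).symm.hom
        (DHom.id ((base k).tensor Z)) (box (EE (diag A)) (diag Z))))
      (res (runitIso X).hom (lunitIso Z).hom (tb M₁ M₂)) := by
  exact BendIso.main M₁ M₂

end Pool.Agent.MP_6e5bed_ag_NC
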