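import Pool.Agent.Lib.MP_6e5bed_ag_NC.Cat

set_option autoImplicit false

/-!
# The monoidal structure
-/

namespace Pool.Agent.MP_6e5bed_ag_NC

open CategoryTheory MonoidalCategory

universe u

variable {k : Type u} [CommRing k]

namespace CatMon

open TensorProduct

theorem tensor_id_right {A B C : SP k} (φ : DIso A.alg B.alg) :
    SP.tensorHom (ofIso φ) (𝟙 C) =
      ofIso (A := A.tensor C) (B := B.tensor C) (φ.tensor (DIso.refl C.alg)) := by
  rw [← ofIso_refl]
  exact tensorHom_ofIso _ _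

theorem tensor_id_left {A B C : SP k} (φ : DIso A.alg B.alg) :
    SP.tensorHom (𝟙 C) (ofIso φ) =
      ofIso (A := C.tensor A) (B := C.tensor B) ((DIso.refl C.alg).tensor φ) := by
  rw [← ofIso_refl]
  exact tensorHom_ofIso _ _

theorem pent (A B C D : DGA k) :
    ((assocIso A B C).tensor (DIso.refl D)).trans ((assocIso A (B.tensor C) D).trans
      ((DIso.refl A).tensor (assocIso B C D))) =
    (assocIso (A.tensor B) C D).trans (assocIso A B (C.tensor D)) := by
  refine DIso.ext fun x => ?_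
  have h : ((((assocIso A B C).tensor (DIso.refl D)).trans ((assocIso A (B.tensor C) D).trans
      ((DIso.refl A).tensor (assocIso B C D)))).hom.f : _ →ₗ[k] _) =
      ((assocIso (A.tensor B) C D).trans (assocIso A B (C.tensor D))).hom.f := by
    apply TensorProduct.ext
    apply TensorProduct.ext
    apply TensorProduct.ext
    ext a b c d
    rfl
  exact LinearMap.congr_fun h x

theorem tri (A B : DGA k) :
    (assocIso A (base k) B).trans ((DIso.refl A).tensor (lunitIso B)) =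
      (runitIso A).tensor (DIso.refl B) := by
  refine DIso.ext fun x => ?_
  have h : (((assocIso A (base k) B).trans ((DIso.refl A).tensor (lunitIso B))).hom.f :
      _ →ₗ[k] _) = ((runitIso A).tensor (DIso.refl B)).hom.f := by
    apply TensorProduct.ext
    apply TensorProduct.ext
    refine LinearMap.ext fun a => LinearMap.ext fun c => LinearMap.ext fun b => ?_
    change a ⊗ₜ[k] ((show k from c) • b) = ((show k from c) • a) ⊗ₜ[k] b
    exact (TensorProduct.smul_tmul _ _ _).symm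
  exact LinearMap.congr_fun h x

theorem comp3 {A B C D E : SP k} {φ : DIso A.alg B.alg} {ψ : DIso B.alg C.alg}
    {χ : DIso C.alg D.alg} {α : DIso A.alg E.alg} {β : DIso E.alg D.alg} {f : A ⟶ B} {g : B ⟶ C}
    {h : C ⟶ D} {f' : A ⟶ E} {g' : E ⟶ D} (hf : f = ofIso φ) (hg : g = ofIso ψ)
    (hh : h = ofIso χ) (hf' : f' = ofIso α) (hg' : g' = ofIso β)
    (H : φ.trans (ψ.trans χ) = α.trans β) : f ≫ g ≫ h = f' ≫ g' := by
  rw [hf, hg, hh, hf', hg', ofIso_trans, ofIso_trans, ofIso_trans, H]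

theorem comp2 {A B C : SP k} {φ : DIso A.alg B.alg} {ψ : DIso B.alg C.alg}
    {α : DIso A.alg C.alg} {f : A ⟶ B} {g : B ⟶ C} {f' : A ⟶ C} (hf : f = ofIso φ)
    (hg : g = ofIso ψ) (hf' : f' = ofIso α) (H : φ.trans ψ = α) : f ≫ g = f' := by
  rw [hf, hg, hf', ofIso_trans, H]

theorem nat {A B A' B' : SP k} (φ : DIso A.alg A'.alg) (ψ : DIso B.alg B'.alg) (f : A ⟶ B)
    (f' : A' ⟶ B') (h : K0Q.res φ ψ f' = f) : f ≫ ofIso ψ = ofIso φ ≫ f' := by
  rw [comp_ofIso, ofIso_comp, ← h, K0Q.res_res, DIso.symm_trans, DIso.refl_trans]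

end CatMon

theorem pentagon_aux (W X Y Z : SP k) :
    SP.tensorHom (α_ W X Y).hom (𝟙 Z) ≫ (α_ W (X.tensor Y) Z).hom ≫
      SP.tensorHom (𝟙 W) (α_ X Y Z).hom =
    (α_ (W.tensor X) Y Z).hom ≫ (α_ W X (Y.tensor Z)).hom :=
  CatMon.comp3 (CatMon.tensor_id_right (A := (W.tensor X).tensor Y)
      (B := W.tensor (X.tensor Y)) (C := Z) (assocIso W.alg X.alg Y.alg)) rfl
    (CatMon.tensor_id_left (A := (X.tensor Y).tensor Z) (B := X.tensor (Y.tensor Z))
      (C := W) (assocIso X.alg Y.alg Z.alg)) rfl rfl (CatMon.pent W.alg X.alg Y.alg Z.alg)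

theorem triangle_aux (X Y : SP k) :
    (α_ X (𝟙_ (SP k)) Y).hom ≫ SP.tensorHom (𝟙 X) (λ_ Y).hom =
      SP.tensorHom (ρ_ X).hom (𝟙 Y) :=
  CatMon.comp2 rfl
    (CatMon.tensor_id_left (A := (SP.base k).tensor Y) (B := Y) (C := X) (lunitIso Y.alg))
    (CatMon.tensor_id_right (A := X.tensor (SP.base k)) (B := X) (C := Y) (runitIso X.alg))
    (CatMon.tri X.alg Y.alg)

noncomputable instance : MonoidalCategory (SP k) := MonoidalCategory.ofTensorHom
  (id_tensorHom_id := fun _ _ => tensorHom_one)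
  (id_tensorHom := fun _ _ _ _ => rfl)
  (tensorHom_id := fun _ _ => rfl)
  (tensorHom_comp_tensorHom := fun f f' g g' => tensorHom_comp f f' g g')
  (associator_naturality := fun {X₁ X₂ X₃ Y₁ Y₂ Y₃} f₁ f₂ f₃ => by
    exact CatMon.nat (A := (X₁.tensor X₂).tensor X₃) (B := (Y₁.tensor Y₂).tensor Y₃)
      (A' := X₁.tensor (X₂.tensor X₃)) (B' := Y₁.tensor (Y₂.tensor Y₃))
      (assocIso X₁.alg X₂.alg X₃.alg) (assocIso Y₁.alg Y₂.alg Y₃.alg) _ _
      (K0Q.box_assoc' f₁ f₂ f₃))
  (leftUnitor_naturality := fun {X Y} f => by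
    exact CatMon.nat (A := (SP.base k).tensor X) (B := (SP.base k).tensor Y) (A' := X)
      (B' := Y) (lunitIso X.alg) (lunitIso Y.alg) _ _ (K0Q.box_lunit' f))
  (rightUnitor_naturality := fun {X Y} f => by
    exact CatMon.nat (A := X.tensor (SP.base k)) (B := Y.tensor (SP.base k)) (A' := X)
      (B' := Y) (runitIso X.alg) (runitIso Y.alg) _ _ (K0Q.box_runit' f))
  (pentagon := pentagon_aux)
  (triangle := triangle_aux)

noncomputable instance : MonoidalPreadditive (SP k) where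
  whiskerLeft_zero := fun {X _ _} => map_zero (K0Q.box (𝟙 X : X ⟶ X))
  zero_whiskerRight := fun {X _ _} =>
    LinearMap.congr_fun (map_zero K0Q.box) (𝟙 X : X ⟶ X)
  whiskerLeft_add := fun {X _ _} f g => map_add (K0Q.box (𝟙 X : X ⟶ X)) f g
  add_whiskerRight := fun {X _ _} f g =>
    LinearMap.congr_fun (map_add K0Q.box f g) (𝟙 X : X ⟶ X)

end Pool.Agent.MP_6e5bed_ag_NC
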