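import Pool.Agent.Lib.MP_6e5bed_ag_NC.FBend
import Pool.Agent.Lib.MP_6e5bed_ag_NC.Htpy

set_option autoImplicit false

/-!
# The opposite bimodule
-/

namespace Pool.Agent.MP_6e5bed_ag_NC

open scoped TensorProduct

universe u

variable {k : Type u} [CommRing k] {A B : DGA k}

private theorem opl_mul (M : Bim A B) (b b' : B.A) (m : M.M) :
    tw M.dg B.dg M.rr (tw B.dg B.dg B.mul b b') m =
      tw M.dg B.dg M.rr b (tw M.dg B.dg M.rr b' m) := by
  refine B.dg.parity_ind (P := fun b => tw M.dg B.dg M.rr (tw B.dg B.dg B.mul b b') m =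
      tw M.dg B.dg M.rr b (tw M.dg B.dg M.rr b' m)) ?_ ?_ ?_ b
  · intro x y hx hy
    simp only [map_add, LinearMap.add_apply, hx, hy]
  · intro b hb
    rw [tw_even hb, tw_even hb]
    refine B.dg.parity_ind (P := fun b' => tw M.dg B.dg M.rr (B.mul b' b) m =
      M.rr (tw M.dg B.dg M.rr b' m) b) ?_ ?_ ?_ b'
    · intro x y hx hy
      simp only [map_add, LinearMap.add_apply, hx, hy]
    · intro b' hb'
      have h : B.dg.o (B.mul b' b) = 0 := by rw [B.o_mul, hb, hb']; simp
      rw [tw_even h, tw_even hb', Bim.rr_apply, Bim.rr_apply, Bim.rr_apply, M.r_mul]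
    · intro b' hb'
      have h : B.dg.o (B.mul b' b) = B.mul b' b := by rw [B.o_mul, hb, hb']; simp
      rw [tw_odd h, tw_odd hb', Bim.rr_apply, Bim.rr_apply, Bim.rr_apply, M.r_mul]
  · intro b hb
    rw [tw_odd hb, tw_odd hb]
    refine B.dg.parity_ind (P := fun b' => tw M.dg B.dg M.rr (B.mul (B.dg.s b') b) m =
      M.rr (M.dg.s (tw M.dg B.dg M.rr b' m)) b) ?_ ?_ ?_ b'
    · intro x y hx hy
      simp only [map_add, LinearMap.add_apply, hx, hy]
    · intro b' hb'
      have h : B.dg.o (B.mul (B.dg.s b') b) = B.mul (B.dg.s b') b := by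
        rw [Dg.s_of_even hb', B.o_mul, hb, hb']; simp
      rw [tw_odd h, tw_even hb', M.s_rr, Bim.rr_apply, Bim.rr_apply, Bim.rr_apply, M.r_mul]
    · intro b' hb'
      have h : B.dg.o (B.mul (B.dg.s b') b) = 0 := by
        rw [Dg.s_of_odd hb', map_neg, LinearMap.neg_apply, map_neg, B.o_mul, hb, hb', two_smul]
        simp
      rw [tw_even h, tw_odd hb', M.s_rr, Dg.s_s, Bim.rr_apply, Bim.rr_apply, Bim.rr_apply,
        M.r_mul]

private theorem opr_mul (M : Bim A B) (a a' : A.A) (m : M.M) :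
    tw A.dg M.dg M.l m (tw A.dg A.dg A.mul a a') =
      tw A.dg M.dg M.l (tw A.dg M.dg M.l m a) a' := by
  refine A.dg.parity_ind (P := fun a => tw A.dg M.dg M.l m (tw A.dg A.dg A.mul a a') =
      tw A.dg M.dg M.l (tw A.dg M.dg M.l m a) a') ?_ ?_ ?_ a
  · intro x y hx hy
    simp only [map_add, LinearMap.add_apply, hx, hy]
  · intro a ha
    rw [tw_even ha, tw_even' ha]
    refine A.dg.parity_ind (P := fun a' => tw A.dg M.dg M.l m (A.mul a' a) =
      tw A.dg M.dg M.l (M.l a m) a') ?_ ?_ ?_ a'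
    · intro x y hx hy
      simp only [map_add, LinearMap.add_apply, hx, hy]
    · intro a' ha'
      have h : A.dg.o (A.mul a' a) = 0 := by rw [A.o_mul, ha, ha']; simp
      rw [tw_even' h, tw_even' ha', M.l_mul]
    · intro a' ha'
      have h : A.dg.o (A.mul a' a) = A.mul a' a := by rw [A.o_mul, ha, ha']; simp
      rw [tw_odd' h, tw_odd' ha', M.l_mul, M.s_l, Dg.s_of_even ha]
  · intro a ha
    rw [tw_odd ha, tw_odd' ha]
    refine A.dg.parity_ind (P := fun a' => tw A.dg M.dg M.l m (A.mul (A.dg.s a') a) =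
      tw A.dg M.dg M.l (M.l a (M.dg.s m)) a') ?_ ?_ ?_ a'
    · intro x y hx hy
      simp only [map_add, LinearMap.add_apply, hx, hy]
    · intro a' ha'
      have h : A.dg.o (A.mul a' a) = A.mul a' a := by rw [A.o_mul, ha, ha']; simp
      rw [Dg.s_of_even ha', tw_odd' h, tw_even' ha', M.l_mul]
    · intro a' ha'
      have h : A.dg.o (A.mul (A.dg.s a') a) = 0 := by
        rw [Dg.s_of_odd ha', map_neg, LinearMap.neg_apply, map_neg, A.o_mul, ha, ha', two_smul]
        simp
      rw [tw_even' h, tw_odd' ha', M.l_mul, M.s_l, Dg.s_s, Dg.s_of_odd ha, Dg.s_of_odd ha',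
        map_neg, map_neg, LinearMap.neg_apply, LinearMap.neg_apply, map_neg]

private theorem opl_r (M : Bim A B) (b : B.A) (a : A.A) (m : M.M) :
    tw M.dg B.dg M.rr b (tw A.dg M.dg M.l m a) =
      tw A.dg M.dg M.l (tw M.dg B.dg M.rr b m) a := by
  refine A.dg.parity_ind (P := fun a => tw M.dg B.dg M.rr b (tw A.dg M.dg M.l m a) =
      tw A.dg M.dg M.l (tw M.dg B.dg M.rr b m) a) ?_ ?_ ?_ a
  · intro x y hx hy
    simp only [map_add, hx, hy]
  · intro a ha
    rw [tw_even' ha, tw_even' ha]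
    refine B.dg.parity_ind (P := fun b => tw M.dg B.dg M.rr b (M.l a m) =
      M.l a (tw M.dg B.dg M.rr b m)) ?_ ?_ ?_ b
    · intro x y hx hy
      simp only [map_add, LinearMap.add_apply, hx, hy]
    · intro b hb
      rw [tw_even hb, tw_even hb, Bim.rr_apply, Bim.rr_apply, M.l_r]
    · intro b hb
      rw [tw_odd hb, tw_odd hb, Bim.rr_apply, Bim.rr_apply, M.l_r, M.s_l, Dg.s_of_even ha]
  · intro a ha
    rw [tw_odd' ha, tw_odd' ha]
    refine B.dg.parity_ind (P := fun b => tw M.dg B.dg M.rr b (M.l a (M.dg.s m)) =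
      M.l a (M.dg.s (tw M.dg B.dg M.rr b m))) ?_ ?_ ?_ b
    · intro x y hx hy
      simp only [map_add, LinearMap.add_apply, hx, hy]
    · intro b hb
      rw [tw_even hb, tw_even hb, Bim.s_rr, Bim.rr_apply, Bim.rr_apply, M.l_r, Dg.s_of_even hb]
    · intro b hb
      rw [tw_odd hb, tw_odd hb, Bim.s_rr, Bim.rr_apply, Bim.rr_apply, M.s_l, Dg.s_s,
        Dg.s_of_odd hb, Dg.s_of_odd ha, map_neg, map_neg, LinearMap.neg_apply,
        LinearMap.neg_apply, map_neg, map_neg, M.l_r]

/-- `M` as a `Bᵒᵖ`-`Aᵒᵖ`-bimodule. -/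
noncomputable def Bim.op (M : Bim A B) : Bim B.op A.op where
  M := M.M
  dg := M.dg
  l := tw M.dg B.dg M.rr
  r := (tw A.dg M.dg M.l).flip
  l_one := fun m => by
    change tw M.dg B.dg M.rr B.one m = m
    rw [tw_even B.o_one, Bim.rr_apply, M.r_one]
  r_one := fun m => by
    change tw A.dg M.dg M.l m A.one = m
    rw [tw_even' A.o_one, M.l_one]
  l_mul := fun b b' m => opl_mul M b b' m
  r_mul := fun a a' m => opr_mul M a a' m
  l_r := fun b a m => opl_r M b a m
  l_deg := fun hb hm => tw_deg (fun h h' => M.rr_deg h h') hb hm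
  r_deg := fun hm ha => tw_deg (fun h h' => M.l_deg h h') hm ha
  d_l := fun b m => tw_d M.d_rr b m
  d_r := fun a m => tw_d M.d_l m a

private theorem op_map_l {n : ℤ} {M N : Bim A B} (φ : GMap n M N) (b : B.A) (m : M.M) :
    φ.f (tw M.dg B.dg M.rr b m) = tw N.dg B.dg N.rr (B.dg.sp n b) (φ.f m) := by
  refine B.dg.parity_ind (P := fun b => φ.f (tw M.dg B.dg M.rr b m) =
    tw N.dg B.dg N.rr (B.dg.sp n b) (φ.f m)) ?_ ?_ ?_ b
  · intro x y hx hy
    simp only [map_add, LinearMap.add_apply, hx, hy]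
  · intro b hb
    have h1 : B.dg.sp n b = b := by
      rcases Int.even_or_odd n with h | h
      · rw [Dg.sp_even h]
      · rw [Dg.sp_odd h, Dg.s_of_even hb]
    rw [h1, tw_even hb, tw_even hb, Bim.rr_apply, Bim.rr_apply, φ.map_r]
  · intro b hb
    rw [tw_odd hb, Bim.rr_apply, φ.map_r]
    rcases Int.even_or_odd n with h | h
    · rw [Dg.sp_even h, tw_odd hb, φ.s_f, sg_even h, one_smul, Bim.rr_apply]
    · rw [Dg.sp_odd h, Dg.s_of_odd hb, map_neg, LinearMap.neg_apply, tw_odd hb, φ.s_f,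
        sg_odd h, neg_smul, one_smul, Bim.rr_apply, map_neg, neg_neg]

private theorem op_map_r {n : ℤ} {M N : Bim A B} (φ : GMap n M N) (a : A.A) (m : M.M) :
    φ.f (tw A.dg M.dg M.l m a) = tw A.dg N.dg N.l (φ.f m) a := by
  refine A.dg.parity_ind (P := fun a => φ.f (tw A.dg M.dg M.l m a) =
    tw A.dg N.dg N.l (φ.f m) a) ?_ ?_ ?_ a
  · intro x y hx hy
    simp only [map_add, hx, hy]
  · intro a ha
    have h1 : A.dg.sp n a = a := by
      rcases Int.even_or_odd n with h | h
      · rw [Dg.sp_even h]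
      · rw [Dg.sp_odd h, Dg.s_of_even ha]
    rw [tw_even' ha, tw_even' ha, φ.map_l, h1]
  · intro a ha
    rw [tw_odd' ha, tw_odd' ha, φ.map_l, φ.s_f]
    rcases Int.even_or_odd n with h | h
    · rw [Dg.sp_even h, sg_even h, one_smul]
    · rw [Dg.sp_odd h, Dg.s_of_odd ha, sg_odd h, neg_smul, one_smul, map_neg, map_neg,
        LinearMap.neg_apply]

/-- The same map, for the opposite bimodules. -/
noncomputable def GMap.op {n : ℤ} {M N : Bim A B} (φ : GMap n M N) :
    GMap n M.op N.op where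
  f := φ.f
  deg := fun h => φ.deg h
  map_l := fun b m => op_map_l φ b m
  map_r := fun a m => op_map_r φ a m

/-- The opposite bimodule as a dg functor. -/
noncomputable def opF (A B : DGA k) : DGFun A B B.op A.op where
  obj := fun M => M.op
  map := fun φ => φ.op
  map_id := fun _ _ => rfl
  map_comp := fun _ _ _ _ => rfl
  map_add := fun _ _ _ => rfl
  map_D := fun _ _ _ => rfl

section flp

variable {V W : Type u} [AddCommGroup V] [Module k V] [AddCommGroup W] [Module k W]

/-- The exchange of the factors of a tensor product, with the Koszul sign. -/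
private noncomputable def flp (X : Dg k V) (Y : Dg k W) : V ⊗[k] W →ₗ[k] W ⊗[k] V :=
  (TensorProduct.comm k V W).toLinearMap -
    (2 : k) • (TensorProduct.comm k V W).toLinearMap.comp (TensorProduct.map X.o Y.o)

variable {X : Dg k V} {Y : Dg k W}

private theorem flp_tmul (v : V) (w : W) :
    flp X Y (v ⊗ₜ w) = w ⊗ₜ v - (2 : k) • Y.o w ⊗ₜ X.o v := by
  simp [flp]

private theorem flp_even {v : V} (hv : X.o v = 0) (w : W) : flp X Y (v ⊗ₜ w) = w ⊗ₜ v := by
  rw [flp_tmul, hv, TensorProduct.tmul_zero, smul_zero, sub_zero]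

private theorem flp_odd {v : V} (hv : X.o v = v) (w : W) :
    flp X Y (v ⊗ₜ w) = Y.s w ⊗ₜ v := by
  rw [flp_tmul, hv, Dg.s_apply, TensorProduct.sub_tmul, TensorProduct.smul_tmul']

private theorem flp_flp (x : V ⊗[k] W) : flp Y X (flp X Y x) = x := by
  induction x using TensorProduct.induction_on with
  | zero => simp
  | add x y hx hy => rw [map_add, map_add, hx, hy]
  | tmul v w =>
    refine X.parity_ind (P := fun v => flp Y X (flp X Y (v ⊗ₜ w)) = v ⊗ₜ w) ?_ ?_ ?_ v
    · intro x y hx hy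
      rw [TensorProduct.add_tmul, map_add, map_add, hx, hy]
    · intro v hv
      rw [flp_even hv, flp_tmul, hv, TensorProduct.zero_tmul, smul_zero, sub_zero]
    · intro v hv
      rw [flp_odd hv, flp_tmul, hv, ← TensorProduct.tmul_smul, ← TensorProduct.tmul_sub,
        ← Dg.s_apply, Dg.s_s]

private theorem flp_deg {i : ℤ} {x : V ⊗[k] W} (hx : (X.tensor Y).IsDeg i x) :
    (Y.tensor X).IsDeg (i + 0) (flp X Y x) := by
  refine Dg.tensor_degMap (flp X Y) (fun i j v w hv hw => ?_) hx
  rw [flp_tmul, add_zero, add_comm]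
  exact (Dg.tensor_deg hw hv).sub ((Dg.tensor_deg hw.o hv.o).smul _)

private theorem flp_d (x : V ⊗[k] W) :
    (Y.tensor X).d (flp X Y x) = flp X Y ((X.tensor Y).d x) := by
  induction x using TensorProduct.induction_on with
  | zero => simp
  | add x y hx hy => rw [map_add, map_add, hx, hy, map_add, map_add]
  | tmul v w =>
    refine X.parity_ind (P := fun v => (Y.tensor X).d (flp X Y (v ⊗ₜ w)) =
      flp X Y ((X.tensor Y).d (v ⊗ₜ w))) ?_ ?_ ?_ v
    · intro x y hx hy
      rw [TensorProduct.add_tmul, map_add, map_add, hx, hy, map_add, map_add]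
    · intro v hv
      have hv1 : X.o (X.d v) = X.d v := by rw [Dg.o_d, hv, map_zero, sub_zero]
      rw [flp_even hv, Dg.tensor_d, Dg.tensor_d, map_add, flp_odd hv1, Dg.s_of_even hv,
        flp_even hv]
      abel
    · intro v hv
      have hv1 : X.o (X.d v) = 0 := by rw [Dg.o_d, hv, sub_self]
      rw [flp_odd hv, Dg.tensor_d, Dg.tensor_d, map_add, flp_even hv1, Dg.s_of_odd hv,
        TensorProduct.neg_tmul, map_neg, flp_odd hv, Dg.s_s, Dg.s_d, TensorProduct.neg_tmul,
        neg_neg]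
      abel

end flp

/-- The right multiplication of the free bimodule. -/
private noncomputable def frr (A B : DGA k) : A.A ⊗[k] B.A →ₗ[k] B.A →ₗ[k] A.A ⊗[k] B.A :=
  (LinearMap.lTensorHom A.A ∘ₗ B.mul.flip).flip

/-- The left multiplication of the free bimodule. -/
private noncomputable def fll (A B : DGA k) : A.A →ₗ[k] A.A ⊗[k] B.A →ₗ[k] A.A ⊗[k] B.A :=
  LinearMap.rTensorHom B.A ∘ₗ A.mul

/-- The left multiplication of the free bimodule over the opposite algebras. -/
private noncomputable def gll (A B : DGA k) : B.A →ₗ[k] B.A ⊗[k] A.A →ₗ[k] B.A ⊗[k] A.A :=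
  LinearMap.rTensorHom A.A ∘ₗ (tw B.dg B.dg B.mul)

/-- The right multiplication of the free bimodule over the opposite algebras. -/
private noncomputable def grr (A B : DGA k) : A.A →ₗ[k] B.A ⊗[k] A.A →ₗ[k] B.A ⊗[k] A.A :=
  LinearMap.lTensorHom B.A ∘ₗ (tw A.dg A.dg A.mul).flip

private theorem frr_tmul (a : A.A) (b b' : B.A) :
    frr A B (a ⊗ₜ b) b' = a ⊗ₜ (B.mul b b') := rfl

private theorem fll_tmul (a a' : A.A) (b : B.A) :
    fll A B a' (a ⊗ₜ b) = (A.mul a' a) ⊗ₜ b := rfl

private theorem gll_tmul (a : A.A) (b b' : B.A) :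
    gll A B b' (b ⊗ₜ a) = (tw B.dg B.dg B.mul b' b) ⊗ₜ a := rfl

private theorem grr_tmul (a a' : A.A) (b : B.A) :
    grr A B a' (b ⊗ₜ a) = b ⊗ₜ (tw A.dg A.dg A.mul a a') := rfl

private theorem op_free_l (b' : B.A) (x : A.A ⊗[k] B.A) :
    flp A.dg B.dg (tw (A.dg.tensor B.dg) B.dg (frr A B) b' x) =
      gll A B b' (flp A.dg B.dg x) := by
  induction x using TensorProduct.induction_on with
  | zero => simp only [map_zero]
  | add x y hx hy => rw [map_add, map_add, hx, hy, map_add, map_add]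
  | tmul a b =>
    refine B.dg.parity_ind (P := fun b' =>
      flp A.dg B.dg (tw (A.dg.tensor B.dg) B.dg (frr A B) b' (a ⊗ₜ b)) =
        gll A B b' (flp A.dg B.dg (a ⊗ₜ b))) ?_ ?_ ?_ b'
    · intro x y hx hy
      rw [map_add, LinearMap.add_apply, map_add, hx, hy, map_add, LinearMap.add_apply]
    · intro b' hb'
      rw [tw_even hb', frr_tmul]
      refine A.dg.parity_ind (P := fun a => flp A.dg B.dg (a ⊗ₜ (B.mul b b')) =
        gll A B b' (flp A.dg B.dg (a ⊗ₜ b))) ?_ ?_ ?_ a
      · intro x y hx hy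
        rw [TensorProduct.add_tmul, TensorProduct.add_tmul, map_add, hx, hy, map_add, map_add]
      · intro a ha
        rw [flp_even ha, flp_even ha, gll_tmul, tw_even hb']
      · intro a ha
        rw [flp_odd ha, flp_odd ha, gll_tmul, tw_even hb', B.s_mul, Dg.s_of_even hb']
    · intro b' hb'
      rw [tw_odd hb', Dg.tensor_s, frr_tmul]
      refine A.dg.parity_ind (P := fun a => flp A.dg B.dg (A.dg.s a ⊗ₜ (B.mul (B.dg.s b) b')) =
        gll A B b' (flp A.dg B.dg (a ⊗ₜ b))) ?_ ?_ ?_ a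
      · intro x y hx hy
        rw [map_add, TensorProduct.add_tmul, TensorProduct.add_tmul, map_add, hx, hy, map_add,
          map_add]
      · intro a ha
        rw [Dg.s_of_even ha, flp_even ha, flp_even ha, gll_tmul, tw_odd hb']
      · intro a ha
        rw [Dg.s_of_odd ha, TensorProduct.neg_tmul, map_neg, flp_odd ha, flp_odd ha, gll_tmul,
          tw_odd hb', B.s_mul, Dg.s_s, Dg.s_of_odd hb', map_neg, TensorProduct.neg_tmul, neg_neg]

private theorem op_free_r (a' : A.A) (x : A.A ⊗[k] B.A) :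
    flp A.dg B.dg (tw A.dg (A.dg.tensor B.dg) (fll A B) x a') =
      grr A B a' (flp A.dg B.dg x) := by
  induction x using TensorProduct.induction_on with
  | zero => simp only [map_zero, LinearMap.zero_apply]
  | add x y hx hy =>
    rw [map_add, LinearMap.add_apply, map_add, hx, hy, map_add, map_add]
  | tmul a b =>
    refine A.dg.parity_ind (P := fun a' =>
      flp A.dg B.dg (tw A.dg (A.dg.tensor B.dg) (fll A B) (a ⊗ₜ b) a') =
        grr A B a' (flp A.dg B.dg (a ⊗ₜ b))) ?_ ?_ ?_ a'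
    · intro x y hx hy
      rw [map_add, map_add, hx, hy, map_add, LinearMap.add_apply]
    · intro a' ha'
      rw [tw_even' ha', fll_tmul]
      refine A.dg.parity_ind (P := fun a => flp A.dg B.dg ((A.mul a' a) ⊗ₜ b) =
        grr A B a' (flp A.dg B.dg (a ⊗ₜ b))) ?_ ?_ ?_ a
      · intro x y hx hy
        rw [map_add, TensorProduct.add_tmul, TensorProduct.add_tmul, map_add, hx, hy, map_add,
          map_add]
      · intro a ha
        have h : A.dg.o (A.mul a' a) = 0 := by rw [A.o_mul, ha, ha']; simp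
        rw [flp_even h, flp_even ha, grr_tmul, tw_even ha]
      · intro a ha
        have h : A.dg.o (A.mul a' a) = A.mul a' a := by rw [A.o_mul, ha, ha']; simp
        rw [flp_odd h, flp_odd ha, grr_tmul, tw_odd ha, Dg.s_of_even ha']
    · intro a' ha'
      rw [tw_odd' ha', Dg.tensor_s, fll_tmul]
      refine A.dg.parity_ind (P := fun a => flp A.dg B.dg ((A.mul a' (A.dg.s a)) ⊗ₜ (B.dg.s b)) =
        grr A B a' (flp A.dg B.dg (a ⊗ₜ b))) ?_ ?_ ?_ a
      · intro x y hx hy
        rw [map_add, map_add, TensorProduct.add_tmul, TensorProduct.add_tmul, map_add, hx, hy,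
          map_add, map_add]
      · intro a ha
        have h : A.dg.o (A.mul a' a) = A.mul a' a := by rw [A.o_mul, ha, ha']; simp
        rw [Dg.s_of_even ha, flp_odd h, flp_even ha, grr_tmul, tw_even ha, Dg.s_s]
      · intro a ha
        have h : A.dg.o (A.mul a' a) = 0 := by
          rw [A.o_mul, ha, ha', two_smul]; simp
        rw [Dg.s_of_odd ha, map_neg, TensorProduct.neg_tmul, map_neg, flp_even h, flp_odd ha,
          grr_tmul, tw_odd ha, Dg.s_of_odd ha', map_neg, LinearMap.neg_apply,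
          TensorProduct.tmul_neg]

theorem op_free (A B : DGA k) : BIso (free A B).op (free B.op A.op) := by
  refine BIso.of_bij (M := (free A B).op) (N := free B.op A.op)
    ⟨flp A.dg B.dg, fun {i x} hx => flp_deg hx, fun b x => ?_, fun a x =>
      op_free_r (A := A) (B := B) a x⟩ ?_ ?_
  · rw [Dg.sp_zero]
    exact op_free_l (A := A) (B := B) b x
  · refine LinearMap.ext (fun x => ?_)
    rw [GMap.dd_apply, sg_zero, one_smul]
    exact sub_eq_zero.2 (flp_d x)
  · exact Function.bijective_iff_has_inverse.2 ⟨flp B.dg A.dg, flp_flp, flp_flp⟩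

theorem op_diag (A : DGA k) : BIso (diag A).op (diag A.op) := by
  refine ⟨⟨LinearMap.id, fun {i m} h => by rwa [add_zero], fun a m => ?_, fun b m => rfl⟩,
    ⟨LinearMap.id, fun {i m} h => by rwa [add_zero], fun a m => ?_, fun b m => rfl⟩,
    ?_, fun m => rfl, fun m => rfl⟩
  · rw [Dg.sp_zero]
    rfl
  · rw [Dg.sp_zero]
    rfl
  · ext x
    rw [GMap.dd_apply, sg_zero, one_smul]
    exact sub_self _

theorem Smooth.op (h : Smooth A) : Smooth A.op := by
  obtain ⟨P, φ, hP, hq⟩ := h
  obtain ⟨α, β, h0, h1, h2⟩ := op_diag A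
  have hq' : RQIso φ.op :=
    RQIso.congr hq (LinearEquiv.refl k P.M : P.M ≃ₗ[k] P.op.M)
      (LinearEquiv.refl k (diag A).M : (diag A).M ≃ₗ[k] (diag A).op.M)
      (fun _ _ => Iff.rfl) (fun _ _ => Iff.rfl) (fun _ => rfl) (fun _ => rfl) (fun _ => rfl)
  refine ⟨P.op, φ.op.comp α (add_zero 0), ?_, RQIso.comp hq' (RQIso.of_inv h0 h1 h2)⟩
  exact (opF A A).perf (Perf.summand (op_free A A).symm.summand Perf.free) hP

theorem Proper.op (h : Proper A) : Proper A.op :=
  (BIso.ofBase (V := und (diag A)) (W := und (diag A.op)) LinearMap.id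
    (fun h => h) (fun _ => rfl) Function.bijective_id).perf h

end Pool.Agent.MP_6e5bed_ag_NC
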