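import Pool.Agent.Lib.MP_6e5bed_ag_NC.BendA
import Pool.Agent.Lib.MP_6e5bed_ag_NC.BendIso
import Pool.Agent.Lib.MP_6e5bed_ag_NC.OpBim
import Pool.Agent.Lib.MP_6e5bed_ag_NC.CatMon

set_option autoImplicit false

/-!
# The dual of `A` is `Aᵒᵖ`
-/

namespace Pool.Agent.MP_6e5bed_ag_NC

open CategoryTheory MonoidalCategory

universe u

variable {k : Type u} [CommRing k]

/-- The opposite of a smooth proper dg algebra. -/
noncomputable def SP.op (A : SP k) : SP k where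
  alg := A.alg.op
  smooth := A.smooth.op
  proper := A.proper.op

/-- The class of the diagonal bimodule, as a morphism `𝟙 ⟶ Aᵒᵖ ⊗ A`. -/
noncomputable def SP.eta (A : SP k) : 𝟙_ (SP k) ⟶ A.op ⊗ A :=
  (hhF A.alg A.alg).k0 ((hh_free A.alg A.alg).symm.perf Perf.free) (𝟙 A : A ⟶ A)

/-- The class of the diagonal bimodule, as a morphism `A ⊗ Aᵒᵖ ⟶ 𝟙`. -/
noncomputable def SP.eps (A : SP k) : A ⊗ A.op ⟶ 𝟙_ (SP k) :=
  (eeF A.alg A.alg).k0 ((ee_free A.alg A.alg).symm.perf Perf.free) (𝟙 A : A ⟶ A)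

section aux

variable {A : DGA k}

private theorem rigid_qiso_ee {P : Bim A A} {φ : GMap 0 P (diag A)} (h : RQIso φ) :
    RQIso φ.ee :=
  RQIso.congr h (LinearEquiv.refl k P.M : P.M ≃ₗ[k] (EE P).M)
    (LinearEquiv.refl k (diag A).M : (diag A).M ≃ₗ[k] (EE (diag A)).M)
    (fun _ _ => Iff.rfl) (fun _ _ => Iff.rfl) (fun _ => rfl) (fun _ => rfl) (fun _ => rfl)

private theorem rigid_perf_hh {P : Bim A A} (hP : Perf P) : Perf (HH P) :=
  (hhF A A).perf ((hh_free A A).symm.perf Perf.free) hP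

private theorem rigid_perf_ee {P : Bim A A} (hP : Perf P) : Perf (EE P) :=
  (eeF A A).perf ((ee_free A A).symm.perf Perf.free) hP

/-- The zigzag identity on classes. -/
private theorem rigid_cls (hA : Proper A) {P : Bim A A} (hP : Perf P) {φ : GMap 0 P (diag A)}
    (hφ : RQIso φ) :
    K0Q.comp (hA.tensor (hA.op.tensor hA)) (K0Q.box (cls P hP) (cls (HH P) (rigid_perf_hh hP)))
      (K0Q.res (assocIso A A.op A).symm (DIso.refl ((base k).tensor A))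
        (K0Q.box (cls (EE P) (rigid_perf_ee hP)) (cls P hP))) =
      K0Q.res (runitIso A) (lunitIso A) (K0Q.comp hA (cls P hP) (cls P hP)) := by
  rw [K0Q.box_cls, K0Q.box_cls, K0Q.res_cls, K0Q.comp_cls, K0Q.comp_cls, K0Q.res_cls]
  have h1 : RQIso (φ.ee.boxR P) := RQIso.boxR (rigid_qiso_ee hφ) P
  have h2 : RQIso (φ.boxL (EE (diag A))) := RQIso.boxL (EE (diag A)) hφ
  have h3 := RQIso.comp h1 h2
  have h4 := RQIso.res (assocIso A A.op A).symm.hom (DHom.id ((base k).tensor A)) h3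
  have hX : Perf (box P (HH P)) := Perf.box hP (rigid_perf_hh hP)
  have h5 := (RQIso.tbL hX h4).qiso
  have h6 := tb_bend P P
  have h7 : Perf (res (runitIso A).hom (lunitIso A).hom (tb P P)) :=
    K0Q.res_perf (runitIso A) (lunitIso A) (Perf.tb hA hP hP)
  have h8 := h6.symm.perf h7
  exact (K0Q.cls_qiso _ h8 _ h5).trans (K0Q.cls_iso h6 _ _)

end aux

theorem SP.zigzag (A : SP k) :
    (A ◁ A.eta) ≫ (α_ A A.op A).inv ≫ (A.eps ▷ A) = (ρ_ A).hom ≫ (λ_ A).inv := by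
  have hR : (ρ_ A).hom ≫ (λ_ A).inv =
      (K0Q.res (runitIso A.alg) (lunitIso A.alg) (K0Q.one A.smooth) : A ⊗ 𝟙_ (SP k) ⟶ 𝟙_ (SP k) ⊗ A) := by
    have h1 := comp_ofIso (A := A ⊗ 𝟙_ (SP k)) (B := A) (C := 𝟙_ (SP k) ⊗ A)
      (ofIso (A := A ⊗ 𝟙_ (SP k)) (B := A) (runitIso A.alg)) (lunitIso A.alg).symm
    have h2 : K0Q.res (DIso.refl (A ⊗ 𝟙_ (SP k)).alg) (lunitIso A.alg).symm.symm
        (ofIso (A := A ⊗ 𝟙_ (SP k)) (B := A) (runitIso A.alg)) =
        K0Q.res (runitIso A.alg) (lunitIso A.alg) (K0Q.one A.smooth) :=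
      K0Q.res_res (DIso.refl (A ⊗ 𝟙_ (SP k)).alg) (lunitIso A.alg).symm.symm (runitIso A.alg)
        (DIso.refl A.alg) (K0Q.one A.smooth)
    exact h1.trans h2
  have hL : (α_ A A.op A).inv ≫ (A.eps ▷ A) =
      (K0Q.res (assocIso A.alg A.op.alg A.alg).symm (DIso.refl ((MP_6e5bed_ag_NC.base k).tensor A.alg))
        (K0Q.box A.eps (K0Q.one A.smooth)) : A ⊗ (A.op ⊗ A) ⟶ 𝟙_ (SP k) ⊗ A) :=
    ofIso_comp (A := A ⊗ (A.op ⊗ A)) (B := (A ⊗ A.op) ⊗ A) (C := 𝟙_ (SP k) ⊗ A)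
      (assocIso A.alg A.op.alg A.alg).symm (A.eps ▷ A)
  rw [hR, hL]
  obtain ⟨P, φ, hP, hφ, h1⟩ : ∃ (P : Bim A.alg A.alg) (φ : GMap 0 P (diag A.alg)) (hP : Perf P),
      RQIso φ ∧ K0Q.one A.smooth = cls P hP :=
    ⟨A.smooth.choose, A.smooth.choose_spec.choose, A.smooth.choose_spec.choose_spec.1,
      A.smooth.choose_spec.choose_spec.2, rfl⟩
  have hη : A.eta = cls (HH P) (rigid_perf_hh hP) := by
    change (hhF A.alg A.alg).k0 _ (K0Q.one A.smooth) = _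
    rw [h1]
    exact DGFun.k0_cls _ _ hP
  have hε : A.eps = cls (EE P) (rigid_perf_ee hP) := by
    change (eeF A.alg A.alg).k0 _ (K0Q.one A.smooth) = _
    rw [h1]
    exact DGFun.k0_cls _ _ hP
  have key := rigid_cls A.proper hP hφ
  rw [← h1, ← hη, ← hε, K0Q.one_comp A.smooth A.proper] at key
  exact key

end Pool.Agent.MP_6e5bed_ag_NC
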