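import Pool.Agent.Lib.MP_6e5bed_ag_NC.Defs

set_option autoImplicit false

/-!
# Graded maps of dg bimodules
-/

namespace Pool.Agent.MP_6e5bed_ag_NC

universe u

theorem sg_even {n : ℤ} (h : Even n) : sg n = 1 := by rw [sg, if_pos h]

theorem sg_odd {n : ℤ} (h : Odd n) : sg n = -1 := by
  rw [sg, if_neg (Int.not_even_iff_odd.2 h)]

theorem sg_zero : sg 0 = 1 := sg_even Even.zero

theorem sg_one : sg 1 = -1 := sg_odd odd_one

theorem sg_add (n m : ℤ) : sg (n + m) = sg n * sg m := by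
  rcases Int.even_or_odd n with h | h <;> rcases Int.even_or_odd m with h' | h'
  · rw [sg_even h, sg_even h', sg_even (h.add h'), one_mul]
  · rw [sg_even h, sg_odd h', sg_odd (h.add_odd h'), one_mul]
  · rw [sg_odd h, sg_even h', sg_odd (h.add_even h'), mul_one]
  · rw [sg_odd h, sg_odd h', sg_even (h.add_odd h')]
    norm_num

theorem sg_neg (n : ℤ) : sg (-n) = sg n := by
  rcases Int.even_or_odd n with h | h
  · rw [sg_even h, sg_even h.neg]
  · rw [sg_odd h, sg_odd h.neg]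

theorem sg_mul_self (n : ℤ) : sg n * sg n = 1 := by
  rcases Int.even_or_odd n with h | h
  · rw [sg_even h, one_mul]
  · rw [sg_odd h]
    norm_num

theorem sg_sub (n m : ℤ) : sg (n - m) = sg n * sg m := by
  rw [sub_eq_add_neg, sg_add, sg_neg]

namespace Dg

variable {k : Type u} [CommRing k] {V W : Type u} [AddCommGroup V] [Module k V]
  [AddCommGroup W] [Module k W] {X : Dg k V} {Y : Dg k W}

theorem sp_even {n : ℤ} (h : Even n) (v : V) : X.sp n v = v := by
  rw [sp, if_pos h, LinearMap.id_apply]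

theorem sp_odd {n : ℤ} (h : Odd n) (v : V) : X.sp n v = X.s v := by
  rw [sp, if_neg (Int.not_even_iff_odd.2 h)]

theorem sp_zero (v : V) : X.sp 0 v = v := sp_even Even.zero v

theorem sp_one (v : V) : X.sp 1 v = X.s v := sp_odd odd_one v

theorem sp_add (n m : ℤ) (v : V) : X.sp (n + m) v = X.sp n (X.sp m v) := by
  rcases Int.even_or_odd n with h | h <;> rcases Int.even_or_odd m with h' | h'
  · rw [sp_even h, sp_even h', sp_even (h.add h')]
  · rw [sp_even h, sp_odd h', sp_odd (h.add_odd h')]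
  · rw [sp_odd h, sp_even h', sp_odd (h.add_even h')]
  · rw [sp_odd h, sp_odd h', sp_even (h.add_odd h'), s_s]

theorem sp_neg (n : ℤ) (v : V) : X.sp (-n) v = X.sp n v := by
  rcases Int.even_or_odd n with h | h
  · rw [sp_even h, sp_even h.neg]
  · rw [sp_odd h, sp_odd h.neg]

theorem sp_sp (n : ℤ) (v : V) : X.sp n (X.sp n v) = v := by
  rcases Int.even_or_odd n with h | h
  · rw [sp_even h, sp_even h]
  · rw [sp_odd h, sp_odd h, s_s]

theorem d_sp (n : ℤ) (v : V) : X.d (X.sp n v) = sg n • X.sp n (X.d v) := by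
  rcases Int.even_or_odd n with h | h
  · rw [sp_even h, sp_even h, sg_even h, one_smul]
  · rw [sp_odd h, sp_odd h, sg_odd h, s_d, neg_smul, one_smul, neg_neg]

theorem s_sp (n : ℤ) (v : V) : X.s (X.sp n v) = X.sp n (X.s v) := by
  rcases Int.even_or_odd n with h | h
  · rw [sp_even h, sp_even h]
  · rw [sp_odd h, sp_odd h]

theorem sp_of_deg (n : ℤ) {i : ℤ} {v : V} (hv : X.IsDeg i v) :
    X.sp n v = sg (n * i) • v := by
  rcases Int.even_or_odd n with h | h
  · rw [sp_even h, sg_even (h.mul_right i), one_smul]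
  · rw [sp_odd h]
    rcases o_of_parity hv with ⟨hi, hv'⟩ | ⟨hi, hv'⟩
    · rw [s_of_even hv', sg_even (hi.mul_left n), one_smul]
    · rw [s_of_odd hv', sg_odd (h.mul hi), neg_smul, one_smul]

/-- A map of degree `n` commutes with the sign involution up to the sign of `n`. -/
theorem s_degMap {n : ℤ} (f : V →ₗ[k] W) (h : ∀ {j v}, X.IsDeg j v → Y.IsDeg (j + n) (f v))
    (v : V) : Y.s (f v) = sg n • f (X.s v) := by
  rcases Int.even_or_odd n with hn | hn
  · rw [s_degMap_even hn f h, sg_even hn, one_smul]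
  · rw [s_degMap_odd hn f h, sg_odd hn, neg_smul, one_smul]

theorem IsDeg.sp {n i : ℤ} {v : V} (hv : X.IsDeg i v) : X.IsDeg i (X.sp n v) := by
  rcases Int.even_or_odd n with h | h
  · rwa [sp_even h]
  · rw [sp_odd h]
    exact hv.s

theorem IsDeg.zsmul {i : ℤ} {v : V} (c : ℤ) (hv : X.IsDeg i v) : X.IsDeg i (c • v) := by
  unfold IsDeg at *
  rw [map_zsmul, hv]
  ext j
  rw [Finsupp.smul_apply, Finsupp.single_apply, Finsupp.single_apply]
  split_ifs <;> simp

end Dg

variable {k : Type u} [CommRing k] {A B : DGA k}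

namespace GMap

variable {M N P Q : Bim A B} {n m l : ℤ}

@[ext] theorem ext {φ ψ : GMap n M N} (h : ∀ x, φ.f x = ψ.f x) : φ = ψ := by
  obtain ⟨f, _, _, _⟩ := φ
  obtain ⟨g, _, _, _⟩ := ψ
  have : f = g := LinearMap.ext h
  subst this
  rfl

/-- The identity. -/
def id (M : Bim A B) : GMap 0 M M where
  f := LinearMap.id
  deg := fun {i m} h => by rwa [add_zero]
  map_l := fun a m => by rw [LinearMap.id_apply, LinearMap.id_apply, Dg.sp_zero]
  map_r := fun b m => rfl

@[simp] theorem id_f (x : M.M) : (id M).f x = x := rfl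

/-- The composition of `φ` and `ψ` (first `φ`, then `ψ`). -/
def comp (φ : GMap n M N) (ψ : GMap m N P) (h : n + m = l) : GMap l M P where
  f := ψ.f ∘ₗ φ.f
  deg := fun {i x} hx => by
    rw [← h, ← add_assoc]
    exact ψ.deg (φ.deg hx)
  map_l := fun a x => by
    rw [LinearMap.comp_apply, LinearMap.comp_apply, φ.map_l, ψ.map_l, ← h, add_comm n m,
      Dg.sp_add]
  map_r := fun b x => by
    rw [LinearMap.comp_apply, LinearMap.comp_apply, φ.map_r, ψ.map_r]

@[simp] theorem comp_f (φ : GMap n M N) (ψ : GMap m N P) (h : n + m = l) (x : M.M) :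
    (φ.comp ψ h).f x = ψ.f (φ.f x) := rfl

instance : Zero (GMap n M N) := ⟨{
  f := 0
  deg := fun _ => Dg.IsDeg.zero _
  map_l := fun a x => by simp
  map_r := fun a x => by simp }⟩

@[simp] theorem zero_f (x : M.M) : (0 : GMap n M N).f x = 0 := rfl

instance : Add (GMap n M N) := ⟨fun φ ψ => {
  f := φ.f + ψ.f
  deg := fun h => (φ.deg h).add (ψ.deg h)
  map_l := fun a x => by
    rw [LinearMap.add_apply, LinearMap.add_apply, φ.map_l, ψ.map_l, map_add]
  map_r := fun a x => by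
    rw [LinearMap.add_apply, LinearMap.add_apply, φ.map_r, ψ.map_r, map_add] }⟩

@[simp] theorem add_f (φ ψ : GMap n M N) (x : M.M) : (φ + ψ).f x = φ.f x + ψ.f x := rfl

instance : SMul ℤ (GMap n M N) := ⟨fun c φ => {
  f := c • φ.f
  deg := fun h => (φ.deg h).zsmul c
  map_l := fun a x => by
    rw [LinearMap.smul_apply, LinearMap.smul_apply, φ.map_l, map_zsmul]
  map_r := fun a x => by
    rw [LinearMap.smul_apply, LinearMap.smul_apply, φ.map_r, map_zsmul] }⟩

@[simp] theorem smul_f (c : ℤ) (φ : GMap n M N) (x : M.M) : (c • φ).f x = c • φ.f x := rfl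

instance : Neg (GMap n M N) := ⟨fun φ => {
  f := - φ.f
  deg := fun h => (φ.deg h).neg
  map_l := fun a x => by
    rw [LinearMap.neg_apply, LinearMap.neg_apply, φ.map_l, map_neg]
  map_r := fun a x => by
    rw [LinearMap.neg_apply, LinearMap.neg_apply, φ.map_r, map_neg] }⟩

@[simp] theorem neg_f (φ : GMap n M N) (x : M.M) : (- φ).f x = - φ.f x := rfl

instance : Sub (GMap n M N) := ⟨fun φ ψ => {
  f := φ.f - ψ.f
  deg := fun h => (φ.deg h).sub (ψ.deg h)
  map_l := fun a x => by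
    rw [LinearMap.sub_apply, LinearMap.sub_apply, φ.map_l, ψ.map_l, map_sub]
  map_r := fun a x => by
    rw [LinearMap.sub_apply, LinearMap.sub_apply, φ.map_r, ψ.map_r, map_sub] }⟩

@[simp] theorem sub_f (φ ψ : GMap n M N) (x : M.M) : (φ - ψ).f x = φ.f x - ψ.f x := rfl

/-- The same map, if the degree is written in a different way. -/
def cast (φ : GMap n M N) (h : n = m) : GMap m M N where
  f := φ.f
  deg := fun hx => h ▸ φ.deg hx
  map_l := fun a x => h ▸ φ.map_l a x
  map_r := φ.map_r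

@[simp] theorem cast_f (φ : GMap n M N) (h : n = m) (x : M.M) : (φ.cast h).f x = φ.f x := rfl

theorem dd_apply (φ : GMap n M N) (x : M.M) :
    φ.dd x = N.dg.d (φ.f x) - sg n • φ.f (M.dg.d x) := rfl

/-- For a closed map. -/
theorem d_f {φ : GMap n M N} (h : φ.dd = 0) (x : M.M) :
    N.dg.d (φ.f x) = sg n • φ.f (M.dg.d x) := by
  rw [← sub_eq_zero, ← dd_apply, h, LinearMap.zero_apply]

theorem d_f_zero {φ : GMap 0 M N} (h : φ.dd = 0) (x : M.M) :
    N.dg.d (φ.f x) = φ.f (M.dg.d x) := by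
  rw [d_f h, sg_zero, one_smul]

theorem s_f (φ : GMap n M N) (x : M.M) : N.dg.s (φ.f x) = sg n • φ.f (M.dg.s x) :=
  Dg.s_degMap φ.f (fun h => φ.deg h) x

/-- The differential of a graded map, as a graded map. -/
def D (φ : GMap n M N) (h : n + 1 = m) : GMap m M N where
  f := φ.dd
  deg := fun {i x} hx => by
    rw [← h, ← add_assoc]
    have h1 := φ.deg hx.d
    rw [add_right_comm] at h1
    exact (φ.deg hx).d.sub (h1.zsmul _)
  map_l := fun a x => by
    have h1 : N.l (A.dg.sp (n + 1) a) = N.l (A.dg.sp n (A.dg.s a)) := by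
      rw [Dg.sp_add, Dg.sp_one]
    rw [dd_apply, dd_apply, φ.map_l, M.d_l, N.d_l, map_add, φ.map_l, φ.map_l, Dg.d_sp, ← h, h1,
      Dg.s_sp, map_zsmul, LinearMap.smul_apply, map_sub, map_zsmul, smul_add]
    abel
  map_r := fun b x => by
    rw [dd_apply, dd_apply, φ.map_r, M.d_r, N.d_r, map_add, φ.map_r, φ.map_r, s_f, map_sub,
      map_zsmul, map_zsmul, smul_add]
    abel

@[simp] theorem D_f (φ : GMap n M N) (h : n + 1 = m) (x : M.M) : (φ.D h).f x = φ.dd x := rfl

theorem dd_comp (φ : GMap n M N) (ψ : GMap m N P) (h : n + m = l) (x : M.M) :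
    (φ.comp ψ h).dd x = ψ.dd (φ.f x) + sg m • ψ.f (φ.dd x) := by
  rw [dd_apply, dd_apply, dd_apply, comp_f, comp_f, map_sub, map_zsmul, smul_sub, smul_smul,
    ← h, sg_add, mul_comm (sg n)]
  abel

theorem dd_add (φ ψ : GMap n M N) (x : M.M) : (φ + ψ).dd x = φ.dd x + ψ.dd x := by
  rw [dd_apply, dd_apply, dd_apply, add_f, add_f, map_add, smul_add]
  abel

theorem dd_sub (φ ψ : GMap n M N) (x : M.M) : (φ - ψ).dd x = φ.dd x - ψ.dd x := by
  rw [dd_apply, dd_apply, dd_apply, sub_f, sub_f, map_sub, smul_sub]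
  abel

theorem dd_neg (φ : GMap n M N) (x : M.M) : (- φ).dd x = - φ.dd x := by
  rw [dd_apply, dd_apply, neg_f, neg_f, map_neg, smul_neg]
  abel

theorem dd_smul (c : ℤ) (φ : GMap n M N) (x : M.M) : (c • φ).dd x = c • φ.dd x := by
  rw [dd_apply, dd_apply, smul_f, smul_f, map_zsmul, smul_sub, smul_smul, smul_smul, mul_comm]

theorem dd_cast (φ : GMap n M N) (h : n = m) (x : M.M) : (φ.cast h).dd x = φ.dd x := by
  subst h
  rfl

theorem dd_id (x : M.M) : (id M).dd x = 0 := by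
  rw [dd_apply, id_f, id_f, sg_zero, one_smul, sub_self]

theorem dd_zero (x : M.M) : (0 : GMap n M N).dd x = 0 := by
  rw [dd_apply, zero_f, zero_f, map_zero, smul_zero, sub_zero]

theorem dd_D (φ : GMap n M N) (h : n + 1 = m) (x : M.M) : (φ.D h).dd x = 0 := by
  rw [dd_apply, D_f, D_f, dd_apply, dd_apply, M.dg.d_d, map_zero, map_sub, N.dg.d_d, smul_zero,
    sub_zero, map_zsmul, ← h, sg_add, sg_one, zero_sub, mul_neg_one, neg_smul, sub_neg_eq_add]
  abel

end GMap

/-- A bijective closed morphism of degree zero is an isomorphism. -/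
theorem BIso.of_bij {M N : Bim A B} (φ : GMap 0 M N) (h : φ.dd = 0)
    (hb : Function.Bijective φ.f) : BIso M N := by
  obtain ⟨e, he⟩ : ∃ e : M.M ≃ₗ[k] N.M, ∀ x, e x = φ.f x :=
    ⟨LinearEquiv.ofBijective φ.f hb, fun x => rfl⟩
  have hi : ∀ y, φ.f (e.symm y) = y := fun y => by rw [← he, e.apply_symm_apply]
  have hdeg := (Dg.degMap_iff (X := M.dg) (Y := N.dg) (n := 0) φ.f).1 (fun j v hv => φ.deg hv)
  refine ⟨φ, ⟨e.symm.toLinearMap, ?_, ?_, ?_⟩, h, ?_, ?_⟩
  · intro i y hy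
    rw [add_zero]
    have hy' : N.dg.ρ y = Finsupp.single i y := hy
    change M.dg.ρ (e.symm y) = Finsupp.single i (e.symm y)
    ext j
    apply hb.1
    rw [← hdeg, add_zero, hi, hy', Finsupp.single_apply, Finsupp.single_apply]
    split_ifs
    · exact (hi y).symm
    · rw [map_zero]
  · intro a y
    apply hb.1
    change φ.f (e.symm _) = φ.f (M.l _ (e.symm y))
    rw [hi, φ.map_l, hi, Dg.sp_zero, Dg.sp_zero]
  · intro b y
    apply hb.1
    change φ.f (e.symm _) = φ.f (M.r _ (e.symm y))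
    rw [hi, φ.map_r, hi]
  · intro x
    change e.symm (φ.f x) = x
    rw [← he, e.symm_apply_apply]
  · exact hi

theorem BIso.refl (M : Bim A B) : BIso M M :=
  ⟨GMap.id M, GMap.id M, LinearMap.ext GMap.dd_id, fun _ => rfl, fun _ => rfl⟩

/-- The inverse of an isomorphism is closed. -/
theorem BIso.closed_inv {M N : Bim A B} {φ : GMap 0 M N} {ψ : GMap 0 N M} (h : φ.dd = 0)
    (h1 : ∀ m, ψ.f (φ.f m) = m) (h2 : ∀ n, φ.f (ψ.f n) = n) : ψ.dd = 0 := by
  ext x
  rw [GMap.dd_apply, sg_zero, one_smul, LinearMap.zero_apply, sub_eq_zero,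
    ← h1 (M.dg.d (ψ.f x)), ← GMap.d_f_zero h, h2]

theorem BIso.symm {M N : Bim A B} (h : BIso M N) : BIso N M := by
  obtain ⟨φ, ψ, h0, h1, h2⟩ := h
  exact ⟨ψ, φ, closed_inv h0 h1 h2, h2, h1⟩

theorem BIso.trans {M N P : Bim A B} (h : BIso M N) (h' : BIso N P) : BIso M P := by
  obtain ⟨φ, ψ, h0, h1, h2⟩ := h
  obtain ⟨φ', ψ', h0', h1', h2'⟩ := h'
  refine ⟨φ.comp φ' (add_zero 0), ψ'.comp ψ (add_zero 0), ?_, ?_, ?_⟩
  · ext x
    rw [GMap.dd_comp, h0, h0']
    simp
  · intro m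
    rw [GMap.comp_f, GMap.comp_f, h1', h1]
  · intro m
    rw [GMap.comp_f, GMap.comp_f, h2, h2']

end Pool.Agent.MP_6e5bed_ag_NC
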