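import Pool.Agent.Lib.MP_6e5bed_ag_NC.Null

set_option autoImplicit false

/-!
# The Grothendieck group: shifts and quasi-isomorphisms
-/

namespace Pool.Agent.MP_6e5bed_ag_NC

universe u

variable {k : Type u} [CommRing k] {A B : DGA k}

private theorem k0Api_ext_one (M : Bim A B) :
    IsExt M (cone (GMap.id M) (LinearMap.ext GMap.dd_id)) (M.shift 1) :=
  (isCone_cone (GMap.id M) (LinearMap.ext GMap.dd_id)).isExt

private theorem k0Api_shift_one {M : Bim A B} (h : Perf M) : Perf (M.shift 1) :=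
  Perf.right (k0Api_ext_one M) h (Perf.contr (contr_cone_id M))

private theorem k0Api_iso (M : Bim A B) : BIso ((M.shift (-1)).shift 1) M := by
  have h := shift_add M (-1) 1
  rw [neg_add_cancel] at h
  exact h.trans (shift_zero M)

private theorem k0Api_shift_neg_one {M : Bim A B} (h : Perf M) : Perf (M.shift (-1)) :=
  Perf.left (k0Api_ext_one (M.shift (-1))) (Perf.contr (contr_cone_id (M.shift (-1))))
    ((k0Api_iso M).symm.perf h)

private theorem k0Api_cls_one {M : Bim A B} (h : Perf M) (h' : Perf (M.shift 1)) :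
    cls (M.shift 1) h' = - cls M h := by
  have h1 := K0Q.cls_ext h (Perf.contr (contr_cone_id M)) h' (k0Api_ext_one M)
  rw [K0Q.cls_contr _ (contr_cone_id M)] at h1
  exact (neg_eq_of_add_eq_zero_right h1.symm).symm

private theorem k0Api_cls_neg_one {M : Bim A B} (h : Perf M) (h' : Perf (M.shift (-1))) :
    cls (M.shift (-1)) h' = - cls M h := by
  have h2 : Perf ((M.shift (-1)).shift 1) := k0Api_shift_one h'
  rw [← K0Q.cls_iso (k0Api_iso M) h2 h, k0Api_cls_one h' h2, neg_neg]

theorem Perf.shift {M : Bim A B} (h : Perf M) (n : ℤ) : Perf (M.shift n) := by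
  refine Int.induction_on (motive := fun n => Perf (M.shift n)) n ?_ ?_ ?_
  · exact (shift_zero M).symm.perf h
  · intro i hi
    exact (shift_add M i 1).perf (k0Api_shift_one hi)
  · intro i hi
    exact (shift_add M (-i) (-1)).perf (k0Api_shift_neg_one hi)

theorem K0Q.cls_shift {M : Bim A B} (h : Perf M) (n : ℤ) (h' : Perf (M.shift n)) :
    cls (M.shift n) h' = (sg n : ℚ) • cls M h := by
  revert h'
  refine Int.induction_on
    (motive := fun n => ∀ h' : Perf (M.shift n), cls (M.shift n) h' = (sg n : ℚ) • cls M h)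
    n ?_ ?_ ?_
  · intro h'
    rw [K0Q.cls_iso (shift_zero M) h' h, sg_zero, Int.cast_one, one_smul]
  · intro i hi h'
    rw [← K0Q.cls_iso (shift_add M i 1) (k0Api_shift_one (h.shift i)) h',
      k0Api_cls_one (h.shift i), hi, sg_add, sg_one, mul_neg_one, Int.cast_neg, neg_smul]
  · intro i hi h'
    have h1 : cls ((M.shift (-(i : ℤ))).shift (-1)) (k0Api_shift_neg_one (h.shift (-i))) =
        cls (M.shift (-(i : ℤ) - 1)) h' := K0Q.cls_iso (shift_add M (-i) (-1)) _ _
    have h2 : sg (-(i : ℤ) - 1) = - sg (-(i : ℤ)) := by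
      rw [sg_sub, sg_one, mul_neg_one]
    rw [← h1, k0Api_cls_neg_one (h.shift (-i)), hi, h2, Int.cast_neg, neg_smul]

theorem IsCone.perf {M N C : Bim A B} {φ : GMap 0 M N} (h : IsCone φ C) (hM : Perf M)
    (hN : Perf N) : Perf C :=
  Perf.mid h.isExt hN (hM.shift 1)

/-- Quasi-isomorphic perfect bimodules have the same class. -/
theorem K0Q.cls_qiso {M N : Bim A B} (hM : Perf M) (hN : Perf N) (φ : GMap 0 M N)
    (h : QIso φ) : cls M hM = cls N hN := by
  have hφ : φ.dd = 0 := h.1
  have hc : IsCone φ (cone φ hφ) := isCone_cone φ hφ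
  have hp : Perf (cone φ hφ) := hc.perf hM hN
  have hac : Acyc (cone φ hφ) := (IsCone.qiso_iff hφ hc).1 h
  have hcon : Contr (cone φ hφ) := Perf.contr_of_acyc hp hac
  have h1 := K0Q.cls_ext hN hp (hM.shift 1) hc.isExt
  rw [K0Q.cls_contr hp hcon, k0Api_cls_one hM] at h1
  rw [eq_comm, ← sub_eq_add_neg, sub_eq_zero] at h1
  exact h1.symm

end Pool.Agent.MP_6e5bed_ag_NC
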