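import Pool.Agent.Lib.MP_6e5bed_ag_NC.FBox
import Pool.Agent.Lib.MP_6e5bed_ag_NC.FTb

set_option autoImplicit false

/-!
# The interchange law
-/

namespace Pool.Agent.MP_6e5bed_ag_NC

universe u

variable {k : Type u} [CommRing k] {A B C A' B' C' : DGA k}

section

open scoped TensorProduct

variable (M : Bim A B) (M' : Bim A' B') (N : Bim B C) (N' : Bim B' C')

/-- `(m ⊗ m'), (n ⊗ n') ↦ (-1)^(|m'||n|) (m ⊗ n) ⊗ (m' ⊗ n')` -/
private noncomputable def iK : M.M ⊗[k] M'.M →ₗ[k] N.M ⊗[k] N'.M →ₗ[k]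
    (tb M N).M ⊗[k] (tb M' N').M :=
  kz N.dg M'.dg (tmB M N) (tmB M' N')

private theorem iK_bal (x : M.M ⊗[k] M'.M) (b : B.A ⊗[k] B'.A) (y : N.M ⊗[k] N'.M) :
    iK M M' N N' (kz B.dg M'.dg M.rr M'.rr x b) y =
      iK M M' N N' x (kz N.dg B'.dg N.l N'.l b y) :=
  kz_assoc (X2 := B.dg) (X3 := N.dg) (X23 := N.dg) (Y1 := M'.dg) (Y2 := B'.dg) (Y12 := M'.dg)
    (α1 := M.rr) (α2 := tmB M N) (α3 := N.l) (α4 := tmB M N)
    (β1 := M'.rr) (β2 := tmB M' N') (β3 := N'.l) (β4 := tmB M' N')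
    (fun m b n => tm_r_l m b n) (fun m b n => tm_r_l m b n) N.s_l M'.o_rr x b y

private theorem iK_l (a : A.A ⊗[k] A'.A) (x : M.M ⊗[k] M'.M) (y : N.M ⊗[k] N'.M) :
    iK M M' N N' (kz M.dg A'.dg M.l M'.l a x) y =
      kz (tb M N).dg A'.dg (tb M N).l (tb M' N').l a (iK M M' N N' x y) :=
  kz_assoc (X2 := M.dg) (X3 := N.dg) (X23 := (tb M N).dg) (Y1 := A'.dg) (Y2 := M'.dg)
    (Y12 := M'.dg) (α1 := M.l) (α2 := tmB M N) (α3 := tmB M N) (α4 := (tb M N).l)
    (β1 := M'.l) (β2 := tmB M' N') (β3 := tmB M' N') (β4 := (tb M' N').l)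
    (fun a m n => (tb_l a m n).symm) (fun a m n => (tb_l a m n).symm)
    (fun m n => tb_s m n) M'.o_l a x y

private theorem iK_r (c : C.A ⊗[k] C'.A) (x : M.M ⊗[k] M'.M) (y : N.M ⊗[k] N'.M) :
    iK M M' N N' x (kz C.dg N'.dg N.rr N'.rr y c) =
      kz C.dg (tb M' N').dg (tb M N).rr (tb M' N').rr (iK M M' N N' x y) c :=
  (kz_assoc (X2 := N.dg) (X3 := C.dg) (X23 := N.dg) (Y1 := M'.dg) (Y2 := N'.dg)
    (Y12 := (tb M' N').dg) (α1 := tmB M N) (α2 := (tb M N).rr) (α3 := N.rr) (α4 := tmB M N)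
    (β1 := tmB M' N') (β2 := (tb M' N').rr) (β3 := N'.rr) (β4 := tmB M' N')
    (fun m n c => tb_r c m n) (fun m n c => tb_r c m n) N.s_rr (fun m n => tb_o m n)
    x y c).symm

private theorem iK_tmul (m : M.M) (m' : M'.M) (n : N.M) (n' : N'.M) :
    iK M M' N N' (m ⊗ₜ m') (n ⊗ₜ n') =
      (tm m n : (tb M N).M) ⊗ₜ (tm m' n' : (tb M' N').M) -
        (2 : k) • (tm m (N.dg.o n) : (tb M N).M) ⊗ₜ (tm (M'.dg.o m') n' : (tb M' N').M) :=
  kz_tmul m m' n n'

private theorem iK_deg {i j : ℤ} {x : M.M ⊗[k] M'.M} {y : N.M ⊗[k] N'.M}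
    (hx : (M.dg.tensor M'.dg).IsDeg i x) (hy : (N.dg.tensor N'.dg).IsDeg j y) :
    ((tb M N).dg.tensor (tb M' N').dg).IsDeg (i + j) (iK M M' N N' x y) :=
  kz_deg (fun h h' => tb_deg h h') (fun h h' => tb_deg h h') hx hy

private theorem iK_d (x : M.M ⊗[k] M'.M) (y : N.M ⊗[k] N'.M) :
    ((tb M N).dg.tensor (tb M' N').dg).d (iK M M' N N' x y) =
      iK M M' N N' ((M.dg.tensor M'.dg).d x) y +
        iK M M' N N' ((M.dg.tensor M'.dg).s x) ((N.dg.tensor N'.dg).d y) :=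
  kz_d (fun m n => tb_d m n) (fun m n => tb_s m n) (fun m n => tb_d m n) x y

/-- `(m ⊗ m') ⊗ (n ⊗ n') ↦ (-1)^(|m'||n|) (m ⊗ n) ⊗ (m' ⊗ n')` -/
private noncomputable def iF :
    (tb (box M M') (box N N')).M →ₗ[k] (tb M N).M ⊗[k] (tb M' N').M :=
  tlift (M := box M M') (N := box N N') (iK M M' N N')
    (fun x b y => iK_bal M M' N N' x b y)

private theorem iF_tm (x : (box M M').M) (y : (box N N').M) :
    iF M M' N N' (tm x y) = iK M M' N N' x y :=
  tlift_tm (M := box M M') (N := box N N') (iK M M' N N')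
    (fun x b y => iK_bal M M' N N' x b y) x y

/-- `x, y ↦ x ⊗ y` for `x ∈ M ⊗ M'`, `y ∈ N ⊗ N'` -/
private noncomputable def iB : M.M ⊗[k] M'.M →ₗ[k] N.M ⊗[k] N'.M →ₗ[k]
    (tb (box M M') (box N N')).M :=
  tmB (box M M') (box N N')

private theorem iB_bal (x : M.M ⊗[k] M'.M) (b : B.A ⊗[k] B'.A) (y : N.M ⊗[k] N'.M) :
    iB M M' N N' (kz B.dg M'.dg M.rr M'.rr x b) y =
      iB M M' N N' x (kz N.dg B'.dg N.l N'.l b y) :=
  tm_r_l (M := box M M') (N := box N N') x b y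

/-- `m', n' ↦ (-1)^(|m'||n|) (m ⊗ m') ⊗ (n ⊗ n')` -/
private noncomputable def iG1 (m : M.M) (n : N.M) :
    M'.M →ₗ[k] N'.M →ₗ[k] (tb (box M M') (box N N')).M :=
  (iB M M' N N').compl₁₂ (TensorProduct.mk k M.M M'.M m) (TensorProduct.mk k N.M N'.M n) -
    (2 : k) • (iB M M' N N').compl₁₂ ((TensorProduct.mk k M.M M'.M m).comp M'.dg.o)
      (TensorProduct.mk k N.M N'.M (N.dg.o n))

private theorem iG1_apply (m : M.M) (n : N.M) (m' : M'.M) (n' : N'.M) :
    iG1 M M' N N' m n m' n' = iB M M' N N' (m ⊗ₜ m') (n ⊗ₜ n') -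
      (2 : k) • iB M M' N N' (m ⊗ₜ M'.dg.o m') (N.dg.o n ⊗ₜ n') := rfl

private theorem iG1_even {n : N.M} (hn : N.dg.o n = 0) (m : M.M) (m' : M'.M) (n' : N'.M) :
    iG1 M M' N N' m n m' n' = iB M M' N N' (m ⊗ₜ m') (n ⊗ₜ n') := by
  rw [iG1_apply, hn, TensorProduct.zero_tmul, map_zero, smul_zero, sub_zero]

private theorem iG1_odd {n : N.M} (hn : N.dg.o n = n) (m : M.M) (m' : M'.M) (n' : N'.M) :
    iG1 M M' N N' m n m' n' = iB M M' N N' (m ⊗ₜ M'.dg.s m') (n ⊗ₜ n') := by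
  rw [iG1_apply, hn, Dg.s_apply, TensorProduct.tmul_sub, TensorProduct.tmul_smul, map_sub,
    map_smul, LinearMap.sub_apply, LinearMap.smul_apply]

private theorem iG1_even' {m' : M'.M} (hm : M'.dg.o m' = 0) (m : M.M) (n : N.M) (n' : N'.M) :
    iG1 M M' N N' m n m' n' = iB M M' N N' (m ⊗ₜ m') (n ⊗ₜ n') := by
  rw [iG1_apply, hm, TensorProduct.tmul_zero, map_zero, LinearMap.zero_apply, smul_zero,
    sub_zero]

private theorem iG1_odd' {m' : M'.M} (hm : M'.dg.o m' = m') (m : M.M) (n : N.M) (n' : N'.M) :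
    iG1 M M' N N' m n m' n' = iB M M' N N' (m ⊗ₜ m') (N.dg.s n ⊗ₜ n') := by
  rw [iG1_apply, hm, Dg.s_apply, TensorProduct.sub_tmul, ← TensorProduct.smul_tmul', map_sub,
    map_smul]

private theorem iG1_bal (m : M.M) (n : N.M) (m' : M'.M) (b : B'.A) (n' : N'.M) :
    iG1 M M' N N' m n (M'.r b m') n' = iG1 M M' N N' m n m' (N'.l b n') := by
  refine N.dg.parity_ind (P := fun n => iG1 M M' N N' m n (M'.r b m') n' =
    iG1 M M' N N' m n m' (N'.l b n')) ?_ ?_ ?_ n
  · intro v w hv hw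
    rw [iG1_apply, iG1_apply] at hv hw
    rw [iG1_apply, iG1_apply]
    simp only [TensorProduct.add_tmul, map_add, smul_add]
    rw [add_sub_add_comm, hv, hw]
    abel
  · intro v hv
    rw [iG1_even M M' N N' hv, iG1_even M M' N N' hv]
    have h := iB_bal M M' N N' (m ⊗ₜ m') (B.one ⊗ₜ b) (v ⊗ₜ n')
    rw [kz_even' B.o_one, kz_even' hv, M.rr_apply, M.r_one, M'.rr_apply, N.l_one] at h
    exact h
  · intro v hv
    rw [iG1_odd M M' N N' hv, iG1_odd M M' N N' hv]
    have h := iB_bal M M' N N' (m ⊗ₜ M'.dg.s m') (B.one ⊗ₜ B'.dg.s b) (v ⊗ₜ n')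
    rw [kz_even' B.o_one, kz_odd' hv, M.rr_apply, M.r_one, M'.rr_apply, N.l_one,
      Dg.s_s] at h
    rw [M'.s_r]
    exact h

/-- `m' ⊗ n' ↦ (-1)^(|m'||n|) (m ⊗ m') ⊗ (n ⊗ n')` -/
private noncomputable def iG2 (m : M.M) (n : N.M) :
    (tb M' N').M →ₗ[k] (tb (box M M') (box N N')).M :=
  tlift (iG1 M M' N N' m n) (iG1_bal M M' N N' m n)

private theorem iG2_tm (m : M.M) (n : N.M) (m' : M'.M) (n' : N'.M) :
    iG2 M M' N N' m n (tm m' n') = iG1 M M' N N' m n m' n' :=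
  tlift_tm (iG1 M M' N N' m n) (iG1_bal M M' N N' m n) m' n'

/-- `m, n ↦ (m' ⊗ n' ↦ (-1)^(|m'||n|) (m ⊗ m') ⊗ (n ⊗ n'))` -/
private noncomputable def iG3 :
    M.M →ₗ[k] N.M →ₗ[k] (tb M' N').M →ₗ[k] (tb (box M M') (box N N')).M :=
  LinearMap.mk₂ k (iG2 M M' N N')
    (fun m₁ m₂ n => tb_hom_ext fun m' n' => by
      rw [LinearMap.add_apply, iG2_tm, iG2_tm, iG2_tm, iG1_apply, iG1_apply, iG1_apply,
        TensorProduct.add_tmul, TensorProduct.add_tmul, map_add, map_add, LinearMap.add_apply,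
        LinearMap.add_apply, smul_add]
      abel)
    (fun c m n => tb_hom_ext fun m' n' => by
      rw [LinearMap.smul_apply, iG2_tm, iG2_tm, iG1_apply, iG1_apply,
        ← TensorProduct.smul_tmul', ← TensorProduct.smul_tmul', map_smul, map_smul,
        LinearMap.smul_apply, LinearMap.smul_apply, smul_sub, smul_comm c])
    (fun m n₁ n₂ => tb_hom_ext fun m' n' => by
      rw [LinearMap.add_apply, iG2_tm, iG2_tm, iG2_tm, iG1_apply, iG1_apply, iG1_apply,
        map_add, TensorProduct.add_tmul, TensorProduct.add_tmul, map_add, map_add, smul_add]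
      abel)
    (fun c m n => tb_hom_ext fun m' n' => by
      rw [LinearMap.smul_apply, iG2_tm, iG2_tm, iG1_apply, iG1_apply, map_smul,
        ← TensorProduct.smul_tmul', ← TensorProduct.smul_tmul', map_smul, map_smul, smul_sub,
        smul_comm c])

private theorem iG3_apply (m : M.M) (n : N.M) (m' : M'.M) (n' : N'.M) :
    iG3 M M' N N' m n (tm m' n') = iG1 M M' N N' m n m' n' :=
  iG2_tm M M' N N' m n m' n'

private theorem iG3_bal (m : M.M) (b : B.A) (n : N.M) :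
    iG3 M M' N N' (M.r b m) n = iG3 M M' N N' m (N.l b n) := by
  refine tb_hom_ext fun m' n' => ?_
  rw [iG3_apply, iG3_apply]
  refine M'.dg.parity_ind (P := fun m' => iG1 M M' N N' (M.r b m) n m' n' =
    iG1 M M' N N' m (N.l b n) m' n') ?_ ?_ ?_ m'
  · intro v w hv hw
    rw [map_add, map_add, LinearMap.add_apply, LinearMap.add_apply, hv, hw]
  · intro v hv
    rw [iG1_even' M M' N N' hv, iG1_even' M M' N N' hv]
    have h := iB_bal M M' N N' (m ⊗ₜ v) (b ⊗ₜ B'.one) (n ⊗ₜ n')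
    rw [kz_even hv, kz_even B'.o_one, M.rr_apply, M'.rr_apply, M'.r_one, N'.l_one] at h
    exact h
  · intro v hv
    rw [iG1_odd' M M' N N' hv, iG1_odd' M M' N N' hv]
    have h := iB_bal M M' N N' (m ⊗ₜ v) (B.dg.s b ⊗ₜ B'.one) (N.dg.s n ⊗ₜ n')
    rw [kz_odd hv, kz_even B'.o_one, M.rr_apply, M'.rr_apply, M'.r_one, N'.l_one,
      Dg.s_s] at h
    rw [N.s_l]
    exact h

/-- `(m ⊗ n) ⊗ (m' ⊗ n') ↦ (-1)^(|m'||n|) (m ⊗ m') ⊗ (n ⊗ n')` -/
private noncomputable def iG :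
    (tb M N).M ⊗[k] (tb M' N').M →ₗ[k] (tb (box M M') (box N N')).M :=
  TensorProduct.lift (tlift (iG3 M M' N N') (iG3_bal M M' N N'))

private theorem iG_tmul (m : M.M) (n : N.M) (m' : M'.M) (n' : N'.M) :
    iG M M' N N' ((tm m n : (tb M N).M) ⊗ₜ (tm m' n' : (tb M' N').M)) =
      iG1 M M' N N' m n m' n' := by
  rw [iG, TensorProduct.lift.tmul, tlift_tm, iG3_apply]

private theorem iG_iK (x : M.M ⊗[k] M'.M) (y : N.M ⊗[k] N'.M) :
    iG M M' N N' (iK M M' N N' x y) = iB M M' N N' x y := by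
  induction x using TensorProduct.induction_on with
  | zero => simp only [map_zero, LinearMap.zero_apply]
  | add x x' hx hx' => simp only [map_add, LinearMap.add_apply, hx, hx']
  | tmul m m' =>
    induction y using TensorProduct.induction_on with
    | zero => simp only [map_zero]
    | add y y' hy hy' => simp only [map_add, hy, hy']
    | tmul n n' =>
      rw [iK_tmul, map_sub, map_smul, iG_tmul, iG_tmul, iG1_apply, iG1_apply, Dg.o_o, Dg.o_o,
        two_smul, two_smul]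
      abel

private theorem iG_iF (x : (tb (box M M') (box N N')).M) :
    iG M M' N N' (iF M M' N N' x) = x := by
  revert x
  refine tb_ind ?_ ?_ ?_
  · rw [map_zero, map_zero]
  · intro x y hx hy
    rw [map_add, map_add, hx, hy]
  · intro x y
    rw [iF_tm]
    exact iG_iK M M' N N' x y

private theorem iF_iB (x : M.M ⊗[k] M'.M) (y : N.M ⊗[k] N'.M) :
    iF M M' N N' (iB M M' N N' x y) = iK M M' N N' x y :=
  iF_tm M M' N N' x y

private theorem iF_iG (z : (tb M N).M ⊗[k] (tb M' N').M) :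
    iF M M' N N' (iG M M' N N' z) = z := by
  induction z using TensorProduct.induction_on with
  | zero => rw [map_zero, map_zero]
  | add x y hx hy => rw [map_add, map_add, hx, hy]
  | tmul x y =>
    revert x
    refine tb_ind ?_ ?_ ?_
    · rw [TensorProduct.zero_tmul, map_zero, map_zero]
    · intro x x' hx hx'
      rw [TensorProduct.add_tmul, map_add, map_add, hx, hx']
    · intro m n
      revert y
      refine tb_ind ?_ ?_ ?_
      · rw [TensorProduct.tmul_zero, map_zero, map_zero]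
      · intro y y' hy hy'
        rw [TensorProduct.tmul_add, map_add, map_add, hy, hy']
      · intro m' n'
        rw [iG_tmul, iG1_apply, map_sub, map_smul, iF_iB, iF_iB, iK_tmul, iK_tmul, Dg.o_o,
          Dg.o_o, two_smul, two_smul]
        abel

private theorem iF_deg {i : ℤ} {x : (tb (box M M') (box N N')).M}
    (hx : (tb (box M M') (box N N')).dg.IsDeg i x) :
    ((tb M N).dg.tensor (tb M' N').dg).IsDeg (i + 0) (iF M M' N N' x) := by
  refine tb_degMap (Z := (tb M N).dg.tensor (tb M' N').dg) (iF M M' N N') ?_ hx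
  intro i j v w hv hw
  rw [iF_tm, add_zero]
  exact iK_deg M M' N N' hv hw

private theorem iF_l (a : A.A ⊗[k] A'.A) (x : (tb (box M M') (box N N')).M) :
    iF M M' N N' ((tb (box M M') (box N N')).l a x) =
      kz (tb M N).dg A'.dg (tb M N).l (tb M' N').l a (iF M M' N N' x) := by
  revert x
  refine tb_ind ?_ ?_ ?_
  · rw [map_zero, map_zero, map_zero]
  · intro x y hx hy
    rw [map_add, map_add, map_add, hx, hy, map_add]
  · intro x y
    have h := tb_l (M := box M M') (N := box N N') a x y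
    have h1 := iF_tm M M' N N' ((box M M').l a x) y
    refine (congrArg _ h).trans (h1.trans ?_)
    rw [iF_tm]
    exact iK_l M M' N N' a x y

private theorem iF_r (c : C.A ⊗[k] C'.A) (x : (tb (box M M') (box N N')).M) :
    iF M M' N N' ((tb (box M M') (box N N')).r c x) =
      kz C.dg (tb M' N').dg (tb M N).rr (tb M' N').rr (iF M M' N N' x) c := by
  revert x
  refine tb_ind ?_ ?_ ?_
  · rw [map_zero, map_zero, map_zero, LinearMap.zero_apply]
  · intro x y hx hy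
    rw [map_add, map_add, map_add, hx, hy, map_add, LinearMap.add_apply]
  · intro x y
    have h := tb_r (M := box M M') (N := box N N') c x y
    have h1 := iF_tm M M' N N' x ((box N N').r c y)
    refine (congrArg _ h).trans (h1.trans ?_)
    rw [iF_tm]
    exact iK_r M M' N N' c x y

private theorem iF_d (x : (tb (box M M') (box N N')).M) :
    ((tb M N).dg.tensor (tb M' N').dg).d (iF M M' N N' x) =
      iF M M' N N' ((tb (box M M') (box N N')).dg.d x) := by
  revert x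
  refine tb_ind ?_ ?_ ?_
  · rw [map_zero, map_zero, map_zero, map_zero]
  · intro x y hx hy
    rw [map_add, map_add, map_add, map_add, hx, hy]
  · intro x y
    rw [tb_d, map_add, iF_tm, iF_tm, iF_tm]
    exact iK_d M M' N N' x y

end

/-- `(M ⊗ M') ⊗ (N ⊗ N') ≅ (M ⊗ N) ⊗ (M' ⊗ N')` -/
theorem tb_box_box (M : Bim A B) (M' : Bim A' B') (N : Bim B C) (N' : Bim B' C') :
    BIso (tb (box M M') (box N N')) (box (tb M N) (tb M' N')) := by
  refine BIso.of_bij ⟨iF M M' N N', fun {i x} hx => iF_deg M M' N N' hx, fun a x => ?_,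
    fun c x => iF_r M M' N N' c x⟩ ?_ ?_
  · rw [Dg.sp_zero]
    exact iF_l M M' N N' a x
  · refine LinearMap.ext fun x => ?_
    rw [GMap.dd_apply, sg_zero, one_smul, LinearMap.zero_apply, sub_eq_zero]
    exact iF_d M M' N N' x
  · exact ⟨fun x y h => by
      rw [← iG_iF M M' N N' x, ← iG_iF M M' N N' y]
      exact congrArg _ h, fun y => ⟨iG M M' N N' y, iF_iG M M' N N' y⟩⟩

end Pool.Agent.MP_6e5bed_ag_NC
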