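import Pool.Agent.Lib.MP_6e5bed_ag_NC.KComp
import Pool.Agent.Lib.MP_6e5bed_ag_NC.SmProp
import Pool.Agent.Lib.MP_6e5bed_ag_NC.BoxTb
import Pool.Agent.Lib.MP_6e5bed_ag_NC.ResIso

set_option autoImplicit false

/-!
# Tensor products and restriction in the category of noncommutative motives
-/

namespace Pool.Agent.MP_6e5bed_ag_NC

universe u

variable {k : Type u} [CommRing k] {A B C D A' B' C' D' A'' B'' C'' : DGA k}

namespace K0Q

theorem box_ext (A' B' : DGA k) {M' M M'' : Bim A B} (h' : Perf M') (h : Perf M)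
    (h'' : Perf M'') (hM : IsExt M' M M'') :
    (boxL M A' B').k0 (Perf.box h Perf.free) =
      (boxL M' A' B').k0 (Perf.box h' Perf.free) + (boxL M'' A' B').k0 (Perf.box h'' Perf.free) :=
  K0Q.hom_ext (fun N hN => by
    rw [LinearMap.add_apply, DGFun.k0_cls, DGFun.k0_cls, DGFun.k0_cls]
    exact cls_ext _ _ _ ((boxR A B N).isExt hM))

theorem box_contr (A' B' : DGA k) {M : Bim A B} (h : Perf M) (hM : Contr M) :
    (boxL M A' B').k0 (Perf.box h Perf.free) = 0 :=
  K0Q.hom_ext (fun N hN => by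
    rw [DGFun.k0_cls]
    exact cls_contr _ ((boxR A B N).contr hM))

/-- The tensor product `[M], [M'] ↦ [M ⊗ M']`. -/
noncomputable def box : K0Q A B →ₗ[ℚ] K0Q A' B' →ₗ[ℚ] K0Q (A.tensor A') (B.tensor B') :=
  K0Q.lift (fun M hM => (boxL M A' B').k0 (Perf.box hM Perf.free)) (box_ext A' B')
    (box_contr A' B')

theorem box_cls {M : Bim A B} {M' : Bim A' B'} (hM : Perf M) (hM' : Perf M') :
    box (cls M hM) (cls M' hM') = cls (MP_6e5bed_ag_NC.box M M') (Perf.box hM hM') := by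
  have h : box (A' := A') (B' := B') (cls M hM) =
      (boxL M A' B').k0 (Perf.box hM Perf.free) :=
    lift_cls _ (box_ext A' B') (box_contr A' B') M hM
  rw [h, DGFun.k0_cls]
  rfl

/-- Restriction along isomorphisms of dg algebras. -/
noncomputable def res (φ : DIso A A') (ψ : DIso B B') : K0Q A' B' →ₗ[ℚ] K0Q A B :=
  (resF φ.hom ψ.hom).k0 ((res_free φ ψ).symm.perf Perf.free)

theorem res_perf (φ : DIso A A') (ψ : DIso B B') {M : Bim A' B'} (hM : Perf M) :
    Perf (MP_6e5bed_ag_NC.res φ.hom ψ.hom M) :=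
  (resF φ.hom ψ.hom).perf ((res_free φ ψ).symm.perf Perf.free) hM

theorem res_cls (φ : DIso A A') (ψ : DIso B B') {M : Bim A' B'} (hM : Perf M) :
    res φ ψ (cls M hM) = cls (MP_6e5bed_ag_NC.res φ.hom ψ.hom M) (res_perf φ ψ hM) :=
  DGFun.k0_cls _ _ hM

/-- A bilinear identity may be checked on classes. -/
theorem ind₂ {V : Type*} [AddCommGroup V] [Module ℚ V] {β γ : K0Q A B →ₗ[ℚ] K0Q A' B' →ₗ[ℚ] V}
    (h : ∀ M hM N hN, β (cls M hM) (cls N hN) = γ (cls M hM) (cls N hN)) : β = γ :=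
  hom_ext (fun M hM => hom_ext (fun N hN => h M hM N hN))

end K0Q

end Pool.Agent.MP_6e5bed_ag_NC
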