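import Pool.Agent.Lib.MP_6e5bed_ag_NC.FTb
import Pool.Agent.Lib.MP_6e5bed_ag_NC.Res

set_option autoImplicit false

/-!
# Tensor products with diagonal and free bimodules
-/

namespace Pool.Agent.MP_6e5bed_ag_NC

open scoped TensorProduct

universe u

variable {k : Type u} [CommRing k] {A B C : DGA k}

namespace TbUnitB

theorem free_l (A B : DGA k) (a x : A.A) (b : B.A) :
    (free A B).l a (x ⊗ₜ[k] b) = A.mul a x ⊗ₜ[k] b := rfl

theorem free_r (A B : DGA k) (x : A.A) (b b' : B.A) :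
    (free A B).r b' (x ⊗ₜ[k] b) = x ⊗ₜ[k] B.mul b b' := rfl

section right

/-- `x ⊗ (b ⊗ c)` as a trilinear map. -/
noncomputable def τR (X : Bim A B) (C : DGA k) :
    X.M →ₗ[k] B.A →ₗ[k] C.A →ₗ[k] (tb X (free B C)).M :=
  (TensorProduct.lcurry (RingHom.id k) B.A C.A _).comp (tmB X (free B C))

variable (X : Bim A B) (C : DGA k)

theorem τR_apply (x : X.M) (b : B.A) (c : C.A) :
    τR X C x b c = tm (M := X) (N := free B C) x (b ⊗ₜ[k] c) := rfl

theorem τR_bal (x : X.M) (b' b : B.A) (c : C.A) :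
    τR X C (X.r b' x) b c = τR X C x (B.mul b' b) c :=
  tm_r_l (M := X) (N := free B C) x b' (b ⊗ₜ[k] c)

theorem τR_l (a : A.A) (x : X.M) (b : B.A) (c : C.A) :
    (tb X (free B C)).l a (τR X C x b c) = τR X C (X.l a x) b c :=
  tb_l (M := X) (N := free B C) a x (b ⊗ₜ[k] c)

theorem τR_r (c' : C.A) (x : X.M) (b : B.A) (c : C.A) :
    (tb X (free B C)).r c' (τR X C x b c) = τR X C x b (C.mul c c') :=
  tb_r (M := X) (N := free B C) c' x (b ⊗ₜ[k] c)

theorem τR_d (x : X.M) (b : B.A) (c : C.A) :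
    (tb X (free B C)).dg.d (τR X C x b c) = τR X C (X.dg.d x) b c +
      (τR X C (X.dg.s x) (B.dg.d b) c + τR X C (X.dg.s x) (B.dg.s b) (C.dg.d c)) := by
  refine (tb_d (M := X) (N := free B C) x (b ⊗ₜ[k] c)).trans ?_
  refine congrArg (fun z => τR X C (X.dg.d x) b c + z) ?_
  refine (congrArg (fun z => tm (M := X) (N := free B C) (X.dg.s x) z)
    (Dg.tensor_d (X := B.dg) (Y := C.dg) b c)).trans ?_
  exact tm_add_right (M := X) (N := free B C) _ _ _

theorem τR_deg {i p q : ℤ} {x : X.M} {b : B.A} {c : C.A} (hx : X.dg.IsDeg i x)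
    (hb : B.dg.IsDeg p b) (hc : C.dg.IsDeg q c) :
    (tb X (free B C)).dg.IsDeg (i + (p + q)) (τR X C x b c) :=
  tb_deg (M := X) (N := free B C) hx (Dg.tensor_deg hb hc)

/-- Two maps on `X ⊗_B (B ⊗ C)` agree if they agree on `x ⊗ (b ⊗ c)`. -/
theorem extR {U : Type*} [AddCommGroup U] [Module k U]
    {f g : (tb X (free B C)).M →ₗ[k] U}
    (h : ∀ (x : X.M) (b : B.A) (c : C.A), f (τR X C x b c) = g (τR X C x b c)) : f = g := by
  refine tb_hom_ext (fun x n => ?_)
  have h2 : (f.comp (tmB X (free B C) x)) = (g.comp (tmB X (free B C) x)) :=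
    TensorProduct.ext' (fun b c => h x b c)
  exact LinearMap.congr_fun h2 n

theorem degR {U : Type u} [AddCommGroup U] [Module k U]
    {Z : Dg k U} (f : (tb X (free B C)).M →ₗ[k] U)
    (h : ∀ {i p q : ℤ} {x : X.M} {b : B.A} {c : C.A}, X.dg.IsDeg i x → B.dg.IsDeg p b →
      C.dg.IsDeg q c → Z.IsDeg (i + (p + q)) (f (τR X C x b c)))
    {j : ℤ} {v : (tb X (free B C)).M} (hv : (tb X (free B C)).dg.IsDeg j v) :
    Z.IsDeg (j + 0) (f v) := by
  refine tb_degMap f (fun {i j x n} hx hn => ?_) hv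
  have h3 : Z.IsDeg (j + i) ((f.comp (tmB X (free B C) x)) n) := by
    refine Dg.tensor_degMap (X := B.dg) (Y := C.dg) _ (fun p q b c hb hc => ?_) hn
    have h4 := h hx hb hc
    rw [show p + q + i = i + (p + q) by ring]
    exact h4
  rw [show i + j + 0 = j + i by ring]
  exact h3

/-- The linear map on `X ⊗_B (B ⊗ C)` given by a balanced trilinear map. -/
noncomputable def liftR {U : Type*} [AddCommGroup U] [Module k U]
    (σ : X.M →ₗ[k] B.A →ₗ[k] C.A →ₗ[k] U)
    (h : ∀ x b' b c, σ (X.r b' x) b c = σ x (B.mul b' b) c) : (tb X (free B C)).M →ₗ[k] U :=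
  tlift (M := X) (N := free B C) ((TensorProduct.uncurry (RingHom.id k) B.A C.A U).comp σ)
    (fun x b' n => by
      have h1 : TensorProduct.lift (σ (X.r b' x)) =
          (TensorProduct.lift (σ x)).comp ((free B C).l b') :=
        TensorProduct.ext' (fun b c => h x b' b c)
      exact LinearMap.congr_fun h1 n)

theorem liftR_τ {U : Type*} [AddCommGroup U] [Module k U]
    (σ : X.M →ₗ[k] B.A →ₗ[k] C.A →ₗ[k] U)
    (h : ∀ x b' b c, σ (X.r b' x) b c = σ x (B.mul b' b) c) (x : X.M) (b : B.A) (c : C.A) :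
    liftR X C σ h (τR X C x b c) = σ x b c :=
  tlift_tm (M := X) (N := free B C) _ _ x (b ⊗ₜ[k] c)

end right

section right0

/-- `n ⊗ (1 ⊗ c)` as a bilinear map. -/
noncomputable def δR (N : Bim A (base k)) (C : DGA k) :
    N.M →ₗ[k] C.A →ₗ[k] (tb N (free (base k) C)).M :=
  (τR N C).flip (base k).one

variable (N : Bim A (base k)) (C : DGA k)

theorem τR_one (n : N.M) (y : k) (c : C.A) : τR N C n y c = y • δR N C n c := by
  have h : τR N C n (y • (base k).one) c = y • δR N C n c := by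
    rw [map_smul, LinearMap.smul_apply]
    rfl
  rwa [base_smul] at h

theorem δR_l (a : A.A) (n : N.M) (c : C.A) :
    (tb N (free (base k) C)).l a (δR N C n c) = δR N C (N.l a n) c := τR_l N C a n _ c

theorem δR_r (c' : C.A) (n : N.M) (c : C.A) :
    (tb N (free (base k) C)).r c' (δR N C n c) = δR N C n (C.mul c c') := τR_r N C c' n _ c

theorem δR_d (n : N.M) (c : C.A) :
    (tb N (free (base k) C)).dg.d (δR N C n c) =
      δR N C (N.dg.d n) c + δR N C (N.dg.s n) (C.dg.d c) := by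
  refine (τR_d N C n (base k).one c).trans ?_
  rw [(base k).d_one, (base k).s_one, map_zero, LinearMap.zero_apply, zero_add]
  rfl

theorem δR_deg {i q : ℤ} {n : N.M} {c : C.A} (hn : N.dg.IsDeg i n) (hc : C.dg.IsDeg q c) :
    (tb N (free (base k) C)).dg.IsDeg (i + q) (δR N C n c) := by
  have h := τR_deg N C hn (base k).one_deg hc
  rwa [zero_add] at h

/-- Two maps on `N ⊗ C` agree if they agree on `n ⊗ c`. -/
theorem extδR {U : Type*} [AddCommGroup U] [Module k U]
    {f g : (tb N (free (base k) C)).M →ₗ[k] U}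
    (h : ∀ (n : N.M) (c : C.A), f (δR N C n c) = g (δR N C n c)) : f = g := by
  refine extR N C (fun n (y : k) c => ?_)
  rw [τR_one, map_smul, map_smul, h]

/-- The linear map on `N ⊗ C` given by a bilinear map. -/
noncomputable def liftδR {U : Type*} [AddCommGroup U] [Module k U]
    (σ : N.M →ₗ[k] C.A →ₗ[k] U) : (tb N (free (base k) C)).M →ₗ[k] U :=
  liftR N C ((LinearMap.lsmul k (C.A →ₗ[k] U)).flip.comp σ) (fun n (b' : k) (b : k) c => by
    change (b • (σ (N.r b' n))) c = ((b' * b) • (σ n)) c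
    rw [base_r N b' n, map_smul, smul_smul, mul_comm])

theorem liftδR_δ {U : Type*} [AddCommGroup U] [Module k U]
    (σ : N.M →ₗ[k] C.A →ₗ[k] U) (n : N.M) (c : C.A) : liftδR N C σ (δR N C n c) = σ n c := by
  refine (liftR_τ N C _ _ n (base k).one c).trans ?_
  change ((1 : k) • (σ n)) c = σ n c
  rw [one_smul]

end right0

section left

/-- `(a ⊗ b) ⊗ y` as a trilinear map. -/
noncomputable def τL (A : DGA k) (Y : Bim B C) :
    A.A →ₗ[k] B.A →ₗ[k] Y.M →ₗ[k] (tb (free A B) Y).M :=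
  TensorProduct.lcurry (RingHom.id k) A.A B.A _ (tmB (free A B) Y)

variable (A : DGA k) (Y : Bim B C)

theorem τL_apply (a : A.A) (b : B.A) (y : Y.M) :
    τL A Y a b y = tm (M := free A B) (N := Y) (a ⊗ₜ[k] b) y := rfl

theorem τL_bal (a : A.A) (b b' : B.A) (y : Y.M) :
    τL A Y a (B.mul b b') y = τL A Y a b (Y.l b' y) :=
  tm_r_l (M := free A B) (N := Y) (a ⊗ₜ[k] b) b' y

theorem τL_l (a' : A.A) (a : A.A) (b : B.A) (y : Y.M) :
    (tb (free A B) Y).l a' (τL A Y a b y) = τL A Y (A.mul a' a) b y :=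
  tb_l (M := free A B) (N := Y) a' (a ⊗ₜ[k] b) y

theorem τL_r (c : C.A) (a : A.A) (b : B.A) (y : Y.M) :
    (tb (free A B) Y).r c (τL A Y a b y) = τL A Y a b (Y.r c y) :=
  tb_r (M := free A B) (N := Y) c (a ⊗ₜ[k] b) y

theorem τL_d (a : A.A) (b : B.A) (y : Y.M) :
    (tb (free A B) Y).dg.d (τL A Y a b y) = τL A Y (A.dg.d a) b y +
      τL A Y (A.dg.s a) (B.dg.d b) y + τL A Y (A.dg.s a) (B.dg.s b) (Y.dg.d y) := by
  refine (tb_d (M := free A B) (N := Y) (a ⊗ₜ[k] b) y).trans ?_
  refine congrArg₂ (· + ·) ?_ ?_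
  · refine (congrArg (fun z => tm (M := free A B) (N := Y) z y)
      (Dg.tensor_d (X := A.dg) (Y := B.dg) a b)).trans ?_
    exact tm_add_left (M := free A B) (N := Y) _ _ _
  · exact congrArg (fun z => tm (M := free A B) (N := Y) z (Y.dg.d y))
      (Dg.tensor_s (X := A.dg) (Y := B.dg) a b)

theorem τL_deg {i p q : ℤ} {a : A.A} {b : B.A} {y : Y.M} (ha : A.dg.IsDeg i a)
    (hb : B.dg.IsDeg p b) (hy : Y.dg.IsDeg q y) :
    (tb (free A B) Y).dg.IsDeg (i + p + q) (τL A Y a b y) :=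
  tb_deg (M := free A B) (N := Y) (Dg.tensor_deg ha hb) hy

/-- Two maps on `(A ⊗ B) ⊗_B Y` agree if they agree on `(a ⊗ b) ⊗ y`. -/
theorem extL {U : Type*} [AddCommGroup U] [Module k U]
    {f g : (tb (free A B) Y).M →ₗ[k] U}
    (h : ∀ (a : A.A) (b : B.A) (y : Y.M), f (τL A Y a b y) = g (τL A Y a b y)) : f = g := by
  refine tb_hom_ext (fun x n => ?_)
  have h2 : (f.comp ((tmB (free A B) Y).flip n)) = (g.comp ((tmB (free A B) Y).flip n)) :=
    TensorProduct.ext' (fun a b => h a b n)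
  exact LinearMap.congr_fun h2 x

theorem degL {U : Type u} [AddCommGroup U] [Module k U]
    {Z : Dg k U} (f : (tb (free A B) Y).M →ₗ[k] U)
    (h : ∀ {i p q : ℤ} {a : A.A} {b : B.A} {y : Y.M}, A.dg.IsDeg i a → B.dg.IsDeg p b →
      Y.dg.IsDeg q y → Z.IsDeg (i + p + q) (f (τL A Y a b y)))
    {j : ℤ} {v : (tb (free A B) Y).M} (hv : (tb (free A B) Y).dg.IsDeg j v) :
    Z.IsDeg (j + 0) (f v) := by
  refine tb_degMap f (fun {i j m y} hm hy => ?_) hv
  have h3 : Z.IsDeg (i + j) ((f.comp ((tmB (free A B) Y).flip y)) m) := by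
    refine Dg.tensor_degMap (X := A.dg) (Y := B.dg) _ (fun p q a b ha hb => ?_) hm
    exact h ha hb hy
  rw [add_zero]
  exact h3

/-- The linear map on `(A ⊗ B) ⊗_B Y` given by a balanced trilinear map. -/
noncomputable def liftL {U : Type*} [AddCommGroup U] [Module k U]
    (σ : A.A →ₗ[k] B.A →ₗ[k] Y.M →ₗ[k] U)
    (h : ∀ a b b' y, σ a (B.mul b b') y = σ a b (Y.l b' y)) : (tb (free A B) Y).M →ₗ[k] U :=
  tlift (M := free A B) (N := Y) (TensorProduct.lift σ)
    (fun m b' y => by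
      have h1 : ((TensorProduct.lift σ).flip y).comp ((free A B).r b') =
          (TensorProduct.lift σ).flip (Y.l b' y) :=
        TensorProduct.ext' (fun a b => h a b b' y)
      exact LinearMap.congr_fun h1 m)

theorem liftL_τ {U : Type*} [AddCommGroup U] [Module k U]
    (σ : A.A →ₗ[k] B.A →ₗ[k] Y.M →ₗ[k] U)
    (h : ∀ a b b' y, σ a (B.mul b b') y = σ a b (Y.l b' y)) (a : A.A) (b : B.A) (y : Y.M) :
    liftL A Y σ h (τL A Y a b y) = σ a b y :=
  tlift_tm (M := free A B) (N := Y) _ _ (a ⊗ₜ[k] b) y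

end left

section left0

/-- `(a ⊗ 1) ⊗ n` as a bilinear map. -/
noncomputable def δL (A : DGA k) (N : Bim (base k) C) :
    A.A →ₗ[k] N.M →ₗ[k] (tb (free A (base k)) N).M :=
  (τL A N).flip (base k).one

variable (A : DGA k) (N : Bim (base k) C)

theorem τL_one (a : A.A) (x : k) (n : N.M) : τL A N a x n = x • δL A N a n := by
  have h : τL A N a (x • (base k).one) n = x • δL A N a n := by
    rw [map_smul, LinearMap.smul_apply]
    rfl
  rwa [base_smul] at h

theorem δL_l (a' : A.A) (a : A.A) (n : N.M) :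
    (tb (free A (base k)) N).l a' (δL A N a n) = δL A N (A.mul a' a) n := τL_l A N a' a _ n

theorem δL_r (c : C.A) (a : A.A) (n : N.M) :
    (tb (free A (base k)) N).r c (δL A N a n) = δL A N a (N.r c n) := τL_r A N c a _ n

theorem δL_d (a : A.A) (n : N.M) :
    (tb (free A (base k)) N).dg.d (δL A N a n) =
      δL A N (A.dg.d a) n + δL A N (A.dg.s a) (N.dg.d n) := by
  refine (τL_d A N a (base k).one n).trans ?_
  rw [(base k).d_one, (base k).s_one, map_zero, LinearMap.zero_apply, add_zero]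
  rfl

theorem δL_deg {i q : ℤ} {a : A.A} {n : N.M} (ha : A.dg.IsDeg i a) (hn : N.dg.IsDeg q n) :
    (tb (free A (base k)) N).dg.IsDeg (i + q) (δL A N a n) := by
  have h := τL_deg A N ha (base k).one_deg hn
  rwa [add_zero] at h

/-- Two maps on `A ⊗ N` agree if they agree on `a ⊗ n`. -/
theorem extδL {U : Type*} [AddCommGroup U] [Module k U]
    {f g : (tb (free A (base k)) N).M →ₗ[k] U}
    (h : ∀ (a : A.A) (n : N.M), f (δL A N a n) = g (δL A N a n)) : f = g := by
  refine extL A N (fun a (x : k) n => ?_)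
  rw [τL_one, map_smul, map_smul, h]

/-- The linear map on `A ⊗ N` given by a bilinear map. -/
noncomputable def liftδL {U : Type*} [AddCommGroup U] [Module k U]
    (σ : A.A →ₗ[k] N.M →ₗ[k] U) : (tb (free A (base k)) N).M →ₗ[k] U :=
  liftL A N ((LinearMap.lsmul k (N.M →ₗ[k] U)).flip.comp σ) (fun a (b : k) (b' : k) n => by
    change ((b * b') • (σ a)) n = (b • (σ a)) (N.l b' n)
    rw [base_l N b' n, map_smul, LinearMap.smul_apply, LinearMap.smul_apply, smul_smul,
      mul_comm])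

theorem liftδL_δ {U : Type*} [AddCommGroup U] [Module k U]
    (σ : A.A →ₗ[k] N.M →ₗ[k] U) (a : A.A) (n : N.M) : liftδL A N σ (δL A N a n) = σ a n := by
  refine (liftL_τ A N _ _ a (base k).one n).trans ?_
  change ((1 : k) • (σ a)) n = σ a n
  rw [one_smul]

end left0

section freeRight

variable (X : Bim A B) (C : DGA k)

/-- `x ⊗ (1 ⊗ c)` in `X ⊗ C`. -/
noncomputable def δX : X.M →ₗ[k] C.A →ₗ[k] (tb (fgR X) (free (base k) C)).M := δR (fgR X) C

theorem δX_l (a : A.A) (x : X.M) (c : C.A) :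
    (tb (fgR X) (free (base k) C)).l a (δX X C x c) = δX X C (X.l a x) c := δR_l (fgR X) C a x c

theorem δX_r (c' : C.A) (x : X.M) (c : C.A) :
    (tb (fgR X) (free (base k) C)).r c' (δX X C x c) = δX X C x (C.mul c c') :=
  δR_r (fgR X) C c' x c

theorem δX_d (x : X.M) (c : C.A) :
    (tb (fgR X) (free (base k) C)).dg.d (δX X C x c) =
      δX X C (X.dg.d x) c + δX X C (X.dg.s x) (C.dg.d c) := δR_d (fgR X) C x c

theorem δX_deg {i q : ℤ} {x : X.M} {c : C.A} (hx : X.dg.IsDeg i x) (hc : C.dg.IsDeg q c) :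
    (tb (fgR X) (free (base k) C)).dg.IsDeg (i + q) (δX X C x c) :=
  δR_deg (fgR X) C (i := i) (q := q) (n := x) hx hc

/-- The map `x ⊗ (b ⊗ c) ↦ xb ⊗ (1 ⊗ c)`. -/
noncomputable def fR : (tb X (free B C)).M →ₗ[k] (tb (fgR X) (free (base k) C)).M :=
  liftR X C (X.r.flip.compr₂ (δX X C)) (fun x b' b c => by
    change δX X C (X.r b (X.r b' x)) c = δX X C (X.r (B.mul b' b) x) c
    rw [X.r_mul])

theorem fR_τ (x : X.M) (b : B.A) (c : C.A) : fR X C (τR X C x b c) = δX X C (X.r b x) c :=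
  liftR_τ X C _ _ x b c

/-- The map `x ⊗ (y ⊗ c) ↦ yx ⊗ (1 ⊗ c)`. -/
noncomputable def gR : (tb (fgR X) (free (base k) C)).M →ₗ[k] (tb X (free B C)).M :=
  liftδR (fgR X) C ((τR X C).flip B.one)

theorem gR_δ (x : X.M) (c : C.A) : gR X C (δX X C x c) = τR X C x B.one c :=
  liftδR_δ (fgR X) C _ x c

theorem gR_fR (v : (tb X (free B C)).M) : gR X C (fR X C v) = v := by
  have h : (gR X C).comp (fR X C) = LinearMap.id := by
    refine extR X C (fun x b c => ?_)
    rw [LinearMap.comp_apply, fR_τ, LinearMap.id_apply, gR_δ, τR_bal, B.mul_one]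
  exact LinearMap.congr_fun h v

theorem fR_gR (v : (tb (fgR X) (free (base k) C)).M) : fR X C (gR X C v) = v := by
  have h : (fR X C).comp (gR X C) = LinearMap.id := by
    refine extδR (fgR X) C (fun (x : X.M) c => ?_)
    change fR X C (gR X C (δX X C x c)) = δX X C x c
    rw [gR_δ, fR_τ, X.r_one]
  exact LinearMap.congr_fun h v

/-- The isomorphism `X ⊗_B (B ⊗ C) → X ⊗ C`. -/
noncomputable def φR : GMap 0 (tb X (free B C)) (tb (fgR X) (free (base k) C)) where
  f := fR X C
  deg := fun {i m} hm => degR X C (fR X C) (fun {i p q x b c} hx hb hc => by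
    rw [fR_τ, ← add_assoc]
    exact δX_deg X C (X.r_deg hx hb) hc) hm
  map_l := fun a m => by
    rw [Dg.sp_zero]
    have h : (fR X C).comp ((tb X (free B C)).l a) =
        ((tb (fgR X) (free (base k) C)).l a).comp (fR X C) := by
      refine extR X C (fun x b c => ?_)
      rw [LinearMap.comp_apply, LinearMap.comp_apply, τR_l, fR_τ, fR_τ, δX_l, X.l_r]
    exact LinearMap.congr_fun h m
  map_r := fun c' m => by
    have h : (fR X C).comp ((tb X (free B C)).r c') =
        ((tb (fgR X) (free (base k) C)).r c').comp (fR X C) := by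
      refine extR X C (fun x b c => ?_)
      rw [LinearMap.comp_apply, LinearMap.comp_apply, τR_r, fR_τ, fR_τ, δX_r]
    exact LinearMap.congr_fun h m

theorem φR_d : (φR X C).dd = 0 := by
  refine LinearMap.ext (fun m => ?_)
  rw [GMap.dd_apply, sg_zero, one_smul, LinearMap.zero_apply, sub_eq_zero]
  have h : (tb (fgR X) (free (base k) C)).dg.d.comp (fR X C) =
      (fR X C).comp (tb X (free B C)).dg.d := by
    refine extR X C (fun x b c => ?_)
    rw [LinearMap.comp_apply, LinearMap.comp_apply, τR_d, fR_τ, δX_d, X.d_r, X.s_r]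
    simp only [map_add, LinearMap.add_apply, fR_τ]
    abel
  exact LinearMap.congr_fun h m

end freeRight

section freeLeft

variable (A : DGA k) (Y : Bim B C)

/-- `(a ⊗ 1) ⊗ y` in `A ⊗ Y`. -/
noncomputable def δY : A.A →ₗ[k] Y.M →ₗ[k] (tb (free A (base k)) (fgL Y)).M := δL A (fgL Y)

theorem δY_l (a' : A.A) (a : A.A) (y : Y.M) :
    (tb (free A (base k)) (fgL Y)).l a' (δY A Y a y) = δY A Y (A.mul a' a) y :=
  δL_l A (fgL Y) a' a y

theorem δY_r (c : C.A) (a : A.A) (y : Y.M) :
    (tb (free A (base k)) (fgL Y)).r c (δY A Y a y) = δY A Y a (Y.r c y) :=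
  δL_r A (fgL Y) c a y

theorem δY_d (a : A.A) (y : Y.M) :
    (tb (free A (base k)) (fgL Y)).dg.d (δY A Y a y) =
      δY A Y (A.dg.d a) y + δY A Y (A.dg.s a) (Y.dg.d y) := δL_d A (fgL Y) a y

theorem δY_deg {i q : ℤ} {a : A.A} {y : Y.M} (ha : A.dg.IsDeg i a) (hy : Y.dg.IsDeg q y) :
    (tb (free A (base k)) (fgL Y)).dg.IsDeg (i + q) (δY A Y a y) :=
  δL_deg A (fgL Y) (i := i) (q := q) (n := y) ha hy

/-- The map `(a ⊗ b) ⊗ y ↦ (a ⊗ 1) ⊗ by`. -/
noncomputable def fL : (tb (free A B) Y).M →ₗ[k] (tb (free A (base k)) (fgL Y)).M :=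
  liftL A Y (((LinearMap.llcomp k Y.M Y.M _).compl₂ Y.l).comp (δY A Y)) (fun a b b' y => by
    change δY A Y a (Y.l (B.mul b b') y) = δY A Y a (Y.l b (Y.l b' y))
    rw [Y.l_mul])

theorem fL_τ (a : A.A) (b : B.A) (y : Y.M) : fL A Y (τL A Y a b y) = δY A Y a (Y.l b y) :=
  liftL_τ A Y _ _ a b y

/-- The map `(a ⊗ x) ⊗ y ↦ x(a ⊗ 1) ⊗ y`. -/
noncomputable def gL : (tb (free A (base k)) (fgL Y)).M →ₗ[k] (tb (free A B) Y).M :=
  liftδL A (fgL Y) ((τL A Y).flip B.one)

theorem gL_δ (a : A.A) (y : Y.M) : gL A Y (δY A Y a y) = τL A Y a B.one y :=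
  liftδL_δ A (fgL Y) _ a y

theorem gL_fL (v : (tb (free A B) Y).M) : gL A Y (fL A Y v) = v := by
  have h : (gL A Y).comp (fL A Y) = LinearMap.id := by
    refine extL A Y (fun a b y => ?_)
    rw [LinearMap.comp_apply, fL_τ, LinearMap.id_apply, gL_δ, ← τL_bal, B.one_mul]
  exact LinearMap.congr_fun h v

theorem fL_gL (v : (tb (free A (base k)) (fgL Y)).M) : fL A Y (gL A Y v) = v := by
  have h : (fL A Y).comp (gL A Y) = LinearMap.id := by
    refine extδL A (fgL Y) (fun a (y : Y.M) => ?_)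
    change fL A Y (gL A Y (δY A Y a y)) = δY A Y a y
    rw [gL_δ, fL_τ, Y.l_one]
  exact LinearMap.congr_fun h v

/-- The isomorphism `(A ⊗ B) ⊗_B Y → A ⊗ Y`. -/
noncomputable def φL : GMap 0 (tb (free A B) Y) (tb (free A (base k)) (fgL Y)) where
  f := fL A Y
  deg := fun {i m} hm => degL A Y (fL A Y) (fun {i p q a b y} ha hb hy => by
    rw [fL_τ, add_assoc]
    exact δY_deg A Y ha (Y.l_deg hb hy)) hm
  map_l := fun a' m => by
    rw [Dg.sp_zero]
    have h : (fL A Y).comp ((tb (free A B) Y).l a') =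
        ((tb (free A (base k)) (fgL Y)).l a').comp (fL A Y) := by
      refine extL A Y (fun a b y => ?_)
      rw [LinearMap.comp_apply, LinearMap.comp_apply, τL_l, fL_τ, fL_τ, δY_l]
    exact LinearMap.congr_fun h m
  map_r := fun c m => by
    have h : (fL A Y).comp ((tb (free A B) Y).r c) =
        ((tb (free A (base k)) (fgL Y)).r c).comp (fL A Y) := by
      refine extL A Y (fun a b y => ?_)
      rw [LinearMap.comp_apply, LinearMap.comp_apply, τL_r, fL_τ, fL_τ, δY_r, Y.l_r]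
    exact LinearMap.congr_fun h m

theorem φL_d : (φL A Y).dd = 0 := by
  refine LinearMap.ext (fun m => ?_)
  rw [GMap.dd_apply, sg_zero, one_smul, LinearMap.zero_apply, sub_eq_zero]
  have h : (tb (free A (base k)) (fgL Y)).dg.d.comp (fL A Y) =
      (fL A Y).comp (tb (free A B) Y).dg.d := by
    refine extL A Y (fun a b y => ?_)
    rw [LinearMap.comp_apply, LinearMap.comp_apply, τL_d, fL_τ, δY_d, Y.d_l]
    simp only [map_add, fL_τ]
    abel
  exact LinearMap.congr_fun h m

end freeLeft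

section forget

/-- `b ⊗ (1 ⊗ c)` in the tensor product of the complex `B` with `C`. -/
noncomputable def εR (B C : DGA k) :
    B.A →ₗ[k] C.A →ₗ[k] (tb (und (diag B)) (free (base k) C)).M := δR (und (diag B)) C

theorem εR_d (B C : DGA k) (b : B.A) (c : C.A) :
    (tb (und (diag B)) (free (base k) C)).dg.d (εR B C b c) =
      εR B C (B.dg.d b) c + εR B C (B.dg.s b) (C.dg.d c) := δR_d (und (diag B)) C b c

theorem εR_r (B C : DGA k) (c' : C.A) (b : B.A) (c : C.A) :
    (tb (und (diag B)) (free (base k) C)).r c' (εR B C b c) = εR B C b (C.mul c c') :=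
  δR_r (und (diag B)) C c' b c

/-- The map `b ⊗ c ↦ b ⊗ (1 ⊗ c)`. -/
noncomputable def fF (B C : DGA k) :
    B.A ⊗[k] C.A →ₗ[k] (tb (und (diag B)) (free (base k) C)).M := TensorProduct.lift (εR B C)

theorem fF_tmul (B C : DGA k) (b : B.A) (c : C.A) : fF B C (b ⊗ₜ[k] c) = εR B C b c := rfl

/-- The map `b ⊗ (y ⊗ c) ↦ yb ⊗ c`. -/
noncomputable def gF (B C : DGA k) :
    (tb (und (diag B)) (free (base k) C)).M →ₗ[k] B.A ⊗[k] C.A :=
  liftδR (und (diag B)) C (TensorProduct.mk k B.A C.A)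

theorem gF_ε (B C : DGA k) (b : B.A) (c : C.A) : gF B C (εR B C b c) = b ⊗ₜ[k] c :=
  liftδR_δ (und (diag B)) C (TensorProduct.mk k B.A C.A) b c

theorem gF_fF (B C : DGA k) (v : B.A ⊗[k] C.A) : gF B C (fF B C v) = v := by
  have h : (gF B C).comp (fF B C) = LinearMap.id :=
    TensorProduct.ext' (fun b c => by
      rw [LinearMap.comp_apply, fF_tmul, gF_ε, LinearMap.id_apply])
  exact LinearMap.congr_fun h v

theorem fF_gF (B C : DGA k) (v : (tb (und (diag B)) (free (base k) C)).M) :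
    fF B C (gF B C v) = v := by
  have h : (fF B C).comp (gF B C) = LinearMap.id := by
    refine extδR (und (diag B)) C (fun (b : B.A) c => ?_)
    change fF B C (gF B C (εR B C b c)) = εR B C b c
    rw [gF_ε, fF_tmul]
  exact LinearMap.congr_fun h v

/-- The isomorphism `b ⊗ c ↦ b ⊗ (1 ⊗ c)`. -/
noncomputable def φF (B C : DGA k) :
    GMap 0 (fgL (free B C)) (tb (und (diag B)) (free (base k) C)) where
  f := fF B C
  deg := fun {i m} hm => by
    refine Dg.tensor_degMap (X := B.dg) (Y := C.dg) (n := 0) (fF B C)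
      (fun p q b c hb hc => ?_) hm
    rw [add_zero]
    exact δR_deg (und (diag B)) C (i := p) (n := b) hb hc
  map_l := fun (a : k) m => by
    rw [Dg.sp_zero, base_l (fgL (free B C)) a m,
      base_l (tb (und (diag B)) (free (base k) C)) a _]
    exact map_smul (fF B C) a m
  map_r := fun c' m => by
    have h : (fF B C).comp ((free B C).r c') =
        ((tb (und (diag B)) (free (base k) C)).r c').comp (fF B C) := by
      refine TensorProduct.ext' (fun b c => ?_)
      change fF B C (b ⊗ₜ[k] C.mul c c') =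
        (tb (und (diag B)) (free (base k) C)).r c' (fF B C (b ⊗ₜ[k] c))
      rw [fF_tmul, fF_tmul, εR_r]
    exact LinearMap.congr_fun h m

theorem φF_d (B C : DGA k) : (φF B C).dd = 0 := by
  refine LinearMap.ext (fun m => ?_)
  rw [GMap.dd_apply, sg_zero, one_smul, LinearMap.zero_apply, sub_eq_zero]
  have h : (tb (und (diag B)) (free (base k) C)).dg.d.comp (fF B C) =
      (fF B C).comp (B.dg.tensor C.dg).d := by
    refine TensorProduct.ext' (fun b c => ?_)
    rw [LinearMap.comp_apply, LinearMap.comp_apply, fF_tmul, εR_d, Dg.tensor_d, map_add,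
      fF_tmul, fF_tmul]
  exact LinearMap.congr_fun h m

/-- `(a ⊗ 1) ⊗ b` in the tensor product of `A` with the complex `B`. -/
noncomputable def εL (A B : DGA k) :
    A.A →ₗ[k] B.A →ₗ[k] (tb (free A (base k)) (und (diag B))).M := δL A (und (diag B))

theorem εL_d (A B : DGA k) (a : A.A) (b : B.A) :
    (tb (free A (base k)) (und (diag B))).dg.d (εL A B a b) =
      εL A B (A.dg.d a) b + εL A B (A.dg.s a) (B.dg.d b) := δL_d A (und (diag B)) a b

theorem εL_l (A B : DGA k) (a' : A.A) (a : A.A) (b : B.A) :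
    (tb (free A (base k)) (und (diag B))).l a' (εL A B a b) = εL A B (A.mul a' a) b :=
  δL_l A (und (diag B)) a' a b

/-- The map `a ⊗ b ↦ (a ⊗ 1) ⊗ b`. -/
noncomputable def fH (A B : DGA k) :
    A.A ⊗[k] B.A →ₗ[k] (tb (free A (base k)) (und (diag B))).M := TensorProduct.lift (εL A B)

theorem fH_tmul (A B : DGA k) (a : A.A) (b : B.A) : fH A B (a ⊗ₜ[k] b) = εL A B a b := rfl

/-- The map `(a ⊗ x) ⊗ b ↦ xa ⊗ b`. -/
noncomputable def gH (A B : DGA k) :
    (tb (free A (base k)) (und (diag B))).M →ₗ[k] A.A ⊗[k] B.A :=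
  liftδL A (und (diag B)) (TensorProduct.mk k A.A B.A)

theorem gH_ε (A B : DGA k) (a : A.A) (b : B.A) : gH A B (εL A B a b) = a ⊗ₜ[k] b :=
  liftδL_δ A (und (diag B)) (TensorProduct.mk k A.A B.A) a b

theorem gH_fH (A B : DGA k) (v : A.A ⊗[k] B.A) : gH A B (fH A B v) = v := by
  have h : (gH A B).comp (fH A B) = LinearMap.id :=
    TensorProduct.ext' (fun a b => by
      rw [LinearMap.comp_apply, fH_tmul, gH_ε, LinearMap.id_apply])
  exact LinearMap.congr_fun h v

theorem fH_gH (A B : DGA k) (v : (tb (free A (base k)) (und (diag B))).M) :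
    fH A B (gH A B v) = v := by
  have h : (fH A B).comp (gH A B) = LinearMap.id := by
    refine extδL A (und (diag B)) (fun a (b : B.A) => ?_)
    change fH A B (gH A B (εL A B a b)) = εL A B a b
    rw [gH_ε, fH_tmul]
  exact LinearMap.congr_fun h v

/-- The isomorphism `a ⊗ b ↦ (a ⊗ 1) ⊗ b`. -/
noncomputable def φH (A B : DGA k) :
    GMap 0 (fgR (free A B)) (tb (free A (base k)) (und (diag B))) where
  f := fH A B
  deg := fun {i m} hm => by
    refine Dg.tensor_degMap (X := A.dg) (Y := B.dg) (n := 0) (fH A B)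
      (fun p q a b ha hb => ?_) hm
    rw [add_zero]
    exact δL_deg A (und (diag B)) (q := q) (n := b) ha hb
  map_l := fun a' m => by
    rw [Dg.sp_zero]
    have h : (fH A B).comp ((free A B).l a') =
        ((tb (free A (base k)) (und (diag B))).l a').comp (fH A B) := by
      refine TensorProduct.ext' (fun a b => ?_)
      change fH A B (A.mul a' a ⊗ₜ[k] b) =
        (tb (free A (base k)) (und (diag B))).l a' (fH A B (a ⊗ₜ[k] b))
      rw [fH_tmul, fH_tmul, εL_l]
    exact LinearMap.congr_fun h m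
  map_r := fun (c : k) m => by
    rw [base_r (fgR (free A B)) c m, base_r (tb (free A (base k)) (und (diag B))) c _]
    exact map_smul (fH A B) c m

theorem φH_d (A B : DGA k) : (φH A B).dd = 0 := by
  refine LinearMap.ext (fun m => ?_)
  rw [GMap.dd_apply, sg_zero, one_smul, LinearMap.zero_apply, sub_eq_zero]
  have h : (tb (free A (base k)) (und (diag B))).dg.d.comp (fH A B) =
      (fH A B).comp (A.dg.tensor B.dg).d := by
    refine TensorProduct.ext' (fun a b => ?_)
    rw [LinearMap.comp_apply, LinearMap.comp_apply, fH_tmul, εL_d, Dg.tensor_d, map_add,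
      fH_tmul, fH_tmul]
  exact LinearMap.congr_fun h m

end forget

end TbUnitB

open TbUnitB

/-- `X ⊗_B (B ⊗ C) ≅ X ⊗ C` -/
theorem tb_free_right (X : Bim A B) (C : DGA k) :
    BIso (tb X (free B C)) (tb (fgR X) (free (base k) C)) :=
  BIso.of_bij (φR X C) (φR_d X C)
    ⟨Function.LeftInverse.injective (gR_fR X C), Function.RightInverse.surjective (fR_gR X C)⟩

/-- `(A ⊗ B) ⊗_B Y ≅ A ⊗ Y` -/
theorem tb_free_left (A : DGA k) (Y : Bim B C) :
    BIso (tb (free A B) Y) (tb (free A (base k)) (fgL Y)) :=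
  BIso.of_bij (φL A Y) (φL_d A Y)
    ⟨Function.LeftInverse.injective (gL_fL A Y), Function.RightInverse.surjective (fL_gL A Y)⟩

/-- `B ⊗ C` is the tensor product of the complex `B` with `C`. -/
theorem fgL_free (B C : DGA k) :
    BIso (fgL (free B C)) (tb (und (diag B)) (free (base k) C)) :=
  BIso.of_bij (φF B C) (φF_d B C)
    ⟨Function.LeftInverse.injective (gF_fF B C), Function.RightInverse.surjective (fF_gF B C)⟩

theorem fgR_free (A B : DGA k) :
    BIso (fgR (free A B)) (tb (free A (base k)) (und (diag B))) :=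
  BIso.of_bij (φH A B) (φH_d A B)
    ⟨Function.LeftInverse.injective (gH_fH A B), Function.RightInverse.surjective (fH_gH A B)⟩

end Pool.Agent.MP_6e5bed_ag_NC
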