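import Pool.Agent.Lib.MP_6e5bed_ag_NC.FTb
import Pool.Agent.Lib.MP_6e5bed_ag_NC.Res
import Pool.Agent.Lib.MP_6e5bed_ag_NC.TbUnitB

set_option autoImplicit false

/-!
# Tensor products with diagonal and free bimodules
-/

namespace Pool.Agent.MP_6e5bed_ag_NC

open scoped TensorProduct

universe u

variable {k : Type u} [CommRing k] {A B C : DGA k}

namespace TbUnitA

section diagLeft

variable (M : Bim A B)

theorem balL (x : A.A) (a : A.A) (m : M.M) : M.l ((diag A).r a x) m = M.l x (M.l a m) :=
  M.l_mul x a m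

/-- The map `a ⊗ m ↦ am`. -/
noncomputable def fL : (tb (diag A) M).M →ₗ[k] M.M :=
  tlift (M := diag A) (N := M) M.l (balL M)

theorem fL_tm (a : A.A) (m : M.M) : fL M (tm (M := diag A) (N := M) a m) = M.l a m :=
  tlift_tm (M := diag A) (N := M) M.l (balL M) a m

/-- The map `m ↦ 1 ⊗ m`. -/
noncomputable def gL : M.M →ₗ[k] (tb (diag A) M).M := tmB (diag A) M A.one

theorem gL_apply (m : M.M) : gL M m = tm (M := diag A) (N := M) A.one m := rfl

theorem gL_fL (v : (tb (diag A) M).M) : gL M (fL M v) = v := by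
  have h : (gL M).comp (fL M) = LinearMap.id := by
    refine tb_hom_ext (M := diag A) (N := M) (fun a m => ?_)
    rw [LinearMap.comp_apply, fL_tm, LinearMap.id_apply, gL_apply]
    refine (tm_r_l (M := diag A) (N := M) A.one a m).symm.trans ?_
    exact congrArg (fun z => tm (M := diag A) (N := M) z m) (A.one_mul a)
  exact LinearMap.congr_fun h v

theorem fL_gL (m : M.M) : fL M (gL M m) = m := by
  rw [gL_apply, fL_tm, M.l_one]

/-- The isomorphism `A ⊗_A M → M`. -/
noncomputable def φL : GMap 0 (tb (diag A) M) M where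
  f := fL M
  deg := fun {i v} hv => by
    refine tb_degMap (M := diag A) (N := M) (fL M) (fun {p q a m} ha hm => ?_) hv
    rw [fL_tm, add_zero]
    exact M.l_deg ha hm
  map_l := fun a' v => by
    rw [Dg.sp_zero]
    have h : (fL M).comp ((tb (diag A) M).l a') = (M.l a').comp (fL M) := by
      refine tb_hom_ext (M := diag A) (N := M) (fun a m => ?_)
      rw [LinearMap.comp_apply, LinearMap.comp_apply, tb_l, fL_tm]
      refine (fL_tm M (A.mul a' a) m).trans ?_
      exact M.l_mul a' a m
    exact LinearMap.congr_fun h v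
  map_r := fun b v => by
    have h : (fL M).comp ((tb (diag A) M).r b) = (M.r b).comp (fL M) := by
      refine tb_hom_ext (M := diag A) (N := M) (fun a m => ?_)
      rw [LinearMap.comp_apply, LinearMap.comp_apply, tb_r, fL_tm, fL_tm, M.l_r]
    exact LinearMap.congr_fun h v

theorem φL_d : (φL M).dd = 0 := by
  refine LinearMap.ext (fun v => ?_)
  rw [GMap.dd_apply, sg_zero, one_smul, LinearMap.zero_apply, sub_eq_zero]
  have h : M.dg.d.comp (fL M) = (fL M).comp (tb (diag A) M).dg.d := by
    refine tb_hom_ext (M := diag A) (N := M) (fun a m => ?_)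
    rw [LinearMap.comp_apply, LinearMap.comp_apply, tb_d, map_add, fL_tm, M.d_l]
    exact (congrArg₂ (· + ·) (fL_tm M (A.dg.d a) m) (fL_tm M (A.dg.s a) (M.dg.d m))).symm
  exact LinearMap.congr_fun h v

end diagLeft

section diagRight

variable (M : Bim A B)

theorem balR (m : M.M) (b : B.A) (y : B.A) :
    M.r.flip (M.r b m) y = M.r.flip m ((diag B).l b y) :=
  (M.r_mul b y m).symm

/-- The map `m ⊗ b ↦ mb`. -/
noncomputable def fR : (tb M (diag B)).M →ₗ[k] M.M :=
  tlift (M := M) (N := diag B) M.r.flip (balR M)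

theorem fR_tm (m : M.M) (b : B.A) : fR M (tm (M := M) (N := diag B) m b) = M.r b m :=
  tlift_tm (M := M) (N := diag B) M.r.flip (balR M) m b

/-- The map `m ↦ m ⊗ 1`. -/
noncomputable def gR : M.M →ₗ[k] (tb M (diag B)).M := (tmB M (diag B)).flip B.one

theorem gR_apply (m : M.M) : gR M m = tm (M := M) (N := diag B) m B.one := rfl

theorem gR_fR (v : (tb M (diag B)).M) : gR M (fR M v) = v := by
  have h : (gR M).comp (fR M) = LinearMap.id := by
    refine tb_hom_ext (M := M) (N := diag B) (fun m b => ?_)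
    rw [LinearMap.comp_apply, fR_tm, LinearMap.id_apply, gR_apply]
    refine (tm_r_l (M := M) (N := diag B) m b B.one).trans ?_
    exact congrArg (fun z => tm (M := M) (N := diag B) m z) (B.mul_one b)
  exact LinearMap.congr_fun h v

theorem fR_gR (m : M.M) : fR M (gR M m) = m := by
  rw [gR_apply, fR_tm, M.r_one]

/-- The isomorphism `M ⊗_B B → M`. -/
noncomputable def φR : GMap 0 (tb M (diag B)) M where
  f := fR M
  deg := fun {i v} hv => by
    refine tb_degMap (M := M) (N := diag B) (fR M) (fun {p q m b} hm hb => ?_) hv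
    rw [fR_tm, add_zero]
    exact M.r_deg hm hb
  map_l := fun a v => by
    rw [Dg.sp_zero]
    have h : (fR M).comp ((tb M (diag B)).l a) = (M.l a).comp (fR M) := by
      refine tb_hom_ext (M := M) (N := diag B) (fun m b => ?_)
      rw [LinearMap.comp_apply, LinearMap.comp_apply, tb_l, fR_tm, fR_tm, M.l_r]
    exact LinearMap.congr_fun h v
  map_r := fun b' v => by
    have h : (fR M).comp ((tb M (diag B)).r b') = (M.r b').comp (fR M) := by
      refine tb_hom_ext (M := M) (N := diag B) (fun m b => ?_)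
      rw [LinearMap.comp_apply, LinearMap.comp_apply, tb_r, fR_tm]
      refine (fR_tm M m (B.mul b b')).trans ?_
      exact M.r_mul b b' m
    exact LinearMap.congr_fun h v

theorem φR_d : (φR M).dd = 0 := by
  refine LinearMap.ext (fun v => ?_)
  rw [GMap.dd_apply, sg_zero, one_smul, LinearMap.zero_apply, sub_eq_zero]
  have h : M.dg.d.comp (fR M) = (fR M).comp (tb M (diag B)).dg.d := by
    refine tb_hom_ext (M := M) (N := diag B) (fun m b => ?_)
    rw [LinearMap.comp_apply, LinearMap.comp_apply, tb_d, map_add, fR_tm, M.d_r]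
    exact (congrArg₂ (· + ·) (fR_tm M (M.dg.d m) b) (fR_tm M (M.dg.s m) (B.dg.d b))).symm
  exact LinearMap.congr_fun h v

end diagRight

section freeFree

variable (A C : DGA k)

/-- `a ⊗ 1` -/
noncomputable def ι : A.A →ₗ[k] (free A (base k)).M := (TensorProduct.mk k A.A k).flip (1 : k)

theorem ι_smul (a : A.A) (y : k) : (a ⊗ₜ[k] y : A.A ⊗[k] k) = y • ι A a := by
  change (a ⊗ₜ[k] y : A.A ⊗[k] k) = y • (a ⊗ₜ[k] (1 : k))
  rw [← TensorProduct.tmul_smul, smul_eq_mul, mul_one]

/-- `(a ⊗ 1) ⊗ (1 ⊗ c)` as a bilinear map. -/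
noncomputable def D : A.A →ₗ[k] C.A →ₗ[k] (tb (free A (base k)) (free (base k) C)).M :=
  (TbUnitB.δR (free A (base k)) C).comp (ι A)

theorem D_l (a' : A.A) (a : A.A) (c : C.A) :
    (tb (free A (base k)) (free (base k) C)).l a' (D A C a c) = D A C (A.mul a' a) c :=
  TbUnitB.δR_l (free A (base k)) C a' (ι A a) c

theorem D_r (c' : C.A) (a : A.A) (c : C.A) :
    (tb (free A (base k)) (free (base k) C)).r c' (D A C a c) = D A C a (C.mul c c') :=
  TbUnitB.δR_r (free A (base k)) C c' (ι A a) c

theorem ι_d (a : A.A) : (free A (base k)).dg.d (ι A a) = ι A (A.dg.d a) := by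
  refine (Dg.tensor_d (X := A.dg) (Y := (base k).dg) a (base k).one).trans ?_
  rw [(base k).d_one, TensorProduct.tmul_zero, add_zero]
  rfl

theorem ι_s (a : A.A) : (free A (base k)).dg.s (ι A a) = ι A (A.dg.s a) := by
  refine (Dg.tensor_s (X := A.dg) (Y := (base k).dg) a (base k).one).trans ?_
  rw [(base k).s_one]
  rfl

theorem ι_deg {i : ℤ} {a : A.A} (ha : A.dg.IsDeg i a) : (free A (base k)).dg.IsDeg i (ι A a) := by
  have h : (A.dg.tensor (base k).dg).IsDeg (i + 0) (a ⊗ₜ[k] (base k).one) :=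
    Dg.tensor_deg ha (base k).one_deg
  rw [add_zero] at h
  exact h

theorem D_d (a : A.A) (c : C.A) :
    (tb (free A (base k)) (free (base k) C)).dg.d (D A C a c) =
      D A C (A.dg.d a) c + D A C (A.dg.s a) (C.dg.d c) := by
  refine (TbUnitB.δR_d (free A (base k)) C (ι A a) c).trans ?_
  rw [ι_d, ι_s]
  rfl

theorem D_deg {i q : ℤ} {a : A.A} {c : C.A} (ha : A.dg.IsDeg i a) (hc : C.dg.IsDeg q c) :
    (tb (free A (base k)) (free (base k) C)).dg.IsDeg (i + q) (D A C a c) :=
  TbUnitB.δR_deg (free A (base k)) C (ι_deg A ha) hc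

theorem extD {U : Type*} [AddCommGroup U] [Module k U]
    {f g : (tb (free A (base k)) (free (base k) C)).M →ₗ[k] U}
    (h : ∀ (a : A.A) (c : C.A), f (D A C a c) = g (D A C a c)) : f = g := by
  refine TbUnitB.extδR (free A (base k)) C (fun n c => ?_)
  have h2 : f.comp ((TbUnitB.δR (free A (base k)) C).flip c) =
      g.comp ((TbUnitB.δR (free A (base k)) C).flip c) := by
    refine TensorProduct.ext' (fun a (y : k) => ?_)
    have h3 := h a c
    change f (TbUnitB.δR (free A (base k)) C (a ⊗ₜ[k] y) c) =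
      g (TbUnitB.δR (free A (base k)) C (a ⊗ₜ[k] y) c)
    have h4 : TbUnitB.δR (free A (base k)) C (a ⊗ₜ[k] y) c = y • D A C a c := by
      refine (congrArg (fun z => TbUnitB.δR (free A (base k)) C z c) (ι_smul A a y)).trans ?_
      rw [map_smul, LinearMap.smul_apply]
      rfl
    rw [h4, map_smul, map_smul, h3]
  exact LinearMap.congr_fun h2 n

/-- The map `a ⊗ c ↦ (a ⊗ 1) ⊗ (1 ⊗ c)`. -/
noncomputable def fD : A.A ⊗[k] C.A →ₗ[k] (tb (free A (base k)) (free (base k) C)).M :=
  TensorProduct.lift (D A C)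

theorem fD_tmul (a : A.A) (c : C.A) : fD A C (a ⊗ₜ[k] c) = D A C a c := rfl

/-- The map `(a ⊗ x) ⊗ (y ⊗ c) ↦ xya ⊗ c`. -/
noncomputable def gD : (tb (free A (base k)) (free (base k) C)).M →ₗ[k] A.A ⊗[k] C.A :=
  TbUnitB.liftδR (free A (base k)) C
    ((TensorProduct.mk k A.A C.A).comp (TensorProduct.rid k A.A).toLinearMap)

theorem gD_D (a : A.A) (c : C.A) : gD A C (D A C a c) = a ⊗ₜ[k] c := by
  refine (TbUnitB.liftδR_δ (free A (base k)) C _ (ι A a) c).trans ?_
  change (TensorProduct.rid k A.A (a ⊗ₜ[k] (1 : k))) ⊗ₜ[k] c = a ⊗ₜ[k] c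
  rw [TensorProduct.rid_tmul, one_smul]

theorem gD_fD (v : A.A ⊗[k] C.A) : gD A C (fD A C v) = v := by
  have h : (gD A C).comp (fD A C) = LinearMap.id :=
    TensorProduct.ext' (fun a c => by
      rw [LinearMap.comp_apply, fD_tmul, gD_D, LinearMap.id_apply])
  exact LinearMap.congr_fun h v

theorem fD_gD (v : (tb (free A (base k)) (free (base k) C)).M) : fD A C (gD A C v) = v := by
  have h : (fD A C).comp (gD A C) = LinearMap.id := by
    refine extD A C (fun a c => ?_)
    rw [LinearMap.comp_apply, gD_D, fD_tmul, LinearMap.id_apply]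
  exact LinearMap.congr_fun h v

/-- The isomorphism `a ⊗ c ↦ (a ⊗ 1) ⊗ (1 ⊗ c)`. -/
noncomputable def φD : GMap 0 (free A C) (tb (free A (base k)) (free (base k) C)) where
  f := fD A C
  deg := fun {i m} hm => by
    refine Dg.tensor_degMap (X := A.dg) (Y := C.dg) (n := 0) (fD A C)
      (fun p q a c ha hc => ?_) hm
    rw [add_zero]
    exact D_deg A C ha hc
  map_l := fun a' m => by
    rw [Dg.sp_zero]
    have h : (fD A C).comp ((free A C).l a') =
        ((tb (free A (base k)) (free (base k) C)).l a').comp (fD A C) := by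
      refine TensorProduct.ext' (fun a c => ?_)
      change fD A C (A.mul a' a ⊗ₜ[k] c) =
        (tb (free A (base k)) (free (base k) C)).l a' (fD A C (a ⊗ₜ[k] c))
      rw [fD_tmul, fD_tmul, D_l]
    exact LinearMap.congr_fun h m
  map_r := fun c' m => by
    have h : (fD A C).comp ((free A C).r c') =
        ((tb (free A (base k)) (free (base k) C)).r c').comp (fD A C) := by
      refine TensorProduct.ext' (fun a c => ?_)
      change fD A C (a ⊗ₜ[k] C.mul c c') =
        (tb (free A (base k)) (free (base k) C)).r c' (fD A C (a ⊗ₜ[k] c))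
      rw [fD_tmul, fD_tmul, D_r]
    exact LinearMap.congr_fun h m

theorem φD_d : (φD A C).dd = 0 := by
  refine LinearMap.ext (fun m => ?_)
  rw [GMap.dd_apply, sg_zero, one_smul, LinearMap.zero_apply, sub_eq_zero]
  have h : (tb (free A (base k)) (free (base k) C)).dg.d.comp (fD A C) =
      (fD A C).comp (A.dg.tensor C.dg).d := by
    refine TensorProduct.ext' (fun a c => ?_)
    rw [LinearMap.comp_apply, LinearMap.comp_apply, fD_tmul, D_d, Dg.tensor_d, map_add,
      fD_tmul, fD_tmul]
  exact LinearMap.congr_fun h m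

end freeFree

end TbUnitA

open TbUnitA

/-- `A ⊗_A M ≅ M` -/
theorem tb_diag_left (M : Bim A B) : BIso (tb (diag A) M) M :=
  BIso.of_bij (φL M) (φL_d M)
    ⟨Function.LeftInverse.injective (gL_fL M), Function.RightInverse.surjective (fL_gL M)⟩

/-- `M ⊗_B B ≅ M` -/
theorem tb_diag_right (M : Bim A B) : BIso (tb M (diag B)) M :=
  BIso.of_bij (φR M) (φR_d M)
    ⟨Function.LeftInverse.injective (gR_fR M), Function.RightInverse.surjective (fR_gR M)⟩

/-- `(A ⊗ k) ⊗_k (k ⊗ C) ≅ A ⊗ C` -/
theorem tb_free_free (A C : DGA k) :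
    BIso (tb (free A (base k)) (free (base k) C)) (free A C) :=
  BIso.symm (BIso.of_bij (φD A C) (φD_d A C)
    ⟨Function.LeftInverse.injective (gD_fD A C), Function.RightInverse.surjective (fD_gD A C)⟩)

end Pool.Agent.MP_6e5bed_ag_NC
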