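import Pool.Agent.Lib.MP_6e5bed_ag_NC.KBox

set_option autoImplicit false

/-!
# Restriction along isomorphisms, on Grothendieck groups
-/

namespace Pool.Agent.MP_6e5bed_ag_NC

universe u

variable {k : Type u} [CommRing k] {A B C D A' B' C' D' A'' B'' C'' : DGA k}

namespace K0Q

theorem res_refl (f : K0Q A B) : res (DIso.refl A) (DIso.refl B) f = f := by
  have h : res (DIso.refl A) (DIso.refl B) = (LinearMap.id : K0Q A B →ₗ[ℚ] K0Q A B) :=
    hom_ext (fun M hM => by
      rw [res_cls]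
      exact cls_iso (BIso.refl M) _ _)
  rw [h, LinearMap.id_apply]

theorem res_res (φ : DIso A A') (ψ : DIso B B') (φ' : DIso A' A'') (ψ' : DIso B' B'')
    (f : K0Q A'' B'') : res φ ψ (res φ' ψ' f) = res (φ.trans φ') (ψ.trans ψ') f := by
  have h : (res φ ψ).comp (res φ' ψ') = res (φ.trans φ') (ψ.trans ψ') :=
    hom_ext (fun M hM => by
      rw [LinearMap.comp_apply, res_cls, res_cls, res_cls]
      exact cls_iso (BIso.refl (MP_6e5bed_ag_NC.res φ.hom ψ.hom
        (MP_6e5bed_ag_NC.res φ'.hom ψ'.hom M))) _ _)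
  exact LinearMap.congr_fun h f

theorem res_comp' (hB : Proper B) (φ : DIso A A') (ψ : DIso C C') (f : K0Q A' B)
    (g : K0Q B C') :
    res φ ψ (comp hB f g) = comp hB (res φ (DIso.refl B) f) (res (DIso.refl B) ψ g) := by
  have h : (comp hB).compr₂ (res φ ψ) =
      (comp hB).compl₁₂ (res φ (DIso.refl B)) (res (DIso.refl B) ψ) :=
    ind₂ (fun M hM N hN => by
      rw [LinearMap.compr₂_apply, LinearMap.compl₁₂_apply, comp_cls, res_cls, res_cls, res_cls,
        comp_cls]
      exact cls_iso (res_tb φ.hom ψ.hom M N) _ _)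
  exact LinearMap.congr_fun₂ h f g

theorem comp_res_mid (hB : Proper B) (hB' : Proper B') (φ : DIso B B') (f : K0Q A B')
    (g : K0Q B' C) :
    comp hB (res (DIso.refl A) φ f) (res φ (DIso.refl C) g) = comp hB' f g := by
  have h : (comp hB).compl₁₂ (res (DIso.refl A) φ) (res φ (DIso.refl C)) =
      comp (A := A) (C := C) hB' :=
    ind₂ (fun M hM N hN => by
      rw [LinearMap.compl₁₂_apply, res_cls, res_cls, comp_cls, comp_cls]
      exact cls_iso (tb_res_mid φ M N) _ _)
  exact LinearMap.congr_fun₂ h f g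

theorem res_one (hA : Smooth A) (hA' : Smooth A') (hP : Proper A) (φ : DIso A A') :
    res φ φ (one hA') = one hA := by
  obtain ⟨α, β, h0, h1, h2⟩ := res_diag φ
  have hq : RQIso ((GMap.res φ.hom φ.hom hA'.choose_spec.choose).comp α (add_zero 0)) :=
    RQIso.comp (RQIso.res φ.hom φ.hom hA'.choose_spec.choose_spec.2) (RQIso.of_inv h0 h1 h2)
  rw [one_eq hA hP (res_perf φ φ hA'.choose_spec.choose_spec.1) hq]
  exact res_cls φ φ hA'.choose_spec.choose_spec.1

theorem res_box' (φ : DIso A B) (ψ : DIso A' B') (φ' : DIso C D) (ψ' : DIso C' D')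
    (f : K0Q B B') (g : K0Q D D') :
    res (φ.tensor φ') (ψ.tensor ψ') (box f g) = box (res φ ψ f) (res φ' ψ' g) := by
  have h : box.compr₂ (res (φ.tensor φ') (ψ.tensor ψ')) =
      box.compl₁₂ (res φ ψ) (res φ' ψ') :=
    ind₂ (fun M hM N hN => by
      rw [LinearMap.compr₂_apply, LinearMap.compl₁₂_apply, box_cls, res_cls, res_cls, res_cls,
        box_cls]
      exact cls_iso (res_box φ.hom ψ.hom φ'.hom ψ'.hom M N) _ _)
  exact LinearMap.congr_fun₂ h f g

end K0Q

end Pool.Agent.MP_6e5bed_ag_NC
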