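import Pool.Agent.Lib.MP_6e5bed_ag_NC.CAssoc
import Pool.Agent.Lib.MP_6e5bed_ag_NC.Fun

set_option autoImplicit false

/-!
# Coherence isomorphisms for the external tensor product of bimodules
-/

namespace Pool.Agent.MP_6e5bed_ag_NC

open scoped TensorProduct

universe u

section lemmas

variable {k : Type u} [CommRing k] {V1 V2 V3 : Type u}
  [AddCommGroup V1] [Module k V1] [AddCommGroup V2] [Module k V2] [AddCommGroup V3] [Module k V3]

private theorem bassoc_deg (X : Dg k V1) (Y : Dg k V2) (Z : Dg k V3) {i : ℤ}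
    {x : (V1 ⊗[k] V2) ⊗[k] V3} (hx : ((X.tensor Y).tensor Z).IsDeg i x) :
    (X.tensor (Y.tensor Z)).IsDeg (i + 0)
      ((TensorProduct.assoc k V1 V2 V3).toLinearMap x) :=
  Dg.tensor_degMap (X := X.tensor Y) (Y := Z)
    (Z := X.tensor (Y.tensor Z)) (n := 0)
    (TensorProduct.assoc k V1 V2 V3).toLinearMap (fun i j v w hv hw => by
      rw [add_zero]
      exact Dg.tensor_degMap (X := X) (Y := Y)
        (Z := X.tensor (Y.tensor Z)) (n := j)
        ((TensorProduct.assoc k V1 V2 V3).toLinearMap.comp
          ((TensorProduct.mk k (V1 ⊗[k] V2) V3).flip w)) (fun i' j' a b ha hb => by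
          rw [add_assoc]
          exact Dg.tensor_deg ha (Dg.tensor_deg hb hw)) hv) hx

private theorem bassoc_d (X : Dg k V1) (Y : Dg k V2) (Z : Dg k V3) (x : (V1 ⊗[k] V2) ⊗[k] V3) :
    (X.tensor (Y.tensor Z)).d ((TensorProduct.assoc k V1 V2 V3).toLinearMap x) =
      (TensorProduct.assoc k V1 V2 V3).toLinearMap (((X.tensor Y).tensor Z).d x) := by
  induction x using TensorProduct.induction_on with
  | zero => simp
  | add x y hx hy => rw [map_add, map_add, map_add, map_add, hx, hy]
  | tmul v c =>
    induction v using TensorProduct.induction_on with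
    | zero => simp
    | add v v' hv hv' =>
      rw [TensorProduct.add_tmul, map_add, map_add, map_add, map_add, hv, hv']
    | tmul a b =>
      simp only [LinearEquiv.coe_coe, TensorProduct.assoc_tmul, Dg.tensor_d, Dg.tensor_s,
        TensorProduct.add_tmul, TensorProduct.tmul_add, map_add]
      abel

end lemmas

variable {k : Type u} [CommRing k] {A B C A' B' C' : DGA k}

/-- The associativity of the tensor product, as a map of bimodules. -/
private noncomputable def bassocMap (M : Bim A A') (N : Bim B B') (P : Bim C C') :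
    GMap 0 (box (box M N) P)
      (res (assocIso A B C).hom (assocIso A' B' C').hom (box M (box N P))) where
  f := (TensorProduct.assoc k M.M N.M P.M).toLinearMap
  deg := fun hx => bassoc_deg M.dg N.dg P.dg hx
  map_l := fun a x => by
    rw [Dg.sp_zero]
    exact kz_tassoc (X1 := M.dg) (X2 := N.dg) (Y2 := B.dg) (Y3 := C.dg) (α := M.l) (β := N.l)
      (γ := P.l) a x
  map_r := fun b x =>
    kz_tassoc (X1 := A'.dg) (X2 := B'.dg) (Y2 := N.dg) (Y3 := P.dg) (α := M.rr) (β := N.rr)
      (γ := P.rr) x b

/-- `M ⊗ (N ⊗ P)`, restricted, is `(M ⊗ N) ⊗ P`. -/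
theorem box_assoc (M : Bim A A') (N : Bim B B') (P : Bim C C') :
    BIso (res (assocIso A B C).hom (assocIso A' B' C').hom (box M (box N P)))
      (box (box M N) P) := by
  refine BIso.symm (BIso.of_bij (bassocMap M N P) ?_
    (TensorProduct.assoc k M.M N.M P.M).bijective)
  refine LinearMap.ext fun x => ?_
  rw [GMap.dd_apply, sg_zero, one_smul, LinearMap.zero_apply, sub_eq_zero]
  exact bassoc_d M.dg N.dg P.dg x

end Pool.Agent.MP_6e5bed_ag_NC
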