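import Pool.Agent.Lib.MP_6e5bed_ag_NC.CSwap
import Pool.Agent.Lib.MP_6e5bed_ag_NC.Fun

set_option autoImplicit false

/-!
# Coherence isomorphisms for the external tensor product of bimodules
-/

namespace Pool.Agent.MP_6e5bed_ag_NC

open scoped TensorProduct

universe u

variable {k : Type u} [CommRing k] {A B C A' B' C' : DGA k}

private theorem bswap_l (M : Bim A B) (M' : Bim A' B') (a : A.A ⊗[k] A'.A)
    (m : M'.M ⊗[k] M.M) :
    ksw M'.dg M.dg (kz M'.dg A.dg M'.l M.l (ksw A.dg A'.dg a) m) =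
      kz M.dg A'.dg M.l M'.l a (ksw M'.dg M.dg m) := by
  rw [kz_swap (X := A'.dg) (X' := M'.dg) (X'' := M'.dg) (Y := A.dg) (Y' := M.dg)
    (Y'' := M.dg) M'.o_l M.o_l, ksw_ksw]

private theorem bswap_r (M : Bim A B) (M' : Bim A' B') (b : B.A ⊗[k] B'.A)
    (m : M'.M ⊗[k] M.M) :
    ksw M'.dg M.dg (kz B'.dg M.dg M'.rr M.rr m (ksw B.dg B'.dg b)) =
      kz B.dg M'.dg M.rr M'.rr (ksw M'.dg M.dg m) b := by
  rw [kz_swap (X := M'.dg) (X' := B'.dg) (X'' := M'.dg) (Y := M.dg) (Y' := B.dg)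
    (Y'' := M.dg) M'.o_rr M.o_rr, ksw_ksw]

/-- `M' ⊗ M`, restricted, is `M ⊗ M'`. -/
theorem box_swap (M : Bim A B) (M' : Bim A' B') :
    BIso (res (swapIso A A').hom (swapIso B B').hom (box M' M)) (box M M') := by
  refine BIso.of_bij ⟨ksw M'.dg M.dg, fun {i m} h => ?_, fun a m => ?_, fun b m => ?_⟩ ?_ ?_
  · rw [add_zero]
    exact ksw_deg M'.dg M.dg h
  · rw [Dg.sp_even Even.zero]
    exact bswap_l M M' a m
  · exact bswap_r M M' b m
  · refine LinearMap.ext fun x => ?_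
    have h := ksw_d M'.dg M.dg x
    change (M.dg.tensor M'.dg).d (ksw M'.dg M.dg x) -
      (sg 0) • ksw M'.dg M.dg ((M'.dg.tensor M.dg).d x) = 0
    rw [h, sg, if_pos Even.zero, one_smul, sub_self]
  · exact Function.bijective_iff_has_inverse.2
      ⟨ksw M.dg M'.dg, fun x => ksw_ksw M'.dg M.dg x, fun x => ksw_ksw M.dg M'.dg x⟩

end Pool.Agent.MP_6e5bed_ag_NC
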