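import Pool.Agent.Lib.MP_6e5bed_ag_NC.CUnit
import Pool.Agent.Lib.MP_6e5bed_ag_NC.Fun

set_option autoImplicit false

/-!
# Coherence isomorphisms for the external tensor product of bimodules
-/

namespace Pool.Agent.MP_6e5bed_ag_NC

open scoped TensorProduct

universe u

variable {k : Type u} [CommRing k] {A B C A' B' C' : DGA k}

private noncomputable def bul (M : Bim A B) : M.M →ₗ[k] (base k).A ⊗[k] M.M :=
  (TensorProduct.lid k M.M).symm.toLinearMap

private theorem bul_apply (M : Bim A B) (m : M.M) : bul M m = (base k).one ⊗ₜ[k] m := rfl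

private noncomputable def bur (M : Bim A B) : M.M →ₗ[k] M.M ⊗[k] (base k).A :=
  (TensorProduct.rid k M.M).symm.toLinearMap

private theorem bur_apply (M : Bim A B) (m : M.M) : bur M m = m ⊗ₜ[k] (base k).one := rfl

private theorem bul_smul (M : Bim A B) (c : (base k).A) (m : M.M) :
    (base k).one ⊗ₜ[k] ((show k from c) • m) = (c ⊗ₜ[k] m : (base k).A ⊗[k] M.M) := by
  rw [← TensorProduct.smul_tmul]
  have h : (show k from c) • (base k).one = c := base_smul (k := k) (show k from c)
  rw [h]

private theorem bur_smul (M : Bim A B) (c : (base k).A) (m : M.M) :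
    ((show k from c) • m) ⊗ₜ[k] (base k).one = (m ⊗ₜ[k] c : M.M ⊗[k] (base k).A) := by
  rw [TensorProduct.smul_tmul]
  have h : (show k from c) • (base k).one = c := base_smul (k := k) (show k from c)
  rw [h]

private noncomputable def luf (A : DGA k) : (base k).A ⊗[k] A.A →ₗ[k] A.A :=
  (TensorProduct.lid k A.A).toLinearMap

private noncomputable def ruf (A : DGA k) : A.A ⊗[k] (base k).A →ₗ[k] A.A :=
  (TensorProduct.rid k A.A).toLinearMap

private theorem lu_hom (A : DGA k) (c : (base k).A) (a : A.A) :
    luf A (c ⊗ₜ[k] a) = (show k from c) • a := rfl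

private theorem ru_hom (A : DGA k) (c : (base k).A) (a : A.A) :
    ruf A (a ⊗ₜ[k] c) = (show k from c) • a := rfl

private theorem bul_l (M : Bim A B) (a : (base k).A ⊗[k] A.A) (m : M.M) :
    bul M (M.l (luf A a) m) =
      kz (base k).dg A.dg (base k).mul M.l a (bul M m) := by
  induction a using TensorProduct.induction_on with
  | zero => simp
  | add x y hx hy => simp only [map_add, LinearMap.add_apply, hx, hy]
  | tmul c a =>
    rw [lu_hom, bul_apply, bul_apply, kz_even' (base k).o_one, (base k).mul_one, map_smul,
      LinearMap.smul_apply, bul_smul]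

private theorem bul_r (M : Bim A B) (b : (base k).A ⊗[k] B.A) (m : M.M) :
    bul M (M.r (luf B b) m) =
      kz (base k).dg M.dg (base k).mul M.rr (bul M m) b := by
  induction b using TensorProduct.induction_on with
  | zero => simp
  | add x y hx hy => simp only [map_add, LinearMap.add_apply, hx, hy]
  | tmul c b =>
    have h1 : (base k).dg.o c = 0 := base_o (k := k) c
    rw [lu_hom, bul_apply, bul_apply, kz_even' h1, (base k).one_mul, map_smul,
      LinearMap.smul_apply, bul_smul, Bim.rr_apply]

private theorem bul_deg (M : Bim A B) {i : ℤ} {m : M.M} (h : M.dg.IsDeg i m) :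
    ((base k).dg.tensor M.dg).IsDeg (i + 0) (bul M m) := by
  rw [bul_apply, add_comm]
  exact Dg.tensor_deg (base k).one_deg h

private theorem bul_d (M : Bim A B) (m : M.M) :
    ((base k).dg.tensor M.dg).d (bul M m) = bul M (M.dg.d m) := by
  rw [bul_apply, bul_apply, Dg.tensor_d, (base k).d_one, (base k).s_one,
    TensorProduct.zero_tmul, zero_add]

private theorem bur_l (M : Bim A B) (a : A.A ⊗[k] (base k).A) (m : M.M) :
    bur M (M.l (ruf A a) m) =
      kz M.dg (base k).dg M.l (base k).mul a (bur M m) := by
  induction a using TensorProduct.induction_on with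
  | zero => simp
  | add x y hx hy => simp only [map_add, LinearMap.add_apply, hx, hy]
  | tmul a c =>
    have h1 : (base k).dg.o c = 0 := base_o (k := k) c
    rw [ru_hom, bur_apply, bur_apply, kz_even h1, (base k).mul_one, map_smul,
      LinearMap.smul_apply, bur_smul]

private theorem bur_r (M : Bim A B) (b : B.A ⊗[k] (base k).A) (m : M.M) :
    bur M (M.r (ruf B b) m) =
      kz B.dg (base k).dg M.rr (base k).mul (bur M m) b := by
  induction b using TensorProduct.induction_on with
  | zero => simp
  | add x y hx hy => simp only [map_add, LinearMap.add_apply, hx, hy]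
  | tmul b c =>
    rw [ru_hom, bur_apply, bur_apply, kz_even (base k).o_one, (base k).one_mul, map_smul,
      LinearMap.smul_apply, bur_smul, Bim.rr_apply]

private theorem bur_deg (M : Bim A B) {i : ℤ} {m : M.M} (h : M.dg.IsDeg i m) :
    (M.dg.tensor (base k).dg).IsDeg (i + 0) (bur M m) := by
  rw [bur_apply]
  exact Dg.tensor_deg h (base k).one_deg

private theorem bur_d (M : Bim A B) (m : M.M) :
    (M.dg.tensor (base k).dg).d (bur M m) = bur M (M.dg.d m) := by
  rw [bur_apply, bur_apply, Dg.tensor_d, (base k).d_one, TensorProduct.tmul_zero, add_zero]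

/-- `M`, restricted, is `k ⊗ M`. -/
theorem box_lunit (M : Bim A B) :
    BIso (res (lunitIso A).hom (lunitIso B).hom M) (box (diag (base k)) M) := by
  refine BIso.of_bij ⟨bul M, fun {i m} h => ?_, fun a m => ?_, fun b m => ?_⟩ ?_ ?_
  · exact bul_deg M h
  · rw [Dg.sp_even Even.zero]
    exact bul_l M a m
  · exact bul_r M b m
  · refine LinearMap.ext fun x => ?_
    have h := bul_d M x
    change ((base k).dg.tensor M.dg).d (bul M x) - (sg 0) • bul M (M.dg.d x) = 0
    rw [h, sg, if_pos Even.zero, one_smul, sub_self]
  · exact (TensorProduct.lid k M.M).symm.bijective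

/-- `M`, restricted, is `M ⊗ k`. -/
theorem box_runit (M : Bim A B) :
    BIso (res (runitIso A).hom (runitIso B).hom M) (box M (diag (base k))) := by
  refine BIso.of_bij ⟨bur M, fun {i m} h => ?_, fun a m => ?_, fun b m => ?_⟩ ?_ ?_
  · exact bur_deg M h
  · rw [Dg.sp_even Even.zero]
    exact bur_l M a m
  · exact bur_r M b m
  · refine LinearMap.ext fun x => ?_
    have h := bur_d M x
    change (M.dg.tensor (base k).dg).d (bur M x) - (sg 0) • bur M (M.dg.d x) = 0
    rw [h, sg, if_pos Even.zero, one_smul, sub_self]
  · exact (TensorProduct.rid k M.M).symm.bijective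

end Pool.Agent.MP_6e5bed_ag_NC
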