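import Pool.Agent.Lib.MP_6e5bed_ag_NC.KBox
import Pool.Agent.Lib.MP_6e5bed_ag_NC.BAssoc
import Pool.Agent.Lib.MP_6e5bed_ag_NC.BUnit
import Pool.Agent.Lib.MP_6e5bed_ag_NC.BSwap

set_option autoImplicit false

/-!
# Coherence isomorphisms on Grothendieck groups
-/

namespace Pool.Agent.MP_6e5bed_ag_NC

universe u

variable {k : Type u} [CommRing k] {A B C D A' B' C' D' A'' B'' C'' : DGA k}

namespace K0Q

theorem box_assoc' (f : K0Q A A') (g : K0Q B B') (h : K0Q C C') :
    res (assocIso A B C) (assocIso A' B' C') (box f (box g h)) = box (box f g) h := by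
  refine ind (P := fun f => res (assocIso A B C) (assocIso A' B' C') (box f (box g h)) =
    box (box f g) h) ?_ ?_ ?_ ?_ f
  · intro x y hx hy
    simp only [map_add, LinearMap.add_apply, hx, hy]
  · intro c x hx
    simp only [map_smul, LinearMap.smul_apply, hx]
  · simp only [map_zero, LinearMap.zero_apply]
  intro M hM
  refine ind (P := fun g => res (assocIso A B C) (assocIso A' B' C')
    (box (cls M hM) (box g h)) = box (box (cls M hM) g) h) ?_ ?_ ?_ ?_ g
  · intro x y hx hy
    simp only [map_add, LinearMap.add_apply, hx, hy]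
  · intro c x hx
    simp only [map_smul, LinearMap.smul_apply, hx]
  · simp only [map_zero, LinearMap.zero_apply]
  intro N hN
  refine ind (P := fun h => res (assocIso A B C) (assocIso A' B' C')
    (box (cls M hM) (box (cls N hN) h)) = box (box (cls M hM) (cls N hN)) h) ?_ ?_ ?_ ?_ h
  · intro x y hx hy
    simp only [map_add, hx, hy]
  · intro c x hx
    simp only [map_smul, hx]
  · simp only [map_zero]
  intro P hP
  rw [box_cls, box_cls, box_cls, box_cls, res_cls]
  exact cls_iso (box_assoc M N P) _ _

theorem box_lunit' (f : K0Q A B) :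
    res (lunitIso A) (lunitIso B) f = box (one smooth_base) f := by
  refine ind (P := fun f => res (lunitIso A) (lunitIso B) f = box (one smooth_base) f)
    ?_ ?_ ?_ ?_ f
  · intro x y hx hy
    rw [map_add, map_add, hx, hy]
  · intro c x hx
    rw [map_smul, map_smul, hx]
  · rw [map_zero, map_zero]
  intro M hM
  have hP : Perf (smooth_base (k := k)).choose := smooth_base.choose_spec.choose_spec.1
  have hφ : RQIso (smooth_base (k := k)).choose_spec.choose :=
    smooth_base.choose_spec.choose_spec.2
  have h1 := box_lunit M
  have h2 : Perf (MP_6e5bed_ag_NC.box (diag (base k)) M) :=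
    h1.perf (res_perf (lunitIso A) (lunitIso B) hM)
  have h3 : box (one (smooth_base (k := k))) (cls M hM) =
      cls (MP_6e5bed_ag_NC.box (smooth_base (k := k)).choose M) (Perf.box hP hM) := by
    unfold one
    rw [box_cls]
  rw [h3, res_cls, cls_qiso _ h2 _ (RQIso.boxR hφ M).qiso]
  exact cls_iso h1 _ _

theorem box_runit' (f : K0Q A B) :
    res (runitIso A) (runitIso B) f = box f (one smooth_base) := by
  refine ind (P := fun f => res (runitIso A) (runitIso B) f = box f (one smooth_base))
    ?_ ?_ ?_ ?_ f
  · intro x y hx hy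
    rw [map_add, map_add, LinearMap.add_apply, hx, hy]
  · intro c x hx
    rw [map_smul, map_smul, LinearMap.smul_apply, hx]
  · rw [map_zero, map_zero, LinearMap.zero_apply]
  intro M hM
  have hP : Perf (smooth_base (k := k)).choose := smooth_base.choose_spec.choose_spec.1
  have hφ : RQIso (smooth_base (k := k)).choose_spec.choose :=
    smooth_base.choose_spec.choose_spec.2
  have h1 := box_runit M
  have h2 : Perf (MP_6e5bed_ag_NC.box M (diag (base k))) :=
    h1.perf (res_perf (runitIso A) (runitIso B) hM)
  have h3 : box (cls M hM) (one (smooth_base (k := k))) =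
      cls (MP_6e5bed_ag_NC.box M (smooth_base (k := k)).choose) (Perf.box hM hP) := by
    unfold one
    rw [box_cls]
  rw [h3, res_cls, cls_qiso _ h2 _ (RQIso.boxL M hφ).qiso]
  exact cls_iso h1 _ _

theorem box_swap' (f : K0Q A B) (g : K0Q A' B') :
    res (swapIso A A') (swapIso B B') (box g f) = box f g := by
  refine ind (P := fun f => res (swapIso A A') (swapIso B B') (box g f) = box f g)
    ?_ ?_ ?_ ?_ f
  · intro x y hx hy
    simp only [map_add, LinearMap.add_apply, hx, hy]
  · intro c x hx
    simp only [map_smul, LinearMap.smul_apply, hx]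
  · simp only [map_zero, LinearMap.zero_apply]
  intro M hM
  refine ind (P := fun g => res (swapIso A A') (swapIso B B') (box g (cls M hM)) =
    box (cls M hM) g) ?_ ?_ ?_ ?_ g
  · intro x y hx hy
    simp only [map_add, LinearMap.add_apply, hx, hy]
  · intro c x hx
    simp only [map_smul, LinearMap.smul_apply, hx]
  · simp only [map_zero, LinearMap.zero_apply]
  intro N hN
  rw [box_cls, box_cls, res_cls]
  exact cls_iso (box_swap M N) _ _

end K0Q

end Pool.Agent.MP_6e5bed_ag_NC
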