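import Pool.Agent.Lib.MP_6e5bed_ag_NC.KBoxA
import Pool.Agent.Lib.MP_6e5bed_ag_NC.KBoxB
import Pool.Agent.Lib.MP_6e5bed_ag_NC.KBoxC

set_option autoImplicit false

/-!
# The category of smooth proper dg algebras and perfect bimodules up to `K₀ ⊗ ℚ`
-/

namespace Pool.Agent.MP_6e5bed_ag_NC

open CategoryTheory MonoidalCategory

universe u

/-- A smooth and proper dg algebra. -/
structure SP (k : Type u) [CommRing k] where
  alg : DGA k
  smooth : Smooth alg
  proper : Proper alg

variable {k : Type u} [CommRing k]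

/-- Morphisms from `A` to `B` are the elements of the Grothendieck group of perfect
`A`-`B`-bimodules tensored with `ℚ`; the composition is the tensor product of bimodules. -/
noncomputable instance : Category (SP k) where
  Hom A B := K0Q A.alg B.alg
  id A := K0Q.one A.smooth
  comp {_ B _} f g := K0Q.comp B.proper f g
  id_comp {A _} f := K0Q.one_comp A.smooth A.proper f
  comp_id {_ B} f := K0Q.comp_one B.smooth B.proper f
  assoc {_ B C _} f g h := K0Q.comp_assoc B.proper C.proper f g h

noncomputable instance (A B : SP k) : AddCommGroup (A ⟶ B) :=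
  inferInstanceAs (AddCommGroup (K0Q A.alg B.alg))

noncomputable instance (A B : SP k) : Module ℚ (A ⟶ B) :=
  inferInstanceAs (Module ℚ (K0Q A.alg B.alg))

noncomputable instance : Preadditive (SP k) where
  homGroup _ _ := inferInstance
  add_comp _ B _ f f' g := LinearMap.congr_fun (map_add (K0Q.comp B.proper) f f') g
  comp_add _ B _ f g g' := map_add (K0Q.comp B.proper f) g g'

noncomputable instance : Linear ℚ (SP k) where
  homModule _ _ := inferInstance
  smul_comp _ B _ c f g := LinearMap.congr_fun (map_smul (K0Q.comp B.proper) c f) g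
  comp_smul _ B _ f c g := map_smul (K0Q.comp B.proper f) c g

theorem SP.comp_def {A B C : SP k} (f : A ⟶ B) (g : B ⟶ C) :
    f ≫ g = K0Q.comp B.proper f g := rfl

theorem SP.id_def (A : SP k) : 𝟙 A = K0Q.one A.smooth := rfl

/-- The morphism given by an isomorphism of dg algebras. -/
noncomputable def ofIso {A B : SP k} (φ : DIso A.alg B.alg) : A ⟶ B :=
  K0Q.res φ (DIso.refl B.alg) (𝟙 B : B ⟶ B)

section ofIso

variable {A B C : SP k}

theorem DIso.trans_refl {A B : DGA k} (φ : DIso A B) : φ.trans (DIso.refl B) = φ :=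
  DIso.ext fun _ => rfl

theorem DIso.refl_trans {A B : DGA k} (φ : DIso A B) : (DIso.refl A).trans φ = φ :=
  DIso.ext fun _ => rfl

theorem DIso.symm_trans {A B : DGA k} (φ : DIso A B) : φ.symm.trans φ = DIso.refl B :=
  DIso.ext fun a => φ.inv_hom a

theorem DIso.trans_symm {A B : DGA k} (φ : DIso A B) : φ.trans φ.symm = DIso.refl A :=
  DIso.ext fun a => φ.hom_inv a

theorem ofIso_refl : ofIso (DIso.refl A.alg) = 𝟙 A := K0Q.res_refl _

theorem ofIso_comp (φ : DIso A.alg B.alg) (g : B ⟶ C) :
    ofIso φ ≫ g = K0Q.res φ (DIso.refl C.alg) g := by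
  have h := K0Q.res_comp' B.proper φ (DIso.refl C.alg) (𝟙 B : B ⟶ B) g
  rw [K0Q.res_refl] at h
  have h1 : K0Q.comp B.proper (𝟙 B : B ⟶ B) g = g := Category.id_comp g
  rw [h1] at h
  exact h.symm

theorem comp_ofIso (f : A ⟶ B) (φ : DIso B.alg C.alg) :
    f ≫ ofIso φ = K0Q.res (DIso.refl A.alg) φ.symm f := by
  have h := K0Q.comp_res_mid B.proper C.proper φ (K0Q.res (DIso.refl A.alg) φ.symm f)
    (𝟙 C : C ⟶ C)
  rw [K0Q.res_res, DIso.trans_symm, DIso.trans_refl, K0Q.res_refl] at h
  exact h.trans (Category.comp_id (X := A) (Y := C) _)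

theorem ofIso_trans (φ : DIso A.alg B.alg) (ψ : DIso B.alg C.alg) :
    ofIso φ ≫ ofIso ψ = ofIso (φ.trans ψ) := by
  rw [ofIso_comp]
  unfold ofIso
  rw [K0Q.res_res, DIso.trans_refl]

/-- The isomorphism given by an isomorphism of dg algebras. -/
noncomputable def mkIso (φ : DIso A.alg B.alg) : A ≅ B where
  hom := ofIso φ
  inv := ofIso φ.symm
  hom_inv_id := by rw [ofIso_trans, DIso.trans_symm, ofIso_refl]
  inv_hom_id := by rw [ofIso_trans, DIso.symm_trans, ofIso_refl]

end ofIso

/-- The tensor product of smooth proper dg algebras. -/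
noncomputable def SP.tensor (A B : SP k) : SP k where
  alg := A.alg.tensor B.alg
  smooth := A.smooth.tensor B.smooth
  proper := A.proper.tensor B.proper

/-- The base field. -/
noncomputable def SP.base (k : Type u) [CommRing k] : SP k where
  alg := MP_6e5bed_ag_NC.base k
  smooth := smooth_base
  proper := proper_base

/-- The tensor product of morphisms. -/
noncomputable def SP.tensorHom {A B A' B' : SP k} (f : A ⟶ B) (f' : A' ⟶ B') :
    A.tensor A' ⟶ B.tensor B' := K0Q.box f f'

theorem tensorHom_one {A B : SP k} : SP.tensorHom (𝟙 A) (𝟙 B) = 𝟙 (A.tensor B) :=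
  K0Q.box_one A.smooth B.smooth A.proper B.proper

theorem DIso.refl_tensor {A B : DGA k} :
    (DIso.refl A).tensor (DIso.refl B) = DIso.refl (A.tensor B) :=
  DIso.ext fun x => by
    change TensorProduct.map LinearMap.id LinearMap.id x = x
    rw [TensorProduct.map_id]
    rfl

theorem tensorHom_ofIso {A B A' B' : SP k} (φ : DIso A.alg B.alg) (φ' : DIso A'.alg B'.alg) :
    SP.tensorHom (ofIso φ) (ofIso φ') =
      ofIso (A := A.tensor A') (B := B.tensor B') (φ.tensor φ') := by
  have h := K0Q.res_box' φ (DIso.refl B.alg) φ' (DIso.refl B'.alg) (𝟙 B : B ⟶ B)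
    (𝟙 B' : B' ⟶ B')
  rw [DIso.refl_tensor] at h
  have h1 : K0Q.box (𝟙 B : B ⟶ B) (𝟙 B' : B' ⟶ B') = (𝟙 (B.tensor B') : _ ⟶ _) :=
    tensorHom_one
  rw [h1] at h
  exact h.symm

theorem tensorHom_comp {A B C A' B' C' : SP k} (f : A ⟶ B) (f' : A' ⟶ B') (g : B ⟶ C)
    (g' : B' ⟶ C') : SP.tensorHom f f' ≫ SP.tensorHom g g' = SP.tensorHom (f ≫ g) (f' ≫ g') :=
  K0Q.box_comp B.proper B'.proper f f' g g'

noncomputable instance : MonoidalCategoryStruct (SP k) where
  tensorObj := SP.tensor
  whiskerLeft X _ _ f := SP.tensorHom (𝟙 X) f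
  whiskerRight f Y := SP.tensorHom f (𝟙 Y)
  tensorHom := SP.tensorHom
  tensorUnit := SP.base k
  associator A B C := mkIso (A := (A.tensor B).tensor C) (B := A.tensor (B.tensor C))
    (assocIso A.alg B.alg C.alg)
  leftUnitor A := mkIso (A := (SP.base k).tensor A) (B := A) (lunitIso A.alg)
  rightUnitor A := mkIso (A := A.tensor (SP.base k)) (B := A) (runitIso A.alg)

end Pool.Agent.MP_6e5bed_ag_NC
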