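import Pool.Agent.Lib.MP_6e5bed_ag_NC.Box
import Pool.Agent.Lib.MP_6e5bed_ag_NC.Fun

set_option autoImplicit false

/-!
# The external tensor product, as a dg functor in each variable
-/

namespace Pool.Agent.MP_6e5bed_ag_NC

open scoped TensorProduct

universe u

variable {k : Type u} [CommRing k] {A B A' B' : DGA k}

section aux

variable {V W : Type u} [AddCommGroup V] [Module k V] [AddCommGroup W] [Module k W]
  {X : Dg k V} {Y : Dg k W}

private theorem FBox_sp_of_even (n : ℤ) {v : V} (hv : X.o v = 0) : X.sp n v = v := by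
  rcases Int.even_or_odd n with h | h
  · rw [Dg.sp_even h]
  · rw [Dg.sp_odd h, Dg.s_of_even hv]

private theorem FBox_sp_of_odd (n : ℤ) {v : V} (hv : X.o v = v) : X.sp n v = sg n • v := by
  rcases Int.even_or_odd n with h | h
  · rw [Dg.sp_even h, sg_even h, one_smul]
  · rw [Dg.sp_odd h, Dg.s_of_odd hv, sg_odd h, neg_smul, one_smul]

private theorem FBox_o_sp (n : ℤ) {v : V} (hv : X.o v = v) : X.o (X.sp n v) = X.sp n v := by
  rw [FBox_sp_of_odd n hv, map_zsmul, hv]

private theorem FBox_sp_tensor (n : ℤ) (v : V) (w : W) :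
    (X.tensor Y).sp n (v ⊗ₜ w) = X.sp n v ⊗ₜ Y.sp n w := by
  rcases Int.even_or_odd n with h | h
  · rw [Dg.sp_even h, Dg.sp_even h, Dg.sp_even h]
  · rw [Dg.sp_odd h, Dg.sp_odd h, Dg.sp_odd h, Dg.tensor_s]

private theorem FBox_sp_l (M : Bim A B) (n : ℤ) (a : A.A) (m : M.M) :
    M.dg.sp n (M.l a m) = M.l (A.dg.sp n a) (M.dg.sp n m) := by
  rcases Int.even_or_odd n with h | h
  · rw [Dg.sp_even h, Dg.sp_even h, Dg.sp_even h]
  · rw [Dg.sp_odd h, Dg.sp_odd h, Dg.sp_odd h, M.s_l]

private theorem FBox_sp_rr (M : Bim A B) (n : ℤ) (m : M.M) (b : B.A) :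
    M.dg.sp n (M.rr m b) = M.rr (M.dg.sp n m) (B.dg.sp n b) := by
  rcases Int.even_or_odd n with h | h
  · rw [Dg.sp_even h, Dg.sp_even h, Dg.sp_even h]
  · rw [Dg.sp_odd h, Dg.sp_odd h, Dg.sp_odd h, M.s_rr]

private theorem FBox_zsmul_tmul (c : ℤ) (v : V) (w : W) :
    (c • v) ⊗ₜ[k] w = c • (v ⊗ₜ[k] w) := (TensorProduct.smul_tmul' c v w).symm

private theorem FBox_tmul_zsmul (c : ℤ) (v : V) (w : W) :
    v ⊗ₜ[k] (c • w) = c • (v ⊗ₜ[k] w) := by
  have h := map_zsmul (TensorProduct.mk k V W v) c w
  rwa [TensorProduct.mk_apply, TensorProduct.mk_apply] at h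

end aux

private theorem FBox_map_rr {n : ℤ} {M N : Bim A B} (φ : GMap n M N) (m : M.M) (b : B.A) :
    φ.f (M.rr m b) = N.rr (φ.f m) b := φ.map_r b m

/-- `φ ⊗ 1 : M ⊗ Y → N ⊗ Y`. -/
noncomputable def GMap.boxR {n : ℤ} {M N : Bim A B} (φ : GMap n M N) (Y : Bim A' B') :
    GMap n (box M Y) (box N Y) where
  f := TensorProduct.map φ.f LinearMap.id
  deg := fun {_ _} hx => Dg.tensor_degMap (X := M.dg) (Y := Y.dg) (Z := N.dg.tensor Y.dg)
    (n := n) (TensorProduct.map φ.f LinearMap.id) (fun i j v w hv hw => by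
      rw [TensorProduct.map_tmul, LinearMap.id_apply, show i + j + n = i + n + j by ring]
      exact Dg.tensor_deg (φ.deg hv) hw) hx
  map_l := fun (x : A.A ⊗[k] A'.A) (y : M.M ⊗[k] Y.M) => by
    change TensorProduct.map φ.f LinearMap.id (kz M.dg A'.dg M.l Y.l x y) =
      kz N.dg A'.dg N.l Y.l ((A.dg.tensor A'.dg).sp n x) (TensorProduct.map φ.f LinearMap.id y)
    induction x using TensorProduct.induction_on with
    | zero => simp
    | add x x' hx hx' => simp only [map_add, LinearMap.add_apply, hx, hx']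
    | tmul a a' =>
      induction y using TensorProduct.induction_on with
      | zero => simp
      | add y y' hy hy' => simp only [map_add, hy, hy']
      | tmul m y =>
        rw [FBox_sp_tensor, TensorProduct.map_tmul, LinearMap.id_apply]
        refine A'.dg.parity_ind (P := fun a' =>
          TensorProduct.map φ.f LinearMap.id (kz M.dg A'.dg M.l Y.l (a ⊗ₜ a') (m ⊗ₜ y)) =
            kz N.dg A'.dg N.l Y.l (A.dg.sp n a ⊗ₜ A'.dg.sp n a') (φ.f m ⊗ₜ y)) ?_ ?_ ?_ a'
        · intro v w hv hw
          simp only [TensorProduct.tmul_add, map_add, LinearMap.add_apply, hv, hw]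
        · intro v hv
          rw [FBox_sp_of_even n hv, kz_even hv, kz_even hv, TensorProduct.map_tmul,
            LinearMap.id_apply, φ.map_l]
        · intro v hv
          rw [kz_odd hv, kz_odd (FBox_o_sp n hv), TensorProduct.map_tmul,
            LinearMap.id_apply, φ.map_l, φ.s_f, FBox_sp_of_odd n hv, map_zsmul, map_zsmul,
            LinearMap.smul_apply, FBox_zsmul_tmul, FBox_tmul_zsmul, smul_smul, sg_mul_self,
            one_smul]
  map_r := fun (x : B.A ⊗[k] B'.A) (y : M.M ⊗[k] Y.M) => by
    change TensorProduct.map φ.f LinearMap.id (kz B.dg Y.dg M.rr Y.rr y x) =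
      kz B.dg Y.dg N.rr Y.rr (TensorProduct.map φ.f LinearMap.id y) x
    induction x using TensorProduct.induction_on with
    | zero => simp
    | add x x' hx hx' => simp only [map_add, hx, hx']
    | tmul b b' =>
      induction y using TensorProduct.induction_on with
      | zero => simp
      | add y y' hy hy' => simp only [map_add, LinearMap.add_apply, hy, hy']
      | tmul m y =>
        rw [kz_tmul, TensorProduct.map_tmul, kz_tmul, map_sub, map_smul, TensorProduct.map_tmul,
          TensorProduct.map_tmul, FBox_map_rr, FBox_map_rr]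
        simp only [LinearMap.id_apply]

/-- The map `x ⊗ m ↦ (-1)^(n|x|) x ⊗ φ m` for a map `φ` of degree `n`. -/
noncomputable def GMap.boxL {n : ℤ} {M N : Bim A' B'} (X : Bim A B) (φ : GMap n M N) :
    GMap n (box X M) (box X N) where
  f := TensorProduct.map (X.dg.sp n) φ.f
  deg := fun {_ _} hx => Dg.tensor_degMap (X := X.dg) (Y := M.dg) (Z := X.dg.tensor N.dg)
    (n := n) (TensorProduct.map (X.dg.sp n) φ.f) (fun i j v w hv hw => by
      rw [TensorProduct.map_tmul, add_assoc]
      exact Dg.tensor_deg (Dg.IsDeg.sp hv) (φ.deg hw)) hx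
  map_l := fun (x : A.A ⊗[k] A'.A) (y : X.M ⊗[k] M.M) => by
    change TensorProduct.map (X.dg.sp n) φ.f (kz X.dg A'.dg X.l M.l x y) =
      kz X.dg A'.dg X.l N.l ((A.dg.tensor A'.dg).sp n x)
        (TensorProduct.map (X.dg.sp n) φ.f y)
    induction x using TensorProduct.induction_on with
    | zero => simp
    | add x x' hx hx' => simp only [map_add, LinearMap.add_apply, hx, hx']
    | tmul a a' =>
      induction y using TensorProduct.induction_on with
      | zero => simp
      | add y y' hy hy' => simp only [map_add, hy, hy']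
      | tmul x m =>
        rw [FBox_sp_tensor, TensorProduct.map_tmul]
        refine A'.dg.parity_ind (P := fun a' =>
          TensorProduct.map (X.dg.sp n) φ.f (kz X.dg A'.dg X.l M.l (a ⊗ₜ a') (x ⊗ₜ m)) =
            kz X.dg A'.dg X.l N.l (A.dg.sp n a ⊗ₜ A'.dg.sp n a')
              (X.dg.sp n x ⊗ₜ φ.f m)) ?_ ?_ ?_ a'
        · intro v w hv hw
          simp only [TensorProduct.tmul_add, map_add, LinearMap.add_apply, hv, hw]
        · intro v hv
          rw [kz_even hv, TensorProduct.map_tmul, FBox_sp_l, φ.map_l, FBox_sp_of_even n hv,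
            kz_even hv]
        · intro v hv
          rw [kz_odd hv, TensorProduct.map_tmul, FBox_sp_l, φ.map_l,
            kz_odd (FBox_o_sp n hv), Dg.s_sp]
  map_r := fun (x : B.A ⊗[k] B'.A) (y : X.M ⊗[k] M.M) => by
    change TensorProduct.map (X.dg.sp n) φ.f (kz B.dg M.dg X.rr M.rr y x) =
      kz B.dg N.dg X.rr N.rr (TensorProduct.map (X.dg.sp n) φ.f y) x
    induction x using TensorProduct.induction_on with
    | zero => simp
    | add x x' hx hx' => simp only [map_add, hx, hx']
    | tmul b b' =>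
      induction y using TensorProduct.induction_on with
      | zero => simp
      | add y y' hy hy' => simp only [map_add, LinearMap.add_apply, hy, hy']
      | tmul x m =>
        rw [TensorProduct.map_tmul]
        refine B.dg.parity_ind (P := fun b =>
          TensorProduct.map (X.dg.sp n) φ.f (kz B.dg M.dg X.rr M.rr (x ⊗ₜ m) (b ⊗ₜ b')) =
            kz B.dg N.dg X.rr N.rr (X.dg.sp n x ⊗ₜ φ.f m) (b ⊗ₜ b')) ?_ ?_ ?_ b
        · intro v w hv hw
          simp only [TensorProduct.add_tmul, map_add, hv, hw]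
        · intro v hv
          rw [kz_even' hv, TensorProduct.map_tmul, FBox_sp_rr, FBox_map_rr,
            FBox_sp_of_even n hv, kz_even' hv]
        · intro v hv
          rw [kz_odd' hv, TensorProduct.map_tmul, FBox_sp_rr, FBox_map_rr,
            FBox_sp_of_odd n hv, kz_odd' hv, φ.s_f, map_zsmul, map_zsmul, LinearMap.smul_apply,
            FBox_zsmul_tmul, FBox_tmul_zsmul]

theorem GMap.boxR_tmul {n : ℤ} {M N : Bim A B} (φ : GMap n M N) (Y : Bim A' B') (m : M.M)
    (y : Y.M) : (φ.boxR Y).f (m ⊗ₜ y) = φ.f m ⊗ₜ y := rfl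

theorem GMap.boxL_tmul {n : ℤ} {M N : Bim A' B'} (X : Bim A B) (φ : GMap n M N) (x : X.M)
    (m : M.M) : (φ.boxL X).f (x ⊗ₜ m) = X.dg.sp n x ⊗ₜ φ.f m := rfl

/-- The dg functor `M ↦ M ⊗ Y`. -/
noncomputable def boxR (A B : DGA k) (Y : Bim A' B') :
    DGFun A B (A.tensor A') (B.tensor B') where
  obj := fun M => box M Y
  map := fun φ => φ.boxR Y
  map_id := fun M (x : M.M ⊗[k] Y.M) => by
    change TensorProduct.map (LinearMap.id : M.M →ₗ[k] M.M) (LinearMap.id : Y.M →ₗ[k] Y.M) x = x
    rw [TensorProduct.map_id, LinearMap.id_apply]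
  map_comp := fun {n m l M N P} φ ψ h (x : M.M ⊗[k] Y.M) => by
    change TensorProduct.map (ψ.f ∘ₗ φ.f) LinearMap.id x =
      TensorProduct.map ψ.f LinearMap.id (TensorProduct.map φ.f LinearMap.id x)
    induction x using TensorProduct.induction_on with
    | zero => simp
    | add x y hx hy => simp only [map_add, hx, hy]
    | tmul v w =>
      rw [TensorProduct.map_tmul, TensorProduct.map_tmul, TensorProduct.map_tmul,
        LinearMap.comp_apply, LinearMap.id_apply, LinearMap.id_apply]
  map_add := fun {n M N} φ ψ (x : M.M ⊗[k] Y.M) => by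
    change TensorProduct.map (φ.f + ψ.f) LinearMap.id x =
      TensorProduct.map φ.f LinearMap.id x + TensorProduct.map ψ.f LinearMap.id x
    rw [TensorProduct.map_add_left, LinearMap.add_apply]
  map_D := fun {n m M N} φ h (x : M.M ⊗[k] Y.M) => by
    change TensorProduct.map φ.dd LinearMap.id x =
      (N.dg.tensor Y.dg).d (TensorProduct.map φ.f LinearMap.id x) -
        sg n • TensorProduct.map φ.f LinearMap.id ((M.dg.tensor Y.dg).d x)
    induction x using TensorProduct.induction_on with
    | zero => simp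
    | add x y hx hy =>
      simp only [map_add, hx, hy, smul_add]
      abel
    | tmul v w =>
      rw [TensorProduct.map_tmul, TensorProduct.map_tmul, Dg.tensor_d, Dg.tensor_d, map_add,
        TensorProduct.map_tmul, TensorProduct.map_tmul, GMap.dd_apply, φ.s_f]
      simp only [LinearMap.id_apply]
      rw [TensorProduct.sub_tmul, smul_add, FBox_zsmul_tmul, FBox_zsmul_tmul]
      abel

/-- The dg functor `M ↦ X ⊗ M`. -/
noncomputable def boxL (X : Bim A B) (A' B' : DGA k) :
    DGFun A' B' (A.tensor A') (B.tensor B') where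
  obj := fun M => box X M
  map := fun φ => φ.boxL X
  map_id := fun M (x : X.M ⊗[k] M.M) => by
    change TensorProduct.map (X.dg.sp 0) (LinearMap.id : M.M →ₗ[k] M.M) x = x
    induction x using TensorProduct.induction_on with
    | zero => simp
    | add x y hx hy => rw [map_add, hx, hy]
    | tmul v w => rw [TensorProduct.map_tmul, Dg.sp_zero, LinearMap.id_apply]
  map_comp := fun {n m l M N P} φ ψ h (x : X.M ⊗[k] M.M) => by
    change TensorProduct.map (X.dg.sp l) (ψ.f ∘ₗ φ.f) x =
      TensorProduct.map (X.dg.sp m) ψ.f (TensorProduct.map (X.dg.sp n) φ.f x)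
    induction x using TensorProduct.induction_on with
    | zero => simp
    | add x y hx hy => simp only [map_add, hx, hy]
    | tmul v w =>
      rw [TensorProduct.map_tmul, TensorProduct.map_tmul, TensorProduct.map_tmul,
        LinearMap.comp_apply, ← h, add_comm n m, Dg.sp_add]
  map_add := fun {n M N} φ ψ (x : X.M ⊗[k] M.M) => by
    change TensorProduct.map (X.dg.sp n) (φ.f + ψ.f) x =
      TensorProduct.map (X.dg.sp n) φ.f x + TensorProduct.map (X.dg.sp n) ψ.f x
    rw [TensorProduct.map_add_right, LinearMap.add_apply]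
  map_D := fun {n m M N} φ h (x : X.M ⊗[k] M.M) => by
    change TensorProduct.map (X.dg.sp m) φ.dd x =
      (X.dg.tensor N.dg).d (TensorProduct.map (X.dg.sp n) φ.f x) -
        sg n • TensorProduct.map (X.dg.sp n) φ.f ((X.dg.tensor M.dg).d x)
    induction x using TensorProduct.induction_on with
    | zero => simp
    | add x y hx hy =>
      simp only [map_add, hx, hy, smul_add]
      abel
    | tmul v w =>
      rw [TensorProduct.map_tmul, TensorProduct.map_tmul, Dg.tensor_d, Dg.tensor_d, map_add,
        TensorProduct.map_tmul, TensorProduct.map_tmul, GMap.dd_apply, Dg.d_sp, Dg.s_sp, ← h,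
        Dg.sp_add, Dg.sp_one, TensorProduct.tmul_sub, smul_add, FBox_zsmul_tmul,
        FBox_tmul_zsmul]
      abel

end Pool.Agent.MP_6e5bed_ag_NC
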