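import Pool.Agent.Lib.MP_6e5bed_ag_NC.Acy
import Pool.Agent.Lib.MP_6e5bed_ag_NC.Res

set_option autoImplicit false

/-!
# Acyclic complexes over a field are contractible
-/

namespace Pool.Agent.MP_6e5bed_ag_NC

universe u

variable {k : Type u} [Field k]

/-- The component of degree `n` of a linear map between graded vector spaces. -/
theorem exists_comp {V W : Type u} [AddCommGroup V] [Module k V] [AddCommGroup W] [Module k W]
    (X : Dg k V) (Y : Dg k W) (g : V →ₗ[k] W) (n : ℤ) :
    ∃ g' : V →ₗ[k] W, (∀ {i v}, X.IsDeg i v → Y.IsDeg (i + n) (g' v)) ∧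
      ∀ i v, X.IsDeg i v → g' v = Y.ρ (g v) (i + n) := by
  have key : ∀ i v, X.IsDeg i v →
      ((Finsupp.lsum k (fun i : ℤ => (Finsupp.lapply (i + n)).comp (Y.ρ.comp g))).comp X.ρ) v
        = Y.ρ (g v) (i + n) := by
    intro i v hv
    have hv' : X.ρ v = Finsupp.single i v := hv
    rw [LinearMap.comp_apply, hv', Finsupp.lsum_single, LinearMap.comp_apply,
      LinearMap.comp_apply, Finsupp.lapply_apply]
  refine ⟨_, ?_, key⟩
  intro i v hv
  rw [key i v hv]
  exact Dg.isDeg_ρ _ _

/-- A linear map `g` with `f g f = f`. -/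
private theorem fieldCx_exists_pinv {V : Type u} [AddCommGroup V] [Module k V] (f : V →ₗ[k] V) :
    ∃ g : V →ₗ[k] V, ∀ v, f (g (f v)) = f v := by
  obtain ⟨s, hs⟩ := LinearMap.exists_rightInverse_of_surjective f.rangeRestrict
    (LinearMap.range_rangeRestrict f)
  obtain ⟨g, hg⟩ := LinearMap.exists_extend s
  refine ⟨g, fun v => ?_⟩
  have h1 : g (f v) = s (f.rangeRestrict v) := LinearMap.congr_fun hg (f.rangeRestrict v)
  have h2 : f.rangeRestrict (s (f.rangeRestrict v)) = f.rangeRestrict v :=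
    LinearMap.congr_fun hs (f.rangeRestrict v)
  rw [h1]
  exact congrArg Subtype.val h2

/-- Over a field, acyclic complexes are contractible. -/
theorem contr_of_acyc {V : Bim (base k) (base k)} (h : Acyc V) : Contr V := by
  obtain ⟨g, hg⟩ := fieldCx_exists_pinv V.dg.d
  obtain ⟨e, hdeg, he⟩ := exists_comp V.dg V.dg g (-1)
  have hded : ∀ v, V.dg.d (e (V.dg.d v)) = V.dg.d v := by
    have h1 : V.dg.d.comp (e.comp V.dg.d) = V.dg.d := V.dg.hom_ext (fun i v hv => by
      rw [LinearMap.comp_apply, LinearMap.comp_apply, he _ _ hv.d, add_neg_cancel_right,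
        ← V.dg.ρ_d, hg]
      have h2 : V.dg.ρ (V.dg.d v) = Finsupp.single (i + 1) (V.dg.d v) := hv.d
      rw [h2, Finsupp.single_eq_same])
    exact fun v => LinearMap.congr_fun h1 v
  have hcl : ∀ x, V.dg.d x = 0 → V.dg.d (e x) = x := by
    intro x hx
    obtain ⟨y, rfl⟩ := h x hx
    exact hded y
  have hall : ∀ x, V.dg.d (e x) - V.dg.d (e (e (V.dg.d x))) + e (V.dg.d x) = x := by
    intro x
    have h1 : V.dg.d (x - e (V.dg.d x)) = 0 := by
      rw [map_sub, hded, sub_self]
    have h2 := hcl _ h1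
    rw [map_sub, map_sub] at h2
    rw [h2, sub_add_cancel]
  refine ⟨⟨e - e.comp (e.comp V.dg.d), ?_, ?_, ?_⟩, ?_⟩
  · intro i m hm
    have h1 := hdeg (hdeg hm.d)
    rw [add_neg_cancel_right] at h1
    exact (hdeg hm).sub h1
  · intro a m
    have h1 : (base k).dg.sp (-1) a = a := by
      rw [Dg.sp_odd (by decide)]
      exact base_s (k := k) a
    have h2 : V.l a m = (show k from a) • m := base_l (k := k) V a m
    rw [h1, h2]
    exact (LinearMap.map_smul _ _ _).trans (base_l (k := k) V a _).symm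
  · intro b m
    have h2 : V.r b m = (show k from b) • m := base_r (k := k) V b m
    rw [h2]
    exact (LinearMap.map_smul _ _ _).trans (base_r (k := k) V b _).symm
  · ext x
    rw [GMap.dd_apply, sg_odd (by decide), neg_smul, one_smul, sub_neg_eq_add,
      LinearMap.id_apply]
    change V.dg.d (e x - e (e (V.dg.d x))) +
      (e (V.dg.d x) - e (e (V.dg.d (V.dg.d x)))) = x
    rw [V.dg.d_d, map_zero, map_zero, sub_zero, map_sub]
    exact hall x

end Pool.Agent.MP_6e5bed_ag_NC
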