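import Pool.Agent.Lib.MP_6e5bed_ag_NC.NDual
import Pool.Agent.Lib.MP_6e5bed_ag.SDualRetract

set_option autoImplicit false

/-!
# Kimura-finiteness of noncommutative Chow motives
-/

namespace Pool.Agent.MP_6e5bed_ag_NC

open CategoryTheory MonoidalCategory Idempotents Pool.Agent.MP_6e5bed_ag

universe u

variable {k : Type u} [Field k]

theorem kimuraFinite_U_of_tensor (A B : SP k) (h0 : ¬ Limits.IsZero (U (A ⊗ B)))
    (h : KimuraFinite (U (A ⊗ B))) : KimuraFinite (U A) ∧ KimuraFinite (U B) := by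
  obtain ⟨φ⟩ := U_tensor A B
  obtain ⟨M', ⟨hM⟩⟩ := U_dual A
  obtain ⟨N', ⟨hN⟩⟩ := U_dual B
  letI := hM
  letI := hN
  refine kimuraFinite_of_tensor end_unit_NChow (M' := M') (N' := N') (fun h1 => h0 ?_)
    (h.of_iso φ)
  exact ((Limits.IsZero.iff_id_eq_zero _).2 h1).of_iso φ

theorem kimuraFinite_U_of_schur (A : SP k) {B : NChow k} {n : ℕ} (hn : 0 < n)
    (z : MonoidAlgebra ℚ (Equiv.Perm (Fin n))) (i : B ⟶ tpow (U A) n) (r : tpow (U A) n ⟶ B)
    (hir : i ≫ r = 𝟙 B) (hri : r ≫ i = za (U A) z) (h0 : ¬ Limits.IsZero B)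
    (h : KimuraFinite B) : KimuraFinite (U A) := by
  obtain ⟨M', ⟨hM⟩⟩ := U_dual A
  let _ : HasLeftDual (U A) := ⟨M'⟩
  have hB : 𝟙 B ≠ 0 := fun h1 => h0 ((Limits.IsZero.iff_id_eq_zero _).2 h1)
  have hne : 𝟙 (𝟙_ (NChow k)) ≠ 0 := by
    intro h1
    apply hB
    have h2 : 𝟙 (𝟙_ (NChow k) ⊗ B) = 0 := by
      rw [← id_tensorHom_id, h1, MonoidalPreadditive.zero_tensor]
    rw [← cancel_epi (λ_ B).hom, Category.comp_id, Limits.comp_zero,
      ← Category.id_comp (λ_ B).hom, h2, Limits.zero_comp]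
  have _ : RatUnit (NChow k) := ⟨end_unit_NChow, hne⟩
  exact kimuraFinite_of_opKF (opKF_of_schur_dual hn z i r hir hri (opKF_of_kimuraFinite h) hB)

end Pool.Agent.MP_6e5bed_ag_NC
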