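import Pool.Agent.Lib.MP_6e5bed_ag_NC.TbUnitA
import Pool.Agent.Lib.MP_6e5bed_ag_NC.TbUnitB
import Pool.Agent.Lib.MP_6e5bed_ag_NC.ResIso
import Pool.Agent.Lib.MP_6e5bed_ag_NC.Htpy

set_option autoImplicit false

/-!
# Tensor products of perfect bimodules
-/

namespace Pool.Agent.MP_6e5bed_ag_NC

universe u

variable {k : Type u} [CommRing k] {A B C : DGA k}

/-- The tensor product `(A ⊗ B) ⊗_B (B ⊗ C) ≅ A ⊗ B ⊗ C` is perfect if `B` is proper. -/
theorem clos_free (hB : Proper B) (A C : DGA k) : Perf (tb (free A B) (free B C)) := by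
  have hV : Perf (und (diag B)) := hB
  have h1 : BIso (tb (free (base k) (base k)) (free (base k) C)) (free (base k) C) :=
    tb_free_free (base k) C
  have h2 : BIso (tb (free A (base k)) (tb (free (base k) (base k)) (free (base k) C)))
      (tb (free A (base k)) (free (base k) C)) := (tbL (free A (base k)) C).biso h1
  have h3 : Perf (tb (free A (base k)) (tb (free (base k) (base k)) (free (base k) C))) :=
    (h2.trans (tb_free_free A C)).symm.perf Perf.free
  have h4 : Perf (tb (free A (base k)) (tb (und (diag B)) (free (base k) C))) :=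
    ((tbR (base k) (free (base k) C)).comp (tbL (free A (base k)) C)).perf h3 hV
  have h5 : BIso (tb (free A (base k)) (fgL (free B C)))
      (tb (free A (base k)) (tb (und (diag B)) (free (base k) C))) :=
    (tbL (free A (base k)) C).biso (fgL_free B C)
  exact ((tb_free_left A (free B C)).trans h5).symm.perf h4

/-- `(A ⊗ B) ⊗_B Y ≅ A ⊗ Y` is acyclic if `Y` is acyclic. -/
theorem clos_freeL (A : DGA k) {Y : Bim B C} (hY : RAc Y) : RAc (tb (free A B) Y) := by
  refine RAc.iso (tb_free_left A Y).symm ?_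
  have hV : Contr (und Y) := hY
  have h2 : Contr (tb (res (DHom.unit A) (DHom.id (base k)) (free A (base k))) (und Y)) :=
    (tbL (res (DHom.unit A) (DHom.id (base k)) (free A (base k))) (base k)).contr hV
  exact Contr.iso (res_tb (DHom.unit A) (DHom.unit C) (free A (base k)) (fgL Y)).symm h2

/-- `X ⊗_B (B ⊗ C) ≅ X ⊗ C` is acyclic if `X` is acyclic. -/
theorem clos_freeR {X : Bim A B} (hX : RAc X) (C : DGA k) : RAc (tb X (free B C)) := by
  refine RAc.iso (tb_free_right X C).symm ?_
  have hV : Contr (und X) := hX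
  have h2 : Contr (tb (und X) (res (DHom.id (base k)) (DHom.unit C) (free (base k) C))) :=
    (tbR (base k) (res (DHom.id (base k)) (DHom.unit C) (free (base k) C))).contr hV
  exact Contr.iso (res_tb (DHom.unit A) (DHom.unit C) (fgR X) (free (base k) C)).symm h2

theorem clos_acycL {X : Bim A B} (hX : Perf X) {Y : Bim B C} (hY : RAc Y) :
    RAc (tb X Y) := by
  induction hX with
  | free => exact clos_freeL A hY
  | contr h => exact RAc.of_contr ((tbR A Y).contr h)
  | mid h _ _ h1 h2 => exact RAc.mid ((tbR A Y).isExt h) h1 h2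
  | left h _ _ h1 h2 => exact RAc.left ((tbR A Y).isExt h) h1 h2
  | right h _ _ h1 h2 => exact RAc.right ((tbR A Y).isExt h) h1 h2
  | summand h _ h1 => exact RAc.summand ((tbR A Y).isSummand h) h1

theorem clos_acycR {X : Bim A B} (hX : RAc X) {Y : Bim B C} (hY : Perf Y) :
    RAc (tb X Y) := by
  induction hY with
  | free => exact clos_freeR hX C
  | contr h => exact RAc.of_contr ((tbL X C).contr h)
  | mid h _ _ h1 h2 => exact RAc.mid ((tbL X C).isExt h) h1 h2
  | left h _ _ h1 h2 => exact RAc.left ((tbL X C).isExt h) h1 h2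
  | right h _ _ h1 h2 => exact RAc.right ((tbL X C).isExt h) h1 h2
  | summand h _ h1 => exact RAc.summand ((tbL X C).isSummand h) h1

/-- The tensor product over a proper dg algebra of perfect bimodules is perfect. -/
theorem Perf.tb (hB : Proper B) {M : Bim A B} {N : Bim B C} (hM : Perf M) (hN : Perf N) :
    Perf (tb M N) :=
  (MP_6e5bed_ag_NC.tbL M C).perf ((MP_6e5bed_ag_NC.tbR A (MP_6e5bed_ag_NC.free B C)).perf
    (clos_free hB A C) hM) hN

/-- Perfect bimodules are flat. -/
theorem RAc.tbL {X : Bim A B} (hX : Perf X) {Y : Bim B C} (hY : RAc Y) : RAc (tb X Y) :=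
  clos_acycL hX hY

theorem RAc.tbR {X : Bim A B} (hX : RAc X) {Y : Bim B C} (hY : Perf Y) : RAc (tb X Y) :=
  clos_acycR hX hY

theorem RQIso.tbL {X : Bim A B} (hX : Perf X) {M N : Bim B C} {φ : GMap 0 M N} (h : RQIso φ) :
    RQIso (φ.tbL X) := by
  have h1 : φ.dd = 0 := h.closed
  have hc : IsCone φ (cone φ h1) := isCone_cone φ h1
  have h2 : RAc (tb X (cone φ h1)) := clos_acycL hX ((hc.rqiso_iff h1).1 h)
  have h3 : IsCone (φ.tbL X) (tb X (cone φ h1)) := (MP_6e5bed_ag_NC.tbL X C).isCone hc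
  exact (h3.rqiso_iff ((MP_6e5bed_ag_NC.tbL X C).closed h1)).2 h2

theorem RQIso.tbR {M N : Bim A B} {φ : GMap 0 M N} (h : RQIso φ) {Y : Bim B C} (hY : Perf Y) :
    RQIso (φ.tbR Y) := by
  have h1 : φ.dd = 0 := h.closed
  have hc : IsCone φ (cone φ h1) := isCone_cone φ h1
  have h2 : RAc (tb (cone φ h1) Y) := clos_acycR ((hc.rqiso_iff h1).1 h) hY
  have h3 : IsCone (φ.tbR Y) (tb (cone φ h1) Y) := (MP_6e5bed_ag_NC.tbR A Y).isCone hc
  exact (h3.rqiso_iff ((MP_6e5bed_ag_NC.tbR A Y).closed h1)).2 h2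

end Pool.Agent.MP_6e5bed_ag_NC
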