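import Pool.Agent.Lib.MP_6e5bed_ag_NC.FTb

set_option autoImplicit false

/-!
# Associativity of the tensor product of bimodules
-/

namespace Pool.Agent.MP_6e5bed_ag_NC

universe u

variable {k : Type u} [CommRing k] {A B C D : DGA k}

section

variable (M : Bim A B) (N : Bim B C) (P : Bim C D)

/-- `m, n, p ↦ m ⊗ (n ⊗ p)` -/
private noncomputable def aF1 : M.M →ₗ[k] N.M →ₗ[k] P.M →ₗ[k] (tb M (tb N P)).M where
  toFun := fun m => (tmB N P).compr₂ (tmB M (tb N P) m)
  map_add' := fun m m' => by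
    refine LinearMap.ext fun n => LinearMap.ext fun p => ?_
    rw [LinearMap.compr₂_apply, LinearMap.add_apply, LinearMap.add_apply, LinearMap.compr₂_apply,
      LinearMap.compr₂_apply, map_add, LinearMap.add_apply]
  map_smul' := fun c m => by
    refine LinearMap.ext fun n => LinearMap.ext fun p => ?_
    rw [LinearMap.compr₂_apply, RingHom.id_apply, LinearMap.smul_apply, LinearMap.smul_apply,
      LinearMap.compr₂_apply, map_smul, LinearMap.smul_apply]

private theorem aF1_apply (m : M.M) (n : N.M) (p : P.M) :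
    aF1 M N P m n p = tm m (tm n p : (tb N P).M) := rfl

private theorem aF1_bal (m : M.M) (b : B.A) (n : N.M) :
    aF1 M N P (M.r b m) n = aF1 M N P m (N.l b n) := by
  refine LinearMap.ext fun p => ?_
  rw [aF1_apply, aF1_apply, tm_r_l, tb_l]

/-- `m ⊗ n, p ↦ m ⊗ (n ⊗ p)` -/
private noncomputable def aF2 : (tb M N).M →ₗ[k] P.M →ₗ[k] (tb M (tb N P)).M :=
  tlift (aF1 M N P) (aF1_bal M N P)

private theorem aF2_tm (m : M.M) (n : N.M) (p : P.M) :
    aF2 M N P (tm m n) p = tm m (tm n p : (tb N P).M) := by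
  rw [aF2, tlift_tm, aF1_apply]

private theorem aF2_bal (x : (tb M N).M) (c : C.A) (p : P.M) :
    aF2 M N P ((tb M N).r c x) p = aF2 M N P x (P.l c p) := by
  revert x
  refine tb_ind ?_ ?_ ?_
  · rw [map_zero, map_zero, LinearMap.zero_apply, LinearMap.zero_apply]
  · intro x y hx hy
    rw [map_add, map_add, LinearMap.add_apply, hx, hy, map_add, LinearMap.add_apply]
  · intro m n
    rw [tb_r, aF2_tm, aF2_tm, tm_r_l]

/-- `(m ⊗ n) ⊗ p ↦ m ⊗ (n ⊗ p)` -/
private noncomputable def aF : (tb (tb M N) P).M →ₗ[k] (tb M (tb N P)).M :=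
  tlift (aF2 M N P) (aF2_bal M N P)

private theorem aF_tm (m : M.M) (n : N.M) (p : P.M) :
    aF M N P (tm (tm m n : (tb M N).M) p) = tm m (tm n p : (tb N P).M) := by
  rw [aF, tlift_tm, aF2_tm]

/-- `n, p ↦ (m ⊗ n) ⊗ p` -/
private noncomputable def aG1 (m : M.M) : N.M →ₗ[k] P.M →ₗ[k] (tb (tb M N) P).M :=
  (tmB (tb M N) P).comp (tmB M N m)

private theorem aG1_apply (m : M.M) (n : N.M) (p : P.M) :
    aG1 M N P m n p = tm (tm m n : (tb M N).M) p := rfl

private theorem aG1_bal (m : M.M) (n : N.M) (c : C.A) (p : P.M) :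
    aG1 M N P m (N.r c n) p = aG1 M N P m n (P.l c p) := by
  rw [aG1_apply, aG1_apply, ← tm_r_l, tb_r]

private noncomputable def aG2' (m : M.M) : (tb N P).M →ₗ[k] (tb (tb M N) P).M :=
  tlift (aG1 M N P m) (aG1_bal M N P m)

private theorem aG2'_tm (m : M.M) (n : N.M) (p : P.M) :
    aG2' M N P m (tm n p) = tm (tm m n : (tb M N).M) p := by
  rw [aG2', tlift_tm, aG1_apply]

/-- `m, n ⊗ p ↦ (m ⊗ n) ⊗ p` -/
private noncomputable def aG2 : M.M →ₗ[k] (tb N P).M →ₗ[k] (tb (tb M N) P).M where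
  toFun := aG2' M N P
  map_add' := fun m m' => by
    refine tb_hom_ext fun n p => ?_
    rw [LinearMap.add_apply, aG2'_tm, aG2'_tm, aG2'_tm, tm_add_left, tm_add_left]
  map_smul' := fun c m => by
    refine tb_hom_ext fun n p => ?_
    rw [RingHom.id_apply, LinearMap.smul_apply, aG2'_tm, aG2'_tm, tm_smul_left, tm_smul_left]

private theorem aG2_tm (m : M.M) (n : N.M) (p : P.M) :
    aG2 M N P m (tm n p) = tm (tm m n : (tb M N).M) p := aG2'_tm M N P m n p

private theorem aG2_bal (m : M.M) (b : B.A) (x : (tb N P).M) :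
    aG2 M N P (M.r b m) x = aG2 M N P m ((tb N P).l b x) := by
  revert x
  refine tb_ind ?_ ?_ ?_
  · rw [map_zero, map_zero, map_zero]
  · intro x y hx hy
    rw [map_add, hx, hy, map_add, map_add]
  · intro n p
    rw [tb_l, aG2_tm, aG2_tm, tm_r_l]

/-- `m ⊗ (n ⊗ p) ↦ (m ⊗ n) ⊗ p` -/
private noncomputable def aG : (tb M (tb N P)).M →ₗ[k] (tb (tb M N) P).M :=
  tlift (aG2 M N P) (aG2_bal M N P)

private theorem aG_tm (m : M.M) (n : N.M) (p : P.M) :
    aG M N P (tm m (tm n p : (tb N P).M)) = tm (tm m n : (tb M N).M) p := by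
  rw [aG, tlift_tm, aG2_tm]

/-- induction on triple tensor products -/
private theorem ind3 {Q : (tb (tb M N) P).M → Prop} (h0 : Q 0)
    (hadd : ∀ x y, Q x → Q y → Q (x + y))
    (h : ∀ m n p, Q (tm (tm m n : (tb M N).M) p)) (x : (tb (tb M N) P).M) : Q x := by
  revert x
  refine tb_ind h0 hadd ?_
  intro y p
  revert y
  refine tb_ind ?_ ?_ ?_
  · rw [tm_zero_left]
    exact h0
  · intro x y hx hy
    rw [tm_add_left]
    exact hadd _ _ hx hy
  · intro m n
    exact h m n p

private theorem ind3' {Q : (tb M (tb N P)).M → Prop} (h0 : Q 0)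
    (hadd : ∀ x y, Q x → Q y → Q (x + y))
    (h : ∀ m n p, Q (tm m (tm n p : (tb N P).M))) (x : (tb M (tb N P)).M) : Q x := by
  revert x
  refine tb_ind h0 hadd ?_
  intro m y
  revert y
  refine tb_ind ?_ ?_ ?_
  · rw [tm_zero_right]
    exact h0
  · intro x y hx hy
    rw [tm_add_right]
    exact hadd _ _ hx hy
  · intro n p
    exact h m n p

private theorem aG_aF (x : (tb (tb M N) P).M) : aG M N P (aF M N P x) = x := by
  revert x
  refine ind3 M N P ?_ ?_ ?_
  · rw [map_zero, map_zero]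
  · intro x y hx hy
    rw [map_add, map_add, hx, hy]
  · intro m n p
    rw [aF_tm, aG_tm]

private theorem aF_aG (x : (tb M (tb N P)).M) : aF M N P (aG M N P x) = x := by
  revert x
  refine ind3' M N P ?_ ?_ ?_
  · rw [map_zero, map_zero]
  · intro x y hx hy
    rw [map_add, map_add, hx, hy]
  · intro m n p
    rw [aG_tm, aF_tm]

private theorem aF_deg {i : ℤ} {x : (tb (tb M N) P).M} (hx : (tb (tb M N) P).dg.IsDeg i x) :
    (tb M (tb N P)).dg.IsDeg (i + 0) (aF M N P x) := by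
  refine tb_degMap (Z := (tb M (tb N P)).dg) (aF M N P) ?_ hx
  intro i j v w hv hw
  have h1 : (tb M (tb N P)).dg.IsDeg (i + j) (((aF2 M N P).flip w) v) := by
    refine tb_degMap (Z := (tb M (tb N P)).dg) ((aF2 M N P).flip w) ?_ hv
    intro i' j' m n hm hn
    rw [LinearMap.flip_apply, aF2_tm, add_assoc]
    exact tb_deg hm (tb_deg hn hw)
  rw [add_zero]
  have h2 : aF M N P (tm v w) = ((aF2 M N P).flip w) v := by
    rw [aF, tlift_tm, LinearMap.flip_apply]
  rw [h2]
  exact h1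

private theorem aF_l (a : A.A) (x : (tb (tb M N) P).M) :
    aF M N P ((tb (tb M N) P).l a x) = (tb M (tb N P)).l a (aF M N P x) := by
  revert x
  refine ind3 M N P ?_ ?_ ?_
  · rw [map_zero, map_zero, map_zero]
  · intro x y hx hy
    rw [map_add, map_add, map_add, hx, hy, map_add]
  · intro m n p
    rw [tb_l, tb_l, aF_tm, aF_tm, tb_l]

private theorem aF_r (c : D.A) (x : (tb (tb M N) P).M) :
    aF M N P ((tb (tb M N) P).r c x) = (tb M (tb N P)).r c (aF M N P x) := by
  revert x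
  refine ind3 M N P ?_ ?_ ?_
  · rw [map_zero, map_zero, map_zero]
  · intro x y hx hy
    rw [map_add, map_add, map_add, hx, hy, map_add]
  · intro m n p
    rw [tb_r, aF_tm, aF_tm, tb_r, tb_r]

private theorem aF_d (x : (tb (tb M N) P).M) :
    aF M N P ((tb (tb M N) P).dg.d x) = (tb M (tb N P)).dg.d (aF M N P x) := by
  revert x
  refine ind3 M N P ?_ ?_ ?_
  · rw [map_zero, map_zero, map_zero]
  · intro x y hx hy
    rw [map_add, map_add, map_add, hx, hy, map_add]
  · intro m n p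
    rw [tb_d, tb_d, tb_s, tm_add_left, map_add, map_add, aF_tm, aF_tm, aF_tm, aF_tm, tb_d, tb_d,
      tm_add_right, add_assoc]

end

/-- `(M ⊗ N) ⊗ P ≅ M ⊗ (N ⊗ P)` -/
theorem tb_assoc (M : Bim A B) (N : Bim B C) (P : Bim C D) :
    BIso (tb (tb M N) P) (tb M (tb N P)) := by
  refine BIso.of_bij ⟨aF M N P, aF_deg M N P, fun a x => ?_, fun c x => aF_r M N P c x⟩ ?_ ?_
  · rw [Dg.sp_zero]
    exact aF_l M N P a x
  · refine LinearMap.ext fun x => ?_
    rw [GMap.dd_apply, sg_zero, one_smul, LinearMap.zero_apply, sub_eq_zero]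
    exact (aF_d M N P x).symm
  · exact ⟨fun x y h => by rw [← aG_aF M N P x, ← aG_aF M N P y]; exact congrArg _ h,
      fun y => ⟨aG M N P y, aF_aG M N P y⟩⟩

end Pool.Agent.MP_6e5bed_ag_NC
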