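import Pool.Agent.Lib.MP_6e5bed_ag_NC.Clos
import Pool.Agent.Lib.MP_6e5bed_ag_NC.TbAssoc
import Pool.Agent.Lib.MP_6e5bed_ag_NC.K0Api

set_option autoImplicit false

/-!
# Composition in the category of noncommutative motives
-/

namespace Pool.Agent.MP_6e5bed_ag_NC

universe u

variable {k : Type u} [CommRing k] {A B C D : DGA k}

namespace K0Q

theorem comp_ext (hB : Proper B) (C : DGA k) {M' M M'' : Bim A B} (h' : Perf M') (h : Perf M)
    (h'' : Perf M'') (hM : IsExt M' M M'') : (tbL M C).k0 (Perf.tb hB h Perf.free) =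
      (tbL M' C).k0 (Perf.tb hB h' Perf.free) + (tbL M'' C).k0 (Perf.tb hB h'' Perf.free) :=
  K0Q.hom_ext (fun N hN => by
    rw [LinearMap.add_apply, DGFun.k0_cls, DGFun.k0_cls, DGFun.k0_cls]
    exact cls_ext _ _ _ ((tbR A N).isExt hM))

theorem comp_contr (hB : Proper B) (C : DGA k) {M : Bim A B} (h : Perf M) (hM : Contr M) :
    (tbL M C).k0 (Perf.tb hB h Perf.free) = 0 :=
  K0Q.hom_ext (fun N hN => by
    rw [DGFun.k0_cls]
    exact cls_contr _ ((tbR A N).contr hM))

/-- The composition `[M], [N] ↦ [M ⊗_B N]`. -/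
noncomputable def comp (hB : Proper B) : K0Q A B →ₗ[ℚ] K0Q B C →ₗ[ℚ] K0Q A C :=
  K0Q.lift (fun M hM => (tbL M C).k0 (Perf.tb hB hM Perf.free)) (comp_ext hB C)
    (comp_contr hB C)

theorem comp_cls (hB : Proper B) {M : Bim A B} {N : Bim B C} (hM : Perf M) (hN : Perf N) :
    comp hB (cls M hM) (cls N hN) = cls (tb M N) (Perf.tb hB hM hN) := by
  have h : comp (C := C) hB (cls M hM) = (tbL M C).k0 (Perf.tb hB hM Perf.free) :=
    lift_cls _ (comp_ext hB C) (comp_contr hB C) M hM
  rw [h, DGFun.k0_cls]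
  rfl

theorem comp_assoc (hB : Proper B) (hC : Proper C) (f : K0Q A B) (g : K0Q B C)
    (h : K0Q C D) : comp hC (comp hB f g) h = comp hB f (comp hC g h) := by
  refine ind (P := fun f => comp hC (comp hB f g) h = comp hB f (comp hC g h)) ?_ ?_ ?_ ?_ f
  · intro x y hx hy
    simp only [map_add, LinearMap.add_apply, hx, hy]
  · intro c x hx
    simp only [map_smul, LinearMap.smul_apply, hx]
  · simp
  intro M hM
  refine ind (P := fun g => comp hC (comp hB (cls M hM) g) h =
    comp hB (cls M hM) (comp hC g h)) ?_ ?_ ?_ ?_ g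
  · intro x y hx hy
    simp only [map_add, LinearMap.add_apply, hx, hy]
  · intro c x hx
    simp only [map_smul, LinearMap.smul_apply, hx]
  · simp
  intro N hN
  refine ind (P := fun h => comp hC (comp hB (cls M hM) (cls N hN)) h =
    comp hB (cls M hM) (comp hC (cls N hN) h)) ?_ ?_ ?_ ?_ h
  · intro x y hx hy
    simp only [map_add, hx, hy]
  · intro c x hx
    simp only [map_smul, hx]
  · simp
  intro P hP
  rw [comp_cls, comp_cls, comp_cls, comp_cls]
  exact cls_iso (tb_assoc M N P) _ _

/-- A perfect resolution of the diagonal bimodule is a left unit. -/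
theorem res_comp (hA : Proper A) {P : Bim A A} (hP : Perf P) {φ : GMap 0 P (diag A)}
    (hφ : RQIso φ) (f : K0Q A B) : comp hA (cls P hP) f = f := by
  refine ind (P := fun f => comp hA (cls P hP) f = f) ?_ ?_ ?_ ?_ f
  · intro x y hx hy
    rw [map_add, hx, hy]
  · intro c x hx
    rw [map_smul, hx]
  · rw [map_zero]
  intro M hM
  have h1 := tb_diag_left M
  have h2 : Perf (tb (diag A) M) := h1.symm.perf hM
  rw [comp_cls, cls_qiso _ h2 (φ.tbR M) (RQIso.tbR hφ hM).qiso]
  exact cls_iso h1 _ _

/-- A perfect resolution of the diagonal bimodule is a right unit. -/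
theorem comp_res (hB : Proper B) {P : Bim B B} (hP : Perf P) {φ : GMap 0 P (diag B)}
    (hφ : RQIso φ) (f : K0Q A B) : comp hB f (cls P hP) = f := by
  refine ind (P := fun f => comp hB f (cls P hP) = f) ?_ ?_ ?_ ?_ f
  · intro x y hx hy
    rw [map_add, LinearMap.add_apply, hx, hy]
  · intro c x hx
    rw [map_smul, LinearMap.smul_apply, hx]
  · rw [map_zero, LinearMap.zero_apply]
  intro M hM
  have h1 := tb_diag_right M
  have h2 : Perf (tb M (diag B)) := h1.symm.perf hM
  rw [comp_cls, cls_qiso _ h2 (φ.tbL M) (RQIso.tbL hM hφ).qiso]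
  exact cls_iso h1 _ _

/-- The identity: the class of a perfect resolution of the diagonal bimodule. -/
noncomputable def one (hA : Smooth A) : K0Q A A := cls hA.choose hA.choose_spec.choose_spec.1

theorem one_comp (hA : Smooth A) (hA' : Proper A) (f : K0Q A B) :
    comp hA' (one hA) f = f := res_comp hA' _ hA.choose_spec.choose_spec.2 f

theorem comp_one (hB : Smooth B) (hB' : Proper B) (f : K0Q A B) :
    comp hB' f (one hB) = f := comp_res hB' _ hB.choose_spec.choose_spec.2 f

theorem one_eq (hA : Smooth A) (hA' : Proper A) {P : Bim A A} (hP : Perf P)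
    {φ : GMap 0 P (diag A)} (hφ : RQIso φ) : one hA = cls P hP := by
  rw [← comp_res hA' hP hφ (one hA), one_comp]

end K0Q

end Pool.Agent.MP_6e5bed_ag_NC
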