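import Pool.Agent.Lib.MP_6e5bed_ag_NC.FinPerf
import Pool.Agent.Lib.MP_6e5bed_ag_NC.Htpy

set_option autoImplicit false

/-!
# Smooth and proper dg algebras over a field
-/

namespace Pool.Agent.MP_6e5bed_ag_NC

universe u

variable {k : Type u} [Field k] {A B : DGA k} {M N : Bim A B}

/-- Over a field, the relatively acyclic bimodules are the acyclic ones. -/
theorem rac_iff : RAc M ↔ Acyc M := by
  refine ⟨RAc.acyc, fun h => ?_⟩
  have h1 : Acyc (und M) := h
  exact contr_of_acyc h1

/-- Over a field, the relative quasi-isomorphisms are the quasi-isomorphisms. -/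
theorem rqiso_iff (φ : GMap 0 M N) : RQIso φ ↔ QIso φ := by
  refine ⟨RQIso.qiso, fun h => ?_⟩
  have hc : IsCone φ (cone φ h.1) := isCone_cone φ h.1
  exact (hc.rqiso_iff h.1).2 (rac_iff.2 ((hc.qiso_iff h.1).1 h))

/-- Over a field, a dg algebra is smooth if and only if its diagonal bimodule is quasi-isomorphic
to a perfect one. -/
theorem smooth_iff (A : DGA k) :
    Smooth A ↔ ∃ (P : Bim A A) (φ : GMap 0 P (diag A)), Perf P ∧ QIso φ := by
  constructor
  · rintro ⟨P, φ, h1, h2⟩
    exact ⟨P, φ, h1, (rqiso_iff φ).1 h2⟩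
  · rintro ⟨P, φ, h1, h2⟩
    exact ⟨P, φ, h1, (rqiso_iff φ).2 h2⟩

/-- Over a field, a dg algebra is proper if and only if its total cohomology is
finite-dimensional. -/
theorem proper_iff (A : DGA k) : Proper A ↔ A.dg.FinCoh := by
  constructor
  · intro h
    have h1 : (und (diag A)).dg.FinCoh := Perf.finCoh h
    exact h1
  · intro h
    have h1 : (und (diag A)).dg.FinCoh := h
    exact (perf_of_finCoh h1).1

end Pool.Agent.MP_6e5bed_ag_NC
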