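import Pool.Agent.Lib.MP_6e5bed_ag_NC.FinCohB
import Pool.Agent.Lib.MP_6e5bed_ag_NC.K0Api

set_option autoImplicit false

/-!
# Perfect complexes over a field
-/

namespace Pool.Agent.MP_6e5bed_ag_NC

universe u

variable {k : Type u} [Field k]

private theorem finPerf_aux (n : ℕ) : ∀ V : Bim (base k) (base k), V.dg.FinCoh →
    Module.finrank k (LinearMap.ker V.dg.d ⧸
      (LinearMap.range V.dg.d).comap (LinearMap.ker V.dg.d).subtype) = n →
    ∃ h : Perf V, ∃ c : ℚ, cls V h = c • cls (free (base k) (base k)) Perf.free := by
  induction n using Nat.strong_induction_on with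
  | _ n ih =>
    intro V hV hn
    by_cases hac : Acyc V
    · have hc : Contr V := contr_of_acyc hac
      refine ⟨Perf.contr hc, 0, ?_⟩
      rw [K0Q.cls_contr _ hc, zero_smul]
    · obtain ⟨m, φ, C, hφ, hC, hCf, hlt⟩ := exists_smaller hV hac
      rw [hn] at hlt
      obtain ⟨hCp, c, hc⟩ := ih _ hlt C hCf rfl
      have hS : Perf (((free (base k) (base k)).shift m).shift 1) := (Perf.free.shift m).shift 1
      have hVp : Perf V := Perf.left hC.isExt hCp hS
      refine ⟨hVp, c + (sg m : ℚ), ?_⟩
      have h1 := K0Q.cls_ext hVp hCp hS hC.isExt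
      have h2 : cls (((free (base k) (base k)).shift m).shift 1) hS =
          - ((sg m : ℚ) • cls (free (base k) (base k)) Perf.free) := by
        rw [K0Q.cls_shift (Perf.free.shift m) 1 hS, K0Q.cls_shift Perf.free m, sg_one,
          Int.cast_neg, Int.cast_one, neg_one_smul]
      rw [hc, h2] at h1
      rw [add_smul, h1, neg_add_cancel_right]

/-- A complex with finite-dimensional cohomology is perfect, and its class is a multiple of the
class of `k`. -/
theorem perf_of_finCoh {V : Bim (base k) (base k)} (hV : V.dg.FinCoh) :
    ∃ h : Perf V, ∃ c : ℚ, cls V h = c • cls (free (base k) (base k)) Perf.free :=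
  finPerf_aux _ V hV rfl

private theorem finPerf_free : (free (base k) (base k)).dg.FinCoh := by
  have h1 : Module.Finite k (base k).A := by
    change Module.Finite k k
    infer_instance
  have h2 : Module.Finite k (free (base k) (base k)).M := by
    change Module.Finite k (TensorProduct k (base k).A (base k).A)
    infer_instance
  exact Dg.finCoh_of_finite _

/-- A perfect complex has finite-dimensional cohomology. -/
theorem Perf.finCoh {V : Bim (base k) (base k)} (h : Perf V) : V.dg.FinCoh := by
  induction h with
  | free => exact finPerf_free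
  | contr h => exact FinCoh.of_acyc h.acyc
  | mid h _ _ h' h'' => exact FinCoh.mid h h' h''
  | left h _ _ h' h'' => exact FinCoh.left h h' h''
  | right h _ _ h' h'' => exact FinCoh.right h h' h''
  | summand h _ h' => exact FinCoh.summand h h'

end Pool.Agent.MP_6e5bed_ag_NC
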