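import Pool.Agent.Lib.MP_6e5bed_ag_NC.CatMon
import Pool.Agent.Lib.MP_6e5bed_ag_NC.FinPerf

set_option autoImplicit false

/-!
# The endomorphisms of the unit
-/

namespace Pool.Agent.MP_6e5bed_ag_NC

open CategoryTheory MonoidalCategory

universe u

variable {k : Type u} [Field k]

/-- Every class is a rational multiple of the class of the free bimodule. -/
private theorem endOne_key (x : K0Q (base k) (base k)) :
    ∃ c : ℚ, x = c • cls (free (base k) (base k)) Perf.free := by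
  refine K0Q.ind (P := fun x => ∃ c : ℚ, x = c • cls (free (base k) (base k)) Perf.free)
    ?_ ?_ ?_ ?_ x
  · rintro x y ⟨c, hx⟩ ⟨d, hy⟩
    exact ⟨c + d, by rw [hx, hy, add_smul]⟩
  · rintro c x ⟨d, hx⟩
    exact ⟨c * d, by rw [hx, mul_smul]⟩
  · exact ⟨0, by rw [zero_smul]⟩
  · intro M hM
    obtain ⟨_, c, hc⟩ := perf_of_finCoh hM.finCoh
    exact ⟨c, hc⟩

/-- Every endomorphism of the unit is a rational multiple of the identity. -/
theorem end_unit (a : 𝟙_ (SP k) ⟶ 𝟙_ (SP k)) : ∃ c : ℚ, a = c • 𝟙 (𝟙_ (SP k)) := by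
  obtain ⟨c₀, h₀⟩ := endOne_key (k := k) (𝟙 (𝟙_ (SP k)) : 𝟙_ (SP k) ⟶ 𝟙_ (SP k))
  obtain ⟨c, hc⟩ := endOne_key (k := k) a
  by_cases h : c₀ = 0
  · have h1 : (𝟙 (𝟙_ (SP k)) : 𝟙_ (SP k) ⟶ 𝟙_ (SP k)) = 0 := by
      rw [h, zero_smul] at h₀
      exact h₀
    refine ⟨0, ?_⟩
    rw [zero_smul, ← Category.id_comp a, h1]
    exact Limits.zero_comp
  · refine ⟨c * c₀⁻¹, ?_⟩
    have h2 : (c * c₀⁻¹) • (c₀ • cls (free (base k) (base k)) Perf.free) =
        c • cls (free (base k) (base k)) Perf.free := by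
      rw [← mul_smul, mul_assoc, inv_mul_cancel₀ h, mul_one]
    rw [← h₀, ← hc] at h2
    exact h2.symm

end Pool.Agent.MP_6e5bed_ag_NC
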