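import Mathlib

set_option autoImplicit false

/-!
# Half duality data in an idempotent complete monoidal category
-/

namespace Pool.Agent.MP_6e5bed_ag_NC

open CategoryTheory MonoidalCategory

universe v u

/-- If one of the two zigzag identities holds, then `A` has a dual, namely a direct summand of
`B`. -/
theorem exists_exactPairing {C : Type u} [Category.{v} C] [MonoidalCategory C]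
    [IsIdempotentComplete C] {A B : C} (η : 𝟙_ C ⟶ B ⊗ A) (ε : A ⊗ B ⟶ 𝟙_ C)
    (h : (A ◁ η) ≫ (α_ A B A).inv ≫ (ε ▷ A) = (ρ_ A).hom ≫ (λ_ A).inv) :
    ∃ B' : C, Nonempty (ExactPairing B' A) := by
  obtain ⟨e, he⟩ : ∃ e : B ⟶ B,
      e = (λ_ B).inv ≫ (η ▷ B) ≫ (α_ B A B).hom ≫ (B ◁ ε) ≫ (ρ_ B).hom := ⟨_, rfl⟩
  have h1 : η ≫ e ▷ A = η := by
    calc η ≫ e ▷ A
        = 𝟙 _ ⊗≫ ((𝟙_ C) ◁ η ≫ η ▷ (B ⊗ A)) ⊗≫ B ◁ ε ▷ A ⊗≫ 𝟙 _ := by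
          rw [he]; monoidal
      _ = 𝟙 _ ⊗≫ (η ▷ (𝟙_ C) ≫ (B ⊗ A) ◁ η) ⊗≫ B ◁ ε ▷ A ⊗≫ 𝟙 _ := by
          rw [whisker_exchange]
      _ = η ⊗≫ B ◁ (A ◁ η ≫ (α_ A B A).inv ≫ ε ▷ A) ⊗≫ 𝟙 _ := by monoidal
      _ = η := by rw [h]; monoidal
  have h3 : e ≫ e = e := by
    have key : (λ_ B).inv ≫ (η ▷ B) ≫ (α_ B A B).hom ≫ (B ◁ ε) ≫ (ρ_ B).hom ≫ e = e := by
      calc (λ_ B).inv ≫ (η ▷ B) ≫ (α_ B A B).hom ≫ (B ◁ ε) ≫ (ρ_ B).hom ≫ e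
          = 𝟙 _ ⊗≫ η ▷ B ⊗≫ (B ◁ ε ≫ e ▷ (𝟙_ C)) ⊗≫ 𝟙 _ := by monoidal
        _ = 𝟙 _ ⊗≫ η ▷ B ⊗≫ (e ▷ (A ⊗ B) ≫ B ◁ ε) ⊗≫ 𝟙 _ := by rw [← whisker_exchange]
        _ = (λ_ B).inv ≫ ((η ≫ e ▷ A) ▷ B) ≫ (α_ B A B).hom ≫ (B ◁ ε) ≫ (ρ_ B).hom := by
            monoidal
        _ = e := by rw [h1, he]
    calc e ≫ e = ((λ_ B).inv ≫ (η ▷ B) ≫ (α_ B A B).hom ≫ (B ◁ ε) ≫ (ρ_ B).hom) ≫ e := by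
          rw [← he]
      _ = e := by
          simpa only [Category.assoc] using key
  obtain ⟨B', i, r, hir, hri⟩ := IsIdempotentComplete.idempotents_split B e h3
  refine ⟨B', ⟨⟨η ≫ r ▷ A, A ◁ i ≫ ε, ?_, ?_⟩⟩⟩
  · calc A ◁ (η ≫ r ▷ A) ≫ (α_ A B' A).inv ≫ (A ◁ i ≫ ε) ▷ A
        = A ◁ (η ≫ (r ≫ i) ▷ A) ≫ (α_ A B A).inv ≫ ε ▷ A := by monoidal
      _ = (ρ_ A).hom ≫ (λ_ A).inv := by rw [hri, h1, h]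
  · calc (η ≫ r ▷ A) ▷ B' ≫ (α_ B' A B').hom ≫ B' ◁ (A ◁ i ≫ ε)
        = 𝟙 _ ⊗≫ η ▷ B' ⊗≫ (r ▷ (A ⊗ B') ≫ B' ◁ (A ◁ i)) ⊗≫ B' ◁ ε ⊗≫ 𝟙 _ := by
          monoidal
      _ = 𝟙 _ ⊗≫ η ▷ B' ⊗≫ (B ◁ (A ◁ i) ≫ r ▷ (A ⊗ B)) ⊗≫ B' ◁ ε ⊗≫ 𝟙 _ := by
          rw [whisker_exchange]
      _ = 𝟙 _ ⊗≫ (η ▷ B' ≫ (B ⊗ A) ◁ i) ⊗≫ (r ▷ (A ⊗ B) ≫ B' ◁ ε) ⊗≫ 𝟙 _ := by
          monoidal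
      _ = 𝟙 _ ⊗≫ ((𝟙_ C) ◁ i ≫ η ▷ B) ⊗≫ (B ◁ ε ≫ r ▷ (𝟙_ C)) ⊗≫ 𝟙 _ := by
          rw [← whisker_exchange, ← whisker_exchange]
      _ = (λ_ B').hom ≫ (i ≫ ((λ_ B).inv ≫ (η ▷ B) ≫ (α_ B A B).hom ≫ (B ◁ ε) ≫
            (ρ_ B).hom) ≫ r) ≫ (ρ_ B').inv := by monoidal
      _ = (λ_ B').hom ≫ (ρ_ B').inv := by
          rw [← he, ← hri]
          simp [hir]

end Pool.Agent.MP_6e5bed_ag_NC
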