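import Pool.Agent.Lib.MP_6e5bed_ag_NC.Ext
import Pool.Agent.Lib.MP_6e5bed_ag_NC.FieldCx

set_option autoImplicit false

/-!
# Complexes with finite-dimensional total cohomology
-/

namespace Pool.Agent.MP_6e5bed_ag_NC

universe u

variable {k : Type u} [Field k] {A B : DGA k}

/-- If `H(X) → H(Y) → H(Z)` is exact and `H(X)`, `H(Z)` are finite-dimensional, then so is
`H(Y)`. -/
theorem finCoh_exact {U V W : Type u} [AddCommGroup U] [Module k U] [AddCommGroup V] [Module k V]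
    [AddCommGroup W] [Module k W] {X : Dg k U} {Y : Dg k V} {Z : Dg k W}
    (f : U →ₗ[k] V) (g : V →ₗ[k] W)
    (hf : ∀ x, X.d x = 0 → Y.d (f x) = 0) (hf' : ∀ u, ∃ v, Y.d v = f (X.d u))
    (hg : ∀ y, Y.d y = 0 → Z.d (g y) = 0) (hg' : ∀ v, ∃ w, Z.d w = g (Y.d v))
    (hex : ∀ y, Y.d y = 0 → (∃ w, Z.d w = g y) → ∃ x, X.d x = 0 ∧ ∃ z, y = f x + Y.d z)
    (hX : X.FinCoh) (hZ : Z.FinCoh) : Y.FinCoh := by
  unfold Dg.FinCoh at *
  let F := Submodule.mapQ ((LinearMap.range X.d).comap (LinearMap.ker X.d).subtype)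
    ((LinearMap.range Y.d).comap (LinearMap.ker Y.d).subtype)
    (f.restrict (p := LinearMap.ker X.d) (q := LinearMap.ker Y.d)
      (fun x hx => LinearMap.mem_ker.2 (hf x (LinearMap.mem_ker.1 hx)))) (by
        rintro ⟨x, hx⟩ ⟨u, hu⟩
        obtain ⟨v, hv⟩ := hf' u
        refine ⟨v, ?_⟩
        rw [hv, hu]
        rfl)
  let G := Submodule.mapQ ((LinearMap.range Y.d).comap (LinearMap.ker Y.d).subtype)
    ((LinearMap.range Z.d).comap (LinearMap.ker Z.d).subtype)
    (g.restrict (p := LinearMap.ker Y.d) (q := LinearMap.ker Z.d)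
      (fun x hx => LinearMap.mem_ker.2 (hg x (LinearMap.mem_ker.1 hx)))) (by
        rintro ⟨x, hx⟩ ⟨u, hu⟩
        obtain ⟨v, hv⟩ := hg' u
        refine ⟨v, ?_⟩
        rw [hv, hu]
        rfl)
  have hFG : LinearMap.ker G ≤ LinearMap.range F := by
    intro q hq
    obtain ⟨⟨y, hy⟩, rfl⟩ := Submodule.mkQ_surjective _ q
    have h1 : G (Submodule.Quotient.mk ⟨y, hy⟩) = 0 := LinearMap.mem_ker.1 hq
    rw [Submodule.mapQ_apply, Submodule.Quotient.mk_eq_zero] at h1
    obtain ⟨w, hw⟩ := h1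
    obtain ⟨x, hx, z, hz⟩ := hex y (LinearMap.mem_ker.1 hy) ⟨w, hw⟩
    refine ⟨Submodule.Quotient.mk ⟨x, LinearMap.mem_ker.2 hx⟩, ?_⟩
    rw [Submodule.mapQ_apply]
    change _ = Submodule.Quotient.mk _
    rw [Submodule.Quotient.eq]
    refine ⟨-z, ?_⟩
    rw [map_neg]
    change - Y.d z = f x - y
    rw [hz]
    abel
  haveI : Module.Finite k (LinearMap.range F) := Module.Finite.range F
  haveI : Module.Finite k (LinearMap.ker G) := Submodule.finiteDimensional_of_le hFG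
  haveI : Module.Finite k (LinearMap.range G) := inferInstance
  haveI : Module.Finite k (_ ⧸ LinearMap.ker G) := Module.Finite.equiv G.quotKerEquivRange.symm
  exact Module.Finite.of_submodule_quotient (LinearMap.ker G)

theorem Dg.finCoh_iff {V : Type u} [AddCommGroup V] [Module k V] (X : Dg k V) :
    X.FinCoh ↔ ∃ s : Finset V, (∀ x ∈ s, X.d x = 0) ∧
      ∀ x, X.d x = 0 → ∃ y ∈ Submodule.span k (s : Set V), ∃ z, x = y + X.d z := by
  classical
  unfold Dg.FinCoh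
  constructor
  · intro h
    obtain ⟨t, ht⟩ := h.fg_top
    have hs := Submodule.mkQ_surjective
      ((LinearMap.range X.d).comap (LinearMap.ker X.d).subtype)
    choose c hc using hs
    refine ⟨t.image (fun q => (c q : V)), ?_, ?_⟩
    · intro x hx
      obtain ⟨q, -, rfl⟩ := Finset.mem_image.1 hx
      exact LinearMap.mem_ker.1 (c q).2
    · intro x hx
      have h1 : Submodule.mkQ ((LinearMap.range X.d).comap (LinearMap.ker X.d).subtype)
          ⟨x, LinearMap.mem_ker.2 hx⟩ ∈ Submodule.map (Submodule.mkQ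
            ((LinearMap.range X.d).comap (LinearMap.ker X.d).subtype))
            (Submodule.span k (c '' (t : Set _))) := by
        rw [Submodule.map_span, ← Set.image_comp]
        have h2 : (⇑(Submodule.mkQ ((LinearMap.range X.d).comap (LinearMap.ker X.d).subtype)) ∘ c)
            = id := funext hc
        rw [h2, Set.image_id, ht]
        exact Submodule.mem_top
      obtain ⟨w, hw, hw'⟩ := h1
      have h3 : (⟨x, LinearMap.mem_ker.2 hx⟩ : LinearMap.ker X.d) - w ∈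
          (LinearMap.range X.d).comap (LinearMap.ker X.d).subtype := by
        rw [← Submodule.Quotient.mk_eq_zero, Submodule.Quotient.mk_sub, sub_eq_zero]
        exact hw'.symm
      obtain ⟨z, hz⟩ := h3
      refine ⟨(w : V), ?_, z, ?_⟩
      · have h4 : (w : V) ∈ Submodule.map (LinearMap.ker X.d).subtype
            (Submodule.span k (c '' (t : Set _))) := ⟨w, hw, rfl⟩
        rw [Submodule.map_span, ← Set.image_comp] at h4
        rw [Finset.coe_image]
        exact h4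
      · rw [hz]
        change x = (w : V) + (x - w)
        abel
  · rintro ⟨s, hs, h⟩
    have hle : Submodule.span k (s : Set V) ≤ LinearMap.ker X.d :=
      Submodule.span_le.2 (fun x hx => LinearMap.mem_ker.2 (hs x hx))
    haveI : Module.Finite k (Submodule.span k (s : Set V)) :=
      FiniteDimensional.span_finset k s
    refine Module.Finite.of_surjective
      ((Submodule.mkQ ((LinearMap.range X.d).comap (LinearMap.ker X.d).subtype)).comp
        (Submodule.inclusion hle)) ?_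
    intro q
    obtain ⟨⟨x, hx⟩, rfl⟩ := Submodule.mkQ_surjective _ q
    obtain ⟨y, hy, z, hz⟩ := h x (LinearMap.mem_ker.1 hx)
    refine ⟨⟨y, hy⟩, ?_⟩
    rw [LinearMap.comp_apply, Submodule.mkQ_apply, Submodule.mkQ_apply, Submodule.Quotient.eq]
    refine ⟨-z, ?_⟩
    rw [map_neg]
    change - X.d z = y - x
    rw [hz]
    abel

theorem Dg.FinCoh.of_equiv {V W : Type u} [AddCommGroup V] [Module k V] [AddCommGroup W]
    [Module k W] {X : Dg k V} {Y : Dg k W} (e : V ≃ₗ[k] W) (h : ∀ v, Y.d (e v) = e (X.d v))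
    (hX : X.FinCoh) : Y.FinCoh := by
  refine finCoh_exact (X := X) (Z := X) (e : V →ₗ[k] W) 0 ?_ ?_ ?_ ?_ ?_ hX hX
  · intro x hx
    rw [LinearEquiv.coe_coe, h, hx, map_zero]
  · intro u
    exact ⟨e u, by rw [h, LinearEquiv.coe_coe]⟩
  · intro y _
    rw [LinearMap.zero_apply, map_zero]
  · intro v
    exact ⟨0, by rw [LinearMap.zero_apply, map_zero]⟩
  · intro y hy _
    refine ⟨e.symm y, ?_, 0, ?_⟩
    · apply e.injective
      rw [← h, e.apply_symm_apply, hy, map_zero]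
    · rw [LinearEquiv.coe_coe, e.apply_symm_apply, map_zero, add_zero]

theorem Dg.finCoh_of_finite {V : Type u} [AddCommGroup V] [Module k V] [Module.Finite k V]
    (X : Dg k V) : X.FinCoh := by
  unfold Dg.FinCoh
  infer_instance

theorem FinCoh.of_acyc {M : Bim A B} (h : Acyc M) : M.dg.FinCoh := by
  rw [Dg.finCoh_iff]
  refine ⟨∅, by simp, fun x hx => ?_⟩
  obtain ⟨y, hy⟩ := h x hx
  exact ⟨0, Submodule.zero_mem _, y, by rw [hy, zero_add]⟩

theorem FinCoh.summand {M' M : Bim A B} (h : IsSummand M' M) (hM : M.dg.FinCoh) :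
    M'.dg.FinCoh := by
  obtain ⟨i, r, hi, hr, hri⟩ := h
  refine finCoh_exact (X := M.dg) (Z := M.dg) r.f 0 ?_ ?_ ?_ ?_ ?_ hM hM
  · intro x hx
    rw [GMap.d_f_zero hr, hx, map_zero]
  · intro u
    exact ⟨r.f u, GMap.d_f_zero hr u⟩
  · intro y _
    rw [LinearMap.zero_apply, map_zero]
  · intro v
    exact ⟨0, by rw [LinearMap.zero_apply, map_zero]⟩
  · intro y hy _
    refine ⟨i.f y, ?_, 0, ?_⟩
    · rw [GMap.d_f_zero hi, hy, map_zero]
    · rw [hri, map_zero, add_zero]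

theorem FinCoh.mid {M' M M'' : Bim A B} (h : IsExt M' M M'') (h' : M'.dg.FinCoh)
    (h'' : M''.dg.FinCoh) : M.dg.FinCoh := by
  obtain ⟨i, p, r, σ, hi, hp, hri, hpσ, hpi, hrσ, hs⟩ := h
  refine finCoh_exact (X := M'.dg) (Z := M''.dg) i.f p.f ?_ ?_ ?_ ?_ ?_ h' h''
  · intro x hx
    rw [GMap.d_f_zero hi, hx, map_zero]
  · intro u
    exact ⟨i.f u, GMap.d_f_zero hi u⟩
  · intro x hx
    rw [GMap.d_f_zero hp, hx, map_zero]
  · intro u
    exact ⟨p.f u, GMap.d_f_zero hp u⟩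
  · rintro y hy ⟨z, hz⟩
    have hpw : p.f (y - M.dg.d (σ.f z)) = 0 := by
      rw [map_sub, ← GMap.d_f_zero hp, hpσ, hz, sub_self]
    have hw : i.f (r.f (y - M.dg.d (σ.f z))) = y - M.dg.d (σ.f z) := by
      have h1 := hs (y - M.dg.d (σ.f z))
      rwa [hpw, map_zero, add_zero] at h1
    refine ⟨r.f (y - M.dg.d (σ.f z)), ?_, σ.f z, ?_⟩
    · rw [← hri (M'.dg.d (r.f (y - M.dg.d (σ.f z)))), ← GMap.d_f_zero hi, hw, map_sub, hy,
        M.dg.d_d, sub_zero, map_zero]
    · rw [hw, sub_add_cancel]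

theorem FinCoh.left {M' M M'' : Bim A B} (h : IsExt M' M M'') (hM : M.dg.FinCoh)
    (h'' : M''.dg.FinCoh) : M'.dg.FinCoh := by
  obtain ⟨i, p, r, σ, hi, hp, hri, hpσ, hpi, hrσ, hs⟩ := h
  obtain ⟨κ, hκ, hiκ, hrκ⟩ := ext_kappa hi hp hri hpσ hpi hrσ hs
  have hdκ : ∀ x, M'.dg.d (κ.f x) = - κ.f (M''.dg.d x) := fun x => by
    rw [GMap.d_f hκ, sg_one, neg_smul, one_smul]
  refine finCoh_exact (X := M''.dg) (Z := M.dg) κ.f i.f ?_ ?_ ?_ ?_ ?_ h'' hM
  · intro x hx
    rw [hdκ, hx, map_zero, neg_zero]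
  · intro u
    exact ⟨- κ.f u, by rw [map_neg, hdκ, neg_neg]⟩
  · intro x hx
    rw [GMap.d_f_zero hi, hx, map_zero]
  · intro u
    exact ⟨i.f u, GMap.d_f_zero hi u⟩
  · rintro x hx ⟨w, hw⟩
    refine ⟨p.f w, ?_, r.f w, ?_⟩
    · rw [GMap.d_f_zero hp, hw, hpi]
    · have h1 := hrκ w
      rw [GMap.dd_apply, sg_zero, one_smul, hw, hri] at h1
      have h2 : M'.dg.d (r.f w) = x - κ.f (p.f w) := by
        rw [sub_eq_iff_eq_add] at h1
        rw [h1]
        abel
      rw [h2]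
      abel

theorem FinCoh.right {M' M M'' : Bim A B} (h : IsExt M' M M'') (h' : M'.dg.FinCoh)
    (hM : M.dg.FinCoh) : M''.dg.FinCoh := by
  obtain ⟨i, p, r, σ, hi, hp, hri, hpσ, hpi, hrσ, hs⟩ := h
  obtain ⟨κ, hκ, hiκ, hrκ⟩ := ext_kappa hi hp hri hpσ hpi hrσ hs
  have hdκ : ∀ x, M'.dg.d (κ.f x) = - κ.f (M''.dg.d x) := fun x => by
    rw [GMap.d_f hκ, sg_one, neg_smul, one_smul]
  refine finCoh_exact (X := M.dg) (Z := M'.dg) p.f κ.f ?_ ?_ ?_ ?_ ?_ hM h'
  · intro x hx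
    rw [GMap.d_f_zero hp, hx, map_zero]
  · intro u
    exact ⟨p.f u, GMap.d_f_zero hp u⟩
  · intro x hx
    rw [hdκ, hx, map_zero, neg_zero]
  · intro u
    exact ⟨- κ.f u, by rw [map_neg, hdκ, neg_neg]⟩
  · rintro y hy ⟨w, hw⟩
    refine ⟨σ.f y - i.f w, ?_, 0, ?_⟩
    · have h1 := hiκ y
      rw [GMap.dd_apply, sg_zero, one_smul, hy, map_zero, sub_zero, ← hw, ← GMap.d_f_zero hi]
        at h1
      rw [map_sub, h1, sub_self]
    · rw [map_sub, hpσ, hpi, sub_zero, map_zero, add_zero]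

end Pool.Agent.MP_6e5bed_ag_NC
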