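import Pool.Agent.Lib.MP_6e5bed_ag_NC.FBend
import Pool.Agent.Lib.MP_6e5bed_ag_NC.FTb
import Pool.Agent.Lib.MP_6e5bed_ag_NC.CAssoc
import Pool.Agent.Lib.MP_6e5bed_ag_NC.CUnit

set_option autoImplicit false

/-!
# Bent free bimodules
-/

namespace Pool.Agent.MP_6e5bed_ag_NC

open scoped TensorProduct

universe u

variable {k : Type u} [CommRing k] {A B X Z : DGA k}

private noncomputable def hhrF (A B : DGA k) :
    A.A ⊗[k] B.A →ₗ[k] A.A ⊗[k] B.A →ₗ[k] A.A ⊗[k] B.A := hhr (free A B)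

private noncomputable def eelF (A B : DGA k) :
    A.A ⊗[k] B.A →ₗ[k] A.A ⊗[k] B.A →ₗ[k] A.A ⊗[k] B.A := eel (free A B)

private theorem hhrF_even {a : A.A} (ha : A.dg.o a = 0) (b : B.A) (x : A.A) (y : B.A) :
    hhrF A B (a ⊗ₜ[k] b) (x ⊗ₜ[k] y) = A.mul a x ⊗ₜ[k] B.mul y b :=
  hhr_even (M := free A B) ha b (x ⊗ₜ[k] y)

private theorem hhrF_odd {a : A.A} (ha : A.dg.o a = a) (b : B.A) (x : A.A) (y : B.A) :
    hhrF A B (a ⊗ₜ[k] b) (x ⊗ₜ[k] y) = A.mul a (A.dg.s x) ⊗ₜ[k] B.mul (B.dg.s y) b := by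
  have h := hhr_odd (M := free A B) ha b (x ⊗ₜ[k] y)
  have h1 : (free A B).dg.s (x ⊗ₜ[k] y) = A.dg.s x ⊗ₜ[k] B.dg.s y := Dg.tensor_s x y
  rw [h1] at h
  exact h

private theorem eelF_even {b : B.A} (hb : B.dg.o b = 0) (a : A.A) (x : A.A) (y : B.A) :
    eelF A B (a ⊗ₜ[k] b) (x ⊗ₜ[k] y) = A.mul a x ⊗ₜ[k] B.mul y b :=
  eel_even (M := free A B) hb a (x ⊗ₜ[k] y)

private theorem eelF_odd {b : B.A} (hb : B.dg.o b = b) (a : A.A) (x : A.A) (y : B.A) :
    eelF A B (a ⊗ₜ[k] b) (x ⊗ₜ[k] y) = A.mul a (A.dg.s x) ⊗ₜ[k] B.mul (B.dg.s y) b := by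
  have h := eel_odd (M := free A B) hb a (x ⊗ₜ[k] y)
  have h1 : (free A B).dg.s (x ⊗ₜ[k] y) = A.dg.s x ⊗ₜ[k] B.dg.s y := Dg.tensor_s x y
  rw [h1] at h
  exact h

private theorem hhrF_eq (A B : DGA k) :
    hhrF A B = (kz A.dg B.dg (tw A.dg A.dg A.mul) B.mul).flip := by
  refine TensorProduct.ext' (fun a' b' => TensorProduct.ext' (fun a b => ?_))
  rw [LinearMap.flip_apply]
  refine A.dg.parity_ind (P := fun a' => hhrF A B (a' ⊗ₜ[k] b') (a ⊗ₜ[k] b) =
    kz A.dg B.dg (tw A.dg A.dg A.mul) B.mul (a ⊗ₜ[k] b) (a' ⊗ₜ[k] b')) ?_ ?_ ?_ a'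
  · intro u v hu hv
    rw [TensorProduct.add_tmul, map_add, map_add, LinearMap.add_apply, hu, hv]
  · intro u hu
    rw [kz_even' hu, tw_even' hu, hhrF_even hu]
  · intro u hu
    rw [kz_odd' hu, tw_odd' hu, hhrF_odd hu]

private theorem eelF_eq (A B : DGA k) :
    eelF A B = kz A.dg B.dg A.mul (tw B.dg B.dg B.mul) := by
  refine TensorProduct.ext' (fun a' b' => TensorProduct.ext' (fun a b => ?_))
  refine B.dg.parity_ind (P := fun b' => eelF A B (a' ⊗ₜ[k] b') (a ⊗ₜ[k] b) =
    kz A.dg B.dg A.mul (tw B.dg B.dg B.mul) (a' ⊗ₜ[k] b') (a ⊗ₜ[k] b)) ?_ ?_ ?_ b'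
  · intro u v hu hv
    rw [TensorProduct.tmul_add, map_add, map_add, LinearMap.add_apply, LinearMap.add_apply, hu, hv]
  · intro u hu
    rw [kz_even hu, tw_even hu, eelF_even hu]
  · intro u hu
    rw [kz_odd hu, tw_odd hu, eelF_odd hu]

private theorem hhr_free (c x : A.A ⊗[k] B.A) :
    hhr (free A B) c x = kz A.dg B.dg (tw A.dg A.dg A.mul) B.mul x c :=
  LinearMap.congr_fun (LinearMap.congr_fun (hhrF_eq A B) c) x

private theorem eel_free (c x : A.A ⊗[k] B.A) :
    eel (free A B) c x = kz A.dg B.dg A.mul (tw B.dg B.dg B.mul) c x :=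
  LinearMap.congr_fun (LinearMap.congr_fun (eelF_eq A B) c) x

/-- The map `x ↦ 1 ⊗ x`. -/
private noncomputable def lone (C : DGA k) : C.A →ₗ[k] (base k).A ⊗[k] C.A :=
  TensorProduct.mk k (base k).A C.A (base k).one

private theorem lone_apply {C : DGA k} (x : C.A) : lone C x = (base k).one ⊗ₜ[k] x := rfl

/-- The map `x ↦ x ⊗ 1`. -/
private noncomputable def rone (C : DGA k) : C.A →ₗ[k] C.A ⊗[k] (base k).A :=
  (TensorProduct.mk k C.A (base k).A).flip (base k).one

private theorem rone_apply {C : DGA k} (x : C.A) : rone C x = x ⊗ₜ[k] (base k).one := rfl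

private theorem lone_deg {C : DGA k} {i : ℤ} {x : C.A} (hx : C.dg.IsDeg i x) :
    ((base k).dg.tensor C.dg).IsDeg (i + 0) (lone C x) := by
  rw [lone_apply, add_comm]
  exact Dg.tensor_deg (base k).one_deg hx

private theorem rone_deg {C : DGA k} {i : ℤ} {x : C.A} (hx : C.dg.IsDeg i x) :
    (C.dg.tensor (base k).dg).IsDeg (i + 0) (rone C x) := by
  rw [rone_apply]
  exact Dg.tensor_deg hx (base k).one_deg

private theorem lone_d {C : DGA k} (x : C.A) :
    ((base k).dg.tensor C.dg).d (lone C x) = lone C (C.dg.d x) := by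
  rw [lone_apply, Dg.tensor_d, (base k).d_one, (base k).s_one, TensorProduct.zero_tmul, zero_add,
    lone_apply]

private theorem rone_d {C : DGA k} (x : C.A) :
    (C.dg.tensor (base k).dg).d (rone C x) = rone C (C.dg.d x) := by
  rw [rone_apply, Dg.tensor_d, (base k).d_one, TensorProduct.tmul_zero, add_zero, rone_apply]

private theorem lone_bij (C : DGA k) : Function.Bijective (lone C) := by
  have h : ∀ x, lone C x = (TensorProduct.lid k C.A).symm x := fun x => by
    rw [lone_apply, TensorProduct.lid_symm_apply]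
    rfl
  have h2 : (lone C : C.A → (base k).A ⊗[k] C.A) = (TensorProduct.lid k C.A).symm := funext h
  rw [h2]
  exact (TensorProduct.lid k C.A).symm.bijective

private theorem rone_bij (C : DGA k) : Function.Bijective (rone C) := by
  have h : ∀ x, rone C x = (TensorProduct.rid k C.A).symm x := fun x => by
    rw [rone_apply, TensorProduct.rid_symm_apply]
    rfl
  have h2 : (rone C : C.A → C.A ⊗[k] (base k).A) = (TensorProduct.rid k C.A).symm := funext h
  rw [h2]
  exact (TensorProduct.rid k C.A).symm.bijective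

private theorem hh_free_r (c x : A.A ⊗[k] B.A) :
    lone (A.op.tensor B) (hhr (free A B) c x) =
      (free (base k) (A.op.tensor B)).r c (lone (A.op.tensor B) x) := by
  have h : (free (base k) (A.op.tensor B)).r c (lone (A.op.tensor B) x) =
    lone (A.op.tensor B) ((A.op.tensor B).mul x c) := rfl
  rw [h, hhr_free]
  rfl

private theorem ee_free_l (c x : A.A ⊗[k] B.A) :
    rone (A.tensor B.op) (eel (free A B) c x) =
      (free (A.tensor B.op) (base k)).l c (rone (A.tensor B.op) x) := by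
  have h : (free (A.tensor B.op) (base k)).l c (rone (A.tensor B.op) x) =
    rone (A.tensor B.op) ((A.tensor B.op).mul c x) := rfl
  rw [h, eel_free]
  rfl

/-- The bent free bimodule is free. -/
theorem hh_free (A B : DGA k) : BIso (HH (free A B)) (free (base k) (A.op.tensor B)) := by
  refine BIso.of_bij (M := HH (free A B)) (N := free (base k) (A.op.tensor B))
    ⟨lone (A.op.tensor B), fun {i x} hx => lone_deg hx, fun c x => ?_, fun c x =>
      hh_free_r (A := A) (B := B) c x⟩ ?_ (lone_bij (A.op.tensor B))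
  · rw [Dg.sp_zero, base_l, base_l, map_smul]
  · refine LinearMap.ext (fun x => ?_)
    rw [GMap.dd_apply, sg_zero, one_smul]
    exact sub_eq_zero.2 (lone_d (C := A.op.tensor B) x)

/-- The bent free bimodule is free. -/
theorem ee_free (A B : DGA k) : BIso (EE (free A B)) (free (A.tensor B.op) (base k)) := by
  refine BIso.of_bij (M := EE (free A B)) (N := free (A.tensor B.op) (base k))
    ⟨rone (A.tensor B.op), fun {i x} hx => rone_deg hx, fun c x => ?_, fun c x => ?_⟩ ?_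
      (rone_bij (A.tensor B.op))
  · rw [Dg.sp_zero]
    exact ee_free_l (A := A) (B := B) c x
  · rw [base_r, base_r, map_smul]
  · refine LinearMap.ext (fun x => ?_)
    rw [GMap.dd_apply, sg_zero, one_smul]
    exact sub_eq_zero.2 (rone_d (C := A.tensor B.op) x)

end Pool.Agent.MP_6e5bed_ag_NC
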