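import Pool.Agent.Lib.MP_6e5bed_ag_NC.FBox

set_option autoImplicit false

/-!
# The external tensor product of free bimodules
-/

namespace Pool.Agent.MP_6e5bed_ag_NC

open scoped TensorProduct

universe u

variable {k : Type u} [CommRing k]

section psi

variable {V W V' W' : Type u} [AddCommGroup V] [Module k V] [AddCommGroup W] [Module k W]
  [AddCommGroup V'] [Module k V'] [AddCommGroup W'] [Module k W']

/-- The exchange of the two middle factors:
`(v ⊗ w) ⊗ (v' ⊗ w') ↦ (-1)^(|w||v'|) (v ⊗ v') ⊗ (w ⊗ w')`. -/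
private noncomputable def BoxFree_psi (X' : Dg k V') (Y : Dg k W) :
    (V ⊗[k] W) ⊗[k] (V' ⊗[k] W') →ₗ[k] (V ⊗[k] V') ⊗[k] (W ⊗[k] W') :=
  TensorProduct.lift (kz X' Y (TensorProduct.mk k V V') (TensorProduct.mk k W W'))

variable {X : Dg k V} {Y : Dg k W} {X' : Dg k V'} {Y' : Dg k W'}

private theorem BoxFree_psi_tmul (x : V ⊗[k] W) (y : V' ⊗[k] W') :
    BoxFree_psi X' Y (x ⊗ₜ y) =
      kz X' Y (TensorProduct.mk k V V') (TensorProduct.mk k W W') x y := by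
  rw [BoxFree_psi, TensorProduct.lift.tmul]

private theorem BoxFree_psi_even {w : W} (hw : Y.o w = 0) (v : V) (v' : V') (w' : W') :
    BoxFree_psi X' Y ((v ⊗ₜ w) ⊗ₜ (v' ⊗ₜ w')) = (v ⊗ₜ v') ⊗ₜ (w ⊗ₜ w') := by
  rw [BoxFree_psi_tmul, kz_even hw]
  rfl

private theorem BoxFree_psi_odd {w : W} (hw : Y.o w = w) (v : V) (v' : V') (w' : W') :
    BoxFree_psi X' Y ((v ⊗ₜ w) ⊗ₜ (v' ⊗ₜ w')) = (v ⊗ₜ X'.s v') ⊗ₜ (w ⊗ₜ w') := by
  rw [BoxFree_psi_tmul, kz_odd hw]
  rfl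

private theorem BoxFree_psi_even' {v' : V'} (hv : X'.o v' = 0) (v : V) (w : W) (w' : W') :
    BoxFree_psi X' Y ((v ⊗ₜ w) ⊗ₜ (v' ⊗ₜ w')) = (v ⊗ₜ v') ⊗ₜ (w ⊗ₜ w') := by
  rw [BoxFree_psi_tmul, kz_even' hv]
  rfl

private theorem BoxFree_psi_odd' {v' : V'} (hv : X'.o v' = v') (v : V) (w : W) (w' : W') :
    BoxFree_psi X' Y ((v ⊗ₜ w) ⊗ₜ (v' ⊗ₜ w')) = (v ⊗ₜ v') ⊗ₜ (Y.s w ⊗ₜ w') := by
  rw [BoxFree_psi_tmul, kz_odd' hv]
  rfl

private theorem BoxFree_ind4 {P : (V ⊗[k] W) ⊗[k] (V' ⊗[k] W') → Prop}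
    (h0 : P 0) (hadd : ∀ x y, P x → P y → P (x + y))
    (h : ∀ v w v' w', P ((v ⊗ₜ w) ⊗ₜ (v' ⊗ₜ w'))) (x : (V ⊗[k] W) ⊗[k] (V' ⊗[k] W')) :
    P x := by
  induction x using TensorProduct.induction_on with
  | zero => exact h0
  | add x y hx hy => exact hadd _ _ hx hy
  | tmul x y =>
    induction x using TensorProduct.induction_on with
    | zero => rw [TensorProduct.zero_tmul]; exact h0
    | add x x' hx hx' => rw [TensorProduct.add_tmul]; exact hadd _ _ hx hx'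
    | tmul v w =>
      induction y using TensorProduct.induction_on with
      | zero => rw [TensorProduct.tmul_zero]; exact h0
      | add y y' hy hy' => rw [TensorProduct.tmul_add]; exact hadd _ _ hy hy'
      | tmul v' w' => exact h v w v' w'

private theorem BoxFree_psi_psi (x : (V ⊗[k] W) ⊗[k] (V' ⊗[k] W')) :
    BoxFree_psi Y X' (BoxFree_psi X' Y x) = x := by
  refine BoxFree_ind4 (P := fun x => BoxFree_psi Y X' (BoxFree_psi X' Y x) = x) ?_ ?_ ?_ x
  · rw [map_zero, map_zero]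
  · intro x y hx hy
    rw [map_add, map_add, hx, hy]
  · intro v w v' w'
    refine Y.parity_ind (P := fun w => BoxFree_psi Y X'
      (BoxFree_psi X' Y ((v ⊗ₜ w) ⊗ₜ (v' ⊗ₜ w'))) = (v ⊗ₜ w) ⊗ₜ (v' ⊗ₜ w')) ?_ ?_ ?_ w
    · intro a b ha hb
      simp only [TensorProduct.tmul_add, TensorProduct.add_tmul, map_add, ha, hb]
    · intro w hw
      rw [BoxFree_psi_even hw, BoxFree_psi_even' hw]
    · intro w hw
      rw [BoxFree_psi_odd hw, BoxFree_psi_odd' hw, Dg.s_s]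

private theorem BoxFree_psi_deg {j : ℤ} {x : (V ⊗[k] W) ⊗[k] (V' ⊗[k] W')}
    (hx : ((X.tensor Y).tensor (X'.tensor Y')).IsDeg j x) :
    ((X.tensor X').tensor (Y.tensor Y')).IsDeg (j + 0) (BoxFree_psi X' Y x) := by
  refine Dg.tensor_degMap (X := X.tensor Y) (Y := X'.tensor Y')
    (Z := (X.tensor X').tensor (Y.tensor Y')) (BoxFree_psi X' Y) (fun i j v w hv hw => ?_) hx
  rw [add_zero, BoxFree_psi_tmul]
  exact kz_deg (fun h h' => Dg.tensor_deg h h') (fun h h' => Dg.tensor_deg h h') hv hw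

private theorem BoxFree_psi_d (x : (V ⊗[k] W) ⊗[k] (V' ⊗[k] W')) :
    ((X.tensor X').tensor (Y.tensor Y')).d (BoxFree_psi X' Y x) =
      BoxFree_psi X' Y (((X.tensor Y).tensor (X'.tensor Y')).d x) := by
  induction x using TensorProduct.induction_on with
  | zero => simp
  | add x y hx hy => simp only [map_add, hx, hy]
  | tmul x y =>
    rw [Dg.tensor_d, map_add, BoxFree_psi_tmul, BoxFree_psi_tmul, BoxFree_psi_tmul]
    exact kz_d (fun v v' => Dg.tensor_d v v') (fun v v' => Dg.tensor_s v v')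
      (fun w w' => Dg.tensor_d w w') x y

/-- Left multiplication on the first factor. -/
private noncomputable def BoxFree_lt (W : Type u) [AddCommGroup W] [Module k W]
    (μ : V →ₗ[k] V →ₗ[k] V) : V →ₗ[k] V ⊗[k] W →ₗ[k] V ⊗[k] W :=
  LinearMap.rTensorHom W ∘ₗ μ

private theorem BoxFree_lt_tmul (μ : V →ₗ[k] V →ₗ[k] V) (a v : V) (w : W) :
    BoxFree_lt W μ a (v ⊗ₜ w) = μ a v ⊗ₜ w := by
  rw [BoxFree_lt, LinearMap.comp_apply, LinearMap.coe_rTensorHom, LinearMap.rTensor_tmul]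

/-- Right multiplication on the second factor. -/
private noncomputable def BoxFree_rt (V : Type u) [AddCommGroup V] [Module k V]
    (ν : W →ₗ[k] W →ₗ[k] W) : V ⊗[k] W →ₗ[k] W →ₗ[k] V ⊗[k] W :=
  (LinearMap.lTensorHom V ∘ₗ ν.flip).flip

private theorem BoxFree_rt_tmul (ν : W →ₗ[k] W →ₗ[k] W) (v : V) (w b : W) :
    BoxFree_rt V ν (v ⊗ₜ w) b = v ⊗ₜ ν w b := by
  rw [BoxFree_rt, LinearMap.flip_apply, LinearMap.comp_apply, LinearMap.coe_lTensorHom,
    LinearMap.lTensor_tmul, LinearMap.flip_apply]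

private theorem BoxFree_psi_l {μ : V →ₗ[k] V →ₗ[k] V} {μ' : V' →ₗ[k] V' →ₗ[k] V'}
    (hs : ∀ a b, X'.s (μ' a b) = μ' (X'.s a) (X'.s b)) (x : V ⊗[k] V')
    (y : (V ⊗[k] W) ⊗[k] (V' ⊗[k] W')) :
    BoxFree_psi X' Y (kz (X.tensor Y) X' (BoxFree_lt W μ) (BoxFree_lt W' μ') x y) =
      BoxFree_lt (W ⊗[k] W') (kz X X' μ μ') x (BoxFree_psi X' Y y) := by
  induction x using TensorProduct.induction_on with
  | zero => simp only [map_zero, LinearMap.zero_apply]
  | add x x' hx hx' => simp only [map_add, LinearMap.add_apply, hx, hx']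
  | tmul a a' =>
    refine BoxFree_ind4 (P := fun y =>
      BoxFree_psi X' Y (kz (X.tensor Y) X' (BoxFree_lt W μ) (BoxFree_lt W' μ') (a ⊗ₜ a') y) =
        BoxFree_lt (W ⊗[k] W') (kz X X' μ μ') (a ⊗ₜ a') (BoxFree_psi X' Y y)) ?_ ?_ ?_ y
    · simp only [map_zero]
    · intro y y' hy hy'
      simp only [map_add, hy, hy']
    · intro v w v' w'
      refine X'.parity_ind (P := fun a' =>
        BoxFree_psi X' Y (kz (X.tensor Y) X' (BoxFree_lt W μ) (BoxFree_lt W' μ') (a ⊗ₜ a')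
            ((v ⊗ₜ w) ⊗ₜ (v' ⊗ₜ w'))) =
          BoxFree_lt (W ⊗[k] W') (kz X X' μ μ') (a ⊗ₜ a')
            (BoxFree_psi X' Y ((v ⊗ₜ w) ⊗ₜ (v' ⊗ₜ w')))) ?_ ?_ ?_ a'
      · intro a b ha hb
        simp only [TensorProduct.tmul_add, map_add, LinearMap.add_apply, ha, hb]
      · intro a' ha'
        refine Y.parity_ind (P := fun w =>
          BoxFree_psi X' Y (kz (X.tensor Y) X' (BoxFree_lt W μ) (BoxFree_lt W' μ') (a ⊗ₜ a')
              ((v ⊗ₜ w) ⊗ₜ (v' ⊗ₜ w'))) =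
            BoxFree_lt (W ⊗[k] W') (kz X X' μ μ') (a ⊗ₜ a')
              (BoxFree_psi X' Y ((v ⊗ₜ w) ⊗ₜ (v' ⊗ₜ w')))) ?_ ?_ ?_ w
        · intro b c hb hc
          simp only [TensorProduct.tmul_add, TensorProduct.add_tmul, map_add, hb, hc]
        · intro w hw
          rw [kz_even ha', BoxFree_lt_tmul, BoxFree_lt_tmul, BoxFree_psi_even hw,
            BoxFree_psi_even hw, BoxFree_lt_tmul, kz_even ha']
        · intro w hw
          rw [kz_even ha', BoxFree_lt_tmul, BoxFree_lt_tmul, BoxFree_psi_odd hw,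
            BoxFree_psi_odd hw, BoxFree_lt_tmul, kz_even ha', hs, Dg.s_of_even ha']
      · intro a' ha'
        refine Y.parity_ind (P := fun w =>
          BoxFree_psi X' Y (kz (X.tensor Y) X' (BoxFree_lt W μ) (BoxFree_lt W' μ') (a ⊗ₜ a')
              ((v ⊗ₜ w) ⊗ₜ (v' ⊗ₜ w'))) =
            BoxFree_lt (W ⊗[k] W') (kz X X' μ μ') (a ⊗ₜ a')
              (BoxFree_psi X' Y ((v ⊗ₜ w) ⊗ₜ (v' ⊗ₜ w')))) ?_ ?_ ?_ w
        · intro b c hb hc
          simp only [TensorProduct.tmul_add, TensorProduct.add_tmul, map_add, hb, hc]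
        · intro w hw
          rw [kz_odd ha', Dg.tensor_s, BoxFree_lt_tmul, BoxFree_lt_tmul, Dg.s_of_even hw,
            BoxFree_psi_even hw, BoxFree_psi_even hw, BoxFree_lt_tmul, kz_odd ha']
        · intro w hw
          rw [kz_odd ha', Dg.tensor_s, Dg.s_of_odd hw, TensorProduct.tmul_neg, map_neg,
            BoxFree_lt_tmul, BoxFree_lt_tmul, TensorProduct.neg_tmul, map_neg,
            BoxFree_psi_odd hw, BoxFree_psi_odd hw, BoxFree_lt_tmul, kz_odd ha', hs,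
            Dg.s_of_odd ha', map_neg, LinearMap.neg_apply, TensorProduct.tmul_neg,
            TensorProduct.neg_tmul, neg_neg]

private theorem BoxFree_psi_r {ν : W →ₗ[k] W →ₗ[k] W} {ν' : W' →ₗ[k] W' →ₗ[k] W'}
    (hs : ∀ a b, Y.s (ν a b) = ν (Y.s a) (Y.s b)) (x : W ⊗[k] W')
    (y : (V ⊗[k] W) ⊗[k] (V' ⊗[k] W')) :
    BoxFree_psi X' Y (kz Y (X'.tensor Y') (BoxFree_rt V ν) (BoxFree_rt V' ν') y x) =
      BoxFree_rt (V ⊗[k] V') (kz Y Y' ν ν') (BoxFree_psi X' Y y) x := by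
  induction x using TensorProduct.induction_on with
  | zero => simp only [map_zero]
  | add x x' hx hx' => simp only [map_add, hx, hx']
  | tmul b b' =>
    refine BoxFree_ind4 (P := fun y =>
      BoxFree_psi X' Y (kz Y (X'.tensor Y') (BoxFree_rt V ν) (BoxFree_rt V' ν') y (b ⊗ₜ b')) =
        BoxFree_rt (V ⊗[k] V') (kz Y Y' ν ν') (BoxFree_psi X' Y y) (b ⊗ₜ b')) ?_ ?_ ?_ y
    · simp only [map_zero, LinearMap.zero_apply]
    · intro y y' hy hy'
      simp only [map_add, LinearMap.add_apply, hy, hy']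
    · intro v w v' w'
      refine Y.parity_ind (P := fun b =>
        BoxFree_psi X' Y (kz Y (X'.tensor Y') (BoxFree_rt V ν) (BoxFree_rt V' ν')
            ((v ⊗ₜ w) ⊗ₜ (v' ⊗ₜ w')) (b ⊗ₜ b')) =
          BoxFree_rt (V ⊗[k] V') (kz Y Y' ν ν')
            (BoxFree_psi X' Y ((v ⊗ₜ w) ⊗ₜ (v' ⊗ₜ w'))) (b ⊗ₜ b')) ?_ ?_ ?_ b
      · intro b c hb hc
        simp only [TensorProduct.add_tmul, map_add, hb, hc]
      · intro b hb
        refine X'.parity_ind (P := fun v' =>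
          BoxFree_psi X' Y (kz Y (X'.tensor Y') (BoxFree_rt V ν) (BoxFree_rt V' ν')
              ((v ⊗ₜ w) ⊗ₜ (v' ⊗ₜ w')) (b ⊗ₜ b')) =
            BoxFree_rt (V ⊗[k] V') (kz Y Y' ν ν')
              (BoxFree_psi X' Y ((v ⊗ₜ w) ⊗ₜ (v' ⊗ₜ w'))) (b ⊗ₜ b')) ?_ ?_ ?_ v'
        · intro c d hc hd
          simp only [TensorProduct.tmul_add, TensorProduct.add_tmul, map_add,
            LinearMap.add_apply, hc, hd]
        · intro v' hv'
          rw [kz_even' hb, BoxFree_rt_tmul, BoxFree_rt_tmul, BoxFree_psi_even' hv',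
            BoxFree_psi_even' hv', BoxFree_rt_tmul, kz_even' hb]
        · intro v' hv'
          rw [kz_even' hb, BoxFree_rt_tmul, BoxFree_rt_tmul, BoxFree_psi_odd' hv',
            BoxFree_psi_odd' hv', BoxFree_rt_tmul, kz_even' hb, hs, Dg.s_of_even hb]
      · intro b hb
        refine X'.parity_ind (P := fun v' =>
          BoxFree_psi X' Y (kz Y (X'.tensor Y') (BoxFree_rt V ν) (BoxFree_rt V' ν')
              ((v ⊗ₜ w) ⊗ₜ (v' ⊗ₜ w')) (b ⊗ₜ b')) =
            BoxFree_rt (V ⊗[k] V') (kz Y Y' ν ν')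
              (BoxFree_psi X' Y ((v ⊗ₜ w) ⊗ₜ (v' ⊗ₜ w'))) (b ⊗ₜ b')) ?_ ?_ ?_ v'
        · intro c d hc hd
          simp only [TensorProduct.tmul_add, TensorProduct.add_tmul, map_add,
            LinearMap.add_apply, hc, hd]
        · intro v' hv'
          rw [kz_odd' hb, Dg.tensor_s, Dg.s_of_even hv', BoxFree_rt_tmul, BoxFree_rt_tmul,
            BoxFree_psi_even' hv', BoxFree_psi_even' hv', BoxFree_rt_tmul, kz_odd' hb]
        · intro v' hv'
          rw [kz_odd' hb, Dg.tensor_s, Dg.s_of_odd hv', TensorProduct.neg_tmul, map_neg,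
            LinearMap.neg_apply, BoxFree_rt_tmul, BoxFree_rt_tmul, TensorProduct.tmul_neg,
            map_neg, BoxFree_psi_odd' hv', BoxFree_psi_odd' hv', BoxFree_rt_tmul, kz_odd' hb,
            hs, Dg.s_of_odd hb, map_neg, TensorProduct.neg_tmul, TensorProduct.tmul_neg,
            neg_neg]

end psi

/-- The external tensor product of free bimodules is free. -/
theorem box_free_free (A B A' B' : DGA k) :
    BIso (box (free A B) (free A' B')) (free (A.tensor A') (B.tensor B')) := by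
  refine BIso.of_bij (M := box (free A B) (free A' B'))
    (N := free (A.tensor A') (B.tensor B'))
    { f := BoxFree_psi A'.dg B.dg
      deg := fun {i m} hm => BoxFree_psi_deg (X := A.dg) (Y := B.dg) (X' := A'.dg)
        (Y' := B'.dg) hm
      map_l := fun (x : A.A ⊗[k] A'.A) (y : (A.A ⊗[k] B.A) ⊗[k] (A'.A ⊗[k] B'.A)) => by
        rw [Dg.sp_zero]
        exact BoxFree_psi_l (X := A.dg) (Y := B.dg) (X' := A'.dg) (μ := A.mul) (μ' := A'.mul)
          A'.s_mul x y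
      map_r := fun (x : B.A ⊗[k] B'.A) (y : (A.A ⊗[k] B.A) ⊗[k] (A'.A ⊗[k] B'.A)) => by
        exact BoxFree_psi_r (Y := B.dg) (X' := A'.dg) (Y' := B'.dg) (ν := B.mul) (ν' := B'.mul)
          B.s_mul x y } ?_ ?_
  · refine LinearMap.ext fun (x : (A.A ⊗[k] B.A) ⊗[k] (A'.A ⊗[k] B'.A)) => ?_
    rw [GMap.dd_apply, sg_zero, one_smul]
    exact sub_eq_zero.2 (BoxFree_psi_d (X := A.dg) (Y := B.dg) (X' := A'.dg) (Y' := B'.dg) x)
  · exact ⟨Function.LeftInverse.injective (g := BoxFree_psi B.dg A'.dg)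
      (fun x => BoxFree_psi_psi (Y := B.dg) (X' := A'.dg) x),
      Function.RightInverse.surjective (g := BoxFree_psi B.dg A'.dg)
      (fun x => BoxFree_psi_psi (Y := A'.dg) (X' := B.dg) x)⟩

end Pool.Agent.MP_6e5bed_ag_NC
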