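import Pool.Agent.Lib.MP_6e5bed_ag_NC.BoxFree
import Pool.Agent.Lib.MP_6e5bed_ag_NC.Htpy

set_option autoImplicit false

/-!
# The external tensor product: perfect and acyclic bimodules
-/

namespace Pool.Agent.MP_6e5bed_ag_NC

universe u

variable {k : Type u} [CommRing k] {A B A' B' : DGA k}

theorem Perf.box {M : Bim A B} {M' : Bim A' B'} (hM : Perf M) (hM' : Perf M') :
    Perf (box M M') := by
  have h0 : Perf (MP_6e5bed_ag_NC.box (MP_6e5bed_ag_NC.free A B)
      (MP_6e5bed_ag_NC.free A' B')) := (box_free_free A B A' B').symm.perf Perf.free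
  have h1 : Perf (MP_6e5bed_ag_NC.box M (MP_6e5bed_ag_NC.free A' B')) :=
    (MP_6e5bed_ag_NC.boxR A B (MP_6e5bed_ag_NC.free A' B')).perf h0 hM
  exact (MP_6e5bed_ag_NC.boxL M A' B').perf h1 hM'

/-- The complex underlying an external tensor product. -/
theorem und_box (M : Bim A B) (Y : Bim A' B') :
    BIso (und (box (und M) (und Y))) (und (box M Y)) :=
  BIso.ofBase (V := und (box (und M) (und Y))) (W := und (box M Y)) LinearMap.id
    (fun h => h) (fun _ => rfl) Function.bijective_id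

theorem RAc.boxR {M : Bim A B} (hM : RAc M) (Y : Bim A' B') : RAc (box M Y) := by
  have hV : Contr (und M) := hM
  have h2 : Contr (box (und M) (und Y)) :=
    (MP_6e5bed_ag_NC.boxR (base k) (base k) (und Y)).contr hV
  exact Contr.iso (und_box M Y) (RAc.of_contr h2)

theorem RAc.boxL (X : Bim A B) {M : Bim A' B'} (hM : RAc M) : RAc (box X M) := by
  have hV : Contr (und M) := hM
  have h2 : Contr (box (und X) (und M)) :=
    (MP_6e5bed_ag_NC.boxL (und X) (base k) (base k)).contr hV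
  exact Contr.iso (und_box X M) (RAc.of_contr h2)

theorem RQIso.boxR {M N : Bim A B} {φ : GMap 0 M N} (h : RQIso φ) (Y : Bim A' B') :
    RQIso (φ.boxR Y) := by
  have h1 : φ.dd = 0 := h.closed
  have hc : IsCone φ (cone φ h1) := isCone_cone φ h1
  have h2 : RAc (box (cone φ h1) Y) := RAc.boxR ((hc.rqiso_iff h1).1 h) Y
  have h3 : IsCone (φ.boxR Y) (box (cone φ h1) Y) :=
    (MP_6e5bed_ag_NC.boxR A B Y).isCone hc
  exact (h3.rqiso_iff ((MP_6e5bed_ag_NC.boxR A B Y).closed h1)).2 h2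

theorem RQIso.boxL (X : Bim A B) {M N : Bim A' B'} {φ : GMap 0 M N} (h : RQIso φ) :
    RQIso (φ.boxL X) := by
  have h1 : φ.dd = 0 := h.closed
  have hc : IsCone φ (cone φ h1) := isCone_cone φ h1
  have h2 : RAc (box X (cone φ h1)) := RAc.boxL X ((hc.rqiso_iff h1).1 h)
  have h3 : IsCone (φ.boxL X) (box X (cone φ h1)) :=
    (MP_6e5bed_ag_NC.boxL X A' B').isCone hc
  exact (h3.rqiso_iff ((MP_6e5bed_ag_NC.boxL X A' B').closed h1)).2 h2

end Pool.Agent.MP_6e5bed_ag_NC
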