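import Pool.Agent.Lib.MP_6e5bed_ag_NC.Box

set_option autoImplicit false

/-!
# The symmetry of the tensor product of dg algebras
-/

namespace Pool.Agent.MP_6e5bed_ag_NC

open scoped TensorProduct

universe u

section lemmas

variable {k : Type u} [CommRing k]
  {V1 V2 V1' V2' V1'' V2'' : Type u}
  [AddCommGroup V1] [Module k V1] [AddCommGroup V2] [Module k V2]
  [AddCommGroup V1'] [Module k V1'] [AddCommGroup V2'] [Module k V2']
  [AddCommGroup V1''] [Module k V1''] [AddCommGroup V2''] [Module k V2'']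

/-- The exchange of the factors, with the Koszul sign: `v ⊗ w ↦ (-1)^(|v||w|) w ⊗ v`. -/
noncomputable def ksw (X : Dg k V1) (Y : Dg k V2) : V1 ⊗[k] V2 →ₗ[k] V2 ⊗[k] V1 :=
  (TensorProduct.comm k V1 V2).toLinearMap -
    (2 : k) • (TensorProduct.comm k V1 V2).toLinearMap ∘ₗ TensorProduct.map X.o Y.o

theorem ksw_tmul (X : Dg k V1) (Y : Dg k V2) (v : V1) (w : V2) :
    ksw X Y (v ⊗ₜ w) = w ⊗ₜ v - (2 : k) • Y.o w ⊗ₜ X.o v := by
  simp [ksw]

theorem ksw_ksw (X : Dg k V1) (Y : Dg k V2) (x : V1 ⊗[k] V2) : ksw Y X (ksw X Y x) = x := by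
  induction x using TensorProduct.induction_on with
  | zero => simp
  | add x y hx hy => rw [map_add, map_add, hx, hy]
  | tmul v w =>
    simp only [ksw_tmul, map_sub, map_add, Dg.o_o, two_smul]
    abel

theorem ksw_deg (X : Dg k V1) (Y : Dg k V2) {i : ℤ} {x : V1 ⊗[k] V2}
    (hx : (X.tensor Y).IsDeg i x) : (Y.tensor X).IsDeg i (ksw X Y x) := by
  have h := Dg.tensor_degMap (X := X) (Y := Y) (Z := Y.tensor X) (n := 0) (ksw X Y)
    (fun i j v w hv hw => by
      rw [add_zero, ksw_tmul, add_comm i j]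
      exact (Dg.tensor_deg hw hv).sub ((Dg.tensor_deg hw.o hv.o).smul _)) hx
  rwa [add_zero] at h

theorem ksw_d (X : Dg k V1) (Y : Dg k V2) (x : V1 ⊗[k] V2) :
    (Y.tensor X).d (ksw X Y x) = ksw X Y ((X.tensor Y).d x) := by
  induction x using TensorProduct.induction_on with
  | zero => simp
  | add x y hx hy => simp only [map_add, hx, hy]
  | tmul v w =>
    simp only [ksw_tmul, Dg.tensor_d, map_sub, map_add, Dg.s_apply, Dg.o_d, Dg.o_o,
      TensorProduct.tmul_sub, TensorProduct.sub_tmul, smul_sub, two_smul,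
      TensorProduct.add_tmul]
    abel

theorem kz_swap {X : Dg k V1} {X' : Dg k V1'} {X'' : Dg k V1''} {Y : Dg k V2} {Y' : Dg k V2'}
    {Y'' : Dg k V2''} {α : V1 →ₗ[k] V1' →ₗ[k] V1''} {β : V2 →ₗ[k] V2' →ₗ[k] V2''}
    (hα : ∀ a b, X''.o (α a b) = α (X.o a) b + α a (X'.o b) - (2 : k) • α (X.o a) (X'.o b))
    (hβ : ∀ a b, Y''.o (β a b) = β (Y.o a) b + β a (Y'.o b) - (2 : k) • β (Y.o a) (Y'.o b))
    (x : V1 ⊗[k] V2) (y : V1' ⊗[k] V2') :
    ksw X'' Y'' (kz X' Y α β x y) = kz Y' X β α (ksw X Y x) (ksw X' Y' y) := by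
  induction x using TensorProduct.induction_on with
  | zero => simp
  | add x x' hx hx' => simp only [map_add, LinearMap.add_apply, hx, hx']
  | tmul v w =>
    induction y using TensorProduct.induction_on with
    | zero => simp
    | add y y' hy hy' => simp only [map_add, hy, hy']
    | tmul v' w' =>
      simp only [kz_tmul, ksw_tmul, map_sub, LinearMap.sub_apply, hα, hβ, Dg.o_o,
        TensorProduct.tmul_sub, TensorProduct.sub_tmul, TensorProduct.tmul_add,
        TensorProduct.add_tmul, smul_sub, smul_add, two_smul, map_add, LinearMap.add_apply]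
      abel

end lemmas

variable {k : Type u} [CommRing k]

/-- `A ⊗ B ≅ B ⊗ A`, `a ⊗ b ↦ (-1)^(|a||b|) b ⊗ a` -/
noncomputable def swapIso (A B : DGA k) : DIso (A.tensor B) (B.tensor A) where
  hom :=
    { f := ksw A.dg B.dg
      deg := fun h => ksw_deg A.dg B.dg h
      d := fun x => ksw_d A.dg B.dg x
      one := by
        change ksw A.dg B.dg (A.one ⊗ₜ B.one) = B.one ⊗ₜ A.one
        rw [ksw_tmul, A.o_one, B.o_one]
        simp
      mul := fun x y => kz_swap A.o_mul B.o_mul x y }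
  inv :=
    { f := ksw B.dg A.dg
      deg := fun h => ksw_deg B.dg A.dg h
      d := fun x => ksw_d B.dg A.dg x
      one := by
        change ksw B.dg A.dg (B.one ⊗ₜ A.one) = A.one ⊗ₜ B.one
        rw [ksw_tmul, A.o_one, B.o_one]
        simp
      mul := fun x y => kz_swap B.o_mul A.o_mul x y }
  hom_inv := fun x => ksw_ksw A.dg B.dg x
  inv_hom := fun x => ksw_ksw B.dg A.dg x

variable {A B : DGA k}

theorem swapIso_hom (a : A.A) (b : B.A) :
    (swapIso A B).hom.f (a ⊗ₜ b) = b ⊗ₜ a - (2 : k) • B.dg.o b ⊗ₜ A.dg.o a :=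
  ksw_tmul A.dg B.dg a b

end Pool.Agent.MP_6e5bed_ag_NC
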