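import Pool.Agent.Lib.MP_6e5bed_ag_NC.Gr

set_option autoImplicit false

/-!
# dg algebras and dg bimodules: definitions
-/

namespace Pool.Agent.MP_6e5bed_ag_NC

universe u

/-- The sign `(-1)^n`. -/
def sg (n : ℤ) : ℤ := if Even n then 1 else -1

/-- The `n`-th power of the sign involution. -/
noncomputable def Dg.sp {k : Type u} [CommRing k] {V : Type u} [AddCommGroup V] [Module k V]
    (X : Dg k V) (n : ℤ) : V →ₗ[k] V := if Even n then LinearMap.id else X.s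

/-- A dg algebra over the field `k`. -/
structure DGA (k : Type u) [CommRing k] where
  A : Type u
  [grp : AddCommGroup A]
  [mod : Module k A]
  dg : Dg k A
  mul : A →ₗ[k] A →ₗ[k] A
  one : A
  one_mul : ∀ a, mul one a = a
  mul_one : ∀ a, mul a one = a
  mul_assoc : ∀ a b c, mul (mul a b) c = mul a (mul b c)
  one_deg : dg.IsDeg 0 one
  mul_deg : ∀ {i j : ℤ} {a b : A}, dg.IsDeg i a → dg.IsDeg j b → dg.IsDeg (i + j) (mul a b)
  leibniz : ∀ a b : A, dg.d (mul a b) = mul (dg.d a) b + mul (dg.s a) (dg.d b)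

attribute [instance] DGA.grp DGA.mod

variable {k : Type u} [CommRing k]

/-- A dg `A`-`B`-bimodule: `l a m` is the product `a m`, and `r b m` is the product `m b`. -/
structure Bim (A B : DGA k) where
  M : Type u
  [grp : AddCommGroup M]
  [mod : Module k M]
  dg : Dg k M
  l : A.A →ₗ[k] M →ₗ[k] M
  r : B.A →ₗ[k] M →ₗ[k] M
  l_one : ∀ m, l A.one m = m
  r_one : ∀ m, r B.one m = m
  l_mul : ∀ a a' m, l (A.mul a a') m = l a (l a' m)
  r_mul : ∀ b b' m, r (B.mul b b') m = r b' (r b m)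
  l_r : ∀ a b m, l a (r b m) = r b (l a m)
  l_deg : ∀ {i j : ℤ} {a : A.A} {m : M}, A.dg.IsDeg i a → dg.IsDeg j m → dg.IsDeg (i + j) (l a m)
  r_deg : ∀ {i j : ℤ} {b : B.A} {m : M}, dg.IsDeg i m → B.dg.IsDeg j b → dg.IsDeg (i + j) (r b m)
  d_l : ∀ a m, dg.d (l a m) = l (A.dg.d a) m + l (A.dg.s a) (dg.d m)
  d_r : ∀ b m, dg.d (r b m) = r b (dg.d m) + r (B.dg.d b) (dg.s m)

attribute [instance] Bim.grp Bim.mod

variable {A B : DGA k}

/-- A morphism of degree `n` of graded bimodules (not necessarily compatible with the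
differentials). -/
structure GMap (n : ℤ) (M N : Bim A B) where
  f : M.M →ₗ[k] N.M
  deg : ∀ {i : ℤ} {m : M.M}, M.dg.IsDeg i m → N.dg.IsDeg (i + n) (f m)
  map_l : ∀ a m, f (M.l a m) = N.l (A.dg.sp n a) (f m)
  map_r : ∀ b m, f (M.r b m) = N.r b (f m)

/-- The differential `d f - (-1)^n f d` of a graded map of degree `n`. -/
def GMap.dd {n : ℤ} {M N : Bim A B} (φ : GMap n M N) : M.M →ₗ[k] N.M :=
  N.dg.d.comp φ.f - (sg n) • φ.f.comp M.dg.d

/-- Isomorphism of dg bimodules. -/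
def BIso (M N : Bim A B) : Prop :=
  ∃ (φ : GMap 0 M N) (ψ : GMap 0 N M), φ.dd = 0 ∧ (∀ m, ψ.f (φ.f m) = m) ∧ ∀ n, φ.f (ψ.f n) = n

/-- `0 → M' → M → M'' → 0` is a short exact sequence of dg bimodules for suitable maps, and is
split as a sequence of graded bimodules. -/
def IsExt (M' M M'' : Bim A B) : Prop :=
  ∃ (i : GMap 0 M' M) (p : GMap 0 M M'') (r : GMap 0 M M') (σ : GMap 0 M'' M),
    i.dd = 0 ∧ p.dd = 0 ∧ (∀ x, r.f (i.f x) = x) ∧ (∀ x, p.f (σ.f x) = x) ∧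
    (∀ x, p.f (i.f x) = 0) ∧ (∀ x, r.f (σ.f x) = 0) ∧ ∀ x, i.f (r.f x) + σ.f (p.f x) = x

/-- `M'` is a direct summand of `M`. -/
def IsSummand (M' M : Bim A B) : Prop :=
  ∃ (i : GMap 0 M' M) (r : GMap 0 M M'), i.dd = 0 ∧ r.dd = 0 ∧ ∀ x, r.f (i.f x) = x

/-- `M` is contractible: its identity is homotopic to zero. -/
def Contr (M : Bim A B) : Prop := ∃ h : GMap (-1) M M, h.dd = LinearMap.id

/-- The cohomology of `M` is zero. -/
def Acyc (M : Bim A B) : Prop := ∀ x, M.dg.d x = 0 → ∃ y, M.dg.d y = x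

/-- A closed morphism of degree `0` is a quasi-isomorphism: injective and surjective in
cohomology. -/
def QIso {M N : Bim A B} (φ : GMap 0 M N) : Prop :=
  φ.dd = 0 ∧ (∀ x, M.dg.d x = 0 → (∃ y, N.dg.d y = φ.f x) → ∃ z, M.dg.d z = x) ∧
  ∀ y, N.dg.d y = 0 → ∃ x, M.dg.d x = 0 ∧ ∃ z, N.dg.d z = y - φ.f x

/-- The total cohomology is finite-dimensional. -/
def Dg.FinCoh {V : Type u} [AddCommGroup V] [Module k V] (X : Dg k V) : Prop :=
  Module.Finite k (LinearMap.ker X.d ⧸ (LinearMap.range X.d).comap (LinearMap.ker X.d).subtype)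

theorem DGA.s_mul (A : DGA k) (a b : A.A) :
    A.dg.s (A.mul a b) = A.mul (A.dg.s a) (A.dg.s b) :=
  Dg.s_bilin A.mul (fun h h' => A.mul_deg h h') a b

theorem DGA.o_mul (A : DGA k) (a b : A.A) :
    A.dg.o (A.mul a b) = A.mul (A.dg.o a) b + A.mul a (A.dg.o b) -
      (2 : k) • A.mul (A.dg.o a) (A.dg.o b) :=
  Dg.o_bilin A.mul (fun h h' => A.mul_deg h h') a b

theorem Bim.s_l (M : Bim A B) (a : A.A) (m : M.M) :
    M.dg.s (M.l a m) = M.l (A.dg.s a) (M.dg.s m) :=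
  Dg.s_bilin M.l (fun h h' => M.l_deg h h') a m

theorem Bim.s_r (M : Bim A B) (b : B.A) (m : M.M) :
    M.dg.s (M.r b m) = M.r (B.dg.s b) (M.dg.s m) :=
  Dg.s_bilin M.r (fun h h' => by rw [add_comm]; exact M.r_deg h' h) b m

theorem Bim.o_l (M : Bim A B) (a : A.A) (m : M.M) :
    M.dg.o (M.l a m) = M.l (A.dg.o a) m + M.l a (M.dg.o m) -
      (2 : k) • M.l (A.dg.o a) (M.dg.o m) :=
  Dg.o_bilin M.l (fun h h' => M.l_deg h h') a m

theorem Bim.o_r (M : Bim A B) (b : B.A) (m : M.M) :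
    M.dg.o (M.r b m) = M.r (B.dg.o b) m + M.r b (M.dg.o m) -
      (2 : k) • M.r (B.dg.o b) (M.dg.o m) :=
  Dg.o_bilin M.r (fun h h' => by rw [add_comm]; exact M.r_deg h' h) b m

/-- The diagonal bimodule `A`. -/
def diag (A : DGA k) : Bim A A where
  M := A.A
  dg := A.dg
  l := A.mul
  r := A.mul.flip
  l_one := A.one_mul
  r_one := A.mul_one
  l_mul := A.mul_assoc
  r_mul := fun a a' m => (A.mul_assoc m a a').symm
  l_r := fun a b m => (A.mul_assoc a m b).symm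
  l_deg := A.mul_deg
  r_deg := A.mul_deg
  d_l := A.leibniz
  d_r := fun b m => A.leibniz m b

end Pool.Agent.MP_6e5bed_ag_NC
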