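import Pool.Agent.Lib.MP_6e5bed_ag_NC.Fun

set_option autoImplicit false

/-!
# Short exact sequences and cones
-/

namespace Pool.Agent.MP_6e5bed_ag_NC

universe u

variable {k : Type u} [CommRing k] {A B : DGA k}

theorem GMap.dd_of_inv {M N : Bim A B} {φ : GMap 0 M N} {ψ : GMap 0 N M}
    (h : ∀ x, ψ.f (φ.f x) = x) (x : M.M) : ψ.dd (φ.f x) + ψ.f (φ.dd x) = 0 := by
  have h1 := GMap.dd_comp φ ψ (add_zero 0) x
  have h2 : φ.comp ψ (add_zero 0) = GMap.id M := GMap.ext h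
  rw [h2, GMap.dd_id, sg_zero, one_smul] at h1
  exact h1.symm

theorem GMap.dd_of_zero {M N P : Bim A B} {φ : GMap 0 M N} {ψ : GMap 0 N P}
    (h : ∀ x, ψ.f (φ.f x) = 0) (x : M.M) : ψ.dd (φ.f x) + ψ.f (φ.dd x) = 0 := by
  have h1 := GMap.dd_comp φ ψ (add_zero 0) x
  have h2 : φ.comp ψ (add_zero 0) = 0 := GMap.ext h
  rw [h2, GMap.dd_zero, sg_zero, one_smul] at h1
  exact h1.symm

/-- The connecting map of a short exact sequence. -/
theorem ext_kappa {M' M M'' : Bim A B} {i : GMap 0 M' M} {p : GMap 0 M M''} {r : GMap 0 M M'}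
    {σ : GMap 0 M'' M} (h0 : i.dd = 0) (h1 : p.dd = 0) (h2 : ∀ x, r.f (i.f x) = x)
    (h3 : ∀ x, p.f (σ.f x) = x) (h4 : ∀ x, p.f (i.f x) = 0) (h5 : ∀ x, r.f (σ.f x) = 0)
    (h6 : ∀ x, i.f (r.f x) + σ.f (p.f x) = x) :
    ∃ κ : GMap 1 M'' M', κ.dd = 0 ∧ (∀ x, i.f (κ.f x) = σ.dd x) ∧
      ∀ x, r.dd x = - κ.f (p.f x) := by
  have hp : ∀ x, p.f (σ.dd x) = 0 := fun x => by
    have h7 := GMap.dd_of_inv h3 x
    rw [h1, LinearMap.zero_apply, zero_add] at h7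
    exact h7
  have hi : ∀ x, i.f (r.f (σ.dd x)) = σ.dd x := fun x => by
    have h7 := h6 (σ.dd x)
    rw [hp, map_zero, add_zero] at h7
    exact h7
  refine ⟨(σ.D (zero_add 1)).comp r (add_zero 1), ?_, ?_, ?_⟩
  · ext x
    have h7 := GMap.dd_comp ((σ.D (zero_add 1)).comp r (add_zero 1)) i (add_zero 1) x
    have h8 : ((σ.D (zero_add 1)).comp r (add_zero 1)).comp i (add_zero 1) =
        σ.D (zero_add 1) := GMap.ext hi
    rw [h8, GMap.dd_D, h0, LinearMap.zero_apply, zero_add, sg_zero, one_smul] at h7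
    rw [LinearMap.zero_apply, ← h2 (((σ.D (zero_add 1)).comp r (add_zero 1)).dd x), ← h7,
      map_zero]
  · intro x
    exact hi x
  · intro x
    have h7 := GMap.dd_of_inv h2 (r.f x)
    rw [h0, LinearMap.zero_apply, map_zero, add_zero] at h7
    have h8 := GMap.dd_of_zero h5 (p.f x)
    have h9 : r.dd x = r.dd (i.f (r.f x)) + r.dd (σ.f (p.f x)) := by
      rw [← map_add, h6]
    rw [h9, h7, zero_add]
    exact eq_neg_of_add_eq_zero_left h8

theorem tsum_deg {X Y : Bim A B} {δ : GMap 1 X Y} {hδ : δ.dd = 0} {i : ℤ} {x : X.M} {y : Y.M} :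
    (tsum δ hδ).dg.IsDeg i (x, y) ↔ X.dg.IsDeg i x ∧ Y.dg.IsDeg i y :=
  Dg.prod_deg (hδ := fun v => by rw [GMap.d_f hδ, sg_one, neg_smul, one_smul])
    (hδ' := fun h => δ.deg h)

theorem cone_deg {M N : Bim A B} {φ : GMap 0 M N} {h : φ.dd = 0} {i : ℤ} {x : M.M} {y : N.M} :
    (cone φ h).dg.IsDeg i (x, y) ↔ M.dg.IsDeg (i + 1) x ∧ N.dg.IsDeg i y := by
  rw [← M.dg.shift_deg]
  exact tsum_deg

/-- The sequence `0 → Y → tsum δ → X → 0`. -/
theorem isExt_tsum {X Y : Bim A B} (δ : GMap 1 X Y) (hδ : δ.dd = 0) :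
    IsExt Y (tsum δ hδ) X := by
  have hl : ∀ a (x : X.M) (y : Y.M), (tsum δ hδ).l a (x, y) = (X.l a x, Y.l a y) :=
    fun _ _ _ => rfl
  have hr : ∀ b (x : X.M) (y : Y.M), (tsum δ hδ).r b (x, y) = (X.r b x, Y.r b y) :=
    fun _ _ _ => rfl
  have hd : ∀ (x : X.M) (y : Y.M), (tsum δ hδ).dg.d (x, y) = (X.dg.d x, δ.f x + Y.dg.d y) :=
    fun _ _ => rfl
  refine ⟨⟨LinearMap.inr k X.M Y.M, fun {i y} h => ?_, fun a y => ?_, fun b y => ?_⟩,
    ⟨LinearMap.fst k X.M Y.M, fun {i c} h => ?_, fun a c => ?_, fun b c => ?_⟩,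
    ⟨LinearMap.snd k X.M Y.M, fun {i c} h => ?_, fun a c => ?_, fun b c => ?_⟩,
    ⟨LinearMap.inl k X.M Y.M, fun {i x} h => ?_, fun a x => ?_, fun b x => ?_⟩,
    ?_, ?_, ?_, ?_, ?_, ?_, ?_⟩
  · rw [add_zero]
    exact tsum_deg.2 ⟨Dg.IsDeg.zero i, h⟩
  · change ((0 : X.M), Y.l a y) = (X.l (A.dg.sp 0 a) 0, Y.l (A.dg.sp 0 a) y)
    rw [Dg.sp_zero, map_zero]
  · change ((0 : X.M), Y.r b y) = (X.r b 0, Y.r b y)
    rw [map_zero]
  · obtain ⟨x, y⟩ := c
    rw [add_zero]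
    exact (tsum_deg.1 h).1
  · obtain ⟨x, y⟩ := c
    rw [Dg.sp_zero]
    rfl
  · obtain ⟨x, y⟩ := c
    rfl
  · obtain ⟨x, y⟩ := c
    rw [add_zero]
    exact (tsum_deg.1 h).2
  · obtain ⟨x, y⟩ := c
    rw [Dg.sp_zero]
    rfl
  · obtain ⟨x, y⟩ := c
    rfl
  · rw [add_zero]
    exact tsum_deg.2 ⟨h, Dg.IsDeg.zero i⟩
  · change (X.l a x, (0 : Y.M)) = (X.l (A.dg.sp 0 a) x, Y.l (A.dg.sp 0 a) 0)
    rw [Dg.sp_zero, map_zero]
  · change (X.r b x, (0 : Y.M)) = (X.r b x, Y.r b 0)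
    rw [map_zero]
  · refine LinearMap.ext (fun y => ?_)
    change (X.dg.d 0, δ.f 0 + Y.dg.d y) - sg 0 • ((0 : X.M), Y.dg.d y) = 0
    rw [sg_zero, one_smul, map_zero, map_zero, zero_add, sub_self]
  · refine LinearMap.ext (fun c => ?_)
    obtain ⟨x, y⟩ := c
    change X.dg.d x - sg 0 • X.dg.d x = 0
    rw [sg_zero, one_smul, sub_self]
  · intro x
    rfl
  · intro x
    rfl
  · intro x
    rfl
  · intro x
    rfl
  · intro c
    obtain ⟨x, y⟩ := c
    change ((0 : X.M), y) + (x, (0 : Y.M)) = (x, y)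
    rw [Prod.mk_add_mk, zero_add, add_zero]

theorem isCone_cone {M N : Bim A B} (φ : GMap 0 M N) (h : φ.dd = 0) :
    IsCone φ (cone φ h) := by
  refine ⟨⟨LinearMap.inl k M.M N.M, fun {i x} hx => ?_, fun a x => ?_, fun b x => ?_⟩,
    ⟨LinearMap.inr k M.M N.M, fun {i y} hy => ?_, fun a y => ?_, fun b y => ?_⟩,
    ⟨LinearMap.fst k M.M N.M, fun {i c} hc => ?_, fun a c => ?_, fun b c => ?_⟩,
    ⟨LinearMap.snd k M.M N.M, fun {i c} hc => ?_, fun a c => ?_, fun b c => ?_⟩,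
    ?_, ?_, ?_, ?_, ?_, ?_, ?_, ?_⟩
  · refine cone_deg.2 ⟨?_, Dg.IsDeg.zero _⟩
    rw [neg_add_cancel_right]
    exact hx
  · change (M.l a x, (0 : N.M)) =
      (M.l (A.dg.sp 1 (A.dg.sp (-1) a)) x, N.l (A.dg.sp (-1) a) 0)
    rw [← Dg.sp_add, add_neg_cancel, Dg.sp_zero, map_zero]
  · change (M.r b x, (0 : N.M)) = (M.r b x, N.r b 0)
    rw [map_zero]
  · rw [add_zero]
    exact cone_deg.2 ⟨Dg.IsDeg.zero _, hy⟩
  · change ((0 : M.M), N.l a y) = (M.l (A.dg.sp 1 (A.dg.sp 0 a)) 0, N.l (A.dg.sp 0 a) y)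
    rw [Dg.sp_zero, map_zero]
  · change ((0 : M.M), N.r b y) = (M.r b 0, N.r b y)
    rw [map_zero]
  · change M.M × N.M at c
    obtain ⟨x, y⟩ := c
    exact (cone_deg.1 hc).1
  · change M.M × N.M at c
    obtain ⟨x, y⟩ := c
    rfl
  · change M.M × N.M at c
    obtain ⟨x, y⟩ := c
    rfl
  · change M.M × N.M at c
    obtain ⟨x, y⟩ := c
    rw [add_zero]
    exact (cone_deg.1 hc).2
  · change M.M × N.M at c
    obtain ⟨x, y⟩ := c
    rw [Dg.sp_zero]
    rfl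
  · change M.M × N.M at c
    obtain ⟨x, y⟩ := c
    rfl
  · refine LinearMap.ext (fun c => ?_)
    change M.M × N.M at c
    obtain ⟨x, y⟩ := c
    change M.dg.d x - sg 1 • (sg 1 • M.dg.d x) = 0
    rw [smul_smul, sg_mul_self, one_smul, sub_self]
  · refine LinearMap.ext (fun y => ?_)
    change (sg 1 • M.dg.d 0, φ.f 0 + N.dg.d y) - sg 0 • ((0 : M.M), N.dg.d y) = 0
    rw [sg_zero, one_smul, map_zero, map_zero, smul_zero, zero_add, sub_self]
  · intro x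
    change (sg 1 • M.dg.d x, φ.f x + N.dg.d 0) - sg (-1) • (M.dg.d x, (0 : N.M)) =
      ((0 : M.M), φ.f x)
    rw [sg_neg, map_zero, add_zero, Prod.smul_mk, smul_zero, Prod.mk_sub_mk, sub_self, sub_zero]
  · intro x
    rfl
  · intro x
    rfl
  · intro x
    rfl
  · intro x
    rfl
  · intro c
    change M.M × N.M at c
    obtain ⟨x, y⟩ := c
    change (x, (0 : N.M)) + ((0 : M.M), y) = (x, y)
    rw [Prod.mk_add_mk, zero_add, add_zero]

theorem IsCone.isExt {M N C : Bim A B} {φ : GMap 0 M N} (h : IsCone φ C) :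
    IsExt N C (M.shift 1) := by
  obtain ⟨t, j, p, q, h0, h1, h2, h3, h4, h5, h6, h7⟩ := h
  refine ⟨j, p.shiftTgt 1 (zero_add 1), q, t.shiftSrc 1 (neg_add_cancel 1), h1, ?_, h4, h3, h5,
    h6, fun x => ?_⟩
  · refine LinearMap.ext (fun x => ?_)
    rw [GMap.shiftTgt_dd, h0]
    exact smul_zero _
  · rw [add_comm]
    exact h7 x

theorem shift_add_aux (M : Bim A B) (n m l : ℤ) (h : n + m = l) :
    BIso ((M.shift n).shift m) (M.shift l) := by
  refine BIso.of_bij ⟨LinearMap.id, fun {i x} hx => ?_, fun a x => ?_, fun b x => rfl⟩ ?_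
    Function.bijective_id
  · have h1 := (M.dg.shift_deg).1 (((M.dg.shift n).shift_deg).1 hx)
    refine (M.dg.shift_deg).2 ?_
    rw [add_zero, ← h, add_comm n m, ← add_assoc]
    exact h1
  · change M.l (A.dg.sp n (A.dg.sp m a)) x = M.l (A.dg.sp l (A.dg.sp 0 a)) x
    rw [Dg.sp_zero, ← Dg.sp_add, h]
  · refine LinearMap.ext (fun x => ?_)
    change sg l • M.dg.d x - sg 0 • (sg m • (sg n • M.dg.d x)) = 0
    rw [sg_zero, one_smul, smul_smul, ← h, sg_add, mul_comm, sub_self]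

theorem shift_zero_aux (M : Bim A B) : BIso (M.shift 0) M := by
  refine BIso.of_bij ⟨LinearMap.id, fun {i x} hx => ?_, fun a x => ?_, fun b x => rfl⟩ ?_
    Function.bijective_id
  · exact (M.dg.shift_deg).1 hx
  · rfl
  · refine LinearMap.ext (fun x => ?_)
    change M.dg.d x - sg 0 • (sg 0 • M.dg.d x) = 0
    rw [smul_smul, sg_mul_self, one_smul, sub_self]

/-- `M` and `M.shift n`, as objects which are isomorphic by maps of degree `-n` and `n`. -/
theorem shift_shift (M : Bim A B) (n : ℤ) : BIso ((M.shift n).shift (-n)) M :=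
  (shift_add_aux M n (-n) 0 (add_neg_cancel n)).trans (shift_zero_aux M)

theorem shift_zero (M : Bim A B) : BIso (M.shift 0) M := shift_zero_aux M

theorem shift_add (M : Bim A B) (n m : ℤ) : BIso ((M.shift n).shift m) (M.shift (n + m)) :=
  shift_add_aux M n m (n + m) rfl

/-- The shift of a graded map of degree `0`. -/
def GMap.extSh {M N : Bim A B} (φ : GMap 0 M N) (n : ℤ) : GMap 0 (M.shift n) (N.shift n) where
  f := φ.f
  deg := fun {i x} hx => by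
    have h1 := φ.deg ((M.dg.shift_deg).1 hx)
    rw [add_zero] at h1
    refine (N.dg.shift_deg).2 ?_
    rw [add_zero]
    exact h1
  map_l := fun a x => by
    change φ.f (M.l (A.dg.sp n a) x) = N.l (A.dg.sp n (A.dg.sp 0 a)) (φ.f x)
    rw [φ.map_l, Dg.sp_zero, Dg.sp_zero]
  map_r := φ.map_r

theorem GMap.extSh_dd {M N : Bim A B} (φ : GMap 0 M N) (n : ℤ) (h : φ.dd = 0) :
    (φ.extSh n).dd = 0 := by
  refine LinearMap.ext (fun x => ?_)
  change sg n • N.dg.d (φ.f x) - sg 0 • φ.f (sg n • M.dg.d x) = 0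
  rw [sg_zero, one_smul, map_zsmul, GMap.d_f_zero h, sub_self]

theorem IsExt.shift {M' M M'' : Bim A B} (h : IsExt M' M M'') (n : ℤ) :
    IsExt (M'.shift n) (M.shift n) (M''.shift n) := by
  obtain ⟨i, p, r, σ, h0, h1, h2, h3, h4, h5, h6⟩ := h
  exact ⟨i.extSh n, p.extSh n, r.extSh n, σ.extSh n, i.extSh_dd n h0, p.extSh_dd n h1, h2, h3,
    h4, h5, h6⟩

theorem Contr.shift {M : Bim A B} (h : Contr M) (n : ℤ) : Contr (M.shift n) := by
  obtain ⟨h, hh⟩ := h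
  refine ⟨⟨sg n • h.f, fun {i x} hx => ?_, fun a x => ?_, fun b x => ?_⟩, ?_⟩
  · have h1 := (h.deg ((M.dg.shift_deg).1 hx)).zsmul (sg n)
    refine (M.dg.shift_deg).2 ?_
    rw [add_right_comm]
    exact h1
  · change sg n • h.f (M.l (A.dg.sp n a) x) =
      M.l (A.dg.sp n (A.dg.sp (-1) a)) (sg n • h.f x)
    rw [h.map_l, ← Dg.sp_add, ← Dg.sp_add, add_comm, map_zsmul]
  · change sg n • h.f (M.r b x) = M.r b (sg n • h.f x)
    rw [h.map_r, map_zsmul]
  · refine LinearMap.ext (fun x => ?_)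
    change sg n • M.dg.d (sg n • h.f x) - sg (-1) • (sg n • h.f (sg n • M.dg.d x)) = x
    have h1 := LinearMap.congr_fun hh x
    rw [GMap.dd_apply] at h1
    have h2 : sg n • M.dg.d (sg n • h.f x) = M.dg.d (h.f x) := by
      rw [map_zsmul, smul_smul, sg_mul_self, one_smul]
    have h3 : sg n • h.f (sg n • M.dg.d x) = h.f (M.dg.d x) := by
      rw [map_zsmul, smul_smul, sg_mul_self, one_smul]
    rw [h2, h3]
    exact h1

/-- The cone of the identity is contractible. -/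
theorem contr_cone_id (M : Bim A B) :
    Contr (cone (GMap.id M) (LinearMap.ext GMap.dd_id)) := by
  refine ⟨⟨(LinearMap.inl k M.M M.M).comp (LinearMap.snd k M.M M.M), fun {i c} hc => ?_,
    fun a c => ?_, fun b c => ?_⟩, ?_⟩
  · change M.M × M.M at c
    obtain ⟨x, y⟩ := c
    have h1 : M.dg.IsDeg (i + -1 + 1) y := by
      rw [neg_add_cancel_right]
      exact (cone_deg.1 hc).2
    have h2 : (cone (GMap.id M) (LinearMap.ext GMap.dd_id)).dg.IsDeg (i + -1) (y, (0 : M.M)) :=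
      cone_deg.2 ⟨h1, Dg.IsDeg.zero _⟩
    exact h2
  · change M.M × M.M at c
    obtain ⟨x, y⟩ := c
    change (M.l a y, (0 : M.M)) =
      (M.l (A.dg.sp 1 (A.dg.sp (-1) a)) y, M.l (A.dg.sp (-1) a) 0)
    rw [← Dg.sp_add, add_neg_cancel, Dg.sp_zero, map_zero]
  · change M.M × M.M at c
    obtain ⟨x, y⟩ := c
    change (M.r b y, (0 : M.M)) = (M.r b y, M.r b 0)
    rw [map_zero]
  · refine LinearMap.ext (fun c => ?_)
    change M.M × M.M at c
    obtain ⟨x, y⟩ := c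
    change (sg 1 • M.dg.d y, y + M.dg.d 0) - sg (-1) • (x + M.dg.d y, (0 : M.M)) = (x, y)
    rw [sg_neg, sg_one, map_zero, add_zero, neg_smul, one_smul, neg_smul, one_smul,
      sub_neg_eq_add, Prod.mk_add_mk, add_zero]
    congr 1
    abel

end Pool.Agent.MP_6e5bed_ag_NC
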