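import Pool.Agent.Lib.MP_6e5bed_ag_NC.FinCoh
import Pool.Agent.Lib.MP_6e5bed_ag_NC.Res

set_option autoImplicit false

/-!
# Complexes with finite-dimensional total cohomology
-/

namespace Pool.Agent.MP_6e5bed_ag_NC

open scoped TensorProduct

universe u

variable {k : Type u} [Field k]

/-- The underlying space of a shift of the free bimodule over the base is one-dimensional. -/
private noncomputable def finCohB_e (n : ℤ) :
    ((free (base k) (base k)).shift n).M ≃ₗ[k] k := TensorProduct.lid k k

private theorem finCohB_d (n : ℤ) (x : ((free (base k) (base k)).shift n).M) :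
    ((free (base k) (base k)).shift n).dg.d x = 0 := by
  have h : ∀ y : (base k).A ⊗[k] (base k).A, (base k).dg.td (base k).dg y = 0 := by
    refine Dg.tind (base k).dg (base k).dg (map_zero _) (fun v w hv hw => ?_)
      (fun i j v w _ _ => ?_)
    · rw [map_add, hv, hw, add_zero]
    · rw [Dg.td_tmul]
      have h1 : (base k).dg.d v = 0 := base_d (k := k) v
      have h2 : (base k).dg.d w = 0 := base_d (k := k) w
      rw [h1, h2, TensorProduct.zero_tmul, TensorProduct.tmul_zero, add_zero]
  have h' : ∀ y : (free (base k) (base k)).M, (free (base k) (base k)).dg.d y = 0 := h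
  exact (Dg.shift_d (X := (free (base k) (base k)).dg) n x).trans
    ((congrArg (fun y : (free (base k) (base k)).M => sg n • y) (h' x)).trans (smul_zero _))

private theorem finCohB_deg (n i : ℤ) (x : ((free (base k) (base k)).shift n).M)
    (hx : ((free (base k) (base k)).shift n).dg.IsDeg i x) :
    i + n = 0 ∨ finCohB_e n x = 0 := by
  have h1 : ((base k).dg.tensor (base k).dg).IsDeg (i + n) x :=
    (Dg.shift_deg (X := (free (base k) (base k)).dg)).1 hx
  have h2 : (base k).dg.IsDeg (i + n + 0) ((finCohB_e (k := k) n) x) := by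
    refine Dg.tensor_degMap (X := (base k).dg) (Y := (base k).dg) (Z := (base k).dg)
      (TensorProduct.lid k k : (base k).A ⊗[k] (base k).A ≃ₗ[k] (base k).A).toLinearMap
      (fun i' j' v w hv hw => ?_) h1
    have h3 := (base k).mul_deg hv hw
    rw [add_zero]
    exact h3
  rcases base_deg_cases (k := k) h2 with h | h
  · left
    rwa [add_zero] at h
  · right
    exact h

/-- The map from a shift of the free bimodule given by a homogeneous element. -/
private noncomputable def finCohB_map {V : Bim (base k) (base k)} (m : ℤ) (x : V.M)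
    (hx : V.dg.IsDeg m x) : GMap 0 ((free (base k) (base k)).shift (-m)) V where
  f := (LinearMap.toSpanSingleton k V.M x).comp (finCohB_e (-m)).toLinearMap
  deg := fun {i y} hy => by
    rw [LinearMap.comp_apply, LinearEquiv.coe_coe, LinearMap.toSpanSingleton_apply, add_zero]
    rcases finCohB_deg (-m) i y hy with h | h
    · have h1 : i = m := by omega
      rw [h1]
      exact hx.smul _
    · rw [h, zero_smul]
      exact Dg.IsDeg.zero i
  map_l := fun a y => by
    rw [Dg.sp_zero]
    have h1 : ((free (base k) (base k)).shift (-m)).l a y = (show k from a) • y :=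
      base_l (k := k) _ a y
    rw [h1]
    exact (LinearMap.map_smul _ _ _).trans (base_l (k := k) V a _).symm
  map_r := fun b y => by
    have h1 : ((free (base k) (base k)).shift (-m)).r b y = (show k from b) • y :=
      base_r (k := k) _ b y
    rw [h1]
    exact (LinearMap.map_smul _ _ _).trans (base_r (k := k) V b _).symm

private theorem finCohB_map_f {V : Bim (base k) (base k)} (m : ℤ) (x : V.M)
    (hx : V.dg.IsDeg m x) (y : ((free (base k) (base k)).shift (-m)).M) :
    (finCohB_map m x hx).f y = (finCohB_e (-m) y) • x := rfl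

private theorem finCohB_map_dd {V : Bim (base k) (base k)} (m : ℤ) (x : V.M)
    (hx : V.dg.IsDeg m x) (hd : V.dg.d x = 0) : (finCohB_map m x hx).dd = 0 := by
  ext y
  rw [GMap.dd_apply, finCohB_d, map_zero, smul_zero, sub_zero, finCohB_map_f, map_smul, hd,
    smul_zero, LinearMap.zero_apply]

/-- A homogeneous closed element which is not a boundary. -/
private theorem finCohB_exists {V : Bim (base k) (base k)} (h : ¬ Acyc V) :
    ∃ (m : ℤ) (x : V.M), V.dg.IsDeg m x ∧ V.dg.d x = 0 ∧ ∀ y, V.dg.d y ≠ x := by
  unfold Acyc at h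
  push Not at h
  obtain ⟨x, hx, hy⟩ := h
  by_contra hcon
  push Not at hcon
  have h1 : ∀ m, ∃ y, V.dg.d y = V.dg.ρ x m := by
    intro m
    refine hcon m _ (Dg.isDeg_ρ x m) ?_
    rw [← V.dg.ρ_d, hx, map_zero, Finsupp.zero_apply]
  choose g hg using h1
  apply hy (∑ m ∈ (V.dg.ρ x).support, g m)
  rw [map_sum]
  conv_rhs => rw [← V.dg.sum_ρ x]
  rw [Finsupp.sum]
  exact Finset.sum_congr rfl (fun m _ => hg m)

/-- The comparison of the cohomology spaces of two complexes. -/
private theorem finCohB_finrank {V W : Type u} [AddCommGroup V] [Module k V] [AddCommGroup W]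
    [Module k W] (X : Dg k V) (Y : Dg k W) (f : V →ₗ[k] W) (hf : ∀ v, Y.d (f v) = f (X.d v))
    (hs : ∀ w, Y.d w = 0 → ∃ v, X.d v = 0 ∧ ∃ z, w = f v + Y.d z)
    (x : V) (hx : X.d x = 0) (hx' : ∀ y, X.d y ≠ x) (hx'' : ∃ z, Y.d z = f x)
    (hX : X.FinCoh) :
    Y.FinCoh ∧ Module.finrank k (LinearMap.ker Y.d ⧸
        (LinearMap.range Y.d).comap (LinearMap.ker Y.d).subtype) <
      Module.finrank k (LinearMap.ker X.d ⧸
        (LinearMap.range X.d).comap (LinearMap.ker X.d).subtype) := by
  unfold Dg.FinCoh at *
  have hres : ∀ v ∈ LinearMap.ker X.d, f v ∈ LinearMap.ker Y.d := by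
    intro v hv
    rw [LinearMap.mem_ker] at hv ⊢
    rw [hf, hv, map_zero]
  set J : LinearMap.ker X.d →ₗ[k] LinearMap.ker Y.d := f.restrict hres with hJ
  have hJc : ∀ v : LinearMap.ker X.d, ((J v : LinearMap.ker Y.d) : W) = f v := fun v => rfl
  have hle : (LinearMap.range X.d).comap (LinearMap.ker X.d).subtype ≤
      ((LinearMap.range Y.d).comap (LinearMap.ker Y.d).subtype).comap J := by
    intro v hv
    rw [Submodule.mem_comap, Submodule.subtype_apply] at hv
    rw [Submodule.mem_comap, Submodule.mem_comap, Submodule.subtype_apply, hJc]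
    obtain ⟨z, hz⟩ := hv
    exact ⟨f z, by rw [hf, hz]⟩
  set H := Submodule.mapQ _ _ J hle with hH
  have hsurj : Function.Surjective H := by
    intro c
    obtain ⟨w, rfl⟩ := Submodule.mkQ_surjective _ c
    obtain ⟨v, hv, z, hz⟩ := hs w.1 (LinearMap.mem_ker.1 w.2)
    refine ⟨Submodule.mkQ _ ⟨v, LinearMap.mem_ker.2 hv⟩, ?_⟩
    rw [hH, Submodule.mkQ_apply, Submodule.mapQ_apply, Submodule.mkQ_apply, eq_comm,
      Submodule.Quotient.eq, Submodule.mem_comap, Submodule.subtype_apply]
    refine ⟨z, ?_⟩
    rw [Submodule.coe_sub, hJc, hz]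
    simp
  have : Module.Finite k (LinearMap.ker Y.d ⧸
        (LinearMap.range Y.d).comap (LinearMap.ker Y.d).subtype) :=
    Module.Finite.of_surjective H hsurj
  refine ⟨this, ?_⟩
  have hrn := LinearMap.finrank_range_add_finrank_ker H
  rw [LinearMap.range_eq_top.2 hsurj, finrank_top] at hrn
  have hpos : 0 < Module.finrank k (LinearMap.ker H) := by
    rw [Module.finrank_pos_iff_exists_ne_zero]
    refine ⟨⟨Submodule.mkQ _ ⟨x, LinearMap.mem_ker.2 hx⟩, ?_⟩, ?_⟩
    · rw [LinearMap.mem_ker, hH, Submodule.mkQ_apply, Submodule.mapQ_apply,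
        Submodule.Quotient.mk_eq_zero, Submodule.mem_comap, Submodule.subtype_apply, hJc]
      exact hx''
    · intro h0
      have h1 := congrArg Subtype.val h0
      change Submodule.mkQ _ (⟨x, LinearMap.mem_ker.2 hx⟩ : LinearMap.ker X.d) = 0 at h1
      rw [Submodule.mkQ_apply, Submodule.Quotient.mk_eq_zero, Submodule.mem_comap,
        Submodule.subtype_apply] at h1
      obtain ⟨y, hy⟩ := h1
      exact hx' y hy
  omega

/-- A property of perfect bimodules over the base holds for all bimodules with
finite-dimensional cohomology: reduction of the dimension. If the cohomology of `V` is not zero,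
there are a closed map `x` from a shift of the free bimodule to `V` and a cone `C` of it whose
cohomology has smaller dimension. -/
theorem exists_smaller {V : Bim (base k) (base k)} (hV : V.dg.FinCoh) (h : ¬ Acyc V) :
    ∃ (n : ℤ) (φ : GMap 0 ((free (base k) (base k)).shift n) V) (C : Bim (base k) (base k)),
      φ.dd = 0 ∧ IsCone φ C ∧ C.dg.FinCoh ∧
      Module.finrank k (LinearMap.ker C.dg.d ⧸
        (LinearMap.range C.dg.d).comap (LinearMap.ker C.dg.d).subtype) <
      Module.finrank k (LinearMap.ker V.dg.d ⧸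
        (LinearMap.range V.dg.d).comap (LinearMap.ker V.dg.d).subtype) := by
  obtain ⟨m, x, hdeg, hx, hx'⟩ := finCohB_exists h
  have hφ := finCohB_map_dd m x hdeg hx
  refine ⟨-m, finCohB_map m x hdeg, cone _ hφ, hφ, isCone_cone _ hφ, ?_⟩
  refine finCohB_finrank V.dg (cone _ hφ).dg
    (LinearMap.inr k ((free (base k) (base k)).shift (-m)).M V.M) ?_ ?_ x hx hx' ?_ hV
  · intro v
    refine (cone_d (h := hφ) 0 v).trans ?_
    rw [map_zero, map_zero, neg_zero, zero_add]
    rfl
  · intro w hw
    change ((free (base k) (base k)).shift (-m)).M × V.M at w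
    obtain ⟨y, v⟩ := w
    have hw' := (cone_d (h := hφ) y v).symm.trans hw
    have h2 : (finCohB_map m x hdeg).f y + V.dg.d v = 0 := congrArg Prod.snd hw'
    rw [finCohB_map_f] at h2
    have hy : finCohB_e (k := k) (-m) y = 0 := by
      by_contra hne
      apply hx' (-(finCohB_e (k := k) (-m) y)⁻¹ • v)
      rw [map_smul, ← neg_eq_of_add_eq_zero_right h2, smul_neg, smul_smul, neg_mul,
        inv_mul_cancel₀ hne, neg_smul, one_smul, neg_neg]
    have hy' : y = 0 := (LinearEquiv.map_eq_zero_iff _).1 hy
    rw [hy, zero_smul, zero_add] at h2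
    refine ⟨v, h2, 0, ?_⟩
    rw [map_zero, hy', add_zero]
    rfl
  · refine ⟨((finCohB_e (k := k) (-m)).symm 1, (0 : V.M)), ?_⟩
    refine (cone_d (h := hφ) _ _).trans ?_
    rw [finCohB_d, neg_zero, finCohB_map_f, LinearEquiv.apply_symm_apply, one_smul,
      map_zero, add_zero]
    rfl

end Pool.Agent.MP_6e5bed_ag_NC
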