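import Pool.Agent.Lib.MP_6e5bed_ag_NC.Tens
import Pool.Agent.Lib.MP_6e5bed_ag_NC.Defs

set_option autoImplicit false

/-!
# Quotients of complexes and the free bimodule
-/

namespace Pool.Agent.MP_6e5bed_ag_NC

open scoped TensorProduct

universe u

namespace Dg

variable {k : Type u} [CommRing k] {V : Type u} [AddCommGroup V] [Module k V] (X : Dg k V)

/-- The quotient of a complex by a homogeneous subspace which is stable under the
differential. -/
noncomputable def quot (S : Submodule k V) (hS : ∀ v ∈ S, ∀ n, X.ρ v n ∈ S)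
    (hd : ∀ v ∈ S, X.d v ∈ S) : Dg k (V ⧸ S) where
  ρ := S.liftQ ((Finsupp.mapRange.linearMap S.mkQ).comp X.ρ) (fun v hv => by
    rw [LinearMap.mem_ker, LinearMap.comp_apply]
    ext n
    rw [Finsupp.mapRange.linearMap_apply, Finsupp.mapRange_apply, Submodule.mkQ_apply,
      (Submodule.Quotient.mk_eq_zero S).2 (hS v hv n), Finsupp.zero_apply])
  d := S.mapQ S X.d hd
  sum_ρ := fun v => by
    obtain ⟨v, rfl⟩ := S.mkQ_surjective v
    rw [Submodule.mkQ_apply, Submodule.liftQ_apply, LinearMap.comp_apply,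
      Finsupp.mapRange.linearMap_apply, Finsupp.sum_mapRange_index (fun _ => rfl)]
    conv_rhs => rw [← X.sum_ρ v]
    rw [← Submodule.mkQ_apply, Finsupp.sum, Finsupp.sum, map_sum]
  ρ_ρ := fun v n => by
    obtain ⟨v, rfl⟩ := S.mkQ_surjective v
    simp only [Submodule.mkQ_apply, Submodule.liftQ_apply, LinearMap.comp_apply,
      Finsupp.mapRange.linearMap_apply, Finsupp.mapRange_apply, X.ρ_ρ, Finsupp.mapRange_single]
  d_d := fun v => by
    obtain ⟨v, rfl⟩ := S.mkQ_surjective v
    simp [X.d_d]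
  ρ_d := fun v n => by
    obtain ⟨v, rfl⟩ := S.mkQ_surjective v
    simp only [Submodule.mkQ_apply, Submodule.liftQ_apply, LinearMap.comp_apply,
      Finsupp.mapRange.linearMap_apply, Finsupp.mapRange_apply, X.ρ_d, Submodule.mapQ_apply]

theorem quot_ρ {S : Submodule k V} {hS : ∀ v ∈ S, ∀ n, X.ρ v n ∈ S}
    {hd : ∀ v ∈ S, X.d v ∈ S} (v : V) (n : ℤ) :
    (X.quot S hS hd).ρ (S.mkQ v) n = S.mkQ (X.ρ v n) := by
  simp only [quot, Submodule.mkQ_apply, Submodule.liftQ_apply, LinearMap.comp_apply,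
      Finsupp.mapRange.linearMap_apply, Finsupp.mapRange_apply]

theorem quot_d {S : Submodule k V} {hS : ∀ v ∈ S, ∀ n, X.ρ v n ∈ S}
    {hd : ∀ v ∈ S, X.d v ∈ S} (v : V) :
    (X.quot S hS hd).d (S.mkQ v) = S.mkQ (X.d v) := by
  simp only [quot, Submodule.mkQ_apply, Submodule.mapQ_apply]

theorem quot_deg {S : Submodule k V} {hS : ∀ v ∈ S, ∀ n, X.ρ v n ∈ S}
    {hd : ∀ v ∈ S, X.d v ∈ S} {n : ℤ} {v : V} (hv : X.IsDeg n v) :
    (X.quot S hS hd).IsDeg n (S.mkQ v) := by
  unfold IsDeg at *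
  ext m
  rw [quot_ρ, hv, Finsupp.single_apply, Finsupp.single_apply]
  split_ifs <;> simp

theorem quot_o {S : Submodule k V} {hS : ∀ v ∈ S, ∀ n, X.ρ v n ∈ S}
    {hd : ∀ v ∈ S, X.d v ∈ S} (v : V) :
    (X.quot S hS hd).o (S.mkQ v) = S.mkQ (X.o v) := by
  have h : ((X.quot S hS hd).o).comp S.mkQ = S.mkQ.comp X.o := X.hom_ext (fun n v hv => by
    rw [LinearMap.comp_apply, LinearMap.comp_apply, o_of_deg (X.quot_deg hv), o_of_deg hv]
    split_ifs <;> simp)
  exact LinearMap.congr_fun h v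

theorem quot_s {S : Submodule k V} {hS : ∀ v ∈ S, ∀ n, X.ρ v n ∈ S}
    {hd : ∀ v ∈ S, X.d v ∈ S} (v : V) :
    (X.quot S hS hd).s (S.mkQ v) = S.mkQ (X.s v) := by
  rw [s_apply, s_apply, quot_o, map_sub, map_smul]

end Dg

variable {k : Type u} [CommRing k]

/-- The free bimodule `A ⊗ B` of rank one. -/
noncomputable def free (A B : DGA k) : Bim A B where
  M := A.A ⊗[k] B.A
  dg := A.dg.tensor B.dg
  l := LinearMap.rTensorHom B.A ∘ₗ A.mul
  r := LinearMap.lTensorHom A.A ∘ₗ B.mul.flip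
  l_one := fun m => by
    have : A.mul A.one = LinearMap.id := by ext; simp [A.one_mul]
    simp [this]
  r_one := fun m => by
    have : B.mul.flip B.one = LinearMap.id := by ext; simp [B.mul_one]
    simp [this]
  l_mul := fun a a' => A.dg.tind B.dg (by simp)
    (fun x y hx hy => by rw [map_add, hx, hy, map_add, map_add])
    (fun i j x y _ _ => by simp [A.mul_assoc])
  r_mul := fun a a' => A.dg.tind B.dg (by simp)
    (fun x y hx hy => by rw [map_add, hx, hy, map_add, map_add])
    (fun i j x y _ _ => by simp [B.mul_assoc])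
  l_r := fun a a' => A.dg.tind B.dg (by simp)
    (fun x y hx hy => by rw [map_add, map_add, hx, hy, map_add, map_add])
    (fun i j x y _ _ => by simp)
  l_deg := fun {i j a m} ha hm => by
    rw [add_comm]
    refine Dg.tensor_degMap _ (fun i' j' v w hv hw => ?_) hm
    have h := Dg.tensor_deg (A.mul_deg ha hv) hw
    rw [show i' + j' + i = i + i' + j' by ring]
    simpa using h
  r_deg := fun {i j b m} hm hb => by
    refine Dg.tensor_degMap _ (fun i' j' v w hv hw => ?_) hm
    have h := Dg.tensor_deg hv (B.mul_deg hw hb)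
    rw [show i' + j' + j = i' + (j' + j) by ring]
    simpa using h
  d_l := fun a => A.dg.tind B.dg (by simp)
    (fun x y hx hy => by simp only [map_add, hx, hy]; abel)
    (fun i j x y _ _ => by
      simp [Dg.tensor_d, A.leibniz, TensorProduct.add_tmul, DGA.s_mul, add_assoc])
  d_r := fun b => A.dg.tind B.dg (by simp)
    (fun x y hx hy => by simp only [map_add, hx, hy]; abel)
    (fun i j x y _ _ => by
      simp [Dg.tensor_d, Dg.tensor_s, B.leibniz, TensorProduct.tmul_add, add_assoc])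

end Pool.Agent.MP_6e5bed_ag_NC
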