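import Mathlib

set_option autoImplicit false

/-!
# Complexes of vector spaces

`Dg k V` is the structure of a `ℤ`-graded complex on the `k`-vector space `V`. The grading is
given by its coaction `ρ : V → (ℤ →₀ V)`, which sends `v` to the family of its homogeneous
components; the differential has degree `1`.
-/

namespace Pool.Agent.MP_6e5bed_ag_NC

universe u

/-- A `ℤ`-grading (`ρ v n` is the component of degree `n` of `v`) and a differential of
degree `1`. -/
structure Dg (k : Type u) [CommRing k] (V : Type u) [AddCommGroup V] [Module k V] where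
  ρ : V →ₗ[k] (ℤ →₀ V)
  sum_ρ : ∀ v, (ρ v).sum (fun _ w => w) = v
  ρ_ρ : ∀ v n, ρ (ρ v n) = Finsupp.single n (ρ v n)
  d : V →ₗ[k] V
  d_d : ∀ v, d (d v) = 0
  ρ_d : ∀ v n, ρ (d v) (n + 1) = d (ρ v n)

namespace Dg

variable {k : Type u} [CommRing k] {V W : Type u} [AddCommGroup V] [Module k V]
  [AddCommGroup W] [Module k W] (X : Dg k V) (Y : Dg k W)

/-- `v` is homogeneous of degree `n`. -/
def IsDeg (n : ℤ) (v : V) : Prop := X.ρ v = Finsupp.single n v

/-- The odd part of `v`. -/
noncomputable def o : V →ₗ[k] V :=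
  (Finsupp.lsum k (fun n : ℤ => if Odd n then (LinearMap.id : V →ₗ[k] V) else 0)).comp X.ρ

/-- The sign involution: `(-1)^n` in degree `n`. -/
noncomputable def s : V →ₗ[k] V := LinearMap.id - (2 : k) • X.o

variable {X Y}

theorem isDeg_ρ (v : V) (n : ℤ) : X.IsDeg n (X.ρ v n) := X.ρ_ρ v n

theorem IsDeg.zero (n : ℤ) : X.IsDeg n 0 := by simp [IsDeg]

theorem IsDeg.add {n : ℤ} {v w : V} (hv : X.IsDeg n v) (hw : X.IsDeg n w) :
    X.IsDeg n (v + w) := by
  unfold IsDeg at *
  rw [map_add, hv, hw, Finsupp.single_add]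

theorem IsDeg.smul {n : ℤ} {v : V} (c : k) (hv : X.IsDeg n v) : X.IsDeg n (c • v) := by
  unfold IsDeg at *
  rw [map_smul, hv, Finsupp.smul_single]

theorem IsDeg.neg {n : ℤ} {v : V} (hv : X.IsDeg n v) : X.IsDeg n (-v) := by
  unfold IsDeg at *
  rw [map_neg, hv, Finsupp.single_neg]

theorem IsDeg.sub {n : ℤ} {v w : V} (hv : X.IsDeg n v) (hw : X.IsDeg n w) :
    X.IsDeg n (v - w) := by
  rw [sub_eq_add_neg]
  exact hv.add hw.neg

theorem IsDeg.d {n : ℤ} {v : V} (hv : X.IsDeg n v) : X.IsDeg (n + 1) (X.d v) := by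
  unfold IsDeg at *
  ext m
  have h := X.ρ_d v (m - 1)
  rw [sub_add_cancel] at h
  rw [h, hv]
  by_cases hm : m - 1 = n
  · have : m = n + 1 := by omega
    subst this
    simp
  · have h1 : ¬ n = m - 1 := fun h => hm h.symm
    have h2 : ¬ n + 1 = m := fun h => hm (by omega)
    rw [Finsupp.single_apply, Finsupp.single_apply, if_neg h1, if_neg h2, map_zero]

/-- Every element is a sum of homogeneous ones. -/
theorem ind {P : V → Prop} (h0 : P 0) (hadd : ∀ v w, P v → P w → P (v + w))
    (hdeg : ∀ n v, X.IsDeg n v → P v) (v : V) : P v := by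
  rw [← X.sum_ρ v, Finsupp.sum]
  have : ∀ s : Finset ℤ, P (∑ n ∈ s, X.ρ v n) := by
    classical
    intro s
    induction s using Finset.induction_on with
    | empty => simpa using h0
    | insert a t ha ih =>
      rw [Finset.sum_insert ha]
      exact hadd _ _ (hdeg a _ (isDeg_ρ v a)) ih
  exact this _

theorem hom_ext (X : Dg k V) {U : Type*} [AddCommGroup U] [Module k U] {f g : V →ₗ[k] U}
    (h : ∀ n v, X.IsDeg n v → f v = g v) : f = g := by
  ext v
  exact X.ind (P := fun v => f v = g v) (by simp) (fun v w hv hw => by simp [hv, hw]) h v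

theorem o_of_deg {n : ℤ} {v : V} (hv : X.IsDeg n v) : X.o v = if Odd n then v else 0 := by
  have hv' : X.ρ v = Finsupp.single n v := hv
  unfold o
  rw [LinearMap.comp_apply, hv']
  split_ifs with h <;> simp [h]

theorem o_of_odd {n : ℤ} {v : V} (hv : X.IsDeg n v) (hn : Odd n) : X.o v = v := by
  rw [o_of_deg hv, if_pos hn]

theorem o_of_even {n : ℤ} {v : V} (hv : X.IsDeg n v) (hn : Even n) : X.o v = 0 := by
  rw [o_of_deg hv, if_neg (by simpa using hn)]

theorem s_apply (v : V) : X.s v = v - (2 : k) • X.o v := rfl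

theorem o_o (v : V) : X.o (X.o v) = X.o v := by
  have h : X.o.comp X.o = X.o := X.hom_ext (fun n v hv => by
    rw [LinearMap.comp_apply, o_of_deg hv]
    split_ifs with h
    · exact o_of_odd hv h
    · exact map_zero _)
  exact LinearMap.congr_fun h v

theorem IsDeg.o {n : ℤ} {v : V} (hv : X.IsDeg n v) : X.IsDeg n (X.o v) := by
  rw [o_of_deg hv]
  split_ifs
  · exact hv
  · exact IsDeg.zero n

theorem IsDeg.s {n : ℤ} {v : V} (hv : X.IsDeg n v) : X.IsDeg n (X.s v) := by
  rw [s_apply]
  exact hv.sub (hv.o.smul _)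

/-- Every element is the sum of an even and an odd one. -/
theorem parity_ind {P : V → Prop} (hadd : ∀ v w, P v → P w → P (v + w))
    (heven : ∀ v, X.o v = 0 → P v) (hodd : ∀ v, X.o v = v → P v) (v : V) : P v := by
  have h : v = (v - X.o v) + X.o v := by abel
  rw [h]
  exact hadd _ _ (heven _ (by rw [map_sub, o_o, sub_self])) (hodd _ (o_o v))

theorem s_of_even {v : V} (hv : X.o v = 0) : X.s v = v := by
  rw [s_apply, hv, smul_zero, sub_zero]

theorem s_of_odd {v : V} (hv : X.o v = v) : X.s v = -v := by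
  rw [s_apply, hv, two_smul]
  abel

theorem o_d (v : V) : X.o (X.d v) = X.d v - X.d (X.o v) := by
  have h : X.o.comp X.d = X.d - X.d.comp X.o := X.hom_ext (fun n v hv => by
    rw [LinearMap.comp_apply, LinearMap.sub_apply, LinearMap.comp_apply, o_of_deg hv.d,
      o_of_deg hv]
    rcases Int.even_or_odd n with h | h
    · rw [if_pos h.add_one, if_neg (by simpa using h), map_zero, sub_zero]
    · rw [if_neg (by simpa using h.add_one), if_pos h, sub_self])
  exact LinearMap.congr_fun h v

theorem o_s (v : V) : X.o (X.s v) = - X.o v := by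
  rw [s_apply, map_sub, map_smul, o_o, two_smul]
  abel

theorem s_o (v : V) : X.s (X.o v) = - X.o v := s_of_odd (o_o v)

theorem s_s (v : V) : X.s (X.s v) = v := by
  rw [s_apply (X.s v), o_s, s_apply, smul_neg]
  abel

theorem s_d (v : V) : X.s (X.d v) = - X.d (X.s v) := by
  rw [s_apply, s_apply, o_d, map_sub, map_smul, smul_sub, two_smul, two_smul]
  abel

theorem o_of_parity {n : ℤ} {v : V} (hv : X.IsDeg n v) :
    (Even n ∧ X.o v = 0) ∨ (Odd n ∧ X.o v = v) := by
  rcases Int.even_or_odd n with h | h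
  · exact Or.inl ⟨h, o_of_even hv h⟩
  · exact Or.inr ⟨h, o_of_odd hv h⟩

/-- A linear map is homogeneous of degree `n` if and only if it is compatible with the
coactions. -/
theorem degMap_iff {n : ℤ} (f : V →ₗ[k] W) :
    (∀ j v, X.IsDeg j v → Y.IsDeg (j + n) (f v)) ↔
      ∀ v j, Y.ρ (f v) (j + n) = f (X.ρ v j) := by
  constructor
  · intro h v
    refine X.ind (P := fun v => ∀ j, Y.ρ (f v) (j + n) = f (X.ρ v j)) (by simp) ?_ ?_ v
    · intro v w hv hw j
      rw [LinearMap.map_add, LinearMap.map_add, Finsupp.add_apply, hv, hw, LinearMap.map_add,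
        Finsupp.add_apply, LinearMap.map_add]
    · intro i v hv j
      have h1 : Y.ρ (f v) = Finsupp.single (i + n) (f v) := h i v hv
      have h2 : X.ρ v = Finsupp.single i v := hv
      rw [h1, h2, Finsupp.single_apply, Finsupp.single_apply]
      by_cases hij : i = j
      · rw [if_pos hij, if_pos (by rw [hij])]
      · rw [if_neg hij, if_neg (fun h => hij (by omega)), map_zero]
  · intro h j v hv
    unfold IsDeg at *
    ext m
    have h1 := h v (m - n)
    rw [sub_add_cancel] at h1
    rw [h1, hv, Finsupp.single_apply, Finsupp.single_apply]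
    by_cases hij : j = m - n
    · rw [if_pos hij, if_pos (by omega)]
    · rw [if_neg hij, if_neg (fun h => hij (by omega)), map_zero]

section bilin

variable {U : Type u} [AddCommGroup U] [Module k U] {Z : Dg k U}

theorem o_bilin (β : V →ₗ[k] W →ₗ[k] U)
    (h : ∀ {i j : ℤ} {v : V} {w : W}, X.IsDeg i v → Y.IsDeg j w → Z.IsDeg (i + j) (β v w))
    (v : V) (w : W) :
    Z.o (β v w) = β (X.o v) w + β v (Y.o w) - (2 : k) • β (X.o v) (Y.o w) := by
  refine X.ind (P := fun v => Z.o (β v w) = β (X.o v) w + β v (Y.o w) -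
    (2 : k) • β (X.o v) (Y.o w)) (by simp) ?_ ?_ v
  · intro v v' hv hv'
    simp only [map_add, LinearMap.add_apply, hv, hv', smul_add]
    abel
  · intro i v hv
    refine Y.ind (P := fun w => Z.o (β v w) = β (X.o v) w + β v (Y.o w) -
      (2 : k) • β (X.o v) (Y.o w)) (by simp) ?_ ?_ w
    · intro w w' hw hw'
      simp only [map_add, hw, hw', smul_add]
      abel
    · intro j w hw
      rcases o_of_parity hv with ⟨hi, hv'⟩ | ⟨hi, hv'⟩ <;>
        rcases o_of_parity hw with ⟨hj, hw'⟩ | ⟨hj, hw'⟩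
      · rw [o_of_even (h hv hw) (hi.add hj), hv', hw']
        simp
      · rw [o_of_odd (h hv hw) (hi.add_odd hj), hv', hw']
        simp
      · rw [o_of_odd (h hv hw) (hi.add_even hj), hv', hw']
        simp
      · rw [o_of_even (h hv hw) (hi.add_odd hj), hv', hw', two_smul]
        abel

theorem s_bilin (β : V →ₗ[k] W →ₗ[k] U)
    (h : ∀ {i j : ℤ} {v : V} {w : W}, X.IsDeg i v → Y.IsDeg j w → Z.IsDeg (i + j) (β v w))
    (v : V) (w : W) : Z.s (β v w) = β (X.s v) (Y.s w) := by
  rw [s_apply, o_bilin β h, s_apply, s_apply]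
  simp only [map_sub, map_smul, LinearMap.sub_apply, LinearMap.smul_apply, two_smul, smul_sub,
    smul_add, LinearMap.add_apply, map_add]
  abel

end bilin

/-- A map of even degree is compatible with odd parts. -/
theorem o_degMap_even {n : ℤ} (hn : Even n) (f : V →ₗ[k] W)
    (h : ∀ {j v}, X.IsDeg j v → Y.IsDeg (j + n) (f v)) (v : V) : Y.o (f v) = f (X.o v) := by
  have : Y.o.comp f = f.comp X.o := X.hom_ext (fun i v hv => by
    rw [LinearMap.comp_apply, LinearMap.comp_apply]
    rcases o_of_parity hv with ⟨hi, hv'⟩ | ⟨hi, hv'⟩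
    · rw [o_of_even (h hv) (hi.add hn), hv', map_zero]
    · rw [o_of_odd (h hv) (hi.add_even hn), hv'])
  exact LinearMap.congr_fun this v

/-- A map of odd degree exchanges even and odd parts. -/
theorem o_degMap_odd {n : ℤ} (hn : Odd n) (f : V →ₗ[k] W)
    (h : ∀ {j v}, X.IsDeg j v → Y.IsDeg (j + n) (f v)) (v : V) :
    Y.o (f v) = f v - f (X.o v) := by
  have : Y.o.comp f = f - f.comp X.o := X.hom_ext (fun i v hv => by
    rw [LinearMap.comp_apply, LinearMap.sub_apply, LinearMap.comp_apply]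
    rcases o_of_parity hv with ⟨hi, hv'⟩ | ⟨hi, hv'⟩
    · rw [o_of_odd (h hv) (hi.add_odd hn), hv', map_zero, sub_zero]
    · rw [o_of_even (h hv) (hi.add_odd hn), hv', sub_self])
  exact LinearMap.congr_fun this v

theorem s_degMap_even {n : ℤ} (hn : Even n) (f : V →ₗ[k] W)
    (h : ∀ {j v}, X.IsDeg j v → Y.IsDeg (j + n) (f v)) (v : V) : Y.s (f v) = f (X.s v) := by
  rw [s_apply, s_apply, o_degMap_even hn f h, map_sub, map_smul]

theorem s_degMap_odd {n : ℤ} (hn : Odd n) (f : V →ₗ[k] W)
    (h : ∀ {j v}, X.IsDeg j v → Y.IsDeg (j + n) (f v)) (v : V) : Y.s (f v) = - f (X.s v) := by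
  rw [s_apply, s_apply, o_degMap_odd hn f h, map_sub, map_smul, two_smul, two_smul]
  abel

end Dg

end Pool.Agent.MP_6e5bed_ag_NC
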