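import Pool.Agent.Lib.MP_6e5bed_ag_NC.KBox

set_option autoImplicit false

/-!
# The tensor product of morphisms is a functor
-/

namespace Pool.Agent.MP_6e5bed_ag_NC

universe u

variable {k : Type u} [CommRing k] {A B C D A' B' C' D' A'' B'' C'' : DGA k}

namespace K0Q

/-- The external product of two resolutions of the diagonal bimodules is one. -/
private theorem KBoxA_qiso {P : Bim A A} {P' : Bim A' A'} {φ : GMap 0 P (diag A)}
    {φ' : GMap 0 P' (diag A')} (hφ : RQIso φ) (hφ' : RQIso φ') :
    ∃ χ : GMap 0 (MP_6e5bed_ag_NC.box P P') (diag (A.tensor A')), RQIso χ := by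
  obtain ⟨ι, ρ, h0, h1, h2⟩ := box_diag A A'
  exact ⟨_, ((RQIso.boxR hφ P').comp (RQIso.boxL (diag A) hφ')).comp (RQIso.of_inv h0 h1 h2)⟩

theorem box_one (hA : Smooth A) (hA' : Smooth A') (hP : Proper A) (hP' : Proper A') :
    box (one hA) (one hA') = one (hA.tensor hA') := by
  obtain ⟨χ, hχ⟩ := KBoxA_qiso hA.choose_spec.choose_spec.2 hA'.choose_spec.choose_spec.2
  rw [one_eq (hA.tensor hA') (hP.tensor hP')
    (Perf.box hA.choose_spec.choose_spec.1 hA'.choose_spec.choose_spec.1) hχ]
  exact box_cls _ _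

theorem box_comp (hB : Proper B) (hB' : Proper B') (f : K0Q A B) (f' : K0Q A' B')
    (g : K0Q B C) (g' : K0Q B' C') :
    comp (hB.tensor hB') (box f f') (box g g') = box (comp hB f g) (comp hB' f' g') := by
  refine ind (P := fun f => comp (hB.tensor hB') (box f f') (box g g') =
    box (comp hB f g) (comp hB' f' g')) ?_ ?_ ?_ ?_ f
  · intro x y hx hy
    simp only [map_add, LinearMap.add_apply, hx, hy]
  · intro c x hx
    simp only [map_smul, LinearMap.smul_apply, hx]
  · simp
  intro M hM
  refine ind (P := fun f' => comp (hB.tensor hB') (box (cls M hM) f') (box g g') =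
    box (comp hB (cls M hM) g) (comp hB' f' g')) ?_ ?_ ?_ ?_ f'
  · intro x y hx hy
    simp only [map_add, LinearMap.add_apply, hx, hy]
  · intro c x hx
    simp only [map_smul, LinearMap.smul_apply, hx]
  · simp
  intro M' hM'
  refine ind (P := fun g => comp (hB.tensor hB') (box (cls M hM) (cls M' hM')) (box g g') =
    box (comp hB (cls M hM) g) (comp hB' (cls M' hM') g')) ?_ ?_ ?_ ?_ g
  · intro x y hx hy
    simp only [map_add, LinearMap.add_apply, hx, hy]
  · intro c x hx
    simp only [map_smul, LinearMap.smul_apply, hx]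
  · simp
  intro N hN
  refine ind (P := fun g' => comp (hB.tensor hB') (box (cls M hM) (cls M' hM'))
    (box (cls N hN) g') = box (comp hB (cls M hM) (cls N hN)) (comp hB' (cls M' hM') g'))
    ?_ ?_ ?_ ?_ g'
  · intro x y hx hy
    simp only [map_add, hx, hy]
  · intro c x hx
    simp only [map_smul, hx]
  · simp
  intro N' hN'
  rw [box_cls, box_cls, comp_cls, comp_cls, comp_cls, box_cls]
  exact cls_iso (tb_box_box M M' N N') _ _

end K0Q

end Pool.Agent.MP_6e5bed_ag_NC
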