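import Pool.Agent.Lib.MP_6e5bed_ag_NC.Tens
import Pool.Agent.Lib.MP_6e5bed_ag_NC.GMap

set_option autoImplicit false

/-!
# The Koszul product of bilinear maps
-/

namespace Pool.Agent.MP_6e5bed_ag_NC

open scoped TensorProduct

universe u

section kz

variable {k : Type u} [CommRing k] {V V' V'' W W' W'' : Type u}
  [AddCommGroup V] [Module k V] [AddCommGroup V'] [Module k V']
  [AddCommGroup V''] [Module k V''] [AddCommGroup W] [Module k W] [AddCommGroup W']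
  [Module k W'] [AddCommGroup W''] [Module k W'']

/-- The Koszul product of the bilinear maps `α` and `β`:
`(v ⊗ w)(v' ⊗ w') = (-1)^(|w||v'|) vv' ⊗ ww'`. -/
noncomputable def kz (X : Dg k V') (Y : Dg k W) (α : V →ₗ[k] V' →ₗ[k] V'')
    (β : W →ₗ[k] W' →ₗ[k] W'') : V ⊗[k] W →ₗ[k] V' ⊗[k] W' →ₗ[k] V'' ⊗[k] W'' :=
  TensorProduct.map₂ α β - (2 : k) • TensorProduct.map₂ (α.compl₂ X.o) (β.comp Y.o)

variable {X : Dg k V'} {Y : Dg k W} {α : V →ₗ[k] V' →ₗ[k] V''} {β : W →ₗ[k] W' →ₗ[k] W''}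

theorem kz_tmul (v : V) (w : W) (v' : V') (w' : W') :
    kz X Y α β (v ⊗ₜ w) (v' ⊗ₜ w') =
      α v v' ⊗ₜ β w w' - (2 : k) • α v (X.o v') ⊗ₜ β (Y.o w) w' := by
  simp [kz]

theorem kz_even {w : W} (hw : Y.o w = 0) (v : V) (v' : V') (w' : W') :
    kz X Y α β (v ⊗ₜ w) (v' ⊗ₜ w') = α v v' ⊗ₜ β w w' := by
  rw [kz_tmul, hw]
  simp

theorem kz_odd {w : W} (hw : Y.o w = w) (v : V) (v' : V') (w' : W') :
    kz X Y α β (v ⊗ₜ w) (v' ⊗ₜ w') = α v (X.s v') ⊗ₜ β w w' := by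
  rw [kz_tmul, hw, Dg.s_apply, map_sub, map_smul, TensorProduct.sub_tmul,
    TensorProduct.smul_tmul']

theorem kz_even' {v' : V'} (hv : X.o v' = 0) (v : V) (w : W) (w' : W') :
    kz X Y α β (v ⊗ₜ w) (v' ⊗ₜ w') = α v v' ⊗ₜ β w w' := by
  rw [kz_tmul, hv]
  simp

theorem kz_odd' {v' : V'} (hv : X.o v' = v') (v : V) (w : W) (w' : W') :
    kz X Y α β (v ⊗ₜ w) (v' ⊗ₜ w') = α v v' ⊗ₜ β (Y.s w) w' := by
  rw [kz_tmul, hv, Dg.s_apply, map_sub, map_smul, LinearMap.sub_apply, LinearMap.smul_apply,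
    TensorProduct.tmul_sub, TensorProduct.tmul_smul]

/-- A bilinear map on tensor products is compatible with degrees if it is so on pure tensors. -/
theorem tensor_degBilin {U : Type u} [AddCommGroup U] [Module k U] {Z : Dg k U}
    {XV : Dg k V} {YW : Dg k W} {XV' : Dg k V'} {YW' : Dg k W'}
    (f : V ⊗[k] W →ₗ[k] V' ⊗[k] W' →ₗ[k] U)
    (h : ∀ i j i' j' v w v' w', XV.IsDeg i v → YW.IsDeg j w → XV'.IsDeg i' v' →
      YW'.IsDeg j' w' → Z.IsDeg (i + j + (i' + j')) (f (v ⊗ₜ w) (v' ⊗ₜ w')))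
    {i j : ℤ} {x : V ⊗[k] W} {y : V' ⊗[k] W'} (hx : (XV.tensor YW).IsDeg i x)
    (hy : (XV'.tensor YW').IsDeg j y) : Z.IsDeg (i + j) (f x y) := by
  rw [add_comm]
  refine Dg.tensor_degMap (f x) (fun i' j' v' w' hv' hw' => ?_) hy
  rw [add_comm]
  have h1 := Dg.tensor_degMap (X := XV) (Y := YW) (Z := Z) (n := i' + j')
    (f.flip (v' ⊗ₜ w')) (fun i j v w hv hw => by
      rw [LinearMap.flip_apply]
      exact h i j i' j' v w v' w' hv hw hv' hw') hx
  rwa [LinearMap.flip_apply] at h1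

theorem kz_deg {XV : Dg k V} {YW' : Dg k W'} {Z : Dg k V''} {Z' : Dg k W''}
    (hα : ∀ {i j : ℤ} {v : V} {v' : V'}, XV.IsDeg i v → X.IsDeg j v' → Z.IsDeg (i + j) (α v v'))
    (hβ : ∀ {i j : ℤ} {w : W} {w' : W'}, Y.IsDeg i w → YW'.IsDeg j w' →
      Z'.IsDeg (i + j) (β w w'))
    {i j : ℤ} {x : V ⊗[k] W} {y : V' ⊗[k] W'} (hx : (XV.tensor Y).IsDeg i x)
    (hy : (X.tensor YW').IsDeg j y) : (Z.tensor Z').IsDeg (i + j) (kz X Y α β x y) := by
  refine tensor_degBilin _ (fun i j i' j' v w v' w' hv hw hv' hw' => ?_) hx hy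
  rw [kz_tmul, show i + j + (i' + j') = i + i' + (j + j') by ring]
  exact (Dg.tensor_deg (hα hv hv') (hβ hw hw')).sub
    ((Dg.tensor_deg (hα hv hv'.o) (hβ hw.o hw')).smul _)

theorem kz_d {XV : Dg k V} {YW' : Dg k W'} {Z : Dg k V''} {Z' : Dg k W''}
    (hα : ∀ v v', Z.d (α v v') = α (XV.d v) v' + α (XV.s v) (X.d v'))
    (hαs : ∀ v v', Z.s (α v v') = α (XV.s v) (X.s v'))
    (hβ : ∀ w w', Z'.d (β w w') = β (Y.d w) w' + β (Y.s w) (YW'.d w'))
    (x : V ⊗[k] W) (y : V' ⊗[k] W') :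
    (Z.tensor Z').d (kz X Y α β x y) =
      kz X Y α β ((XV.tensor Y).d x) y + kz X Y α β ((XV.tensor Y).s x) ((X.tensor YW').d y) := by
  induction x using TensorProduct.induction_on with
  | zero => simp
  | add x x' hx hx' =>
    simp only [map_add, LinearMap.add_apply, hx, hx']
    abel
  | tmul v w =>
    induction y using TensorProduct.induction_on with
    | zero => simp
    | add y y' hy hy' =>
      simp only [map_add, hy, hy']
      abel
    | tmul v' w' =>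
      refine Y.parity_ind (P := fun w => (Z.tensor Z').d (kz X Y α β (v ⊗ₜ w) (v' ⊗ₜ w')) =
        kz X Y α β ((XV.tensor Y).d (v ⊗ₜ w)) (v' ⊗ₜ w') +
          kz X Y α β ((XV.tensor Y).s (v ⊗ₜ w)) ((X.tensor YW').d (v' ⊗ₜ w'))) ?_ ?_ ?_ w
      · intro w1 w2 h1 h2
        simp only [TensorProduct.tmul_add, map_add, LinearMap.add_apply, h1, h2]
        abel
      · intro w hw
        have hw1 : Y.o (Y.d w) = Y.d w := by rw [Dg.o_d, hw, map_zero, sub_zero]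
        simp only [kz_even hw, Dg.tensor_d, Dg.tensor_s, map_add, LinearMap.add_apply,
          kz_odd hw1, Dg.s_of_even hw, hα, hβ, hαs, TensorProduct.add_tmul,
          TensorProduct.tmul_add]
        abel
      · intro w hw
        have hw1 : Y.o (Y.d w) = 0 := by rw [Dg.o_d, hw, sub_self]
        simp only [kz_odd hw, Dg.tensor_d, Dg.tensor_s, map_add, LinearMap.add_apply,
          kz_even hw1, Dg.s_of_odd hw, hα, hβ, hαs, TensorProduct.add_tmul,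
          TensorProduct.tmul_add, Dg.s_d, Dg.s_s, TensorProduct.tmul_neg, map_neg,
          LinearMap.neg_apply, neg_neg, TensorProduct.neg_tmul]
        abel

end kz

section assoc

variable {k : Type u} [CommRing k]
  {V1 V2 V3 V12 V23 V123 W1 W2 W3 W12 W23 W123 : Type u}
  [AddCommGroup V1] [Module k V1] [AddCommGroup V2] [Module k V2] [AddCommGroup V3] [Module k V3]
  [AddCommGroup V12] [Module k V12] [AddCommGroup V23] [Module k V23]
  [AddCommGroup V123] [Module k V123]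
  [AddCommGroup W1] [Module k W1] [AddCommGroup W2] [Module k W2] [AddCommGroup W3] [Module k W3]
  [AddCommGroup W12] [Module k W12] [AddCommGroup W23] [Module k W23]
  [AddCommGroup W123] [Module k W123]

theorem kz_assoc {X2 : Dg k V2} {X3 : Dg k V3} {X23 : Dg k V23} {Y1 : Dg k W1} {Y2 : Dg k W2}
    {Y12 : Dg k W12} {α1 : V1 →ₗ[k] V2 →ₗ[k] V12} {α2 : V12 →ₗ[k] V3 →ₗ[k] V123}
    {α3 : V2 →ₗ[k] V3 →ₗ[k] V23} {α4 : V1 →ₗ[k] V23 →ₗ[k] V123}
    {β1 : W1 →ₗ[k] W2 →ₗ[k] W12} {β2 : W12 →ₗ[k] W3 →ₗ[k] W123}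
    {β3 : W2 →ₗ[k] W3 →ₗ[k] W23} {β4 : W1 →ₗ[k] W23 →ₗ[k] W123}
    (hα : ∀ a b c, α2 (α1 a b) c = α4 a (α3 b c)) (hβ : ∀ a b c, β2 (β1 a b) c = β4 a (β3 b c))
    (hs : ∀ b c, X23.s (α3 b c) = α3 (X2.s b) (X3.s c))
    (ho : ∀ a b, Y12.o (β1 a b) = β1 (Y1.o a) b + β1 a (Y2.o b) -
      (2 : k) • β1 (Y1.o a) (Y2.o b))
    (x : V1 ⊗[k] W1) (y : V2 ⊗[k] W2) (z : V3 ⊗[k] W3) :
    kz X3 Y12 α2 β2 (kz X2 Y1 α1 β1 x y) z = kz X23 Y1 α4 β4 x (kz X3 Y2 α3 β3 y z) := by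
  induction x using TensorProduct.induction_on with
  | zero => simp
  | add x x' hx hx' => simp only [map_add, LinearMap.add_apply, hx, hx']
  | tmul v1 w1 =>
    induction y using TensorProduct.induction_on with
    | zero => simp
    | add y y' hy hy' => simp only [map_add, LinearMap.add_apply, hy, hy']
    | tmul v2 w2 =>
      induction z using TensorProduct.induction_on with
      | zero => simp
      | add z z' hz hz' => simp only [map_add, hz, hz']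
      | tmul v3 w3 =>
        refine Y1.parity_ind (P := fun w1 =>
          kz X3 Y12 α2 β2 (kz X2 Y1 α1 β1 (v1 ⊗ₜ w1) (v2 ⊗ₜ w2)) (v3 ⊗ₜ w3) =
            kz X23 Y1 α4 β4 (v1 ⊗ₜ w1) (kz X3 Y2 α3 β3 (v2 ⊗ₜ w2) (v3 ⊗ₜ w3))) ?_ ?_ ?_ w1
        · intro a b ha hb
          simp only [TensorProduct.tmul_add, map_add, LinearMap.add_apply, ha, hb]
        · intro w1 hw1
          refine Y2.parity_ind (P := fun w2 =>
            kz X3 Y12 α2 β2 (kz X2 Y1 α1 β1 (v1 ⊗ₜ w1) (v2 ⊗ₜ w2)) (v3 ⊗ₜ w3) =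
              kz X23 Y1 α4 β4 (v1 ⊗ₜ w1) (kz X3 Y2 α3 β3 (v2 ⊗ₜ w2) (v3 ⊗ₜ w3))) ?_ ?_ ?_ w2
          · intro a b ha hb
            simp only [TensorProduct.tmul_add, map_add, LinearMap.add_apply, ha, hb]
          · intro w2 hw2
            have h12 : Y12.o (β1 w1 w2) = 0 := by rw [ho, hw1, hw2]; simp
            rw [kz_even hw1, kz_even h12, kz_even hw2, kz_even hw1, hα, hβ]
          · intro w2 hw2
            have h12 : Y12.o (β1 w1 w2) = β1 w1 w2 := by rw [ho, hw1, hw2]; simp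
            rw [kz_even hw1, kz_odd h12, kz_odd hw2, kz_even hw1, hα, hβ]
        · intro w1 hw1
          refine Y2.parity_ind (P := fun w2 =>
            kz X3 Y12 α2 β2 (kz X2 Y1 α1 β1 (v1 ⊗ₜ w1) (v2 ⊗ₜ w2)) (v3 ⊗ₜ w3) =
              kz X23 Y1 α4 β4 (v1 ⊗ₜ w1) (kz X3 Y2 α3 β3 (v2 ⊗ₜ w2) (v3 ⊗ₜ w3))) ?_ ?_ ?_ w2
          · intro a b ha hb
            simp only [TensorProduct.tmul_add, map_add, LinearMap.add_apply, ha, hb]
          · intro w2 hw2
            have h12 : Y12.o (β1 w1 w2) = β1 w1 w2 := by rw [ho, hw1, hw2]; simp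
            rw [kz_odd hw1, kz_odd h12, kz_even hw2, kz_odd hw1, hα, hβ, hs]
          · intro w2 hw2
            have h12 : Y12.o (β1 w1 w2) = 0 := by
              rw [ho, hw1, hw2, two_smul]
              abel
            rw [kz_odd hw1, kz_even h12, kz_odd hw2, kz_odd hw1, hα, hβ, hs, Dg.s_s]

end assoc

end Pool.Agent.MP_6e5bed_ag_NC
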