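import Pool.Agent.Lib.MP_6e5bed_ag_NC.NChow
import Pool.Agent.Lib.MP_6e5bed_ag_NC.HalfDual
import Pool.Agent.Lib.MP_6e5bed_ag_NC.Rigid
import Pool.Agent.Lib.MP_6e5bed_ag_NC.EndOne

set_option autoImplicit false

/-!
# Duals, tensor products and the unit in the category of noncommutative Chow motives
-/

namespace Pool.Agent.MP_6e5bed_ag_NC

open CategoryTheory MonoidalCategory Idempotents

universe v u

namespace NDual

variable {C : Type u} [Category.{v} C] [MonoidalCategory C]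

theorem id_comm (A B : C) :
    𝟙 (A ⊗ B) ≫ 𝟙 (A ⊗ B) ≫ (𝟙 A ⊗ₘ 𝟙 B) = 𝟙 (A ⊗ B) := by
  rw [id_tensorHom_id, Category.comp_id, Category.comp_id]

theorem id_comm' (A B : C) :
    (𝟙 A ⊗ₘ 𝟙 B) ≫ 𝟙 (A ⊗ B) ≫ 𝟙 (A ⊗ B) = 𝟙 (A ⊗ B) := by
  rw [id_tensorHom_id, Category.comp_id, Category.comp_id]

/-- The functor to the idempotent completion preserves tensor products. -/
def tIso (A B : C) :
    (toKaroubi C).obj (A ⊗ B) ≅ (toKaroubi C).obj A ⊗ (toKaroubi C).obj B where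
  hom := ⟨𝟙 (A ⊗ B), id_comm A B⟩
  inv := ⟨𝟙 (A ⊗ B), id_comm' A B⟩
  hom_inv_id := Karoubi.hom_ext _ _ (Category.comp_id (𝟙 (A ⊗ B)))
  inv_hom_id := Karoubi.hom_ext _ _
    ((Category.comp_id (𝟙 (A ⊗ B))).trans (id_tensorHom_id A B).symm)

theorem exists_dual {A B : C} (η : 𝟙_ C ⟶ B ⊗ A) (ε : A ⊗ B ⟶ 𝟙_ C)
    (h : (A ◁ η) ≫ (α_ A B A).inv ≫ (ε ▷ A) = (ρ_ A).hom ≫ (λ_ A).inv) :
    ∃ M' : Karoubi C, Nonempty (ExactPairing M' ((toKaroubi C).obj A)) := by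
  refine exists_exactPairing (A := (toKaroubi C).obj A) (B := (toKaroubi C).obj B)
    ⟨η, ?_⟩ ⟨ε, ?_⟩ ?_
  · change 𝟙 (𝟙_ C) ≫ η ≫ (𝟙 B ⊗ₘ 𝟙 A) = η
    rw [id_tensorHom_id, Category.comp_id, Category.id_comp]
  · change (𝟙 A ⊗ₘ 𝟙 B) ≫ ε ≫ 𝟙 (𝟙_ C) = ε
    rw [id_tensorHom_id, Category.comp_id, Category.id_comp]
  · apply Karoubi.hom_ext
    change (𝟙 A ⊗ₘ η) ≫ (((𝟙 A ⊗ₘ (𝟙 B ⊗ₘ 𝟙 A)) ≫ (α_ A B A).inv) ≫ (ε ⊗ₘ 𝟙 A)) =
      ((ρ_ A).hom ≫ 𝟙 A) ≫ (𝟙 A ≫ (λ_ A).inv)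
    rw [id_tensorHom_id, id_tensorHom_id, Category.id_comp, Category.comp_id, Category.id_comp,
      id_tensorHom, tensorHom_id]
    exact h

end NDual

variable {k : Type u} [Field k]

/-- The motive of `A` has a dual. -/
theorem U_dual (A : SP k) : ∃ M' : NChow k, Nonempty (ExactPairing M' (U A)) :=
  NDual.exists_dual A.eta A.eps A.zigzag

theorem end_unit_NChow (a : 𝟙_ (NChow k) ⟶ 𝟙_ (NChow k)) :
    ∃ c : ℚ, a = c • 𝟙 (𝟙_ (NChow k)) := by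
  obtain ⟨c, hc⟩ := end_unit (k := k) a.f
  exact ⟨c, Karoubi.hom_ext _ _ hc⟩

/-- The motive of `A ⊗ B` is the tensor product of the motives. -/
theorem U_tensor (A B : SP k) : Nonempty (U (A ⊗ B) ≅ U A ⊗ U B) :=
  ⟨NDual.tIso A B⟩

end Pool.Agent.MP_6e5bed_ag_NC
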