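import Pool.Agent.Lib.MP_6e5bed_ag_NC.NullTo
import Pool.Agent.Lib.MP_6e5bed_ag_NC.Acy

set_option autoImplicit false

/-!
# Maps from perfect to acyclic bimodules are homotopic to zero
-/

namespace Pool.Agent.MP_6e5bed_ag_NC

open scoped TensorProduct

universe u

variable {k : Type u} [CommRing k] {A B : DGA k}

private theorem null_d_one (A : DGA k) : A.dg.d A.one = 0 := by
  have h := A.leibniz A.one A.one
  rw [A.one_mul, Dg.s_of_even (Dg.o_of_even A.one_deg Even.zero), A.mul_one, A.one_mul] at h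
  exact left_eq_add.1 h

private theorem null_sp_mul (A : DGA k) (m : ℤ) (a b : A.A) :
    A.dg.sp m (A.mul a b) = A.mul (A.dg.sp m a) (A.dg.sp m b) := by
  rcases Int.even_or_odd m with h | h
  · rw [Dg.sp_even h, Dg.sp_even h, Dg.sp_even h]
  · rw [Dg.sp_odd h, Dg.sp_odd h, Dg.sp_odd h, A.s_mul]

private theorem null_sp_one (A : DGA k) (m : ℤ) : A.dg.sp m A.one = A.one := by
  rcases Int.even_or_odd m with h | h
  · rw [Dg.sp_even h]
  · rw [Dg.sp_odd h, Dg.s_of_even (Dg.o_of_even A.one_deg Even.zero)]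

/-- The map from the free bimodule which is given by an element. -/
private noncomputable def nullLin (Y : Bim A B) (m : ℤ) (z : Y.M) : A.A ⊗[k] B.A →ₗ[k] Y.M :=
  TensorProduct.lift ((Y.l ∘ₗ A.dg.sp m).compl₂ (Y.r.flip z))

private theorem nullLin_tmul (Y : Bim A B) (m : ℤ) (z : Y.M) (a : A.A) (b : B.A) :
    nullLin Y m z (a ⊗ₜ b) = Y.l (A.dg.sp m a) (Y.r b z) := by
  rw [nullLin, TensorProduct.lift.tmul]
  rfl

private theorem nullLin_l (Y : Bim A B) (m : ℤ) (z : Y.M) (a : A.A) (x : A.A ⊗[k] B.A) :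
    nullLin Y m z (LinearMap.rTensor B.A (A.mul a) x) = Y.l (A.dg.sp m a) (nullLin Y m z x) := by
  induction x using TensorProduct.induction_on with
  | zero => simp
  | add x y hx hy => rw [map_add, map_add, hx, hy, map_add, map_add]
  | tmul x y => rw [LinearMap.rTensor_tmul, nullLin_tmul, nullLin_tmul, null_sp_mul, Y.l_mul]

private theorem nullLin_r (Y : Bim A B) (m : ℤ) (z : Y.M) (b : B.A) (x : A.A ⊗[k] B.A) :
    nullLin Y m z (LinearMap.lTensor A.A (B.mul.flip b) x) = Y.r b (nullLin Y m z x) := by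
  induction x using TensorProduct.induction_on with
  | zero => simp
  | add x y hx hy => rw [map_add, map_add, hx, hy, map_add, map_add]
  | tmul x y =>
    rw [LinearMap.lTensor_tmul, nullLin_tmul, nullLin_tmul, LinearMap.flip_apply, Y.r_mul, Y.l_r]

/-- The graded map from the free bimodule which is given by an element. -/
private noncomputable def nullFree {Y : Bim A B} {m : ℤ} (z : Y.M) (hz : Y.dg.IsDeg m z) :
    GMap m (free A B) Y where
  f := nullLin Y m z
  deg := fun {i x} hx => by
    refine Dg.tensor_degMap (X := A.dg) (Y := B.dg) (nullLin Y m z)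
      (fun i' j' v w hv hw => ?_) hx
    have h1 := Y.l_deg (hv.sp (n := m)) (Y.r_deg hz hw)
    rw [show i' + j' + m = i' + (m + j') by ring, nullLin_tmul]
    exact h1
  map_l := nullLin_l Y m z
  map_r := nullLin_r Y m z

/-- Pure tensors. -/
private def nullT (A B : DGA k) (a : A.A) (b : B.A) : (free A B).M :=
  (a ⊗ₜ b : A.A ⊗[k] B.A)

private theorem null_ind {P : (free A B).M → Prop} (h0 : P 0)
    (hadd : ∀ x y, P x → P y → P (x + y)) (ht : ∀ a b, P (nullT A B a b))
    (x : (free A B).M) : P x := by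
  have key : ∀ y : A.A ⊗[k] B.A, P y := by
    intro y
    induction y using TensorProduct.induction_on with
    | zero => exact h0
    | add v w hv hw => exact hadd v w hv hw
    | tmul v w => exact ht v w
  exact key x

private theorem nullFree_one {Y : Bim A B} {m : ℤ} (z : Y.M) (hz : Y.dg.IsDeg m z) :
    (nullFree (A := A) (B := B) z hz).f (nullT A B A.one B.one) = z := by
  change nullLin Y m z (A.one ⊗ₜ B.one) = z
  rw [nullLin_tmul, null_sp_one, Y.r_one, Y.l_one]

private theorem null_d_oneone (A B : DGA k) :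
    (free A B).dg.d (nullT A B A.one B.one) = 0 := by
  change (A.dg.tensor B.dg).d (A.one ⊗ₜ B.one) = 0
  rw [Dg.tensor_d, null_d_one, null_d_one]
  simp

private theorem null_free_val {Y : Bim A B} {n : ℤ} (φ : GMap n (free A B) Y) (a : A.A)
    (b : B.A) : φ.f (nullT A B a b) =
      Y.l (A.dg.sp n a) (Y.r b (φ.f (nullT A B A.one B.one))) := by
  have h1 : (free A B).r b (nullT A B A.one B.one) = nullT A B A.one b := by
    change LinearMap.lTensor A.A (B.mul.flip b) (A.one ⊗ₜ B.one) = A.one ⊗ₜ b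
    rw [LinearMap.lTensor_tmul, LinearMap.flip_apply, B.one_mul]
  have h2 : (free A B).l a (nullT A B A.one b) = nullT A B a b := by
    change LinearMap.rTensor B.A (A.mul a) (A.one ⊗ₜ b) = a ⊗ₜ b
    rw [LinearMap.rTensor_tmul, A.mul_one]
  rw [← h2, φ.map_l, ← h1, φ.map_r]

private theorem null_free_ext {Y : Bim A B} {n : ℤ} (f g : GMap n (free A B) Y)
    (h : f.f (nullT A B A.one B.one) = g.f (nullT A B A.one B.one)) (x : (free A B).M) :
    f.f x = g.f x := by
  refine null_ind (P := fun x => f.f x = g.f x) ?_ ?_ ?_ x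
  · rw [map_zero, map_zero]
  · intro v w hv hw
    rw [map_add, map_add, hv, hw]
  · intro a b
    rw [null_free_val f, null_free_val g, h]

private theorem null_aux {X : Bim A B} (hX : Perf X) {Y : Bim A B} (hY : Acyc Y) :
    ∀ {n m : ℤ} (f : GMap n X Y), f.dd = 0 → m + 1 = n →
      ∃ h : GMap m X Y, ∀ x, h.dd x = f.f x := by
  induction hX with
  | free =>
    intro n m f hf hm
    have hy : Y.dg.IsDeg n (f.f (nullT A B A.one B.one)) := by
      have h1 : (free A B).dg.IsDeg (0 + 0) (nullT A B A.one B.one) :=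
        Dg.tensor_deg A.one_deg B.one_deg
      have h2 := f.deg h1
      rw [add_zero, zero_add] at h2
      exact h2
    have hdy : Y.dg.d (f.f (nullT A B A.one B.one)) = 0 := by
      rw [GMap.d_f hf, null_d_oneone, map_zero, smul_zero]
    obtain ⟨z0, hz0⟩ := hY _ hdy
    have hz : Y.dg.IsDeg m (Y.dg.ρ z0 m) := Dg.isDeg_ρ z0 m
    have hdz : Y.dg.d (Y.dg.ρ z0 m) = f.f (nullT A B A.one B.one) := by
      rw [← Y.dg.ρ_d, hz0, hm]
      have h3 : Y.dg.ρ (f.f (nullT A B A.one B.one)) = Finsupp.single n (f.f (nullT A B A.one B.one)) := hy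
      rw [h3, Finsupp.single_eq_same]
    refine ⟨nullFree _ hz, fun x => ?_⟩
    have h4 := null_free_ext ((nullFree _ hz).D hm) f (by
      rw [GMap.D_f, GMap.dd_apply, null_d_oneone, map_zero, smul_zero, sub_zero, nullFree_one,
        hdz]) x
    rw [GMap.D_f] at h4
    exact h4
  | contr hM =>
    intro n m f hf hm
    exact NullTo.of_contr hM _ n m f hf hm
  | mid hE _ _ ih1 ih2 =>
    intro n m f hf hm
    exact NullTo.mid hE (fun n m f hf hm => ih1 f hf hm) (fun n m f hf hm => ih2 f hf hm) n m f hf hm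
  | left hE _ _ ih1 ih2 =>
    intro n m f hf hm
    exact NullTo.left hE (fun n m f hf hm => ih1 f hf hm) (fun n m f hf hm => ih2 f hf hm) n m f hf hm
  | right hE _ _ ih1 ih2 =>
    intro n m f hf hm
    exact NullTo.right hE (fun n m f hf hm => ih1 f hf hm) (fun n m f hf hm => ih2 f hf hm) n m f hf hm
  | summand hS _ ih =>
    intro n m f hf hm
    exact NullTo.summand hS (fun n m f hf hm => ih f hf hm) n m f hf hm

/-- Every closed map from a perfect to an acyclic bimodule is homotopic to zero. -/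
theorem Perf.null {X : Bim A B} (hX : Perf X) {Y : Bim A B} (hY : Acyc Y) {n m : ℤ}
    (f : GMap n X Y) (hf : f.dd = 0) (hm : m + 1 = n) :
    ∃ h : GMap m X Y, ∀ x, h.dd x = f.f x :=
  null_aux hX hY f hf hm

/-- Acyclic perfect bimodules are contractible. -/
theorem Perf.contr_of_acyc {X : Bim A B} (hX : Perf X) (h : Acyc X) : Contr X := by
  obtain ⟨g, hg⟩ := Perf.null hX h (GMap.id X) (LinearMap.ext GMap.dd_id) (m := -1) (by ring)
  exact ⟨g, LinearMap.ext (fun x => hg x)⟩

end Pool.Agent.MP_6e5bed_ag_NC
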