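import Pool.Agent.Lib.MP_6e5bed_ag_NC.Ext

set_option autoImplicit false

/-!
# Bimodules all of whose closed maps to a given bimodule are homotopic to zero
-/

namespace Pool.Agent.MP_6e5bed_ag_NC

universe u

variable {k : Type u} [CommRing k] {A B : DGA k}

/-- A map which vanishes on the kernel factors over the quotient. -/
theorem null_factor {M' M M'' Y : Bim A B} {i : GMap 0 M' M} {p : GMap 0 M M''}
    {r : GMap 0 M M'} {σ : GMap 0 M'' M} (h1 : p.dd = 0)
    (h6 : ∀ x, i.f (r.f x) + σ.f (p.f x) = x) {n : ℤ} (g : GMap n M Y)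
    (hg : ∀ x, g.f (i.f x) = 0) :
    ∃ h : GMap n M'' Y, (∀ x, h.f (p.f x) = g.f x) ∧ ∀ x, h.dd (p.f x) = g.dd x := by
  have hp : ∀ x, g.f (σ.f (p.f x)) = g.f x := by
    intro x
    conv_rhs => rw [← h6 x]
    rw [map_add, hg, zero_add]
  refine ⟨σ.comp g (zero_add n), fun x => ?_, fun x => ?_⟩
  · rw [GMap.comp_f, hp]
  · have e1 : p.comp (σ.comp g (zero_add n)) (zero_add n) = g := GMap.ext (fun x => by
      rw [GMap.comp_f, GMap.comp_f, hp])
    have e2 := GMap.dd_comp p (σ.comp g (zero_add n)) (zero_add n) x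
    rw [e1, h1, LinearMap.zero_apply, map_zero, smul_zero, add_zero] at e2
    exact e2.symm

theorem null_ret {M' M Y : Bim A B} {i : GMap 0 M' M} {r : GMap 0 M M'} (h0 : i.dd = 0)
    (h2 : ∀ x, r.f (i.f x) = x) {m : ℤ} (h' : GMap m M' Y) (x : M'.M) :
    (r.comp h' (zero_add m)).dd (i.f x) = h'.dd x := by
  have e1 : i.comp (r.comp h' (zero_add m)) (zero_add m) = h' := GMap.ext (fun x => by
    rw [GMap.comp_f, GMap.comp_f, h2])
  have e2 := GMap.dd_comp i (r.comp h' (zero_add m)) (zero_add m) x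
  rw [e1, h0, LinearMap.zero_apply, map_zero, smul_zero, add_zero] at e2
  exact e2.symm

theorem null_pull {M N Y : Bim A B} {i : GMap 0 M N} (h0 : i.dd = 0) {m : ℤ}
    (h : GMap m N Y) (x : M.M) : (i.comp h (zero_add m)).dd x = h.dd (i.f x) := by
  rw [GMap.dd_comp, h0, LinearMap.zero_apply, map_zero, smul_zero, add_zero]

/-- Every closed map (of any degree) from `X` to `Y` is homotopic to zero. -/
def NullTo (X Y : Bim A B) : Prop :=
  ∀ (n m : ℤ) (f : GMap n X Y), f.dd = 0 → m + 1 = n → ∃ h : GMap m X Y, ∀ x, h.dd x = f.f x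

theorem NullTo.of_contr {X : Bim A B} (hX : Contr X) (Y : Bim A B) : NullTo X Y := by
  intro n m f hf hm
  obtain ⟨g, hg⟩ := hX
  refine ⟨(sg n) • (g.comp f (by omega)), fun x => ?_⟩
  rw [GMap.dd_smul, GMap.dd_comp, hf, hg, LinearMap.zero_apply, LinearMap.id_apply, zero_add,
    smul_smul, sg_mul_self, one_smul]

theorem NullTo.mid {M' M M'' Y : Bim A B} (hE : IsExt M' M M'') (ih1 : NullTo M' Y)
    (ih2 : NullTo M'' Y) : NullTo M Y := by
  intro n m f hf hm
  obtain ⟨i, p, r, σ, h0, h1, h2, h3, h4, h5, h6⟩ := hE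
  obtain ⟨h', hh'⟩ := ih1 n m (i.comp f (zero_add n)) (by
    ext x
    rw [null_pull h0, hf]
    rfl) hm
  have hF : ∀ x, (f - (r.comp h' (zero_add m)).D hm).f (i.f x) = 0 := by
    intro x
    rw [GMap.sub_f, GMap.D_f, null_ret h0 h2, hh', GMap.comp_f, sub_self]
  obtain ⟨g, hg1, hg2⟩ := null_factor h1 h6 _ hF
  obtain ⟨h'', hh''⟩ := ih2 n m g (by
    ext y
    rw [← h3 y, hg2, GMap.dd_sub, hf, GMap.dd_D, LinearMap.zero_apply, sub_zero,
      LinearMap.zero_apply]) hm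
  refine ⟨r.comp h' (zero_add m) + p.comp h'' (zero_add m), fun x => ?_⟩
  rw [GMap.dd_add, null_pull h1, hh'', hg1, GMap.sub_f, GMap.D_f]
  abel

theorem NullTo.left {M' M M'' Y : Bim A B} (hE : IsExt M' M M'') (ih1 : NullTo M Y)
    (ih2 : NullTo M'' Y) : NullTo M' Y := by
  intro n m f hf hm
  obtain ⟨i, p, r, σ, h0, h1, h2, h3, h4, h5, h6⟩ := hE
  obtain ⟨κ, hκ, hκ1, hκ2⟩ := ext_kappa h0 h1 h2 h3 h4 h5 h6
  obtain ⟨h'', hh''⟩ := ih2 (1 + n) n (κ.comp f rfl) (by
    ext x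
    rw [GMap.dd_comp, hf, hκ]
    simp) (by ring)
  obtain ⟨H, hH⟩ := ih1 n m (r.comp f (zero_add n) + (sg n) • p.comp h'' (zero_add n)) (by
    ext x
    rw [GMap.dd_add, GMap.dd_smul, null_pull h1, hh'', GMap.dd_comp, hf, hκ2,
      LinearMap.zero_apply, zero_add, GMap.comp_f, map_neg, smul_neg, neg_add_cancel,
      LinearMap.zero_apply]) hm
  refine ⟨i.comp H (zero_add m), fun x => ?_⟩
  rw [null_pull h0, hH, GMap.add_f, GMap.smul_f, GMap.comp_f, GMap.comp_f, h2, h4, map_zero,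
    smul_zero, add_zero]

theorem NullTo.right {M' M M'' Y : Bim A B} (hE : IsExt M' M M'') (ih1 : NullTo M' Y)
    (ih2 : NullTo M Y) : NullTo M'' Y := by
  intro n m f hf hm
  obtain ⟨i, p, r, σ, h0, h1, h2, h3, h4, h5, h6⟩ := hE
  obtain ⟨H, hH⟩ := ih2 n m (p.comp f (zero_add n)) (by
    ext x
    rw [null_pull h1, hf]
    rfl) hm
  obtain ⟨h', hh'⟩ := ih1 m (m - 1) (i.comp H (zero_add m)) (by
    ext x
    rw [null_pull h0, hH, GMap.comp_f, h4, map_zero, LinearMap.zero_apply]) (by ring)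
  have hF : ∀ x, (H - (r.comp h' (zero_add (m - 1))).D (by ring)).f (i.f x) = 0 := by
    intro x
    rw [GMap.sub_f, GMap.D_f, null_ret h0 h2, hh', GMap.comp_f, sub_self]
  obtain ⟨g, hg1, hg2⟩ := null_factor h1 h6 _ hF
  refine ⟨g, fun y => ?_⟩
  rw [← h3 y, hg2, GMap.dd_sub, hH, GMap.dd_D, sub_zero, GMap.comp_f, h3]

theorem NullTo.summand {M' M Y : Bim A B} (hS : IsSummand M' M) (ih : NullTo M Y) :
    NullTo M' Y := by
  intro n m f hf hm
  obtain ⟨i, r, h0, h1, h2⟩ := hS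
  obtain ⟨H, hH⟩ := ih n m (r.comp f (zero_add n)) (by
    ext x
    rw [null_pull h1, hf]
    rfl) hm
  refine ⟨i.comp H (zero_add m), fun x => ?_⟩
  rw [null_pull h0, hH, GMap.comp_f, h2]

theorem contr_of_nullTo {X : Bim A B} (h : NullTo X X) : Contr X := by
  obtain ⟨g, hg⟩ := h 0 (-1) (GMap.id X) (LinearMap.ext GMap.dd_id) (by ring)
  exact ⟨g, LinearMap.ext (fun x => hg x)⟩

theorem Contr.mid {M' M M'' : Bim A B} (hE : IsExt M' M M'') (h' : Contr M') (h'' : Contr M'') :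
    Contr M :=
  contr_of_nullTo (NullTo.mid hE (NullTo.of_contr h' _) (NullTo.of_contr h'' _))

theorem Contr.left {M' M M'' : Bim A B} (hE : IsExt M' M M'') (h : Contr M) (h'' : Contr M'') :
    Contr M' :=
  contr_of_nullTo (NullTo.left hE (NullTo.of_contr h _) (NullTo.of_contr h'' _))

theorem Contr.right {M' M M'' : Bim A B} (hE : IsExt M' M M'') (h' : Contr M') (h : Contr M) :
    Contr M'' :=
  contr_of_nullTo (NullTo.right hE (NullTo.of_contr h' _) (NullTo.of_contr h _))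

theorem Contr.summand {M' M : Bim A B} (hS : IsSummand M' M) (h : Contr M) : Contr M' :=
  contr_of_nullTo (NullTo.summand hS (NullTo.of_contr h _))

theorem Contr.iso {M N : Bim A B} (h : BIso M N) (hM : Contr M) : Contr N :=
  Contr.summand h.summand hM

end Pool.Agent.MP_6e5bed_ag_NC
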