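import Pool.Agent.Lib.MP_6e5bed_ag_NC.Box

set_option autoImplicit false

/-!
# The opposite dg algebra and the conversion of left into right actions
-/

namespace Pool.Agent.MP_6e5bed_ag_NC

open scoped TensorProduct

universe u

variable {k : Type u} [CommRing k] {A B : DGA k}

section optw

variable {V W U : Type u} [AddCommGroup V] [Module k V] [AddCommGroup W] [Module k W]
  [AddCommGroup U] [Module k U]

/-- The exchange of the arguments of a bilinear map, with the Koszul sign:
`(w, v) ↦ (-1)^(|v||w|) β v w`. -/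
noncomputable def tw (X : Dg k V) (Y : Dg k W) (β : V →ₗ[k] W →ₗ[k] U) : W →ₗ[k] V →ₗ[k] U :=
  β.flip - (2 : k) • (β.compl₁₂ X.o Y.o).flip

variable {X : Dg k V} {Y : Dg k W} {β : V →ₗ[k] W →ₗ[k] U}

theorem tw_apply (w : W) (v : V) :
    tw X Y β w v = β v w - (2 : k) • β (X.o v) (Y.o w) := by
  simp [tw]

theorem tw_even {w : W} (hw : Y.o w = 0) (v : V) : tw X Y β w v = β v w := by
  rw [tw_apply, hw, map_zero, smul_zero, sub_zero]

theorem tw_odd {w : W} (hw : Y.o w = w) (v : V) : tw X Y β w v = β (X.s v) w := by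
  rw [tw_apply, hw, Dg.s_apply, map_sub, map_smul, LinearMap.sub_apply, LinearMap.smul_apply]

theorem tw_even' {v : V} (hv : X.o v = 0) (w : W) : tw X Y β w v = β v w := by
  rw [tw_apply, hv, map_zero, LinearMap.zero_apply, smul_zero, sub_zero]

theorem tw_odd' {v : V} (hv : X.o v = v) (w : W) : tw X Y β w v = β v (Y.s w) := by
  rw [tw_apply, hv, Dg.s_apply, map_sub, map_smul]

theorem tw_deg {Z : Dg k U}
    (h : ∀ {i j : ℤ} {v : V} {w : W}, X.IsDeg i v → Y.IsDeg j w → Z.IsDeg (i + j) (β v w))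
    {i j : ℤ} {w : W} {v : V} (hw : Y.IsDeg i w) (hv : X.IsDeg j v) :
    Z.IsDeg (i + j) (tw X Y β w v) := by
  rw [tw_apply, add_comm]
  exact (h hv hw).sub ((h hv.o hw.o).smul _)

theorem tw_s {Z : Dg k U} (h : ∀ v w, Z.s (β v w) = β (X.s v) (Y.s w)) (w : W) (v : V) :
    Z.s (tw X Y β w v) = tw X Y β (Y.s w) (X.s v) := by
  rw [tw_apply, tw_apply, map_sub, map_smul, h, h, Dg.s_o, Dg.s_o, Dg.o_s, Dg.o_s]

theorem tw_o {Z : Dg k U}
    (h : ∀ {i j : ℤ} {v : V} {w : W}, X.IsDeg i v → Y.IsDeg j w → Z.IsDeg (i + j) (β v w))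
    (w : W) (v : V) :
    Z.o (tw X Y β w v) = tw X Y β (Y.o w) v + tw X Y β w (X.o v) -
      (2 : k) • tw X Y β (Y.o w) (X.o v) :=
  Dg.o_bilin (tw X Y β) (fun h1 h2 => tw_deg h h1 h2) w v

theorem tw_d {Z : Dg k U} (h : ∀ v w, Z.d (β v w) = β (X.d v) w + β (X.s v) (Y.d w)) (w : W)
    (v : V) : Z.d (tw X Y β w v) = tw X Y β (Y.d w) v + tw X Y β (Y.s w) (X.d v) := by
  refine Y.parity_ind (P := fun w => Z.d (tw X Y β w v) =
    tw X Y β (Y.d w) v + tw X Y β (Y.s w) (X.d v)) ?_ ?_ ?_ w
  · intro a b ha hb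
    simp only [map_add, LinearMap.add_apply, ha, hb]
    abel
  · intro w hw
    have hw1 : Y.o (Y.d w) = Y.d w := by rw [Dg.o_d, hw, map_zero, sub_zero]
    rw [tw_even hw, tw_odd hw1, Dg.s_of_even hw, tw_even hw, h]
    abel
  · intro w hw
    have hw1 : Y.o (Y.d w) = 0 := by rw [Dg.o_d, hw, sub_self]
    rw [tw_odd hw, tw_even hw1, Dg.s_of_odd hw, map_neg, LinearMap.neg_apply, tw_odd hw, h,
      Dg.s_s, Dg.s_d, map_neg, LinearMap.neg_apply]
    abel

end optw

/-- The opposite dg algebra: the product of `a` and `b` is `(-1)^(|a||b|) ba`. -/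
noncomputable def DGA.op (A : DGA k) : DGA k where
  A := A.A
  dg := A.dg
  mul := tw A.dg A.dg A.mul
  one := A.one
  one_mul := fun a => by rw [tw_even A.o_one, A.mul_one]
  mul_one := fun a => by rw [tw_even' A.o_one, A.one_mul]
  mul_assoc := fun a b c => by
    refine A.dg.parity_ind (P := fun a => tw A.dg A.dg A.mul (tw A.dg A.dg A.mul a b) c =
      tw A.dg A.dg A.mul a (tw A.dg A.dg A.mul b c)) ?_ ?_ ?_ a
    · intro x y hx hy
      simp only [map_add, LinearMap.add_apply, hx, hy]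
    · intro a ha
      rw [tw_even ha, tw_even ha]
      refine A.dg.parity_ind (P := fun b => tw A.dg A.dg A.mul (A.mul b a) c =
        A.mul (tw A.dg A.dg A.mul b c) a) ?_ ?_ ?_ b
      · intro x y hx hy
        simp only [map_add, LinearMap.add_apply, hx, hy]
      · intro b hb
        have h : A.dg.o (A.mul b a) = 0 := by rw [A.o_mul, ha, hb]; simp
        rw [tw_even h, tw_even hb, A.mul_assoc]
      · intro b hb
        have h : A.dg.o (A.mul b a) = A.mul b a := by rw [A.o_mul, ha, hb]; simp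
        rw [tw_odd h, tw_odd hb, A.mul_assoc]
    · intro a ha
      rw [tw_odd ha, tw_odd ha]
      refine A.dg.parity_ind (P := fun b => tw A.dg A.dg A.mul (A.mul (A.dg.s b) a) c =
        A.mul (A.dg.s (tw A.dg A.dg A.mul b c)) a) ?_ ?_ ?_ b
      · intro x y hx hy
        simp only [map_add, LinearMap.add_apply, hx, hy]
      · intro b hb
        have h : A.dg.o (A.mul (A.dg.s b) a) = A.mul (A.dg.s b) a := by
          rw [Dg.s_of_even hb, A.o_mul, ha, hb]; simp
        rw [tw_odd h, tw_even hb, A.s_mul, A.mul_assoc]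
      · intro b hb
        have h : A.dg.o (A.mul (A.dg.s b) a) = 0 := by
          rw [Dg.s_of_odd hb, map_neg, LinearMap.neg_apply, map_neg, A.o_mul, ha, hb, two_smul]
          simp
        rw [tw_even h, tw_odd hb, A.s_mul, Dg.s_s, A.mul_assoc]
  one_deg := A.one_deg
  mul_deg := fun ha hb => tw_deg (fun h h' => A.mul_deg h h') ha hb
  leibniz := fun a b => tw_d A.leibniz a b

section bend

variable (M : Bim A B)

/-- The action `m(a ⊗ b) = (-1)^(|a||m|) amb`, as a function of `a ⊗ b` and `m`. -/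
noncomputable def hhr : A.A ⊗[k] B.A →ₗ[k] M.M →ₗ[k] M.M :=
  TensorProduct.lift ((LinearMap.llcomp k M.M M.M M.M).flip.compl₁₂ (tw A.dg M.dg M.l).flip M.r)

/-- The action `(a ⊗ b)m = (-1)^(|b||m|) amb`, as a function of `a ⊗ b` and `m`. -/
noncomputable def eel : A.A ⊗[k] B.A →ₗ[k] M.M →ₗ[k] M.M :=
  TensorProduct.lift ((LinearMap.llcomp k M.M M.M M.M).compl₁₂ M.l (tw M.dg B.dg M.rr))

variable {M}

theorem hhr_tmul (a : A.A) (b : B.A) (m : M.M) :
    hhr M (a ⊗ₜ b) m = M.r b (M.l a m) - (2 : k) • M.r b (M.l (A.dg.o a) (M.dg.o m)) := by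
  simp [hhr, tw_apply]

theorem eel_tmul (a : A.A) (b : B.A) (m : M.M) :
    eel M (a ⊗ₜ b) m = M.l a (M.r b m) - (2 : k) • M.l a (M.r (B.dg.o b) (M.dg.o m)) := by
  simp [eel, tw_apply, Bim.rr]

theorem hhr_even {a : A.A} (ha : A.dg.o a = 0) (b : B.A) (m : M.M) :
    hhr M (a ⊗ₜ b) m = M.r b (M.l a m) := by
  rw [hhr_tmul, ha]
  simp

theorem hhr_odd {a : A.A} (ha : A.dg.o a = a) (b : B.A) (m : M.M) :
    hhr M (a ⊗ₜ b) m = M.r b (M.l a (M.dg.s m)) := by
  rw [hhr_tmul, ha, Dg.s_apply]
  simp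

theorem eel_even {b : B.A} (hb : B.dg.o b = 0) (a : A.A) (m : M.M) :
    eel M (a ⊗ₜ b) m = M.l a (M.r b m) := by
  rw [eel_tmul, hb]
  simp

theorem eel_odd {b : B.A} (hb : B.dg.o b = b) (a : A.A) (m : M.M) :
    eel M (a ⊗ₜ b) m = M.l a (M.r b (M.dg.s m)) := by
  rw [eel_tmul, hb, Dg.s_apply]
  simp

theorem hhr_mul (x y : A.A ⊗[k] B.A) (m : M.M) :
    hhr M (kz A.dg B.dg (tw A.dg A.dg A.mul) B.mul x y) m = hhr M y (hhr M x m) := by
  induction x using TensorProduct.induction_on with
  | zero => simp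
  | add x x' hx hx' => simp only [map_add, LinearMap.add_apply, hx, hx']
  | tmul a b =>
    induction y using TensorProduct.induction_on with
    | zero => simp
    | add y y' hy hy' => simp only [map_add, LinearMap.add_apply, hy, hy']
    | tmul a' b' =>
      refine A.dg.parity_ind (P := fun a =>
        hhr M (kz A.dg B.dg (tw A.dg A.dg A.mul) B.mul (a ⊗ₜ b) (a' ⊗ₜ b')) m =
          hhr M (a' ⊗ₜ b') (hhr M (a ⊗ₜ b) m)) ?_ ?_ ?_ a
      · intro x y hx hy
        simp only [TensorProduct.add_tmul, map_add, LinearMap.add_apply, hx, hy]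
      · intro a ha
        rw [hhr_even ha]
        refine A.dg.parity_ind (P := fun a' =>
          hhr M (kz A.dg B.dg (tw A.dg A.dg A.mul) B.mul (a ⊗ₜ b) (a' ⊗ₜ b')) m =
            hhr M (a' ⊗ₜ b') (M.r b (M.l a m))) ?_ ?_ ?_ a'
        · intro x y hx hy
          simp only [TensorProduct.add_tmul, map_add, LinearMap.add_apply, hx, hy]
        · intro a' ha'
          have h : A.dg.o (A.mul a' a) = 0 := by rw [A.o_mul, ha, ha']; simp
          rw [kz_even' ha', tw_even' ha', hhr_even h, hhr_even ha', M.r_mul, M.l_mul, M.l_r a' b]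
        · intro a' ha'
          have h : A.dg.o (A.mul a' (A.dg.s a)) = A.mul a' (A.dg.s a) := by
            rw [Dg.s_of_even ha, A.o_mul, ha, ha']; simp
          rw [kz_odd' ha', tw_odd' ha', hhr_odd h, hhr_odd ha', M.r_mul, M.l_mul, M.s_r, M.s_l,
            M.l_r a']
      · intro a ha
        rw [hhr_odd ha]
        refine A.dg.parity_ind (P := fun a' =>
          hhr M (kz A.dg B.dg (tw A.dg A.dg A.mul) B.mul (a ⊗ₜ b) (a' ⊗ₜ b')) m =
            hhr M (a' ⊗ₜ b') (M.r b (M.l a (M.dg.s m)))) ?_ ?_ ?_ a'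
        · intro x y hx hy
          simp only [TensorProduct.add_tmul, map_add, LinearMap.add_apply, hx, hy]
        · intro a' ha'
          have h : A.dg.o (A.mul a' a) = A.mul a' a := by rw [A.o_mul, ha, ha']; simp
          rw [kz_even' ha', tw_even' ha', hhr_odd h, hhr_even ha', M.r_mul, M.l_mul, M.l_r a' b]
        · intro a' ha'
          have h : A.dg.o (A.mul a' (A.dg.s a)) = 0 := by
            rw [Dg.s_of_odd ha, map_neg, map_neg, A.o_mul, ha, ha', two_smul]; simp
          rw [kz_odd' ha', tw_odd' ha', hhr_even h, hhr_odd ha', M.r_mul, M.l_mul, M.s_r, M.s_l,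
            M.l_r a', Dg.s_s]

theorem eel_mul (x y : A.A ⊗[k] B.A) (m : M.M) :
    eel M (kz A.dg B.dg A.mul (tw B.dg B.dg B.mul) x y) m = eel M x (eel M y m) := by
  induction x using TensorProduct.induction_on with
  | zero => simp
  | add x x' hx hx' => simp only [map_add, LinearMap.add_apply, hx, hx']
  | tmul a b =>
    induction y using TensorProduct.induction_on with
    | zero => simp
    | add y y' hy hy' => simp only [map_add, LinearMap.add_apply, hy, hy']
    | tmul a' b' =>
      refine B.dg.parity_ind (P := fun b =>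
        eel M (kz A.dg B.dg A.mul (tw B.dg B.dg B.mul) (a ⊗ₜ b) (a' ⊗ₜ b')) m =
          eel M (a ⊗ₜ b) (eel M (a' ⊗ₜ b') m)) ?_ ?_ ?_ b
      · intro x y hx hy
        simp only [TensorProduct.tmul_add, map_add, LinearMap.add_apply, hx, hy]
      · intro b hb
        rw [eel_even hb]
        refine B.dg.parity_ind (P := fun b' =>
          eel M (kz A.dg B.dg A.mul (tw B.dg B.dg B.mul) (a ⊗ₜ b) (a' ⊗ₜ b')) m =
            M.l a (M.r b (eel M (a' ⊗ₜ b') m))) ?_ ?_ ?_ b'
        · intro x y hx hy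
          simp only [TensorProduct.tmul_add, map_add, LinearMap.add_apply, hx, hy]
        · intro b' hb'
          have h : B.dg.o (B.mul b' b) = 0 := by rw [B.o_mul, hb, hb']; simp
          rw [kz_even hb, tw_even hb, eel_even h, eel_even hb', M.r_mul, M.l_mul, M.l_r a' b,
            M.l_r a' b']
        · intro b' hb'
          have h : B.dg.o (B.mul b' b) = B.mul b' b := by rw [B.o_mul, hb, hb']; simp
          rw [kz_even hb, tw_even hb, eel_odd h, eel_odd hb', M.r_mul, M.l_mul, M.l_r a' b,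
            M.l_r a' b']
      · intro b hb
        rw [eel_odd hb]
        refine B.dg.parity_ind (P := fun b' =>
          eel M (kz A.dg B.dg A.mul (tw B.dg B.dg B.mul) (a ⊗ₜ b) (a' ⊗ₜ b')) m =
            M.l a (M.r b (M.dg.s (eel M (a' ⊗ₜ b') m)))) ?_ ?_ ?_ b'
        · intro x y hx hy
          simp only [TensorProduct.tmul_add, map_add, LinearMap.add_apply, hx, hy]
        · intro b' hb'
          have h : B.dg.o (B.mul (B.dg.s b') b) = B.mul (B.dg.s b') b := by
            rw [Dg.s_of_even hb', B.o_mul, hb, hb']; simp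
          rw [kz_odd hb, tw_odd hb, eel_odd h, eel_even hb', M.r_mul, M.l_mul, M.s_l, M.s_r,
            M.l_r (A.dg.s a') b, M.l_r (A.dg.s a')]
        · intro b' hb'
          have h : B.dg.o (B.mul (B.dg.s b') b) = 0 := by
            rw [Dg.s_of_odd hb', map_neg, LinearMap.neg_apply, map_neg, B.o_mul, hb, hb',
              two_smul]
            simp
          rw [kz_odd hb, tw_odd hb, eel_even h, eel_odd hb', M.r_mul, M.l_mul, M.s_l, M.s_r,
            Dg.s_s, M.l_r (A.dg.s a') b, M.l_r (A.dg.s a')]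

theorem hhr_deg {i j : ℤ} {x : A.A ⊗[k] B.A} {m : M.M} (hx : (A.dg.tensor B.dg).IsDeg i x)
    (hm : M.dg.IsDeg j m) : M.dg.IsDeg (i + j) (hhr M x m) := by
  have h := Dg.tensor_degMap (X := A.dg) (Y := B.dg) (Z := M.dg) (n := j) ((hhr M).flip m)
    (fun p q a b ha hb => by
      rw [LinearMap.flip_apply, hhr_tmul]
      have h1 := M.r_deg (M.l_deg ha hm) hb
      have h2 := M.r_deg (M.l_deg ha.o hm.o) hb
      rw [show p + q + j = p + j + q by ring]
      exact h1.sub (h2.smul _)) hx
  rwa [LinearMap.flip_apply] at h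

theorem eel_deg {i j : ℤ} {x : A.A ⊗[k] B.A} {m : M.M} (hx : (A.dg.tensor B.dg).IsDeg i x)
    (hm : M.dg.IsDeg j m) : M.dg.IsDeg (i + j) (eel M x m) := by
  have h := Dg.tensor_degMap (X := A.dg) (Y := B.dg) (Z := M.dg) (n := j) ((eel M).flip m)
    (fun p q a b ha hb => by
      rw [LinearMap.flip_apply, eel_tmul]
      have h1 := M.l_deg ha (M.r_deg hm hb)
      have h2 := M.l_deg ha (M.r_deg hm.o hb.o)
      rw [show p + q + j = p + (j + q) by ring]
      exact h1.sub (h2.smul _)) hx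
  rwa [LinearMap.flip_apply] at h

theorem hhr_d (x : A.A ⊗[k] B.A) (m : M.M) :
    M.dg.d (hhr M x m) = hhr M x (M.dg.d m) + hhr M ((A.dg.tensor B.dg).d x) (M.dg.s m) := by
  induction x using TensorProduct.induction_on with
  | zero => simp
  | add x x' hx hx' =>
    simp only [map_add, LinearMap.add_apply, hx, hx']
    abel
  | tmul a b =>
    refine A.dg.parity_ind (P := fun a => M.dg.d (hhr M (a ⊗ₜ b) m) =
      hhr M (a ⊗ₜ b) (M.dg.d m) + hhr M ((A.dg.tensor B.dg).d (a ⊗ₜ b)) (M.dg.s m)) ?_ ?_ ?_ a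
    · intro x y hx hy
      simp only [TensorProduct.add_tmul, map_add, LinearMap.add_apply, hx, hy]
      abel
    · intro a ha
      have h1 : A.dg.o (A.dg.d a) = A.dg.d a := by rw [Dg.o_d, ha, map_zero, sub_zero]
      rw [Dg.tensor_d, map_add, LinearMap.add_apply, hhr_even ha, hhr_even ha, hhr_odd h1,
        Dg.s_of_even ha, hhr_even ha, M.d_r, M.d_l, M.s_l, Dg.s_s, Dg.s_of_even ha, map_add]
      abel
    · intro a ha
      have h1 : A.dg.o (A.dg.d a) = 0 := by rw [Dg.o_d, ha, sub_self]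
      rw [Dg.tensor_d, map_add, LinearMap.add_apply, hhr_odd ha, hhr_odd ha, hhr_even h1,
        Dg.s_of_odd ha, TensorProduct.neg_tmul, map_neg, LinearMap.neg_apply, hhr_odd ha, M.d_r,
        M.d_l, M.s_l, Dg.s_s, Dg.s_of_odd ha, map_add, Dg.s_d, map_neg, LinearMap.neg_apply,
        LinearMap.neg_apply, map_neg, map_neg, map_neg]
      simp only [map_neg, neg_neg, LinearMap.neg_apply]
      abel

theorem eel_d (x : A.A ⊗[k] B.A) (m : M.M) :
    M.dg.d (eel M x m) = eel M ((A.dg.tensor B.dg).d x) m +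
      eel M ((A.dg.tensor B.dg).s x) (M.dg.d m) := by
  induction x using TensorProduct.induction_on with
  | zero => simp
  | add x x' hx hx' =>
    simp only [map_add, LinearMap.add_apply, hx, hx']
    abel
  | tmul a b =>
    refine B.dg.parity_ind (P := fun b => M.dg.d (eel M (a ⊗ₜ b) m) =
      eel M ((A.dg.tensor B.dg).d (a ⊗ₜ b)) m +
        eel M ((A.dg.tensor B.dg).s (a ⊗ₜ b)) (M.dg.d m)) ?_ ?_ ?_ b
    · intro x y hx hy
      simp only [TensorProduct.tmul_add, map_add, LinearMap.add_apply, hx, hy]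
      abel
    · intro b hb
      have h1 : B.dg.o (B.dg.d b) = B.dg.d b := by rw [Dg.o_d, hb, map_zero, sub_zero]
      rw [Dg.tensor_d, Dg.tensor_s, map_add, LinearMap.add_apply, eel_even hb, eel_even hb,
        eel_odd h1, Dg.s_of_even hb, eel_even hb, M.d_l, M.d_r, map_add]
      abel
    · intro b hb
      have h1 : B.dg.o (B.dg.d b) = 0 := by rw [Dg.o_d, hb, sub_self]
      rw [Dg.tensor_d, Dg.tensor_s, map_add, LinearMap.add_apply, eel_odd hb, eel_odd hb,
        eel_even h1, Dg.s_of_odd hb, TensorProduct.tmul_neg, map_neg, LinearMap.neg_apply,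
        eel_odd hb, M.d_l, M.d_r, map_add, Dg.s_s, Dg.s_d, map_neg, map_neg]
      abel

theorem base_smul_deg {V : Type u} [AddCommGroup V] [Module k V] (X : Dg k V) {i j : ℤ}
    {c : k} {v : V} (hc : (base k).dg.IsDeg i c) (hv : X.IsDeg j v) :
    X.IsDeg (i + j) (c • v) := by
  rcases base_deg_cases hc with hi | ha
  · rw [hi, zero_add]
    exact hv.smul c
  · rw [ha, zero_smul]
    exact Dg.IsDeg.zero _

theorem hhr_smul (c : k) (x : A.A ⊗[k] B.A) (m : M.M) : c • hhr M x m = hhr M x (c • m) :=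
  (LinearMap.map_smul (hhr M x) c m).symm

theorem eel_smul (x : A.A ⊗[k] B.A) (c : k) (m : M.M) : eel M x (c • m) = c • eel M x m :=
  LinearMap.map_smul (eel M x) c m

variable (M)

/-- `M` as a right module over `Aᵒᵖ ⊗ B`: `m(a ⊗ b) = (-1)^(|a||m|) amb`. -/
noncomputable def HH : Bim (base k) (A.op.tensor B) where
  M := M.M
  dg := M.dg
  l := LinearMap.lsmul k M.M
  r := hhr M
  l_one := fun m => one_smul k m
  r_one := fun m => by
    have h : hhr M (A.one ⊗ₜ B.one) m = m := by
      rw [hhr_even A.o_one, M.l_one, M.r_one]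
    exact h
  l_mul := fun (a a' : k) m => mul_smul a a' m
  r_mul := fun x y m => hhr_mul (M := M) x y m
  l_r := fun a x m => hhr_smul (M := M) a x m
  l_deg := fun ha hm => base_smul_deg M.dg ha hm
  r_deg := fun {i j x m} hm hx => by
    rw [add_comm]
    exact hhr_deg (M := M) hx hm
  d_l := fun (a : k) m => by
    have h : M.dg.d (a • m) = (0 : k) • m + a • M.dg.d m := by
      rw [map_smul, zero_smul, zero_add]
    have h1 : (base k).dg.s a = a := base_s a
    rw [h1]
    exact h
  d_r := fun x m => hhr_d (M := M) x m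

/-- `M` as a left module over `A ⊗ Bᵒᵖ`: `(a ⊗ b)m = (-1)^(|b||m|) amb`. -/
noncomputable def EE : Bim (A.tensor B.op) (base k) where
  M := M.M
  dg := M.dg
  l := eel M
  r := LinearMap.lsmul k M.M
  l_one := fun m => by
    have h : eel M (A.one ⊗ₜ B.one) m = m := by
      rw [eel_even B.o_one, M.r_one, M.l_one]
    exact h
  r_one := fun m => one_smul k m
  l_mul := fun x y m => eel_mul (M := M) x y m
  r_mul := fun (a a' : k) m => by
    change (a * a') • m = a' • a • m
    rw [mul_comm, mul_smul]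
  l_r := fun x a m => eel_smul (M := M) x a m
  l_deg := fun hx hm => eel_deg (M := M) hx hm
  r_deg := fun hm ha => by
    rw [add_comm]
    exact base_smul_deg M.dg ha hm
  d_l := fun x m => eel_d (M := M) x m
  d_r := fun (a : k) m => by
    change M.dg.d (a • m) = a • M.dg.d m + (0 : k) • M.dg.s m
    rw [map_smul, zero_smul, add_zero]

end bend

end Pool.Agent.MP_6e5bed_ag_NC
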