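import Pool.Agent.Lib.MP_6e5bed_ag_NC.GMap

set_option autoImplicit false

/-!
# Shifts and cones
-/

namespace Pool.Agent.MP_6e5bed_ag_NC

universe u

namespace Dg

variable {k : Type u} [CommRing k] {V W : Type u} [AddCommGroup V] [Module k V]
  [AddCommGroup W] [Module k W] (X : Dg k V) (Y : Dg k W)

/-- The shifted complex: degree `i` of `X.shift n` is degree `i + n` of `X`; the differential is
multiplied with `(-1)^n`. -/
noncomputable def shift (n : ℤ) : Dg k V where
  ρ := (Finsupp.domLCongr (Equiv.subRight n)).toLinearMap ∘ₗ X.ρ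
  sum_ρ := fun v => by
    rw [LinearMap.comp_apply, LinearEquiv.coe_coe, Finsupp.domLCongr_apply,
      Finsupp.domCongr_apply, Finsupp.equivMapDomain_eq_mapDomain,
      Finsupp.sum_mapDomain_index (fun _ => rfl) (fun _ _ _ => rfl), X.sum_ρ]
  ρ_ρ := fun v i => by
    simp only [LinearMap.comp_apply, LinearEquiv.coe_coe, Finsupp.domLCongr_apply,
      Finsupp.domCongr_apply, Finsupp.equivMapDomain_apply, X.ρ_ρ,
      Finsupp.equivMapDomain_single, Equiv.apply_symm_apply]
  d := sg n • X.d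
  d_d := fun v => by
    rw [LinearMap.smul_apply, LinearMap.smul_apply, map_zsmul, X.d_d, smul_zero, smul_zero]
  ρ_d := fun v i => by
    simp only [LinearMap.comp_apply, LinearEquiv.coe_coe, Finsupp.domLCongr_apply,
      Finsupp.domCongr_apply, Finsupp.equivMapDomain_apply, LinearMap.smul_apply, map_zsmul,
      Finsupp.smul_apply, Equiv.subRight_symm_apply]
    rw [add_right_comm, X.ρ_d]

theorem shift_d (n : ℤ) (v : V) : (X.shift n).d v = sg n • X.d v := rfl

theorem shift_ρ (n : ℤ) (v : V) (i : ℤ) : (X.shift n).ρ v i = X.ρ v (i + n) := by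
  simp only [shift, LinearMap.comp_apply, LinearEquiv.coe_coe, Finsupp.domLCongr_apply,
      Finsupp.domCongr_apply, Finsupp.equivMapDomain_apply, Equiv.subRight_symm_apply]

theorem shift_deg {n i : ℤ} {v : V} : (X.shift n).IsDeg i v ↔ X.IsDeg (i + n) v := by
  unfold IsDeg
  constructor
  · intro h
    ext j
    have h1 := X.shift_ρ n v (j - n)
    rw [sub_add_cancel] at h1
    rw [← h1, h, Finsupp.single_apply, Finsupp.single_apply]
    by_cases hj : i = j - n
    · rw [if_pos hj, if_pos (by omega)]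
    · rw [if_neg hj, if_neg (by omega)]
  · intro h
    ext j
    rw [shift_ρ, h, Finsupp.single_apply, Finsupp.single_apply]
    by_cases hj : i = j
    · rw [if_pos hj, if_pos (by omega)]
    · rw [if_neg hj, if_neg (by omega)]

theorem shift_s (n : ℤ) (v : V) : (X.shift n).s v = sg n • X.s v := by
  have h : (X.shift n).s = sg n • X.s := X.hom_ext (fun i v hv => by
    have h1 : (X.shift n).IsDeg (i - n) v := by
      rw [shift_deg, sub_add_cancel]
      exact hv
    have h2 := sp_of_deg 1 h1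
    have h3 := sp_of_deg 1 hv
    rw [sp_one] at h2 h3
    rw [h2, LinearMap.smul_apply, h3, smul_smul, one_mul, one_mul, sg_sub, mul_comm])
  rw [h, LinearMap.smul_apply]

theorem shift_sp (n m : ℤ) (v : V) : (X.shift n).sp m v = sg (n * m) • X.sp m v := by
  rcases Int.even_or_odd m with h | h
  · rw [sp_even h, sp_even h, sg_even (h.mul_left n), one_smul]
  · rw [sp_odd h, sp_odd h, shift_s]
    rcases Int.even_or_odd n with h' | h'
    · rw [sg_even h', sg_even (h'.mul_right m)]
    · rw [sg_odd h', sg_odd (h'.mul h)]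

/-- The product of two complexes, with the differential `d(v, w) = (dv, δv + dw)`. -/
noncomputable def prod (δ : V →ₗ[k] W) (hδ : ∀ v, Y.d (δ v) = - δ (X.d v))
    (hδ' : ∀ {i v}, X.IsDeg i v → Y.IsDeg (i + 1) (δ v)) : Dg k (V × W) where
  ρ := (Finsupp.mapRange.linearMap (LinearMap.inl k V W)) ∘ₗ X.ρ ∘ₗ LinearMap.fst k V W +
    (Finsupp.mapRange.linearMap (LinearMap.inr k V W)) ∘ₗ Y.ρ ∘ₗ LinearMap.snd k V W
  sum_ρ := fun v => by
    simp only [LinearMap.add_apply, LinearMap.comp_apply, LinearMap.fst_apply,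
      LinearMap.snd_apply]
    rw [Finsupp.sum_add_index' (fun _ => rfl) (fun _ _ _ => rfl),
      Finsupp.mapRange.linearMap_apply, Finsupp.mapRange.linearMap_apply,
      Finsupp.sum_mapRange_index (fun _ => rfl), Finsupp.sum_mapRange_index (fun _ => rfl)]
    have h1 : (X.ρ v.1).sum (fun _ w => LinearMap.inl k V W w) = LinearMap.inl k V W v.1 := by
      conv_rhs => rw [← X.sum_ρ v.1]
      rw [Finsupp.sum, Finsupp.sum, map_sum]
    have h2 : (Y.ρ v.2).sum (fun _ w => LinearMap.inr k V W w) = LinearMap.inr k V W v.2 := by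
      conv_rhs => rw [← Y.sum_ρ v.2]
      rw [Finsupp.sum, Finsupp.sum, map_sum]
    rw [h1, h2]
    simp
  ρ_ρ := fun v i => by
    simp only [LinearMap.add_apply, LinearMap.comp_apply, LinearMap.fst_apply,
      LinearMap.snd_apply, Finsupp.add_apply, Finsupp.mapRange.linearMap_apply,
      Finsupp.mapRange_apply, LinearMap.inl_apply, LinearMap.inr_apply, Prod.fst_add,
      Prod.snd_add, add_zero, zero_add, X.ρ_ρ, Y.ρ_ρ, Finsupp.mapRange_single,
      ← Finsupp.single_add]
  d := (X.d ∘ₗ LinearMap.fst k V W).prod (δ ∘ₗ LinearMap.fst k V W + Y.d ∘ₗ LinearMap.snd k V W)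
  d_d := fun v => by
    change (X.d (X.d v.1), δ (X.d v.1) + Y.d (δ v.1 + Y.d v.2)) = 0
    rw [X.d_d, map_add, hδ, Y.d_d, add_zero, add_neg_cancel]
    rfl
  ρ_d := fun v i => by
    have h := (degMap_iff (X := X) (Y := Y) δ).1 (fun j v hv => hδ' hv)
    change (X.ρ (X.d v.1) (i + 1), (0 : W)) + ((0 : V), Y.ρ (δ v.1 + Y.d v.2) (i + 1)) =
      (X.d (X.ρ v.1 i + 0), δ (X.ρ v.1 i + 0) + Y.d (0 + Y.ρ v.2 i))
    rw [X.ρ_d, Y.ρ.map_add, Finsupp.add_apply, h, Y.ρ_d, add_zero, zero_add, Prod.mk_add_mk,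
      add_zero, zero_add]

variable {X Y}

theorem prod_deg {δ : V →ₗ[k] W} {hδ : ∀ v, Y.d (δ v) = - δ (X.d v)}
    {hδ' : ∀ {i v}, X.IsDeg i v → Y.IsDeg (i + 1) (δ v)} {i : ℤ} {v : V} {w : W} :
    (X.prod Y δ hδ hδ').IsDeg i (v, w) ↔ X.IsDeg i v ∧ Y.IsDeg i w := by
  unfold IsDeg
  constructor
  · intro h
    constructor
    · ext j
      have h1 := DFunLike.congr_fun h j
      simp only [prod, LinearMap.add_apply, LinearMap.comp_apply, LinearMap.fst_apply,
        LinearMap.snd_apply, Finsupp.add_apply, Finsupp.mapRange.linearMap_apply,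
        Finsupp.mapRange_apply, LinearMap.inl_apply, LinearMap.inr_apply] at h1
      have h2 := congrArg Prod.fst h1
      rw [Finsupp.single_apply] at h2 ⊢
      split_ifs at h2 ⊢ with hij <;> simpa using h2
    · ext j
      have h1 := DFunLike.congr_fun h j
      simp only [prod, LinearMap.add_apply, LinearMap.comp_apply, LinearMap.fst_apply,
        LinearMap.snd_apply, Finsupp.add_apply, Finsupp.mapRange.linearMap_apply,
        Finsupp.mapRange_apply, LinearMap.inl_apply, LinearMap.inr_apply] at h1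
      have h2 := congrArg Prod.snd h1
      rw [Finsupp.single_apply] at h2 ⊢
      split_ifs at h2 ⊢ with hij <;> simpa using h2
  · rintro ⟨h1, h2⟩
    simp only [prod, LinearMap.add_apply, LinearMap.comp_apply, LinearMap.fst_apply,
        LinearMap.snd_apply, h1, h2, Finsupp.mapRange.linearMap_apply,
        Finsupp.mapRange_single, ← Finsupp.single_add, LinearMap.inl_apply,
        LinearMap.inr_apply, Prod.mk_add_mk, add_zero, zero_add]

theorem prod_d {δ : V →ₗ[k] W} {hδ : ∀ v, Y.d (δ v) = - δ (X.d v)}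
    {hδ' : ∀ {i v}, X.IsDeg i v → Y.IsDeg (i + 1) (δ v)} (v : V) (w : W) :
    (X.prod Y δ hδ hδ').d (v, w) = (X.d v, δ v + Y.d w) := rfl

theorem prod_s {δ : V →ₗ[k] W} {hδ : ∀ v, Y.d (δ v) = - δ (X.d v)}
    {hδ' : ∀ {i v}, X.IsDeg i v → Y.IsDeg (i + 1) (δ v)} (v : V) (w : W) :
    (X.prod Y δ hδ hδ').s (v, w) = (X.s v, Y.s w) := by
  have h1 := s_degMap_even (X := X) (Y := X.prod Y δ hδ hδ') (n := 0) Even.zero
    (LinearMap.inl k V W) (fun {j v} h => by
      rw [add_zero, LinearMap.inl_apply, prod_deg]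
      exact ⟨h, IsDeg.zero j⟩) v
  have h2 := s_degMap_even (X := Y) (Y := X.prod Y δ hδ hδ') (n := 0) Even.zero
    (LinearMap.inr k V W) (fun {j v} h => by
      rw [add_zero, LinearMap.inr_apply, prod_deg]
      exact ⟨IsDeg.zero j, h⟩) w
  rw [LinearMap.inl_apply, LinearMap.inl_apply] at h1
  rw [LinearMap.inr_apply, LinearMap.inr_apply] at h2
  have h3 : ((v, w) : V × W) = (v, 0) + (0, w) := by simp
  rw [h3, map_add, h1, h2]
  simp

end Dg

variable {k : Type u} [CommRing k] {A B : DGA k}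

/-- The shifted bimodule: degree `i` of `M.shift n` is degree `i + n` of `M`; the differential
is multiplied with `(-1)^n`, and the left action of `a` with `(-1)^(n|a|)`. -/
noncomputable def Bim.shift (M : Bim A B) (n : ℤ) : Bim A B where
  M := M.M
  dg := M.dg.shift n
  l := M.l ∘ₗ A.dg.sp n
  r := M.r
  l_one := fun m => by
    have h : A.dg.sp n A.one = A.one := by
      rw [Dg.sp_of_deg n A.one_deg, mul_zero, sg_zero, one_smul]
    rw [LinearMap.comp_apply, h, M.l_one]
  r_one := M.r_one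
  l_mul := fun a a' m => by
    have h : A.dg.sp n (A.mul a a') = A.mul (A.dg.sp n a) (A.dg.sp n a') := by
      rcases Int.even_or_odd n with h | h
      · rw [Dg.sp_even h, Dg.sp_even h, Dg.sp_even h]
      · rw [Dg.sp_odd h, Dg.sp_odd h, Dg.sp_odd h, A.s_mul]
    rw [LinearMap.comp_apply, LinearMap.comp_apply, LinearMap.comp_apply, h, M.l_mul]
  r_mul := M.r_mul
  l_r := fun a b m => by rw [LinearMap.comp_apply, M.l_r]
  l_deg := fun {i j a m} ha hm => by
    rw [Dg.shift_deg] at hm ⊢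
    rw [add_assoc]
    exact M.l_deg ha.sp hm
  r_deg := fun {i j b m} hm hb => by
    rw [Dg.shift_deg] at hm ⊢
    rw [add_right_comm]
    exact M.r_deg hm hb
  d_l := fun a m => by
    rw [LinearMap.comp_apply, LinearMap.comp_apply, LinearMap.comp_apply, Dg.shift_d,
      Dg.shift_d, M.d_l, Dg.d_sp, Dg.s_sp, smul_add, map_zsmul, map_zsmul, LinearMap.smul_apply,
      smul_smul, sg_mul_self, one_smul]
  d_r := fun b m => by
    rw [Dg.shift_d, Dg.shift_d, Dg.shift_s, M.d_r, smul_add, map_zsmul, map_zsmul]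

/-- The twisted direct sum of `X` and `Y` along a closed map `δ : X → Y` of degree `1`. -/
noncomputable def tsum {X Y : Bim A B} (δ : GMap 1 X Y) (hδ : δ.dd = 0) : Bim A B where
  M := X.M × Y.M
  dg := X.dg.prod Y.dg δ.f
    (fun v => by rw [GMap.d_f hδ, sg_one, neg_smul, one_smul]) (fun h => δ.deg h)
  l := LinearMap.mk₂ k (fun a (x : X.M × Y.M) => (X.l a x.1, Y.l a x.2))
    (fun a a' x => by simp) (fun c a x => by simp) (fun a x x' => by simp)
    (fun c a x => by simp)
  r := LinearMap.mk₂ k (fun a (x : X.M × Y.M) => (X.r a x.1, Y.r a x.2))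
    (fun a a' x => by simp) (fun c a x => by simp) (fun a x x' => by simp)
    (fun c a x => by simp)
  l_one := fun ⟨x, y⟩ => by simp [X.l_one, Y.l_one]
  r_one := fun ⟨x, y⟩ => by simp [X.r_one, Y.r_one]
  l_mul := fun a a' ⟨x, y⟩ => by simp [X.l_mul, Y.l_mul]
  r_mul := fun a a' ⟨x, y⟩ => by simp [X.r_mul, Y.r_mul]
  l_r := fun a b ⟨x, y⟩ => by simp [X.l_r, Y.l_r]
  l_deg := fun {i j a} => fun {m} ha hm => by
    obtain ⟨x, y⟩ := m
    rw [Dg.prod_deg] at hm
    exact Dg.prod_deg.2 ⟨X.l_deg ha hm.1, Y.l_deg ha hm.2⟩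
  r_deg := fun {i j a} => fun {m} hm ha => by
    obtain ⟨x, y⟩ := m
    rw [Dg.prod_deg] at hm
    exact Dg.prod_deg.2 ⟨X.r_deg hm.1 ha, Y.r_deg hm.2 ha⟩
  d_l := fun a ⟨x, y⟩ => by
    simp only [LinearMap.mk₂_apply, Dg.prod_d, X.d_l, Y.d_l, Prod.mk_add_mk, δ.map_l,
      Dg.sp_one, map_add]
    congr 1
    abel
  d_r := fun a ⟨x, y⟩ => by
    simp only [LinearMap.mk₂_apply, Dg.prod_d, Dg.prod_s, X.d_r, Y.d_r, Prod.mk_add_mk,
      δ.map_r, map_add]
    congr 1
    abel

section maps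

variable {M N : Bim A B} {n m : ℤ}

/-- The same map, with the source shifted. -/
def GMap.shiftSrc (φ : GMap n M N) (p : ℤ) (h : n + p = m) : GMap m (M.shift p) N where
  f := φ.f
  deg := fun {i x} hx => by
    have h1 := φ.deg ((M.dg.shift_deg).1 hx)
    rw [← h]
    rwa [add_assoc, add_comm p n] at h1
  map_l := fun a x => by
    change φ.f (M.l (A.dg.sp p a) x) = _
    rw [φ.map_l, ← h, Dg.sp_add]
    rfl
  map_r := φ.map_r

/-- The same map, with the target shifted. -/
def GMap.shiftTgt (φ : GMap n M N) (p : ℤ) (h : m + p = n) : GMap m M (N.shift p) where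
  f := φ.f
  deg := fun {i x} hx => by
    refine (N.dg.shift_deg).2 ?_
    rw [add_assoc, h]
    exact φ.deg hx
  map_l := fun a x => by
    have h1 : φ.f (M.l a x) = N.l (A.dg.sp p (A.dg.sp m a)) (φ.f x) := by
      rw [φ.map_l, ← Dg.sp_add, add_comm p m, h]
    exact h1
  map_r := φ.map_r

theorem GMap.shiftSrc_dd (φ : GMap n M N) (p : ℤ) (h : n + p = m) (x : M.M) :
    (φ.shiftSrc p h).dd x = φ.dd x := by
  have h1 : (φ.shiftSrc p h).dd x = N.dg.d (φ.f x) - sg m • φ.f (sg p • M.dg.d x) := rfl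
  rw [h1, GMap.dd_apply, map_zsmul, smul_smul, ← h, sg_add, mul_assoc, sg_mul_self, mul_one]

theorem GMap.shiftTgt_dd (φ : GMap n M N) (p : ℤ) (h : m + p = n) (x : M.M) :
    (φ.shiftTgt p h).dd x = sg p • φ.dd x := by
  have h1 : (φ.shiftTgt p h).dd x = sg p • N.dg.d (φ.f x) - sg m • φ.f (M.dg.d x) := rfl
  have h2 : sg m = sg p * sg n := by
    rw [← h, sg_add, mul_comm, mul_assoc, sg_mul_self, mul_one]
  rw [h1, GMap.dd_apply, h2, smul_sub, smul_smul]

/-- The cone of a closed morphism of degree `0`. -/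
noncomputable def cone (φ : GMap 0 M N) (h : φ.dd = 0) : Bim A B :=
  tsum (φ.shiftSrc 1 (zero_add 1)) (LinearMap.ext (fun x => by
    rw [GMap.shiftSrc_dd, h]
    rfl))

theorem cone_d {φ : GMap 0 M N} {h : φ.dd = 0} (x : M.M) (y : N.M) :
    (cone φ h).dg.d (x, y) = (- M.dg.d x, φ.f x + N.dg.d y) := by
  have h1 : (cone φ h).dg.d (x, y) = (sg 1 • M.dg.d x, φ.f x + N.dg.d y) := rfl
  rw [h1, sg_one, neg_smul, one_smul]

end maps

end Pool.Agent.MP_6e5bed_ag_NC
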