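import Pool.Agent.Lib.MP_6e5bed_ag_NC.Gr

set_option autoImplicit false

/-!
# Tensor products, products, quotients and shifts of complexes
-/

namespace Pool.Agent.MP_6e5bed_ag_NC

open scoped TensorProduct

universe u

namespace Dg

variable {k : Type u} [CommRing k] {V W : Type u} [AddCommGroup V] [Module k V]
  [AddCommGroup W] [Module k W] (X : Dg k V) (Y : Dg k W)

/-- The coaction of the tensor product. -/
noncomputable def tρ : V ⊗[k] W →ₗ[k] (ℤ →₀ V ⊗[k] W) :=
  (Finsupp.lmapDomain (V ⊗[k] W) k (fun p : ℤ × ℤ => p.1 + p.2)).comp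
    ((finsuppTensorFinsupp k k V W ℤ ℤ).toLinearMap.comp (TensorProduct.map X.ρ Y.ρ))

/-- The differential of the tensor product. -/
noncomputable def td : V ⊗[k] W →ₗ[k] V ⊗[k] W :=
  TensorProduct.map X.d LinearMap.id + TensorProduct.map X.s Y.d

variable {X Y}

theorem td_tmul (v : V) (w : W) : X.td Y (v ⊗ₜ w) = X.d v ⊗ₜ w + X.s v ⊗ₜ Y.d w := by
  simp [td]

theorem tρ_tmul {i j : ℤ} {v : V} {w : W} (hv : X.IsDeg i v) (hw : Y.IsDeg j w) :
    X.tρ Y (v ⊗ₜ w) = Finsupp.single (i + j) (v ⊗ₜ w) := by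
  have hv' : X.ρ v = Finsupp.single i v := hv
  have hw' : Y.ρ w = Finsupp.single j w := hw
  simp [tρ, hv', hw']

/-- An additive property of `V ⊗ W` follows from the case of pure tensors of homogeneous
elements. -/
theorem tind (X : Dg k V) (Y : Dg k W) {P : V ⊗[k] W → Prop} (h0 : P 0)
    (hadd : ∀ v w, P v → P w → P (v + w))
    (hdeg : ∀ i j v w, X.IsDeg i v → Y.IsDeg j w → P (v ⊗ₜ w)) (x : V ⊗[k] W) : P x := by
  induction x using TensorProduct.induction_on with
  | zero => exact h0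
  | add x y hx hy => exact hadd x y hx hy
  | tmul v w =>
    refine X.ind (P := fun v => P (v ⊗ₜ w)) (by simpa using h0) ?_ ?_ v
    · intro v v' h h'
      rw [TensorProduct.add_tmul]
      exact hadd _ _ h h'
    · intro i v hv
      refine Y.ind (P := fun w => P (v ⊗ₜ w)) (by simpa using h0) ?_ ?_ w
      · intro w w' h h'
        rw [TensorProduct.tmul_add]
        exact hadd _ _ h h'
      · intro j w hw
        exact hdeg i j v w hv hw

variable (X Y) in
/-- The tensor product of two complexes. -/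
noncomputable def tensor : Dg k (V ⊗[k] W) where
  ρ := X.tρ Y
  d := X.td Y
  sum_ρ := X.tind Y (by simp)
    (fun v w hv hw => by
      rw [map_add, Finsupp.sum_add_index' (fun _ => rfl) (fun _ _ _ => rfl), hv, hw])
    (fun i j v w hv hw => by rw [tρ_tmul hv hw, Finsupp.sum_single_index rfl])
  ρ_ρ := X.tind Y (by simp)
    (fun v w hv hw n => by
      rw [map_add, Finsupp.add_apply, map_add, hv, hw, Finsupp.single_add])
    (fun i j v w hv hw n => by
      rw [tρ_tmul hv hw]
      by_cases h : i + j = n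
      · subst h
        rw [Finsupp.single_eq_same, tρ_tmul hv hw]
      · have h' : ¬ i + j = n := h
        simp [h'])
  d_d := X.tind Y (by simp) (fun v w hv hw => by rw [map_add, map_add, hv, hw, add_zero])
    (fun i j v w hv hw => by
      rw [td_tmul, map_add, td_tmul, td_tmul, X.d_d, Y.d_d, s_d, TensorProduct.neg_tmul]
      simp)
  ρ_d := X.tind Y (by simp)
    (fun v w hv hw n => by
      rw [(X.td Y).map_add, (X.tρ Y).map_add, Finsupp.add_apply, hv, hw, (X.tρ Y).map_add,
        Finsupp.add_apply, (X.td Y).map_add])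
    (fun i j v w hv hw n => by
      rw [td_tmul, (X.tρ Y).map_add, tρ_tmul hv.d hw, tρ_tmul hv.s hw.d, tρ_tmul hv hw]
      have h1 : i + 1 + j = i + j + 1 := by ring
      have h2 : i + (j + 1) = i + j + 1 := by ring
      rw [h1, h2, ← Finsupp.single_add, ← td_tmul]
      by_cases h : i + j = n
      · subst h
        simp
      · have h' : ¬ i + j + 1 = n + 1 := fun h1 => h (by omega)
        simp [h])

theorem tensor_d (v : V) (w : W) :
    (X.tensor Y).d (v ⊗ₜ w) = X.d v ⊗ₜ w + X.s v ⊗ₜ Y.d w := td_tmul v w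

theorem tensor_deg {i j : ℤ} {v : V} {w : W} (hv : X.IsDeg i v) (hw : Y.IsDeg j w) :
    (X.tensor Y).IsDeg (i + j) (v ⊗ₜ w) := tρ_tmul hv hw

theorem tensor_s (v : V) (w : W) : (X.tensor Y).s (v ⊗ₜ w) = X.s v ⊗ₜ Y.s w :=
  s_bilin (TensorProduct.mk k V W) tensor_deg v w

theorem tensor_o (v : V) (w : W) :
    (X.tensor Y).o (v ⊗ₜ w) = X.o v ⊗ₜ w + v ⊗ₜ Y.o w - (2 : k) • X.o v ⊗ₜ Y.o w :=
  o_bilin (TensorProduct.mk k V W) tensor_deg v w

/-- A linear map on a tensor product is homogeneous if it is so on pure tensors. -/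
theorem tensor_degMap {U : Type u} [AddCommGroup U] [Module k U] {Z : Dg k U} {n : ℤ}
    (f : V ⊗[k] W →ₗ[k] U)
    (h : ∀ i j v w, X.IsDeg i v → Y.IsDeg j w → Z.IsDeg (i + j + n) (f (v ⊗ₜ w)))
    {j : ℤ} {x : V ⊗[k] W} (hx : (X.tensor Y).IsDeg j x) : Z.IsDeg (j + n) (f x) := by
  refine (degMap_iff f).2 ?_ j x hx
  refine X.tind Y (by simp) ?_ ?_
  · intro v w hv hw j
    rw [LinearMap.map_add, LinearMap.map_add, Finsupp.add_apply, hv, hw, LinearMap.map_add,
        Finsupp.add_apply, LinearMap.map_add]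
  · intro i j v w hv hw m
    have h1 : Z.ρ (f (v ⊗ₜ w)) = Finsupp.single (i + j + n) (f (v ⊗ₜ w)) := h i j v w hv hw
    have h2 : (X.tensor Y).ρ (v ⊗ₜ w) = Finsupp.single (i + j) (v ⊗ₜ w) := tensor_deg hv hw
    rw [h1, h2, Finsupp.single_apply, Finsupp.single_apply]
    by_cases hij : i + j = m
    · rw [if_pos hij, if_pos (by rw [hij])]
    · rw [if_neg hij, if_neg (fun h => hij (by omega)), map_zero]

end Dg

end Pool.Agent.MP_6e5bed_ag_NC
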